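import Pool.Agent.R121.Cyc321

set_option autoImplicit false

/-!
# 231-avoiding permutations with cycles of length at most 3: an upper bound
-/

namespace Pool.Agent.R121.Cyc231

open Finset Pool.Agent.R121 Pool.Agent.R121.Cyc321

/-- avoiding 231 -/
def Av {n : ℕ} (π : Equiv.Perm (Fin n)) : Prop :=
  ∀ x y z, x < y → y < z → z < n → ¬ (fn π z < fn π x ∧ fn π x < fn π y)

/-- cycles of length at most 3 -/
def Cy {n : ℕ} (π : Equiv.Perm (Fin n)) : Prop := ∀ x < n, c3 (fn π) x

open Classical in
/-- the permutations counted -/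
noncomputable def S (n : ℕ) : Finset (Equiv.Perm (Fin n)) := univ.filter fun π => Av π ∧ Cy π

open Classical in
/-- those starting with the largest entry -/
noncomputable def Ind (n : ℕ) : Finset (Equiv.Perm (Fin n)) :=
  (S n).filter fun π => 0 < n ∧ fn π 0 = n - 1

open Classical in
/-- those starting with the largest entry and not ending with the smallest -/
noncomputable def T (n : ℕ) : Finset (Equiv.Perm (Fin n)) :=
  (Ind n).filter fun π => fn π (n - 1) ≠ 0

lemma mem_S {n : ℕ} {π : Equiv.Perm (Fin n)} : π ∈ S n ↔ Av π ∧ Cy π := by simp [S]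

lemma mem_Ind {n : ℕ} {π : Equiv.Perm (Fin n)} : π ∈ Ind n ↔ (Av π ∧ Cy π) ∧ 0 < n ∧ fn π 0 = n - 1 := by
  simp [Ind, mem_S]

lemma mem_T {n : ℕ} {π : Equiv.Perm (Fin n)} :
    π ∈ T n ↔ ((Av π ∧ Cy π) ∧ 0 < n ∧ fn π 0 = n - 1) ∧ fn π (n - 1) ≠ 0 := by
  simp [T, mem_Ind]

lemma sub_exists {N n : ℕ} (e : ℕ → ℕ) (he : ∀ x < N, e x < n)
    (hm : ∀ x y, x < y → y < N → e x < e y) (π : Equiv.Perm (Fin n))
    (hinv : ∀ x < N, ∃ y < N, fn π (e x) = e y) :
    ∃ σ : Equiv.Perm (Fin N), ∀ x < N, e (fn σ x) = fn π (e x) := by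
  choose! F hF1 hF2 using hinv
  have hinj : ∀ x < N, ∀ y < N, F x = F y → x = y := by
    intro x hx y hy h
    have h1 : fn π (e x) = fn π (e y) := by rw [hF2 x hx, hF2 y hy, h]
    have h2 := fn_inj π _ (he x hx) _ (he y hy) h1
    rcases Nat.lt_trichotomy x y with h3 | h3 | h3
    · have := hm x y h3 hy; omega
    · exact h3
    · have := hm y x h3 hx; omega
  refine ⟨ofFn N F hF1 hinj, ?_⟩
  intro x hx
  rw [fn_ofFn hx]
  exact (hF2 x hx).symm

open Classical in
/-- the permutation induced on a set of places closed under `π` -/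
noncomputable def sub {n : ℕ} (N : ℕ) (e : ℕ → ℕ) (π : Equiv.Perm (Fin n)) : Equiv.Perm (Fin N) :=
  if h : ∃ σ : Equiv.Perm (Fin N), ∀ x < N, e (fn σ x) = fn π (e x) then h.choose else 1

lemma sub_spec {N n : ℕ} {e : ℕ → ℕ} {π : Equiv.Perm (Fin n)}
    (h : ∃ σ : Equiv.Perm (Fin N), ∀ x < N, e (fn σ x) = fn π (e x)) :
    ∀ x < N, e (fn (sub N e π) x) = fn π (e x) := by
  unfold sub
  rw [dif_pos h]
  exact h.choose_spec

lemma lt_of_e {N : ℕ} {e : ℕ → ℕ} (hm : ∀ x y, x < y → y < N → e x < e y) {a b : ℕ} (ha : a < N)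
    (h : e a < e b) : a < b := by
  by_contra h1
  rcases Nat.lt_or_ge b a with h2 | h2
  · have := hm b a h2 ha; omega
  · have : a = b := by omega
    subst this; omega

lemma inj_of_e {N : ℕ} {e : ℕ → ℕ} (hm : ∀ x y, x < y → y < N → e x < e y) {a b : ℕ} (ha : a < N)
    (hb : b < N) (h : e a = e b) : a = b := by
  rcases Nat.lt_trichotomy a b with h3 | h3 | h3
  · have := hm a b h3 hb; omega
  · exact h3
  · have := hm b a h3 ha; omega

lemma sub_mem {N n : ℕ} {e : ℕ → ℕ} {π : Equiv.Perm (Fin n)} {σ : Equiv.Perm (Fin N)}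
    (he : ∀ x < N, e x < n) (hm : ∀ x y, x < y → y < N → e x < e y)
    (hs : ∀ x < N, e (fn σ x) = fn π (e x)) (h : Av π ∧ Cy π) : Av σ ∧ Cy σ := by
  constructor
  · rintro x y z hxy hyz hz ⟨h1, h2⟩
    apply h.1 (e x) (e y) (e z) (hm x y hxy (by omega)) (hm y z hyz hz) (he z hz)
    rw [← hs x (by omega), ← hs y (by omega), ← hs z hz]
    exact ⟨hm _ _ h1 (fn_lt σ (by omega)), hm _ _ h2 (fn_lt σ (by omega))⟩
  · intro x hx
    have h1 := fn_lt σ hx
    have h2 := fn_lt σ h1
    have h3 := fn_lt σ h2
    have h4 := h.2 (e x) (he x hx)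
    unfold c3 at h4 ⊢
    rw [← hs x hx, ← hs _ h1, ← hs _ h2] at h4
    rcases h4 with h4 | h4 | h4
    · left; exact inj_of_e hm h1 hx h4
    · right; left; exact inj_of_e hm h2 hx h4
    · right; right; exact inj_of_e hm h3 hx h4

lemma onto_of_maps {n a b : ℕ} (π : Equiv.Perm (Fin n)) (hb : b ≤ n)
    (h : ∀ x, a ≤ x → x < b → a ≤ fn π x ∧ fn π x < b) :
    ∀ v, a ≤ v → v < b → ∃ x, a ≤ x ∧ x < b ∧ fn π x = v := by
  intro v h1 h2
  have h3 : (Finset.Ico a b).image (fn π) = Finset.Ico a b := by
    apply Finset.eq_of_subset_of_card_le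
    · intro y hy
      rw [mem_image] at hy
      obtain ⟨x, hx, rfl⟩ := hy
      rw [Finset.mem_Ico] at hx ⊢
      exact h x hx.1 hx.2
    · rw [Finset.card_image_of_injOn]
      intro x hx y hy hxy
      simp only [Finset.coe_Ico, Set.mem_Ico] at hx hy
      exact fn_inj π x (by omega) y (by omega) hxy
  have h4 : v ∈ (Finset.Ico a b).image (fn π) := by
    rw [h3, Finset.mem_Ico]; exact ⟨h1, h2⟩
  rw [mem_image] at h4
  obtain ⟨x, hx, he⟩ := h4
  rw [Finset.mem_Ico] at hx
  exact ⟨x, hx.1, hx.2, he⟩

lemma split_first {n : ℕ} {π : Equiv.Perm (Fin n)} (hA : Av π) (h0 : 0 < n) :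
    (∀ x ≤ fn π 0, fn π x ≤ fn π 0) ∧ ∀ y, fn π 0 < y → y < n → fn π 0 < fn π y := by
  set k := fn π 0 with hk
  have hkn : k < n := fn_lt π h0
  by_cases hB : ∀ y, k < y → y < n → k < fn π y
  · refine ⟨?_, hB⟩
    intro x hx
    by_contra h1
    obtain ⟨y, hy1, hy2, hy3⟩ := onto_of_maps π (le_refl n) (a := k + 1)
      (fun y hy1 hy2 => ⟨hB y hy1 hy2, fn_lt π hy2⟩) (fn π x) (by omega) (fn_lt π (by omega))
    have := fn_inj π y (by omega) x (by omega) hy3
    omega
  · exfalso
    push Not at hB
    obtain ⟨y, hy1, hy2, hy3⟩ := hB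
    have hne : fn π y ≠ k := by
      intro h
      have := fn_inj π y hy2 0 h0 h
      omega
    have hC : ∀ x, 0 ≤ x → x < k + 1 → 0 ≤ fn π x ∧ fn π x < k + 1 := by
      intro x _ hx
      refine ⟨by omega, ?_⟩
      by_contra h1
      have hx0 : x ≠ 0 := by rintro rfl; omega
      exact hA 0 x y (by omega) (by omega) hy2 ⟨by omega, by omega⟩
    obtain ⟨x, hx1, hx2, hx3⟩ := onto_of_maps π (show k + 1 ≤ n by omega) hC (fn π y) (by omega)
      (by omega)
    have := fn_inj π x (by omega) y hy2 hx3
    omega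

lemma card_S_le (n : ℕ) : (S (n + 1)).card ≤
    ∑ k ∈ range (n + 1), (Ind (k + 1)).card * (S (n - k)).card := by
  classical
  have h1 : (S (n + 1)).card = ∑ k ∈ range (n + 1), ((S (n + 1)).filter fun π => fn π 0 = k).card := by
    apply Finset.card_eq_sum_card_fiberwise
    intro π _
    simp only [coe_range, Set.mem_Iio]
    exact fn_lt π (by omega)
  rw [h1]
  apply sum_le_sum
  intro k hk
  rw [mem_range] at hk
  rw [← card_product]
  let f : Equiv.Perm (Fin (n + 1)) → Equiv.Perm (Fin (k + 1)) × Equiv.Perm (Fin (n - k)) :=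
    fun π => (sub (k + 1) id π, sub (n - k) (fun x => x + (k + 1)) π)
  have key : ∀ π ∈ (S (n + 1)).filter (fun π => fn π 0 = k),
      (∀ x < k + 1, fn (f π).1 x = fn π x) ∧
      (∀ x < n - k, fn (f π).2 x + (k + 1) = fn π (x + (k + 1))) := by
    intro π hπ
    rw [mem_filter, mem_S] at hπ
    obtain ⟨⟨hA, hC⟩, h0⟩ := hπ
    have hs := split_first hA (by omega)
    rw [h0] at hs
    constructor
    · have := sub_spec (sub_exists (N := k + 1) id (fun x hx => by simp only [id]; omega)
        (fun x y h _ => h) π (fun x hx => ⟨fn π x, by have := hs.1 x (by omega); omega, rfl⟩))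
      exact this
    · have := sub_spec (e := fun x => x + (k + 1)) (sub_exists (N := n - k) (fun x => x + (k + 1)) (fun x hx => by omega)
        (fun x y h _ => by omega) π (fun x hx => ⟨fn π (x + (k + 1)) - (k + 1), by
          have := hs.2 (x + (k + 1)) (by omega) (by omega)
          have := fn_lt π (show x + (k + 1) < n + 1 by omega)
          omega⟩))
      exact this
  apply Finset.card_le_card_of_injOn f
  · intro π hπ
    obtain ⟨k1, k2⟩ := key π hπ
    have hπ' := hπ
    rw [mem_coe, mem_filter, mem_S] at hπ'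
    obtain ⟨hAC, h0⟩ := hπ'
    rw [mem_coe, mem_product, mem_Ind, mem_S]
    refine ⟨⟨sub_mem (e := id) (fun x hx => by simp only [id]; omega) (fun x y h _ => h) k1 hAC,
      by omega, ?_⟩, sub_mem (e := fun x => x + (k + 1)) (fun x hx => by omega)
      (fun x y h _ => by omega) k2 hAC⟩
    rw [k1 0 (by omega), h0]
    omega
  · intro π hπ π' hπ' he
    obtain ⟨k1, k2⟩ := key π hπ
    obtain ⟨k1', k2'⟩ := key π' hπ'
    apply ext_of_fn
    intro i hi
    rcases Nat.lt_or_ge i (k + 1) with h | h
    · rw [← k1 i h, ← k1' i h, he]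
    · have e1 := k2 (i - (k + 1)) (by omega)
      have e2 := k2' (i - (k + 1)) (by omega)
      have e3 : i - (k + 1) + (k + 1) = i := by omega
      rw [e3] at e1 e2
      rw [← e1, ← e2, he]

lemma dec_eq {F : ℕ → ℕ} {t : ℕ} (h1 : ∀ x y, x < y → y < t → F y < F x) (h2 : ∀ x < t, F x < t) :
    ∀ x < t, F x = t - 1 - x := by
  have a1 : ∀ x, x < t → F x + x < t := by
    intro x
    induction x with
    | zero => intro h; have := h2 0 h; omega
    | succ x ih =>
      intro h
      have := h1 x (x + 1) (by omega) h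
      have := ih (by omega)
      omega
  have a2 : ∀ d, d < t → d ≤ F (t - 1 - d) := by
    intro d
    induction d with
    | zero => intro _; omega
    | succ d ih =>
      intro h
      have := h1 (t - 1 - (d + 1)) (t - 1 - d) (by omega) (by omega)
      have := ih (by omega)
      omega
  intro x hx
  have b1 := a1 x hx
  have b2 := a2 (t - 1 - x) (by omega)
  have b3 : t - 1 - (t - 1 - x) = x := by omega
  rw [b3] at b2
  omega

/-- ending with the smallest entry: decreasing -/
lemma eq_rev {n : ℕ} {π : Equiv.Perm (Fin n)} (hA : Av π) (h0 : fn π (n - 1) = 0) :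
    ∀ x < n, fn π x = n - 1 - x := by
  apply dec_eq
  · intro x y hxy hy
    by_contra h1
    have hne : fn π x ≠ fn π y := by
      intro h
      have := fn_inj π x (by omega) y hy h
      omega
    have hx0 : fn π x ≠ 0 := by
      intro h
      rw [← h0] at h
      have := fn_inj π x (by omega) (n - 1) (by omega) h
      omega
    rcases Nat.lt_or_ge y (n - 1) with h2 | h2
    · exact hA x y (n - 1) hxy h2 (by omega) ⟨by omega, by omega⟩
    · have : y = n - 1 := by omega
      subst this
      omega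
  · intro x hx
    exact fn_lt π hx

lemma card_Ind_le (n : ℕ) : (Ind n).card ≤ 1 + (T n).card := by
  classical
  have h := Finset.card_filter_add_card_filter_not (s := Ind n) (fun π => fn π (n - 1) = 0)
  rw [← h]
  apply Nat.add_le_add _ (le_of_eq rfl)
  rw [card_le_one]
  intro π hπ π' hπ'
  rw [mem_filter, mem_Ind] at hπ hπ'
  apply ext_of_fn
  intro i hi
  rw [eq_rev hπ.1.1.1 hπ.2 i hi, eq_rev hπ'.1.1.1 hπ'.2 i hi]

/-- the three-cycle through the ends -/
lemma three {n : ℕ} {π : Equiv.Perm (Fin n)} (h : π ∈ T n) :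
    0 < fn π (n - 1) ∧ fn π (n - 1) < n - 1 ∧ fn π (fn π (n - 1)) = 0 := by
  rw [mem_T] at h
  obtain ⟨⟨⟨hA, hC⟩, h0, h1⟩, h2⟩ := h
  have h3 := fn_lt π (show n - 1 < n by omega)
  have h4 : fn π (n - 1) ≠ n - 1 := by
    intro h
    have := fn_inj π (n - 1) (by omega) 0 h0 (by rw [h, h1])
    rw [this] at h2
    rw [h1, this] at h2
    omega
  refine ⟨by omega, by omega, ?_⟩
  have h5 := hC 0 h0
  unfold c3 at h5
  rw [h1] at h5
  rcases h5 with h5 | h5 | h5
  · exfalso; omega
  · omega
  · exact h5

/-- skipping `0`, `m` and the last place -/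
def e3 (m x : ℕ) : ℕ := if x + 1 < m then x + 1 else x + 2

lemma e3_mono (m : ℕ) {x y : ℕ} (h : x < y) : e3 m x < e3 m y := by
  unfold e3; split_ifs <;> omega

open Classical in
/-- the pairs of a permutation and a place at which a three-cycle can be put around it -/
noncomputable def V (N : ℕ) : Finset (Equiv.Perm (Fin N) × ℕ) :=
  ((S N) ×ˢ range (N + 1)).filter fun p => (∀ x y, x < y → y < p.2 → fn p.1 y < fn p.1 x) ∧
    ∀ x y, x < y → y < N → p.2 ≤ fn p.1 x → p.2 ≤ fn p.1 y → fn p.1 y < fn p.1 x

lemma mem_V {N : ℕ} {p : Equiv.Perm (Fin N) × ℕ} : p ∈ V N ↔ ((Av p.1 ∧ Cy p.1) ∧ p.2 < N + 1) ∧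
    (∀ x y, x < y → y < p.2 → fn p.1 y < fn p.1 x) ∧
    ∀ x y, x < y → y < N → p.2 ≤ fn p.1 x → p.2 ≤ fn p.1 y → fn p.1 y < fn p.1 x := by
  simp [V, mem_S]

lemma card_T_le (N : ℕ) : (T (N + 3)).card ≤ (V N).card := by
  classical
  let f : Equiv.Perm (Fin (N + 3)) → Equiv.Perm (Fin N) × ℕ :=
    fun π => (sub N (e3 (fn π (N + 2))) π, fn π (N + 2) - 1)
  have key : ∀ π ∈ T (N + 3), ∀ x < N,
      e3 (fn π (N + 2)) (fn (f π).1 x) = fn π (e3 (fn π (N + 2)) x) := by
    intro π hπ
    obtain ⟨h1, h2, h3⟩ := three hπ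
    rw [mem_T] at hπ
    obtain ⟨⟨-, -, h4⟩, -⟩ := hπ
    simp only [show N + 3 - 1 = N + 2 by omega] at h1 h2 h3 h4
    set m := fn π (N + 2) with hm
    apply sub_spec
    apply sub_exists
    · intro x hx
      unfold e3
      split_ifs <;> omega
    · intro x y hxy _
      exact e3_mono m hxy
    · intro x hx
      have hlt : e3 m x < N + 2 := by unfold e3; split_ifs <;> omega
      have hne0 : e3 m x ≠ 0 := by unfold e3; split_ifs <;> omega
      have hnem : e3 m x ≠ m := by unfold e3; split_ifs <;> omega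
      have hin := fn_inj π
      have hw1 : fn π (e3 m x) ≠ N + 2 := by
        intro h
        have := hin _ (show e3 m x < N + 3 by omega) 0 (by omega) (by rw [h, h4])
        exact hne0 this
      have hw2 : fn π (e3 m x) ≠ 0 := by
        intro h
        have := hin _ (show e3 m x < N + 3 by omega) m (by omega) (by rw [h, h3])
        exact hnem this
      have hw3 : fn π (e3 m x) ≠ m := by
        intro h
        have := hin _ (show e3 m x < N + 3 by omega) (N + 2) (by omega) (by rw [h])
        omega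
      have hw4 := fn_lt π (show e3 m x < N + 3 by omega)
      set w := fn π (e3 m x)
      refine ⟨if w < m then w - 1 else w - 2, ?_, ?_⟩
      · split_ifs <;> omega
      · by_cases hwm : w < m
        · rw [if_pos hwm]
          unfold e3
          split_ifs <;> omega
        · rw [if_neg hwm]
          unfold e3
          split_ifs <;> omega
  have keyinv : ∀ m i : ℕ, 0 < m → m < N + 2 → i ≠ 0 → i ≠ m → i < N + 2 → ∃ x < N, e3 m x = i := by
    intro m i h1 h2 h3 h4 h5
    refine ⟨if i < m then i - 1 else i - 2, ?_, ?_⟩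
    · split_ifs <;> omega
    · by_cases h6 : i < m
      · rw [if_pos h6]
        unfold e3
        split_ifs <;> omega
      · rw [if_neg h6]
        unfold e3
        split_ifs <;> omega
  apply Finset.card_le_card_of_injOn f
  · intro π hπ
    have k1 := key π hπ
    obtain ⟨h1, h2, h3⟩ := three hπ
    have hπ' := hπ
    rw [mem_coe, mem_T] at hπ'
    obtain ⟨⟨⟨hA, hC⟩, -, h4⟩, -⟩ := hπ'
    simp only [show N + 3 - 1 = N + 2 by omega] at h1 h2 h3 h4
    rw [mem_coe, mem_V]
    have hf2 : (f π).2 = fn π (N + 2) - 1 := rfl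
    rw [hf2]
    set m := fn π (N + 2) with hm
    set σ := (f π).1 with hσ
    have hlt : ∀ x < N, e3 m x < N + 2 := by
      intro x hx; unfold e3; split_ifs <;> omega
    have hr : ∀ x < N, ∀ y < N, fn π (e3 m y) < fn π (e3 m x) → fn σ y < fn σ x := by
      intro x hx y hy h
      rw [← k1 x hx, ← k1 y hy] at h
      exact lt_of_e (N := N) (fun a b hab _ => e3_mono m hab) (fn_lt σ hy) h
    have hin := fn_inj π
    refine ⟨⟨sub_mem (fun x hx => by have := hlt x hx; omega) (fun x y h _ => e3_mono m h) k1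
      ⟨hA, hC⟩, by omega⟩, ?_, ?_⟩
    · intro x y hxy hy
      apply hr x (by omega) y (by omega)
      have ex : e3 m x = x + 1 := by unfold e3; rw [if_pos (by omega)]
      have ey : e3 m y = y + 1 := by unfold e3; rw [if_pos (by omega)]
      rw [ex, ey]
      by_contra h5
      have a1 : fn π (x + 1) ≠ fn π (y + 1) := fun h => by
        have := hin (x + 1) (by omega) (y + 1) (by omega) h
        omega
      have a2 : fn π (x + 1) ≠ 0 := fun h => by
        have := hin (x + 1) (by omega) m (by omega) (by rw [h, h3])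
        omega
      exact hA (x + 1) (y + 1) m (by omega) (by omega) (by omega) ⟨by omega, by omega⟩
    · intro x y hxy hy hx1 hy1
      apply hr x (by omega) y hy
      have b1 := k1 x (by omega)
      have b2 := k1 y hy
      have c1 : m < fn π (e3 m x) := by
        rw [← b1]; unfold e3; rw [if_neg (by omega)]; omega
      have c2 : m < fn π (e3 m y) := by
        rw [← b2]; unfold e3; rw [if_neg (by omega)]; omega
      have h6 := hlt y hy
      have h7 := e3_mono m hxy
      by_contra h5
      have a1 : fn π (e3 m x) ≠ fn π (e3 m y) := fun h => by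
        have := hin _ (show e3 m x < N + 3 by omega) _ (show e3 m y < N + 3 by omega) h
        omega
      exact hA (e3 m x) (e3 m y) (N + 2) h7 h6 (by omega) ⟨by omega, by omega⟩
  · intro π hπ π' hπ' he
    have k1 := key π hπ
    have k1' := key π' hπ'
    obtain ⟨h1, h2, h3⟩ := three hπ
    obtain ⟨h1', h2', h3'⟩ := three hπ'
    rw [mem_coe, mem_T] at hπ hπ'
    obtain ⟨⟨-, -, h4⟩, -⟩ := hπ
    obtain ⟨⟨-, -, h4'⟩, -⟩ := hπ'
    simp only [show N + 3 - 1 = N + 2 by omega] at h1 h2 h3 h4 h1' h2' h3' h4'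
    have he2 : fn π (N + 2) - 1 = fn π' (N + 2) - 1 := congrArg Prod.snd he
    have hm : fn π' (N + 2) = fn π (N + 2) := by omega
    rw [hm] at k1' h3'
    rw [← he] at k1'
    apply ext_of_fn
    intro i hi
    by_cases c1 : i = N + 2
    · rw [c1, hm]
    by_cases c2 : i = 0
    · rw [c2, h4, h4']
    by_cases c3' : i = fn π (N + 2)
    · rw [c3', h3, h3']
    obtain ⟨x, hx, rfl⟩ := keyinv _ i h1 h2 c2 c3' (by omega)
    rw [← k1 x hx, ← k1' x hx]

lemma card_V_zero : (V 0).card ≤ 1 := by
  rw [card_le_one]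
  intro p hp q hq
  rw [mem_V] at hp hq
  apply Prod.ext
  · apply ext_of_fn
    intro i hi
    omega
  · omega

lemma card_V_le (N : ℕ) (hN : 0 < N) : (V N).card ≤ (N + 1) + ((N - 1) + (T N).card * 2) := by
  classical
  have h := Finset.card_filter_add_card_filter_not (s := V N) (fun p => ∀ x < p.2, fn p.1 x < p.2)
  rw [← h]
  apply Nat.add_le_add
  · rw [← card_range (N + 1)]
    apply Finset.card_le_card_of_injOn Prod.snd
    · intro p hp
      rw [mem_coe, mem_filter, mem_V] at hp
      simp only [coe_range, Set.mem_Iio]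
      exact hp.1.1.2
    · rintro ⟨σ, t⟩ hp ⟨σ', t'⟩ hq he
      simp only at he
      subst he
      rw [mem_coe, mem_filter, mem_V] at hp hq
      simp only at hp hq
      have key : ∀ σ : Equiv.Perm (Fin N), (t < N + 1) → (∀ x y, x < y → y < t → fn σ y < fn σ x) →
          (∀ x y, x < y → y < N → t ≤ fn σ x → t ≤ fn σ y → fn σ y < fn σ x) →
          (∀ x < t, fn σ x < t) → ∀ x < N, fn σ x = if x < t then t - 1 - x else N - t - 1 - (x - t) + t := by
        intro σ ht h1 h2 h3 x hx
        have h4 := dec_eq h1 h3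
        have h5 : ∀ y, t ≤ y → y < N → t ≤ fn σ y := by
          intro y hy1 hy2
          by_contra h6
          obtain ⟨z, -, hz1, hz2⟩ := onto_of_maps σ (show t ≤ N by omega) (a := 0)
            (fun z _ hz => ⟨by omega, h3 z hz⟩) (fn σ y) (by omega) (by omega)
          have := fn_inj σ z (by omega) y hy2 hz2
          omega
        split_ifs with h6
        · exact h4 x h6
        · have h7 := dec_eq (F := fun y => fn σ (t + y) - t) (t := N - t)
            (fun y z hyz hz => by
              have a1 := h5 (t + y) (by omega) (by omega)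
              have a2 := h5 (t + z) (by omega) (by omega)
              have a3 := h2 (t + y) (t + z) (by omega) (by omega) a1 a2
              omega)
            (fun y hy => by
              have a1 := h5 (t + y) (by omega) (by omega)
              have a2 := fn_lt σ (show t + y < N by omega)
              omega) (x - t) (by omega)
          have h8 : t + (x - t) = x := by omega
          rw [h8] at h7
          have := h5 x (by omega) hx
          omega
      have e1 := key σ hp.1.1.2 hp.1.2.1 hp.1.2.2 hp.2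
      have e2 := key σ' hq.1.1.2 hq.1.2.1 hq.1.2.2 hq.2
      have : σ = σ' := by
        apply ext_of_fn
        intro i hi
        rw [e1 i hi, e2 i hi]
      rw [this]
  · set W := (V N).filter (fun p => ¬ ∀ x < p.2, fn p.1 x < p.2) with hW
    have hWs : ∀ p ∈ W, 0 < p.2 ∧ p.2 < N ∧ fn p.1 0 = N - 1 := by
      rintro ⟨σ, t⟩ hp
      rw [hW, mem_filter, mem_V] at hp
      simp only at hp ⊢
      obtain ⟨⟨⟨⟨hA, hC⟩, ht⟩, h1, h2⟩, h3⟩ := hp
      push Not at h3
      obtain ⟨x, hx, hx2⟩ := h3
      have hxN := fn_lt σ (show x < N by omega)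
      refine ⟨by omega, by omega, ?_⟩
      have h0 : t ≤ fn σ 0 := by
        rcases Nat.eq_zero_or_pos x with h4 | h4
        · rw [← h4]; exact hx2
        · have := h1 0 x h4 hx
          omega
      by_contra h5
      obtain ⟨y, hy, hy2⟩ := fn_surj σ (N - 1) (by omega)
      have hy0 : y ≠ 0 := by rintro rfl; exact h5 hy2
      have := h2 0 y (by omega) hy h0 (by omega)
      have := fn_lt σ (show 0 < N by omega)
      omega
    have h := Finset.card_filter_add_card_filter_not (s := W) (fun p => fn p.1 (N - 1) = 0)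
    rw [← h]
    apply Nat.add_le_add
    · refine le_trans (Finset.card_le_card_of_injOn (t := Finset.Ico 1 N) Prod.snd ?_ ?_) (by simp)
      · intro p hp
        rw [mem_coe, mem_filter] at hp
        have := hWs p hp.1
        simp only [coe_Ico, Set.mem_Ico]
        omega
      · rintro ⟨σ, t⟩ hp ⟨σ', t'⟩ hq he
        simp only at he
        subst he
        rw [mem_coe, mem_filter, hW, mem_filter, mem_V] at hp hq
        simp only at hp hq
        have : σ = σ' := by
          apply ext_of_fn
          intro i hi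
          rw [eq_rev hp.1.1.1.1.1 hp.2 i hi, eq_rev hq.1.1.1.1.1 hq.2 i hi]
        rw [this]
    · rw [← card_range 2, ← card_product]
      have hT : ∀ p ∈ W.filter (fun p => ¬ fn p.1 (N - 1) = 0), p.1 ∈ T N ∧
          fn p.1 (N - 1) ≤ p.2 ∧ p.2 ≤ fn p.1 (N - 1) + 1 := by
        intro p hp
        rw [mem_filter] at hp
        have h1 := hWs p hp.1
        have h2 := hp.1
        rw [hW, mem_filter, mem_V] at h2
        obtain ⟨⟨⟨hAC, ht⟩, h3, h4⟩, -⟩ := h2
        have hTm : p.1 ∈ T N := by
          rw [mem_T]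
          exact ⟨⟨hAC, hN, h1.2.2⟩, hp.2⟩
        obtain ⟨h5, h6, h7⟩ := three hTm
        refine ⟨hTm, ?_, ?_⟩
        · by_contra h8
          obtain ⟨y, hy, hy2⟩ := fn_surj p.1 (fn p.1 (N - 1) - 1) (by omega)
          have hyN : y ≠ N - 1 := by rintro rfl; omega
          have := h4 y (N - 1) (by omega) (by omega) (by omega) (by omega)
          omega
        · by_contra h8
          have := h3 (fn p.1 (N - 1)) (fn p.1 (N - 1) + 1) (by omega) (by omega)
          omega
      apply Finset.card_le_card_of_injOn (fun p => (p.1, p.2 - fn p.1 (N - 1)))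
      · intro p hp
        have h1 := hT p hp
        rw [mem_coe, mem_product, mem_range]
        refine ⟨h1.1, ?_⟩
        simp only
        omega
      · rintro ⟨σ, t⟩ hp ⟨σ', t'⟩ hq he
        have h1 := hT _ hp
        have h2 := hT _ hq
        simp only [Prod.mk.injEq] at he h1 h2 ⊢
        obtain ⟨rfl, he⟩ := he
        refine ⟨rfl, ?_⟩
        omega

/-- the bound for `T` -/
def tb : ℕ → ℕ
  | 0 => 0
  | 1 => 0
  | 2 => 0
  | 3 => 1
  | n + 4 => 2 * (n + 1) + 2 * tb (n + 1)

lemma card_T_tb (n : ℕ) : (T n).card ≤ tb n := by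
  induction n using Nat.strong_induction_on with
  | _ n ih =>
  match n, ih with
  | 0, _ =>
    have : T 0 = ∅ := by
      rw [Finset.eq_empty_iff_forall_notMem]
      intro π hπ
      have := three hπ
      omega
    rw [this]; simp
  | 1, _ =>
    have : T 1 = ∅ := by
      rw [Finset.eq_empty_iff_forall_notMem]
      intro π hπ
      have := three hπ
      omega
    rw [this]; simp
  | 2, _ =>
    have : T 2 = ∅ := by
      rw [Finset.eq_empty_iff_forall_notMem]
      intro π hπ
      have := three hπ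
      omega
    rw [this]; simp
  | 3, _ => exact (card_T_le 0).trans card_V_zero
  | n + 4, ih =>
    have h1 : (T (n + 4)).card ≤ _ := card_T_le (n + 1)
    have h2 := card_V_le (n + 1) (by omega)
    have h3 := ih (n + 1) (by omega)
    have h4 : tb (n + 4) = 2 * (n + 1) + 2 * tb (n + 1) := rfl
    rw [h4]
    omega

/-- the list of the bounds for `S n, …, S 0` -/
def ub : ℕ → List ℕ
  | 0 => [1]
  | n + 1 => ((range (n + 1)).sum fun k => (1 + tb (k + 1)) * (ub n).getD k 0) :: ub n

lemma card_S_ub (n : ℕ) : ∀ k ≤ n, (S (n - k)).card ≤ (ub n).getD k 0 := by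
  induction n with
  | zero =>
    intro k hk
    have : k = 0 := by omega
    subst this
    simp only [ub, List.getD_cons_zero]
    rw [card_le_one]
    intro π _ π' _
    apply ext_of_fn
    intro i hi
    omega
  | succ n ih =>
    intro k hk
    match k with
    | 0 =>
      simp only [ub, List.getD_cons_zero, Nat.sub_zero]
      refine (card_S_le n).trans (sum_le_sum ?_)
      intro k hk
      rw [mem_range] at hk
      have h1 := card_Ind_le (k + 1)
      have h2 := card_T_tb (k + 1)
      exact Nat.mul_le_mul (by omega) (ih k (by omega))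
    | k + 1 =>
      simp only [ub, List.getD_cons_succ]
      have : n + 1 - (k + 1) = n - k := by omega
      rw [this]
      exact ih k (by omega)

end Pool.Agent.R121.Cyc231
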