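import Pool.Agent.R121.OfFn

set_option autoImplicit false

/-!
# 321-avoiding permutations with cycles of length at most 3: a lower bound by an automaton
-/

namespace Pool.Agent.R121.Cyc321

open Finset

/-- letters: open, fixed point, close, and the two kinds of passing on -/
inductive Let | O | F | X | B | C
deriving DecidableEq

/-- `g` follows the word from time `i` on; `us` are the places waiting for images and `ls` the values
waiting for preimages. -/
def Valid (g : ℕ → ℕ) : List Let → ℕ → List ℕ → List ℕ → Prop
  | [], _, us, ls => us = [] ∧ ls = []
  | .O :: w, i, us, ls => Valid g w (i + 1) (us ++ [i]) (ls ++ [i])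
  | .F :: w, i, us, ls => us = [] ∧ ls = [] ∧ g i = i ∧ Valid g w (i + 1) [] []
  | .X :: w, i, us, ls => ∃ u us' l ls', us = u :: us' ∧ ls = l :: ls' ∧ g u = i ∧ g i = l ∧
      Valid g w (i + 1) us' ls'
  | .B :: w, i, us, ls => ∃ u us', us = u :: us' ∧ g u = i ∧ Valid g w (i + 1) (us' ++ [i]) ls
  | .C :: w, i, us, ls => ∃ l ls', ls = l :: ls' ∧ g i = l ∧ Valid g w (i + 1) us (ls' ++ [i])

/-- queues are increasing and in the past -/
def WF (i : ℕ) (us : List ℕ) : Prop := us.Pairwise (· < ·) ∧ ∀ u ∈ us, u < i

lemma WF.nil (i : ℕ) : WF i [] := ⟨List.Pairwise.nil, by simp⟩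

lemma WF.mono {i : ℕ} {us : List ℕ} (h : WF i us) : WF (i + 1) us :=
  ⟨h.1, fun u hu => by have := h.2 u hu; omega⟩

lemma WF.snoc {i : ℕ} {us : List ℕ} (h : WF i us) : WF (i + 1) (us ++ [i]) := by
  refine ⟨?_, ?_⟩
  · rw [List.pairwise_append]
    refine ⟨h.1, List.pairwise_singleton _ _, ?_⟩
    intro a ha b hb
    simp only [List.mem_singleton] at hb
    rw [hb]; exact h.2 a ha
  · intro u hu
    simp only [List.mem_append, List.mem_singleton] at hu
    rcases hu with hu | hu
    · have := h.2 u hu; omega
    · omega

lemma WF.tail {i u : ℕ} {us : List ℕ} (h : WF i (u :: us)) : WF i us :=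
  ⟨(List.pairwise_cons.1 h.1).2, fun v hv => h.2 v (List.mem_cons_of_mem _ hv)⟩

lemma WF.head_lt {i u : ℕ} {us : List ℕ} (h : WF i (u :: us)) : ∀ v ∈ us, u < v :=
  (List.pairwise_cons.1 h.1).1

lemma WF.head {i u : ℕ} {us : List ℕ} (h : WF i (u :: us)) : u < i := h.2 u (by simp)

/-- places with an image still to come -/
def D (us : List ℕ) (i m x : ℕ) : Prop := x ∈ us ∨ (i ≤ x ∧ x < i + m)

/-- the properties of a function following a word -/
structure Good (g : ℕ → ℕ) (m i : ℕ) (us ls : List ℕ) : Prop where
  p1 : ∀ u ∈ us, i ≤ g u ∧ g u < i + m
  p2 : ∀ x, i ≤ x → x < i + m → g x < i + m ∧ (i ≤ g x ∨ g x ∈ ls)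
  p3 : ∀ x y, D us i m x → D us i m y → x < y → x < g x → y < g y → g x < g y
  p4 : ∀ x y, i ≤ x → x < i + m → i ≤ y → y < i + m → x < y → g x ≤ x → g y ≤ y → g x < g y
  p5 : ∀ x y, D us i m x → i ≤ y → y < i + m → x < g x → g y ≤ y → g x ≠ g y

lemma good (g : ℕ → ℕ) : ∀ (w : List Let) (i : ℕ) (us ls : List ℕ), WF i us → WF i ls →
    Valid g w i us ls → Good g w.length i us ls := by
  intro w
  induction w with
  | nil =>
    rintro i us ls - - ⟨rfl, rfl⟩
    refine ⟨by simp, ?_, ?_, ?_, ?_⟩
    · intro x; simp only [List.length_nil]; omega
    · intro x y h1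
      simp only [D, List.not_mem_nil, List.length_nil, false_or] at h1
      omega
    · intro x; simp only [List.length_nil]; omega
    · intro x y h1
      simp only [D, List.not_mem_nil, List.length_nil, false_or] at h1
      omega
  | cons a w ih =>
    intro i us ls hu hl hv
    have hlen : (a :: w).length = w.length + 1 := rfl
    rw [hlen]
    cases a with
    | O =>
      have h := ih (i + 1) (us ++ [i]) (ls ++ [i]) hu.snoc hl.snoc hv
      have hi := h.p1 i (by simp)
      have hD : ∀ x, D us i (w.length + 1) x → D (us ++ [i]) (i + 1) w.length x := by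
        intro x hx
        rcases hx with hx | hx
        · left; simp [hx]
        · by_cases hxi : x = i
          · left; simp [hxi]
          · right; omega
      refine ⟨?_, ?_, ?_, ?_, ?_⟩
      · intro u h2
        have := h.p1 u (by simp [h2])
        omega
      · intro x h1 h2
        rcases Nat.eq_or_lt_of_le h1 with h3 | h3
        · subst h3; omega
        · obtain ⟨h4, h5⟩ := h.p2 x (by omega) (by omega)
          refine ⟨by omega, ?_⟩
          rcases h5 with h5 | h5
          · left; omega
          · simp only [List.mem_append, List.mem_singleton] at h5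
            rcases h5 with h5 | h5
            · right; exact h5
            · left; omega
      · intro x y h1 h2
        exact h.p3 x y (hD x h1) (hD y h2)
      · intro x y h1 h2 h3 h4 h5 h6 h7
        rcases Nat.eq_or_lt_of_le h1 with h8 | h8
        · subst h8; omega
        · exact h.p4 x y (by omega) (by omega) (by omega) (by omega) h5 h6 h7
      · intro x y h1 h3 h4 h5 h6
        rcases Nat.eq_or_lt_of_le h3 with h8 | h8
        · subst h8; omega
        · exact h.p5 x y (hD x h1) (by omega) (by omega) h5 h6
    | F =>
      obtain ⟨rfl, rfl, h0, hv⟩ := hv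
      have h := ih (i + 1) [] [] (WF.nil _) (WF.nil _) hv
      have hg : ∀ x, i + 1 ≤ x → x < i + 1 + w.length → i + 1 ≤ g x := by
        intro x h1 h2
        have := (h.p2 x h1 h2).2
        simpa using this
      have hD : ∀ x, D [] i (w.length + 1) x → x ≠ i → D [] (i + 1) w.length x := by
        intro x hx hne
        rcases hx with hx | hx
        · left; exact hx
        · right; omega
      refine ⟨by simp, ?_, ?_, ?_, ?_⟩
      · intro x h1 h2
        rcases Nat.eq_or_lt_of_le h1 with h3 | h3
        · subst h3; omega
        · have := h.p2 x (by omega) (by omega)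
          have := hg x (by omega) (by omega)
          omega
      · intro x y h1 h2 h3 h4 h5
        exact h.p3 x y (hD x h1 (by rintro rfl; omega)) (hD y h2 (by rintro rfl; omega)) h3 h4 h5
      · intro x y h1 h2 h3 h4 h5 h6 h7
        rcases Nat.eq_or_lt_of_le h1 with h8 | h8
        · subst h8
          have := hg y (by omega) (by omega)
          omega
        · exact h.p4 x y (by omega) (by omega) (by omega) (by omega) h5 h6 h7
      · intro x y h1 h3 h4 h5 h6
        have hx := hD x h1 (by rintro rfl; omega)
        rcases Nat.eq_or_lt_of_le h3 with h8 | h8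
        · subst h8
          rcases hx with hx | hx
          · simp at hx
          · omega
        · exact h.p5 x y hx (by omega) (by omega) h5 h6
    | X =>
      obtain ⟨u, us, l, ls, rfl, rfl, hgu, hgi, hv⟩ := hv
      have h := ih (i + 1) us ls hu.tail.mono hl.tail.mono hv
      have hui := hu.head
      have hli := hl.head
      have hD : ∀ x, D (u :: us) i (w.length + 1) x → x = u ∨ x = i ∨ D us (i + 1) w.length x := by
        intro x hx
        rcases hx with hx | hx
        · rcases List.mem_cons.1 hx with hx | hx
          · left; exact hx
          · right; right; left; exact hx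
        · by_cases hxi : x = i
          · right; left; exact hxi
          · right; right; right; omega
      have hup : ∀ y, D us (i + 1) w.length y → y < g y → i < g y := by
        intro y hy hyg
        rcases hy with hy | hy
        · have := h.p1 y hy; omega
        · omega
      have hdn : ∀ y, i + 1 ≤ y → y < i + 1 + w.length → l < g y ∧ g y ≠ i := by
        intro y h1 h2
        rcases (h.p2 y h1 h2).2 with h3 | h3
        · omega
        · have h4 := hl.head_lt _ h3
          have h5 := hl.tail.2 _ h3
          omega
      refine ⟨?_, ?_, ?_, ?_, ?_⟩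
      · intro v hv'
        rcases List.mem_cons.1 hv' with rfl | hv'
        · omega
        · have := h.p1 v hv'; omega
      · intro x h1 h2
        rcases Nat.eq_or_lt_of_le h1 with h3 | h3
        · subst h3
          rw [hgi]
          exact ⟨by omega, Or.inr (by simp)⟩
        · obtain ⟨h4, h5⟩ := h.p2 x (by omega) (by omega)
          refine ⟨by omega, ?_⟩
          rcases h5 with h5 | h5
          · left; omega
          · right; simp [h5]
      · intro x y h1 h2 h3 h4 h5
        rcases hD x h1 with rfl | rfl | hx
        · rcases hD y h2 with rfl | rfl | hy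
          · omega
          · omega
          · have := hup y hy h5
            omega
        · omega
        · rcases hD y h2 with rfl | rfl | hy
          · exfalso
            rcases hx with hx | hx
            · have := hu.head_lt _ hx; omega
            · omega
          · omega
          · exact h.p3 x y hx hy h3 h4 h5
      · intro x y h1 h2 h3 h4 h5 h6 h7
        rcases Nat.eq_or_lt_of_le h1 with h8 | h8
        · subst h8
          have := hdn y (by omega) (by omega)
          omega
        · exact h.p4 x y (by omega) (by omega) (by omega) (by omega) h5 h6 h7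
      · intro x y h1 h3 h4 h5 h6
        rcases hD x h1 with rfl | rfl | hx
        · rcases Nat.eq_or_lt_of_le h3 with h8 | h8
          · subst h8; omega
          · have := hdn y (by omega) (by omega)
            omega
        · omega
        · have h9 := hup x hx h5
          rcases Nat.eq_or_lt_of_le h3 with h8 | h8
          · subst h8; omega
          · exact h.p5 x y hx (by omega) (by omega) h5 h6
    | B =>
      obtain ⟨u, us, rfl, hgu, hv⟩ := hv
      have h := ih (i + 1) (us ++ [i]) ls hu.tail.snoc hl.mono hv
      have hui := hu.head
      have hi := h.p1 i (by simp)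
      have hD : ∀ x, D (u :: us) i (w.length + 1) x → x = u ∨ D (us ++ [i]) (i + 1) w.length x := by
        intro x hx
        rcases hx with hx | hx
        · rcases List.mem_cons.1 hx with hx | hx
          · left; exact hx
          · right; left; simp [hx]
        · by_cases hxi : x = i
          · right; left; simp [hxi]
          · right; right; omega
      have hup : ∀ y, D (us ++ [i]) (i + 1) w.length y → y < g y → i < g y := by
        intro y hy hyg
        rcases hy with hy | hy
        · have := h.p1 y hy; omega
        · omega
      have hdn : ∀ y, i + 1 ≤ y → y < i + 1 + w.length → g y ≠ i := by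
        intro y h1 h2
        rcases (h.p2 y h1 h2).2 with h3 | h3
        · omega
        · have h5 := hl.2 _ h3
          omega
      refine ⟨?_, ?_, ?_, ?_, ?_⟩
      · intro v hv'
        rcases List.mem_cons.1 hv' with rfl | hv'
        · omega
        · have := h.p1 v (by simp [hv']); omega
      · intro x h1 h2
        rcases Nat.eq_or_lt_of_le h1 with h3 | h3
        · subst h3; omega
        · obtain ⟨h4, h5⟩ := h.p2 x (by omega) (by omega)
          refine ⟨by omega, ?_⟩
          rcases h5 with h5 | h5
          · left; omega
          · right; exact h5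
      · intro x y h1 h2 h3 h4 h5
        rcases hD x h1 with rfl | hx
        · rcases hD y h2 with rfl | hy
          · omega
          · have := hup y hy h5
            omega
        · rcases hD y h2 with rfl | hy
          · exfalso
            rcases hx with hx | hx
            · simp only [List.mem_append, List.mem_singleton] at hx
              rcases hx with hx | hx
              · have := hu.head_lt _ hx; omega
              · omega
            · omega
          · exact h.p3 x y hx hy h3 h4 h5
      · intro x y h1 h2 h3 h4 h5 h6 h7
        rcases Nat.eq_or_lt_of_le h1 with h8 | h8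
        · subst h8; omega
        · exact h.p4 x y (by omega) (by omega) (by omega) (by omega) h5 h6 h7
      · intro x y h1 h3 h4 h5 h6
        rcases Nat.eq_or_lt_of_le h3 with h8 | h8
        · subst h8; omega
        · rcases hD x h1 with rfl | hx
          · have := hdn y (by omega) (by omega)
            omega
          · exact h.p5 x y hx (by omega) (by omega) h5 h6
    | C =>
      obtain ⟨l, ls, rfl, hgi, hv⟩ := hv
      have h := ih (i + 1) us (ls ++ [i]) hu.mono hl.tail.snoc hv
      have hli := hl.head
      have hD : ∀ x, D us i (w.length + 1) x → x = i ∨ D us (i + 1) w.length x := by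
        intro x hx
        rcases hx with hx | hx
        · right; left; exact hx
        · by_cases hxi : x = i
          · left; exact hxi
          · right; right; omega
      have hup : ∀ y, D us (i + 1) w.length y → y < g y → i < g y := by
        intro y hy hyg
        rcases hy with hy | hy
        · have := h.p1 y hy; omega
        · omega
      have hdn : ∀ y, i + 1 ≤ y → y < i + 1 + w.length → l < g y := by
        intro y h1 h2
        rcases (h.p2 y h1 h2).2 with h3 | h3
        · omega
        · simp only [List.mem_append, List.mem_singleton] at h3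
          rcases h3 with h3 | h3
          · exact hl.head_lt _ h3
          · omega
      refine ⟨?_, ?_, ?_, ?_, ?_⟩
      · intro v hv'
        have := h.p1 v hv'; omega
      · intro x h1 h2
        rcases Nat.eq_or_lt_of_le h1 with h3 | h3
        · subst h3
          rw [hgi]
          exact ⟨by omega, Or.inr (by simp)⟩
        · obtain ⟨h4, h5⟩ := h.p2 x (by omega) (by omega)
          refine ⟨by omega, ?_⟩
          rcases h5 with h5 | h5
          · left; omega
          · simp only [List.mem_append, List.mem_singleton] at h5
            rcases h5 with h5 | h5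
            · right; simp [h5]
            · left; omega
      · intro x y h1 h2 h3 h4 h5
        rcases hD x h1 with rfl | hx
        · omega
        · rcases hD y h2 with rfl | hy
          · omega
          · exact h.p3 x y hx hy h3 h4 h5
      · intro x y h1 h2 h3 h4 h5 h6 h7
        rcases Nat.eq_or_lt_of_le h1 with h8 | h8
        · subst h8
          have := hdn y (by omega) (by omega)
          omega
        · exact h.p4 x y (by omega) (by omega) (by omega) (by omega) h5 h6 h7
      · intro x y h1 h3 h4 h5 h6
        rcases hD x h1 with rfl | hx
        · omega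
        · have h9 := hup x hx h5
          rcases Nat.eq_or_lt_of_le h3 with h8 | h8
          · subst h8; omega
          · exact h.p5 x y hx (by omega) (by omega) h5 h6

/-- `Valid` only depends on the places still to come -/
lemma valid_congr {g g' : ℕ → ℕ} : ∀ (w : List Let) (i : ℕ) (us ls : List ℕ),
    (∀ x, D us i w.length x → g x = g' x) → Valid g w i us ls → Valid g' w i us ls := by
  intro w
  induction w with
  | nil => intro i us ls _ h; exact h
  | cons a w ih =>
    intro i us ls hg hv
    have hlen : (a :: w).length = w.length + 1 := rfl
    rw [hlen] at hg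
    have hi := hg i (Or.inr (by omega))
    cases a with
    | O =>
      refine ih (i + 1) _ _ ?_ hv
      intro x hx
      apply hg
      rcases hx with hx | hx
      · simp only [List.mem_append, List.mem_singleton] at hx
        rcases hx with hx | hx
        · left; exact hx
        · right; omega
      · right; omega
    | F =>
      obtain ⟨rfl, rfl, h0, hv⟩ := hv
      refine ⟨rfl, rfl, by rw [← hi]; exact h0, ih (i + 1) _ _ ?_ hv⟩
      intro x hx
      apply hg
      rcases hx with hx | hx
      · left; exact hx
      · right; omega
    | X =>
      obtain ⟨u, us, l, ls, rfl, rfl, hgu, hgi, hv⟩ := hv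
      refine ⟨u, us, l, ls, rfl, rfl, by rw [← hg u (Or.inl (by simp))]; exact hgu,
        by rw [← hi]; exact hgi, ih (i + 1) _ _ ?_ hv⟩
      intro x hx
      apply hg
      rcases hx with hx | hx
      · left; simp [hx]
      · right; omega
    | B =>
      obtain ⟨u, us, rfl, hgu, hv⟩ := hv
      refine ⟨u, us, rfl, by rw [← hg u (Or.inl (by simp))]; exact hgu, ih (i + 1) _ _ ?_ hv⟩
      intro x hx
      apply hg
      rcases hx with hx | hx
      · simp only [List.mem_append, List.mem_singleton] at hx
        rcases hx with hx | hx
        · left; simp [hx]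
        · right; omega
      · right; omega
    | C =>
      obtain ⟨l, ls, rfl, hgi, hv⟩ := hv
      refine ⟨l, ls, rfl, by rw [← hi]; exact hgi, ih (i + 1) _ _ ?_ hv⟩
      intro x hx
      apply hg
      rcases hx with hx | hx
      · left; exact hx
      · right; omega

/-- the word is determined by the function -/
lemma valid_unique {g : ℕ → ℕ} : ∀ (w w' : List Let) (i : ℕ) (us ls : List ℕ), w.length = w'.length →
    WF i us → WF i ls → Valid g w i us ls → Valid g w' i us ls → w = w' := by
  intro w
  induction w with
  | nil =>
    intro w' i us ls h _ _ _ _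
    exact (List.eq_nil_of_length_eq_zero h.symm).symm
  | cons a w ih =>
    intro w' i us ls hlen hu hl hv hv'
    match w' with
    | [] => simp at hlen
    | b :: w' =>
      have hlen' : w.length = w'.length := by simpa using hlen
      have key : ∀ (a : Let) (w : List Let), Valid g (a :: w) i us ls →
          (a = .O → i < g i ∧ ∀ u ∈ us, i < g u) ∧ (a = .F → g i = i) ∧
          (a = .X → g i < i ∧ ∃ u ∈ us, g u = i) ∧ (a = .B → i < g i ∧ ∃ u ∈ us, g u = i) ∧
          (a = .C → g i < i ∧ ∀ u ∈ us, i < g u) := by
        intro a w hv
        refine ⟨?_, ?_, ?_, ?_, ?_⟩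
        · rintro rfl
          have h := good g w (i + 1) _ _ hu.snoc hl.snoc hv
          refine ⟨(h.p1 i (by simp)).1, fun u hu => (h.p1 u (by simp [hu])).1⟩
        · rintro rfl
          exact hv.2.2.1
        · rintro rfl
          obtain ⟨u, us, l, ls, rfl, rfl, hgu, hgi, hv⟩ := hv
          exact ⟨by rw [hgi]; exact hl.head, u, by simp, hgu⟩
        · rintro rfl
          obtain ⟨u, us, rfl, hgu, hv⟩ := hv
          have h := good g w (i + 1) _ _ hu.tail.snoc hl.mono hv
          exact ⟨(h.p1 i (by simp)).1, u, by simp, hgu⟩
        · rintro rfl
          obtain ⟨l, ls, rfl, hgi, hv⟩ := hv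
          have h := good g w (i + 1) _ _ hu.mono hl.tail.snoc hv
          exact ⟨by rw [hgi]; exact hl.head, fun u hu => (h.p1 u hu).1⟩
      have k1 := key a w hv
      have k2 := key b w' hv'
      have hab : a = b := by
        cases a <;> cases b <;> simp only [reduceCtorEq, false_implies, true_implies, true_and, and_true]
          at k1 k2 ⊢
        all_goals exfalso
        all_goals first
          | omega
          | (obtain ⟨x, hx, hx'⟩ := k1.2
             have := k2.2 x hx
             omega)
          | (obtain ⟨x, hx, hx'⟩ := k2.2
             have := k1.2 x hx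
             omega)
      subst hab
      congr 1
      cases a with
      | O => exact ih w' (i + 1) _ _ hlen' hu.snoc hl.snoc hv hv'
      | F => exact ih w' (i + 1) _ _ hlen' (WF.nil _) (WF.nil _) hv.2.2.2 hv'.2.2.2
      | X =>
        obtain ⟨u, us, l, ls, rfl, rfl, hgu, hgi, hv⟩ := hv
        obtain ⟨u', us', l', ls', he, he', _, _, hv'⟩ := hv'
        obtain ⟨rfl, rfl⟩ := List.cons_eq_cons.1 he
        obtain ⟨rfl, rfl⟩ := List.cons_eq_cons.1 he'
        exact ih w' (i + 1) _ _ hlen' hu.tail.mono hl.tail.mono hv hv'
      | B =>
        obtain ⟨u, us, rfl, hgu, hv⟩ := hv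
        obtain ⟨u', us', he, _, hv'⟩ := hv'
        obtain ⟨rfl, rfl⟩ := List.cons_eq_cons.1 he
        exact ih w' (i + 1) _ _ hlen' hu.tail.snoc hl.mono hv hv'
      | C =>
        obtain ⟨l, ls, rfl, hgi, hv⟩ := hv
        obtain ⟨l', ls', he', _, hv'⟩ := hv'
        obtain ⟨rfl, rfl⟩ := List.cons_eq_cons.1 he'
        exact ih w' (i + 1) _ _ hlen' hu.mono hl.tail.snoc hv hv'


/-- states: for every path in the order of the upper queue, whether it has two vertices, and its index
in the lower queue -/
abbrev St := List (Bool × ℕ)

/-- the steps of the automaton -/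
def stepS (s : St) : Let → Option St
  | .O => if s.length < 4 then some (s ++ [(false, s.length)]) else none
  | .F => if s = [] then some [] else none
  | .X => match s with
    | [] => none
    | p :: s' => if p.2 = 0 ∧ ∀ q ∈ s', q.2 ≠ 0 then some (s'.map fun q => (q.1, q.2 - 1)) else none
  | .B => match s with
    | [] => none
    | p :: s' => if p.1 = false then some (s' ++ [(true, p.2)]) else none
  | .C => if (false, 0) ∈ s ∧ ∀ q ∈ s, q.2 = 0 → q.1 = false then
      some (s.map fun q => if q.2 = 0 then (true, s.length - 1) else (q.1, q.2 - 1)) else none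

/-- acceptance -/
def acc : List Let → St → Prop
  | [], s => s = []
  | a :: w, s => ∃ t, stepS s a = some t ∧ acc w t

/-- the state describes the queues -/
structure Rel (g : ℕ → ℕ) (s : St) (us ls : List ℕ) : Prop where
  l1 : s.length = us.length
  l2 : us.length = ls.length
  r : ∀ q u, (q, u) ∈ s.zip us → q.2 < ls.length ∧
    (if q.1 = true then g (ls.getD q.2 0) = u else u = ls.getD q.2 0)

/-- on a cycle of length at most three -/
def c3 (g : ℕ → ℕ) (x : ℕ) : Prop := g x = x ∨ g (g x) = x ∨ g (g (g x)) = x

lemma getD_snoc_lt {ls : List ℕ} {i j : ℕ} (h : j < ls.length) :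
    (ls ++ [i]).getD j 0 = ls.getD j 0 := List.getD_append _ _ _ _ h

lemma getD_snoc_eq {ls : List ℕ} {i j : ℕ} (h : j = ls.length) : (ls ++ [i]).getD j 0 = i := by
  rw [List.getD_append_right _ _ _ _ (by omega), h]
  simp

lemma getD_cons_pos {ls : List ℕ} {l j : ℕ} (h : j ≠ 0) :
    (l :: ls).getD j 0 = ls.getD (j - 1) 0 := by
  obtain ⟨j, rfl⟩ : ∃ j', j = j' + 1 := ⟨j - 1, by omega⟩
  simp

lemma zip_snoc {α β : Type*} {s : List α} {us : List β} (h : s.length = us.length) (a : α) (b : β) :
    (s ++ [a]).zip (us ++ [b]) = s.zip us ++ [(a, b)] := by
  rw [List.zip_append h]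
  rfl

lemma cyc (g : ℕ → ℕ) : ∀ (w : List Let) (i : ℕ) (s : St) (us ls : List ℕ), Rel g s us ls → acc w s →
    Valid g w i us ls → (∀ x, i ≤ x → x < i + w.length → c3 g x) ∧
    ∀ q u, (q, u) ∈ s.zip us → c3 g u ∧ c3 g (ls.getD q.2 0) := by
  intro w
  induction w with
  | nil =>
    rintro i s us ls - - ⟨rfl, rfl⟩
    refine ⟨?_, ?_⟩
    · intro x; simp only [List.length_nil]; omega
    · simp
  | cons a w ih =>
    intro i s us ls hr hacc hv
    obtain ⟨t, ht, hacc⟩ := hacc
    have hlen : (a :: w).length = w.length + 1 := rfl
    rw [hlen]
    have l1 := hr.l1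
    have l2 := hr.l2
    cases a with
    | O =>
      simp only [stepS] at ht
      split_ifs at ht
      simp only [Option.some.injEq] at ht
      subst ht
      have hz := zip_snoc hr.l1 (false, s.length) i
      have hr' : Rel g (s ++ [(false, s.length)]) (us ++ [i]) (ls ++ [i]) := by
        refine ⟨by simp [l1], by simp [l2], ?_⟩
        intro q u hq
        rw [hz, List.mem_append, List.mem_singleton] at hq
        rcases hq with hq | hq
        · have := hr.r q u hq
          rw [getD_snoc_lt this.1, List.length_append]
          exact ⟨by omega, this.2⟩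
        · simp only [Prod.mk.injEq] at hq
          obtain ⟨rfl, rfl⟩ := hq
          rw [getD_snoc_eq (show s.length = ls.length by omega)]
          simp only [List.length_append, List.length_singleton]
          refine ⟨by omega, ?_⟩
          simp
      have h := ih (i + 1) _ _ _ hr' hacc hv
      have h2 := h.2
      rw [hz] at h2
      refine ⟨?_, ?_⟩
      · intro x h3 h4
        rcases Nat.eq_or_lt_of_le h3 with h5 | h5
        · subst h5
          exact (h2 (false, s.length) i (by simp)).1
        · exact h.1 x (by omega) (by omega)
      · intro q u hq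
        have h6 := h2 q u (List.mem_append_left _ hq)
        rw [getD_snoc_lt (hr.r q u hq).1] at h6
        exact h6
    | F =>
      obtain ⟨rfl, rfl, h0, hv⟩ := hv
      simp only [stepS] at ht
      split_ifs at ht with hs
      simp only [Option.some.injEq] at ht
      subst ht
      subst hs
      have h := ih (i + 1) _ _ _ hr hacc hv
      refine ⟨?_, by simp⟩
      intro x h3 h4
      rcases Nat.eq_or_lt_of_le h3 with h5 | h5
      · subst h5
        left; exact h0
      · exact h.1 x (by omega) (by omega)
    | X =>
      obtain ⟨u, us, l, ls, rfl, rfl, hgu, hgi, hv⟩ := hv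
      match s, hr, l1, ht with
      | [], _, l1, _ => simp at l1
      | p :: s', hr, l1, ht =>
        simp only [stepS] at ht
        split_ifs at ht with hc
        simp only [Option.some.injEq] at ht
        subst ht
        obtain ⟨hc1, hc2⟩ := hc
        simp only [List.length_cons] at l1 l2
        have hz : ((s'.map fun q => (q.1, q.2 - 1)).zip us) =
            (s'.zip us).map (fun r => ((r.1.1, r.1.2 - 1), r.2)) := by
          rw [List.zip_map_left]
          rfl
        have hr' : Rel g (s'.map fun q => (q.1, q.2 - 1)) us ls := by
          refine ⟨by simp; omega, by omega, ?_⟩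
          intro q v hq
          rw [hz, List.mem_map] at hq
          obtain ⟨⟨q', v'⟩, hm, he⟩ := hq
          simp only [Prod.mk.injEq] at he
          obtain ⟨rfl, rfl⟩ := he
          have h1 := hr.r q' v' (by rw [List.zip_cons_cons]; exact List.mem_cons_of_mem _ hm)
          have h2 := hc2 q' (List.of_mem_zip hm).1
          rw [getD_cons_pos h2, List.length_cons] at h1
          exact ⟨by simp only; omega, h1.2⟩
        have h := ih (i + 1) _ _ _ hr' hacc hv
        have hp := hr.r p u (by rw [List.zip_cons_cons]; simp)
        rw [hc1] at hp
        simp only [List.getD_cons_zero] at hp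
        have hall : c3 g i ∧ c3 g u ∧ c3 g l := by
          rcases Bool.eq_false_or_eq_true p.1 with h5 | h5
          · have h6 := hp.2
            rw [if_pos h5] at h6
            refine ⟨Or.inr (Or.inr ?_), Or.inr (Or.inr ?_), Or.inr (Or.inr ?_)⟩
            · rw [hgi, h6, hgu]
            · rw [hgu, hgi, h6]
            · rw [h6, hgu, hgi]
          · have h6 := hp.2
            rw [if_neg (by simp [h5])] at h6
            subst h6
            refine ⟨Or.inr (Or.inl ?_), Or.inr (Or.inl ?_), Or.inr (Or.inl ?_)⟩
            · rw [hgi, hgu]
            · rw [hgu, hgi]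
            · rw [hgu, hgi]
        refine ⟨?_, ?_⟩
        · intro x h3 h4
          rcases Nat.eq_or_lt_of_le h3 with h5 | h5
          · subst h5
            exact hall.1
          · exact h.1 x (by omega) (by omega)
        · intro q v hq
          rw [List.zip_cons_cons] at hq
          rcases List.mem_cons.1 hq with hq | hq
          · simp only [Prod.mk.injEq] at hq
            obtain ⟨rfl, rfl⟩ := hq
            rw [hc1, List.getD_cons_zero]
            exact hall.2
          · have h7 := h.2 (q.1, q.2 - 1) v (by
              rw [hz, List.mem_map]
              exact ⟨(q, v), hq, rfl⟩)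
            rw [getD_cons_pos (hc2 q (List.of_mem_zip hq).1)]
            exact h7
    | B =>
      obtain ⟨u, us, rfl, hgu, hv⟩ := hv
      match s, hr, l1, ht with
      | [], _, l1, _ => simp at l1
      | p :: s', hr, l1, ht =>
        simp only [stepS] at ht
        split_ifs at ht with hc
        simp only [Option.some.injEq] at ht
        subst ht
        simp only [List.length_cons] at l1 l2
        have hz := zip_snoc (show s'.length = us.length by omega) (true, p.2) i
        have hp := hr.r p u (by rw [List.zip_cons_cons]; simp)
        have h6 := hp.2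
        rw [if_neg (by simp [hc])] at h6
        have hr' : Rel g (s' ++ [(true, p.2)]) (us ++ [i]) ls := by
          refine ⟨by simp; omega, by simp; omega, ?_⟩
          intro q v hq
          rw [hz, List.mem_append, List.mem_singleton] at hq
          rcases hq with hq | hq
          · exact hr.r q v (by rw [List.zip_cons_cons]; exact List.mem_cons_of_mem _ hq)
          · simp only [Prod.mk.injEq] at hq
            obtain ⟨rfl, rfl⟩ := hq
            refine ⟨hp.1, ?_⟩
            simp only [if_true]
            rw [← h6]
            exact hgu
        have h := ih (i + 1) _ _ _ hr' hacc hv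
        have h2 := h.2
        rw [hz] at h2
        have h7 := h2 (true, p.2) i (by simp)
        refine ⟨?_, ?_⟩
        · intro x h3 h4
          rcases Nat.eq_or_lt_of_le h3 with h5 | h5
          · subst h5
            exact h7.1
          · exact h.1 x (by omega) (by omega)
        · intro q v hq
          rw [List.zip_cons_cons] at hq
          rcases List.mem_cons.1 hq with hq | hq
          · simp only [Prod.mk.injEq] at hq
            obtain ⟨rfl, rfl⟩ := hq
            refine ⟨?_, h7.2⟩
            rw [h6]
            exact h7.2
          · exact h2 q v (List.mem_append_left _ hq)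
    | C =>
      obtain ⟨l, ls, rfl, hgi, hv⟩ := hv
      simp only [stepS] at ht
      split_ifs at ht with hc
      simp only [Option.some.injEq] at ht
      subst ht
      obtain ⟨hc1, hc2⟩ := hc
      simp only [List.length_cons] at l2
      have hz : ((s.map fun q => if q.2 = 0 then (true, s.length - 1) else (q.1, q.2 - 1)).zip us) =
          (s.zip us).map (fun r => ((if r.1.2 = 0 then (true, s.length - 1) else
            (r.1.1, r.1.2 - 1)), r.2)) := by
        rw [List.zip_map_left]
        rfl
      have hr' : Rel g (s.map fun q => if q.2 = 0 then (true, s.length - 1) else (q.1, q.2 - 1)) us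
          (ls ++ [i]) := by
        refine ⟨by simp; omega, by simp; omega, ?_⟩
        intro q v hq
        rw [hz, List.mem_map] at hq
        obtain ⟨⟨q', v'⟩, hm, he⟩ := hq
        simp only [Prod.mk.injEq] at he
        obtain ⟨rfl, rfl⟩ := he
        have h1 := hr.r q' v' hm
        by_cases h5 : q'.2 = 0
        · rw [if_pos h5]
          simp only [if_true, List.length_append, List.length_singleton]
          refine ⟨by omega, ?_⟩
          rw [getD_snoc_eq (by omega)]
          rw [h5, if_neg (by simp [hc2 q' (List.of_mem_zip hm).1 h5])] at h1
          rw [h1.2, hgi]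
          simp
        · rw [if_neg h5]
          rw [getD_cons_pos h5, List.length_cons] at h1
          simp only [List.length_append, List.length_singleton]
          refine ⟨by omega, ?_⟩
          rw [getD_snoc_lt (by omega)]
          exact h1.2
      have h := ih (i + 1) _ _ _ hr' hacc hv
      have h2 := h.2
      rw [hz] at h2
      have h0 : ∀ q u, (q, u) ∈ s.zip us → q.2 = 0 → c3 g u ∧ c3 g i ∧ u = l := by
        intro q u hq h5
        have h7 := h2 (true, s.length - 1) u (by
          rw [List.mem_map]
          exact ⟨(q, u), hq, by simp [h5]⟩)
        rw [getD_snoc_eq (by simp only; omega)] at h7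
        refine ⟨h7.1, h7.2, ?_⟩
        have h1 := hr.r q u hq
        rw [h5, if_neg (by simp [hc2 q (List.of_mem_zip hq).1 h5])] at h1
        simpa using h1.2
      refine ⟨?_, ?_⟩
      · intro x h3 h4
        rcases Nat.eq_or_lt_of_le h3 with h5 | h5
        · subst h5
          obtain ⟨k, hk, he⟩ := List.getElem_of_mem hc1
          have hk' : k < us.length := by omega
          have hm : ((false, 0), us[k]) ∈ s.zip us := by
            rw [List.mem_iff_getElem]
            refine ⟨k, by simp; omega, ?_⟩
            rw [List.getElem_zip, he]
          exact (h0 _ _ hm rfl).2.1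
        · exact h.1 x (by omega) (by omega)
      · intro q v hq
        by_cases h5 : q.2 = 0
        · have h7 := h0 q v hq h5
          rw [h5, List.getD_cons_zero]
          refine ⟨h7.1, ?_⟩
          rw [← h7.2.2]
          exact h7.1
        · have h7 := h2 (q.1, q.2 - 1) v (by
            rw [List.mem_map]
            exact ⟨(q, v), hq, by simp [h5]⟩)
          have h8 := (hr.r q v hq).1
          rw [List.length_cons] at h8
          rw [getD_snoc_lt (by simp only; omega)] at h7
          rw [getD_cons_pos h5]
          exact h7

/-- every accepted word is followed by a function -/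
lemma exists_valid : ∀ (w : List Let) (i : ℕ) (s : St) (us ls : List ℕ), s.length = us.length →
    us.length = ls.length → WF i us → WF i ls → acc w s → ∃ g, Valid g w i us ls := by
  intro w
  induction w with
  | nil =>
    intro i s us ls l1 l2 _ _ hacc
    have h : s = [] := hacc
    subst h
    have h1 := List.eq_nil_of_length_eq_zero l1.symm
    subst h1
    have h2 := List.eq_nil_of_length_eq_zero l2.symm
    subst h2
    exact ⟨id, rfl, rfl⟩
  | cons a w ih =>
    intro i s us ls l1 l2 hu hl hacc
    obtain ⟨t, ht, hacc⟩ := hacc
    cases a with
    | O =>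
      simp only [stepS] at ht
      split_ifs at ht
      simp only [Option.some.injEq] at ht
      subst ht
      exact ih (i + 1) _ _ _ (by simp [l1]) (by simp [l2]) hu.snoc hl.snoc hacc
    | F =>
      simp only [stepS] at ht
      split_ifs at ht with hs
      simp only [Option.some.injEq] at ht
      subst ht
      subst hs
      have h1 := List.eq_nil_of_length_eq_zero l1.symm
      subst h1
      have h2 := List.eq_nil_of_length_eq_zero l2.symm
      subst h2
      obtain ⟨g, hg⟩ := ih (i + 1) [] [] [] rfl rfl (WF.nil _) (WF.nil _) hacc
      refine ⟨Function.update g i i, rfl, rfl, by simp, ?_⟩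
      refine valid_congr w (i + 1) _ _ ?_ hg
      intro x hx
      rw [Function.update_of_ne]
      rcases hx with hx | hx
      · simp at hx
      · omega
    | X =>
      match s, us, ls, l1, l2, hu, hl, ht with
      | [], _, _, _, _, _, _, ht => simp [stepS] at ht
      | p :: s', [], _, l1, _, _, _, _ => simp at l1
      | p :: s', u :: us, [], _, l2, _, _, _ => simp at l2
      | p :: s', u :: us, l :: ls, l1, l2, hu, hl, ht =>
        simp only [stepS] at ht
        split_ifs at ht with hc
        simp only [Option.some.injEq] at ht
        subst ht
        simp only [List.length_cons] at l1 l2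
        obtain ⟨g, hg⟩ := ih (i + 1) _ us ls (by simp; omega) (by omega) hu.tail.mono hl.tail.mono hacc
        have hui := hu.head
        refine ⟨Function.update (Function.update g u i) i l, u, us, l, ls, rfl, rfl, ?_, by simp, ?_⟩
        · rw [Function.update_of_ne (by omega), Function.update_self]
        · refine valid_congr w (i + 1) _ _ ?_ hg
          intro x hx
          have h5 : x ≠ i ∧ x ≠ u := by
            rcases hx with hx | hx
            · have := hu.head_lt x hx
              have := hu.tail.2 x hx
              omega
            · omega
          rw [Function.update_of_ne h5.1, Function.update_of_ne h5.2]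
    | B =>
      match s, us, l1, hu, l2, ht with
      | [], _, _, _, _, ht => simp [stepS] at ht
      | p :: s', [], l1, _, _, _ => simp at l1
      | p :: s', u :: us, l1, hu, l2, ht =>
        simp only [stepS] at ht
        split_ifs at ht with hc
        simp only [Option.some.injEq] at ht
        subst ht
        simp only [List.length_cons] at l1 l2
        obtain ⟨g, hg⟩ := ih (i + 1) _ (us ++ [i]) ls (by simp; omega) (by simp; omega)
          hu.tail.snoc hl.mono hacc
        have hui := hu.head
        refine ⟨Function.update g u i, u, us, rfl, by simp, ?_⟩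
        refine valid_congr w (i + 1) _ _ ?_ hg
        intro x hx
        have h5 : x ≠ u := by
          rcases hx with hx | hx
          · simp only [List.mem_append, List.mem_singleton] at hx
            rcases hx with hx | hx
            · have := hu.head_lt x hx
              omega
            · omega
          · omega
        rw [Function.update_of_ne h5]
    | C =>
      simp only [stepS] at ht
      split_ifs at ht with hc
      simp only [Option.some.injEq] at ht
      subst ht
      match ls, l2, hl with
      | [], l2, _ =>
        exfalso
        have h1 := List.eq_nil_of_length_eq_zero l2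
        subst h1
        have h2 := List.eq_nil_of_length_eq_zero l1
        subst h2
        simp at hc
      | l :: ls, l2, hl =>
        simp only [List.length_cons] at l2
        obtain ⟨g, hg⟩ := ih (i + 1) _ us (ls ++ [i]) (by simp; omega) (by simp; omega)
          hu.mono hl.tail.snoc hacc
        refine ⟨Function.update g i l, l, ls, rfl, by simp, ?_⟩
        refine valid_congr w (i + 1) _ _ ?_ hg
        intro x hx
        have h5 : x ≠ i := by
          rcases hx with hx | hx
          · have := hu.2 x hx
            omega
          · omega
        rw [Function.update_of_ne h5]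

/-- the letters -/
def letters : List Let := [.O, .F, .X, .B, .C]

/-- the number of accepted words -/
def cnt : ℕ → St → ℕ
  | 0, s => if s = [] then 1 else 0
  | m + 1, s => ((letters.filterMap (stepS s)).map (cnt m)).sum

/-- the accepted words -/
def words : ℕ → St → List (List Let)
  | 0, s => if s = [] then [[]] else []
  | m + 1, s => letters.flatMap fun a => match stepS s a with
    | none => []
    | some t => (words m t).map fun w => a :: w

lemma length_words (m : ℕ) : ∀ s, (words m s).length = cnt m s := by
  induction m with
  | zero => intro s; simp only [words, cnt]; split_ifs <;> rfl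
  | succ m ih =>
    intro s
    have key : ∀ l : List Let, (l.flatMap fun a => match stepS s a with
        | none => []
        | some t => (words m t).map fun w => a :: w).length =
        ((l.filterMap (stepS s)).map (cnt m)).sum := by
      intro l
      induction l with
      | nil => rfl
      | cons a l ihl =>
        rw [List.flatMap_cons, List.length_append, ihl]
        cases h : stepS s a with
        | none => simp [h]
        | some t => simp [h, ih t]
    exact key letters

lemma words_spec (m : ℕ) : ∀ s, ∀ w ∈ words m s, w.length = m ∧ acc w s := by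
  induction m with
  | zero =>
    intro s w hw
    simp only [words] at hw
    split_ifs at hw with h
    · simp only [List.mem_singleton] at hw
      subst hw
      exact ⟨rfl, h⟩
    · simp at hw
  | succ m ih =>
    intro s w hw
    simp only [words, List.mem_flatMap] at hw
    obtain ⟨a, -, hw⟩ := hw
    cases h : stepS s a with
    | none => rw [h] at hw; simp at hw
    | some t =>
      rw [h] at hw
      simp only [List.mem_map] at hw
      obtain ⟨w', hw', rfl⟩ := hw
      have := ih t w' hw'
      exact ⟨by simp [this.1], t, h, this.2⟩

lemma nodup_words (m : ℕ) : ∀ s, (words m s).Nodup := by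
  induction m with
  | zero => intro s; simp only [words]; split_ifs <;> simp
  | succ m ih =>
    intro s
    simp only [words]
    rw [List.nodup_flatMap]
    constructor
    · intro a _
      cases h : stepS s a with
      | none => simp
      | some t =>
        simp only
        exact (ih t).map (fun x y hxy => (List.cons_eq_cons.1 hxy).2)
    · have h1 : letters.Pairwise (· ≠ ·) := by decide
      refine h1.imp ?_
      intro a b hab
      simp only [Function.onFun, List.disjoint_left]
      intro w hw hw'
      cases h : stepS s a with
      | none => rw [h] at hw; simp at hw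
      | some t =>
        cases h' : stepS s b with
        | none => rw [h'] at hw'; simp at hw'
        | some t' =>
          rw [h] at hw
          rw [h'] at hw'
          simp only [List.mem_map] at hw hw'
          obtain ⟨x, _, rfl⟩ := hw
          obtain ⟨y, _, hy⟩ := hw'
          exact hab (List.cons_eq_cons.1 hy).1.symm

/-- the number of 321-avoiding permutations with cycles of length at most three is at least the number
of accepted words -/
lemma cnt_le (n : ℕ) (P : Finset (Equiv.Perm (Fin n)))
    (hP : ∀ π : Equiv.Perm (Fin n), (∀ x y z, x < y → y < z → z < n → ¬ (fn π z < fn π y ∧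
      fn π y < fn π x)) → (∀ x < n, c3 (fn π) x) → π ∈ P) : cnt n [] ≤ P.card := by
  classical
  have hex : ∀ w : List Let, w ∈ words n [] → ∃ π : Equiv.Perm (Fin n), π ∈ P ∧
      Valid (fn π) w 0 [] [] := by
    intro w hw
    obtain ⟨hlen, hacc⟩ := words_spec n [] w hw
    obtain ⟨g, hg⟩ := exists_valid w 0 [] [] [] rfl rfl (WF.nil _) (WF.nil _) hacc
    have h := good g w 0 [] [] (WF.nil _) (WF.nil _) hg
    rw [hlen] at h
    have hlt : ∀ i < n, g i < n := by
      intro i hi
      have := (h.p2 i (by omega) (by omega)).1
      omega
    have hD : ∀ x < n, D [] 0 n x := fun x hx => Or.inr (by omega)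
    have hne : ∀ i < n, ∀ j < n, i < j → g i ≠ g j := by
      intro i hi j hj hij
      rcases Nat.lt_or_ge i (g i) with h1 | h1
      · rcases Nat.lt_or_ge j (g j) with h2 | h2
        · have := h.p3 i j (hD i hi) (hD j hj) hij h1 h2
          omega
        · exact h.p5 i j (hD i hi) (by omega) (by omega) h1 h2
      · rcases Nat.lt_or_ge j (g j) with h2 | h2
        · exact (h.p5 j i (hD j hj) (by omega) (by omega) h2 h1).symm
        · have := h.p4 i j (by omega) (by omega) (by omega) (by omega) hij h1 h2
          omega
    have hinj : ∀ i < n, ∀ j < n, g i = g j → i = j := by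
      intro i hi j hj he
      rcases Nat.lt_trichotomy i j with h2 | h2 | h2
      · exact absurd he (hne i hi j hj h2)
      · exact h2
      · exact absurd he.symm (hne j hj i hi h2)
    have e : ∀ i < n, fn (ofFn n g hlt hinj) i = g i := fun i hi => fn_ofFn hi
    refine ⟨ofFn n g hlt hinj, hP _ ?_ ?_, ?_⟩
    · intro x y z hxy hyz hz
      rw [e x (by omega), e y (by omega), e z hz]
      rintro ⟨h1, h2⟩
      have a1 : x < n := by omega
      have a2 : y < n := by omega
      by_cases c1 : x < g x
      · have c2 : ¬ y < g y := fun c => by
          have := h.p3 x y (hD x a1) (hD y a2) hxy c1 c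
          omega
        have := h.p4 y z (by omega) (by omega) (by omega) (by omega) hyz (by omega) (by omega)
        omega
      · have c2 : y < g y := by
          by_contra c
          have := h.p4 x y (by omega) (by omega) (by omega) (by omega) hxy (by omega) (by omega)
          omega
        omega
    · intro x hx
      have hc := (cyc g w 0 [] [] [] ⟨rfl, rfl, by simp⟩ hacc hg).1 x (by omega) (by omega)
      have h1 := hlt x hx
      have h2 := hlt _ h1
      unfold c3 at hc ⊢
      rw [e x hx, e _ h1, e _ h2]
      exact hc
    · refine valid_congr w 0 [] [] ?_ hg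
      intro x hx
      rw [hlen] at hx
      rcases hx with hx | hx
      · simp at hx
      · rw [e x (by omega)]
  choose! f hf1 hf2 using hex
  rw [← length_words, ← List.toFinset_card_of_nodup (nodup_words n [])]
  apply Finset.card_le_card_of_injOn f
  · intro w hw
    exact hf1 w (List.mem_toFinset.1 hw)
  · intro w hw w' hw' he
    have h1 := List.mem_toFinset.1 hw
    have h2 := List.mem_toFinset.1 hw'
    have h3 := hf2 w h1
    have h4 := hf2 w' h2
    rw [← he] at h4
    exact valid_unique w w' 0 [] [] (by rw [(words_spec n [] w h1).1, (words_spec n [] w' h2).1])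
      (WF.nil _) (WF.nil _) h3 h4

/-- the reachable states -/
def states : List St := [
  [],
  [(false, 0)],
  [(false, 0), (false, 1)],
  [(true, 0)],
  [(false, 0), (false, 1), (false, 2)],
  [(false, 1), (true, 0)],
  [(true, 1), (false, 0)],
  [(true, 0), (false, 1)],
  [(false, 0), (false, 1), (false, 2), (false, 3)],
  [(false, 1), (false, 2), (true, 0)],
  [(true, 2), (false, 0), (false, 1)],
  [(false, 1), (true, 0), (false, 2)],
  [(true, 0), (true, 1)],
  [(true, 1), (false, 0), (false, 2)],
  [(true, 0), (false, 1), (false, 2)],
  [(false, 1), (false, 2), (false, 3), (true, 0)],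
  [(true, 3), (false, 0), (false, 1), (false, 2)],
  [(false, 1), (false, 2), (true, 0), (false, 3)],
  [(false, 2), (true, 0), (true, 1)],
  [(true, 2), (false, 0), (false, 1), (false, 3)],
  [(true, 1), (true, 2), (false, 0)],
  [(false, 1), (true, 0), (false, 2), (false, 3)],
  [(true, 0), (false, 2), (true, 1)],
  [(true, 0), (true, 1), (false, 2)],
  [(true, 1), (false, 0), (false, 2), (false, 3)],
  [(true, 0), (true, 2), (false, 1)],
  [(true, 0), (false, 1), (false, 2), (false, 3)],
  [(false, 2), (false, 3), (true, 0), (true, 1)],
  [(true, 2), (true, 3), (false, 0), (false, 1)],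
  [(false, 2), (true, 0), (false, 3), (true, 1)],
  [(false, 2), (true, 0), (true, 1), (false, 3)],
  [(true, 0), (true, 1), (true, 2)],
  [(true, 1), (true, 3), (false, 0), (false, 2)],
  [(true, 1), (true, 2), (false, 0), (false, 3)],
  [(true, 0), (false, 2), (false, 3), (true, 1)],
  [(true, 0), (false, 2), (true, 1), (false, 3)],
  [(true, 0), (true, 1), (false, 2), (false, 3)],
  [(true, 0), (true, 3), (false, 1), (false, 2)],
  [(true, 0), (true, 2), (false, 1), (false, 3)],
  [(false, 3), (true, 0), (true, 1), (true, 2)],
  [(true, 1), (true, 2), (true, 3), (false, 0)],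
  [(true, 0), (false, 3), (true, 1), (true, 2)],
  [(true, 0), (true, 1), (false, 3), (true, 2)],
  [(true, 0), (true, 1), (true, 2), (false, 3)],
  [(true, 0), (true, 2), (true, 3), (false, 1)],
  [(true, 0), (true, 1), (true, 3), (false, 2)],
  [(true, 0), (true, 1), (true, 2), (true, 3)]]

/-- the transitions -/
def trans : List (List ℕ) := [
  [1, 0],
  [2, 0, 3, 3],
  [4, 1, 5, 6],
  [7, 0],
  [8, 2, 9, 10],
  [11, 12],
  [13, 12],
  [14, 1],
  [4, 15, 16],
  [17, 18],
  [19, 20],
  [21, 22],
  [23, 3],
  [24, 25],
  [26, 2],
  [27],
  [28],
  [29],
  [30, 31],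
  [32],
  [33, 31],
  [34],
  [35, 5],
  [36, 7],
  [37],
  [38, 6],
  [4],
  [39],
  [40],
  [41],
  [42],
  [43, 12],
  [44],
  [45],
  [9],
  [11],
  [14],
  [10],
  [13],
  [46],
  [46],
  [18],
  [22],
  [23],
  [20],
  [25],
  [31]]

lemma trans_ok : states.map (fun s => letters.filterMap (stepS s)) =
    trans.map (fun l => l.map fun b => states.getD b []) := by decide +kernel

lemma trans_lt : ∀ l ∈ trans, ∀ b ∈ l, b < 47 := by decide +kernel

/-- one step of the counts -/
def stepV (v : List ℕ) : List ℕ := trans.map fun l => (l.map fun b => v.getD b 0).sum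

lemma stepV_spec (m : ℕ) : states.map (cnt (m + 1)) = stepV (states.map (cnt m)) := by
  have h1 : states.map (cnt (m + 1)) =
      (states.map (fun s => letters.filterMap (stepS s))).map (fun l => (l.map (cnt m)).sum) := by
    rw [List.map_map]
    rfl
  rw [h1, trans_ok, List.map_map]
  unfold stepV
  apply List.map_congr_left
  intro l hl
  simp only [Function.comp]
  rw [List.map_map]
  congr 1
  apply List.map_congr_left
  intro b hb
  have h2 := trans_lt l hl b hb
  have h3 : b < states.length := h2
  simp only [Function.comp]
  rw [List.getD_eq_getElem _ _ h3, List.getD_eq_getElem _ _ (by rw [List.length_map]; exact h3),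
    List.getElem_map]

lemma v0 : states.map (cnt 0) = [1, 0, 0, 0, 0, 0, 0, 0, 0, 0, 0, 0, 0, 0, 0, 0, 0, 0, 0, 0, 0, 0, 0, 0, 0, 0, 0, 0, 0, 0, 0, 0, 0, 0, 0, 0, 0, 0, 0, 0, 0, 0, 0, 0, 0, 0, 0] := by decide +kernel

lemma v1 : states.map (cnt 1) = [1, 1, 0, 1, 0, 0, 0, 0, 0, 0, 0, 0, 0, 0, 0, 0, 0, 0, 0, 0, 0, 0, 0, 0, 0, 0, 0, 0, 0, 0, 0, 0, 0, 0, 0, 0, 0, 0, 0, 0, 0, 0, 0, 0, 0, 0, 0] := by
  rw [stepV_spec, v0]
  decide +kernel

lemma v2 : states.map (cnt 2) = [2, 3, 1, 1, 0, 0, 0, 1, 0, 0, 0, 0, 1, 0, 0, 0, 0, 0, 0, 0, 0, 0, 0, 0, 0, 0, 0, 0, 0, 0, 0, 0, 0, 0, 0, 0, 0, 0, 0, 0, 0, 0, 0, 0, 0, 0, 0] := by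
  rw [stepV_spec, v1]
  decide +kernel

lemma v3 : states.map (cnt 3) = [5, 5, 3, 3, 1, 1, 1, 3, 0, 0, 0, 0, 1, 0, 1, 0, 0, 0, 0, 0, 0, 0, 0, 1, 0, 0, 0, 0, 0, 0, 0, 1, 0, 0, 0, 0, 0, 0, 0, 0, 0, 0, 0, 0, 0, 0, 0] := by
  rw [stepV_spec, v2]
  decide +kernel

lemma v4 : states.map (cnt 4) = [10, 14, 8, 8, 3, 1, 1, 6, 1, 0, 0, 0, 4, 0, 3, 0, 0, 0, 1, 0, 1, 0, 1, 3, 0, 1, 1, 0, 0, 0, 0, 1, 0, 0, 0, 0, 1, 0, 0, 0, 0, 0, 0, 1, 0, 0, 1] := by
  rw [stepV_spec, v3]
  decide +kernel

lemma v5 : states.map (cnt 5) = [24, 34, 19, 16, 9, 4, 4, 17, 3, 1, 1, 1, 11, 1, 9, 0, 0, 0, 1, 0, 1, 0, 1, 7, 0, 1, 3, 0, 0, 0, 0, 5, 0, 0, 0, 0, 3, 0, 0, 1, 1, 1, 1, 3, 1, 1, 1] := by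
  rw [stepV_spec, v4]
  decide +kernel

lemma v6 : states.map (cnt 6) = [58, 75, 51, 41, 24, 12, 12, 43, 9, 1, 1, 1, 23, 1, 22, 0, 0, 0, 5, 0, 5, 0, 4, 20, 0, 4, 9, 1, 1, 1, 1, 14, 1, 1, 1, 1, 9, 1, 1, 1, 1, 1, 1, 7, 1, 1, 5] := by
  rw [stepV_spec, v5]
  decide +kernel

lemma v7 : states.map (cnt 7) = [133, 191, 123, 101, 62, 24, 24, 97, 24, 5, 5, 4, 61, 4, 60, 1, 1, 1, 15, 1, 15, 1, 13, 52, 1, 13, 24, 1, 1, 1, 1, 30, 1, 1, 1, 1, 22, 1, 1, 5, 5, 5, 4, 20, 5, 4, 14] := by
  rw [stepV_spec, v6]
  decide +kernel

lemma v8 : states.map (cnt 8) = [324, 458, 301, 230, 157, 65, 65, 251, 64, 16, 16, 14, 153, 14, 147, 1, 1, 1, 31, 1, 31, 1, 25, 119, 1, 25, 62, 5, 5, 5, 4, 81, 5, 4, 5, 4, 60, 5, 4, 14, 14, 15, 13, 52, 15, 13, 30] := by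
  rw [stepV_spec, v7]
  decide +kernel

lemma v9 : states.map (cnt 9) = [782, 1085, 745, 575, 397, 167, 167, 605, 159, 32, 32, 26, 349, 26, 363, 5, 5, 5, 85, 5, 85, 5, 69, 311, 5, 69, 157, 14, 14, 15, 13, 205, 15, 13, 16, 14, 147, 16, 14, 30, 30, 31, 25, 119, 31, 25, 81] := by
  rw [stepV_spec, v8]
  decide +kernel

lemma v10 : states.map (cnt 10) = [1867, 2677, 1816, 1387, 968, 375, 375, 1448, 407, 90, 90, 74, 886, 74, 902, 14, 14, 15, 218, 15, 218, 16, 181, 752, 16, 181, 397, 30, 30, 31, 25, 468, 31, 25, 32, 26, 363, 32, 26, 81, 81, 85, 69, 311, 85, 69, 205] := by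
  rw [stepV_spec, v9]
  decide +kernel

lemma v11 : states.map (cnt 11) = [4544, 6457, 4395, 3315, 2403, 960, 960, 3579, 996, 233, 233, 197, 2139, 197, 2213, 30, 30, 31, 493, 31, 493, 32, 401, 1811, 32, 401, 968, 81, 81, 85, 69, 1197, 85, 69, 90, 74, 902, 90, 74, 205, 205, 218, 181, 752, 218, 181, 468] := by
  rw [stepV_spec, v10]
  decide +kernel

lemma v12 : states.map (cnt 12) = [11001, 15569, 10780, 8123, 5857, 2336, 2336, 8670, 2463, 524, 524, 433, 5126, 433, 5363, 81, 81, 85, 1266, 85, 1266, 90, 1034, 4481, 90, 1034, 2403, 205, 205, 218, 181, 2891, 218, 181, 233, 197, 2213, 233, 197, 468, 468, 493, 401, 1811, 493, 401, 1197] := by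
  rw [stepV_spec, v11]
  decide +kernel

lemma v13 : states.map (cnt 13) = [26570, 38027, 26098, 19671, 14291, 5559, 5559, 20932, 6019, 1351, 1351, 1124, 12604, 1124, 13183, 205, 205, 218, 3072, 218, 3072, 233, 2533, 10883, 233, 2533, 5857, 468, 468, 493, 401, 6937, 493, 401, 524, 433, 5363, 524, 433, 1197, 1197, 1266, 1034, 4481, 1266, 1034, 2891] := by
  rw [stepV_spec, v12]
  decide +kernel

lemma v14 : states.map (cnt 14) = [64597, 92010, 63436, 47502, 34819, 13728, 13728, 51210, 14701, 3290, 3290, 2766, 30554, 2766, 31955, 468, 468, 493, 7338, 493, 7338, 524, 5992, 26295, 524, 5992, 14291, 1197, 1197, 1266, 1034, 17085, 1266, 1034, 1351, 1124, 13183, 1351, 1124, 2891, 2891, 3072, 2533, 10883, 3072, 2533, 6937] := by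
  rw [stepV_spec, v13]
  decide +kernel

lemma v15 : states.map (cnt 15) = [156607, 223037, 154285, 115807, 84717, 33320, 33320, 123965, 35755, 7831, 7831, 6516, 73797, 6516, 77727, 1197, 1197, 1266, 18119, 1266, 18119, 1351, 14852, 64393, 1351, 14852, 34819, 2891, 2891, 3072, 2533, 41437, 3072, 2533, 3290, 2766, 31955, 3290, 2766, 6937, 6937, 7338, 5992, 26295, 7338, 5992, 17085] := by
  rw [stepV_spec, v14]
  decide +kernel

lemma v16 : states.map (cnt 16) = [379644, 542506, 374394, 280572, 205702, 80313, 80313, 300764, 87111, 19385, 19385, 16203, 180200, 16203, 189104, 2891, 2891, 3072, 43970, 3072, 43970, 3290, 36086, 155920, 3290, 36086, 84717, 6937, 6937, 7338, 5992, 100092, 7338, 5992, 7831, 6516, 77727, 7831, 6516, 17085, 17085, 18119, 14852, 64393, 18119, 14852, 41437] := by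
  rw [stepV_spec, v15]
  decide +kernel

lemma v17 : states.map (cnt 17) = [922150, 1315182, 908834, 680408, 500275, 196403, 196403, 731610, 211484, 47042, 47042, 39376, 436492, 39376, 459111, 6937, 6937, 7338, 106084, 7338, 106084, 7831, 86829, 378491, 7831, 86829, 205702, 17085, 17085, 18119, 14852, 244593, 18119, 14852, 19385, 16203, 189104, 19385, 16203, 41437, 41437, 43970, 36086, 155920, 43970, 36086, 100092] := by
  rw [stepV_spec, v16]
  decide +kernel

lemma v18 : states.map (cnt 18) = [2237332, 3191800, 2208263, 1653760, 1214402, 475868, 475868, 1774293, 514149, 113422, 113422, 94660, 1058899, 94660, 1114536, 17085, 17085, 18119, 259445, 18119, 259445, 19385, 212606, 920714, 19385, 212606, 500275, 41437, 41437, 43970, 36086, 592412, 43970, 36086, 47042, 39376, 459111, 47042, 39376, 100092, 100092, 106084, 86829, 378491, 106084, 86829, 244593] := by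
  rw [stepV_spec, v17]
  decide +kernel

lemma v19 : states.map (cnt 19) = [5429132, 7753115, 5357938, 4011625, 2949256, 1153559, 1153559, 4306336, 1248572, 277564, 277564, 231991, 2574474, 231991, 2708538, 41437, 41437, 43970, 628498, 43970, 628498, 47042, 515244, 2233404, 47042, 515244, 1214402, 100092, 100092, 106084, 86829, 1437390, 106084, 86829, 113422, 94660, 1114536, 113422, 94660, 244593, 244593, 259445, 212606, 920714, 259445, 212606, 592412] := by
  rw [stepV_spec, v18]
  decide +kernel

lemma v20 : states.map (cnt 20) = [13182247, 18810320, 13009489, 9735468, 7161638, 2806465, 2806465, 10461653, 3032130, 672468, 672468, 562286, 6245029, 562286, 6572340, 100092, 100092, 106084, 1524219, 106084, 1524219, 113422, 1248219, 5420872, 113422, 1248219, 2949256, 244593, 244593, 259445, 212606, 3495188, 259445, 212606, 277564, 231991, 2708538, 277564, 231991, 592412, 592412, 628498, 515244, 2233404, 628498, 515244, 1437390] := by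
  rw [stepV_spec, v19]
  decide +kernel

lemma v21 : states.map (cnt 21) = [31992567, 45662672, 31584888, 23643900, 17386555, 6807315, 6807315, 25382660, 7361822, 1630303, 1630303, 1361641, 15156340, 1361641, 15958745, 244593, 244593, 259445, 3707794, 259445, 3707794, 277564, 3038456, 13170191, 277564, 3038456, 7161638, 592412, 592412, 628498, 515244, 8478433, 628498, 515244, 672468, 562286, 6572340, 672468, 562286, 1437390, 1437390, 1524219, 1248219, 5420872, 1524219, 1248219, 3495188] := by
  rw [stepV_spec, v20]
  decide +kernel

lemma v22 : states.map (cnt 22) = [77655239, 110865255, 76663857, 57375227, 42207316, 16517981, 16517981, 61621417, 17875741, 3967239, 3967239, 3316020, 36814091, 3316020, 38746526, 592412, 592412, 628498, 8993677, 628498, 8993677, 672468, 7369601, 31955000, 672468, 7369601, 17386555, 1437390, 1437390, 1524219, 1248219, 20577212, 1524219, 1248219, 1630303, 1361641, 15958745, 1630303, 1361641, 3495188, 3495188, 3707794, 3038456, 13170191, 3707794, 3038456, 8478433] := by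
  rw [stepV_spec, v21]
  decide +kernel

lemma v23 : states.map (cnt 23) = [188520494, 269069550, 186108533, 139276656, 102474076, 40130111, 40130111, 149611781, 43392140, 9622175, 9622175, 8042069, 89330227, 8042069, 94050412, 1437390, 1437390, 1524219, 21825431, 1524219, 21825431, 1630303, 17879622, 77580162, 1630303, 17879622, 42207316, 3495188, 3495188, 3707794, 3038456, 49984282, 3707794, 3038456, 3967239, 3316020, 38746526, 3967239, 3316020, 8478433, 8478433, 8993677, 7369601, 31955000, 8993677, 7369601, 20577212] := by
  rw [stepV_spec, v22]
  decide +kernel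

lemma v24 : states.map (cnt 24) = [457590044, 653182339, 451803848, 338132275, 248745023, 97372296, 97372296, 363119962, 105348856, 23349650, 23349650, 19509925, 216856818, 19509925, 228315849, 3495188, 3495188, 3707794, 53022738, 3707794, 53022738, 3967239, 43446131, 188358307, 3967239, 43446131, 102474076, 8478433, 8478433, 8993677, 7369601, 121285227, 8993677, 7369601, 9622175, 8042069, 94050412, 9622175, 8042069, 20577212, 20577212, 21825431, 17879622, 77580162, 21825431, 17879622, 49984282] := by
  rw [stepV_spec, v23]
  decide +kernel

lemma v25 : states.map (cnt 25) = [1110772383, 1585658442, 1096671954, 820710006, 603852004, 236366743, 236366743, 881498188, 255735399, 56730532, 56730532, 47413370, 526490582, 47413370, 554277924, 8478433, 8478433, 8993677, 128654828, 8993677, 128654828, 9622175, 105414365, 457170374, 9622175, 105414365, 248745023, 20577212, 20577212, 21825431, 17879622, 294436980, 21825431, 17879622, 23349650, 19509925, 228315849, 23349650, 19509925, 49984282, 49984282, 53022738, 43446131, 188358307, 53022738, 43446131, 121285227] := by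
  rw [stepV_spec, v24]
  decide +kernel

lemma v26 : states.map (cnt 26) = [2696430825, 3848864349, 2662243932, 1992270571, 1465868417, 573903952, 573903952, 2139936366, 620808870, 137648505, 137648505, 115036540, 1277880380, 115036540, 1345416977, 20577212, 20577212, 21825431, 312316602, 21825431, 312316602, 23349650, 255876668, 1109814037, 23349650, 255876668, 603852004, 49984282, 49984282, 53022738, 43446131, 714848889, 53022738, 43446131, 56730532, 47413370, 554277924, 56730532, 47413370, 121285227, 121285227, 128654828, 105414365, 457170374, 128654828, 105414365, 294436980] := by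
  rw [stepV_spec, v25]
  decide +kernel

lemma v27 : states.map (cnt 27) = [6545295174, 9343215899, 6462540670, 4836367191, 3558349812, 1392916920, 1392916920, 5194281326, 1507022841, 334142033, 334142033, 279226318, 3102084608, 279226318, 3266095936, 49984282, 49984282, 53022738, 758295020, 53022738, 758295020, 56730532, 621317322, 2694214290, 56730532, 621317322, 1465868417, 121285227, 121285227, 128654828, 105414365, 1735050754, 128654828, 105414365, 137648505, 115036540, 1345416977, 137648505, 115036540, 294436980, 294436980, 312316602, 255876668, 1109814037, 312316602, 255876668, 714848889] := by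
  rw [stepV_spec, v26]
  decide +kernel

lemma v28 : states.map (cnt 28) = [15888511073, 22680570226, 15687399551, 11739576500, 8637847577, 3381310926, 3381310926, 12609311835, 3658318376, 811317758, 811317758, 678047854, 7530581481, 678047854, 7928409087, 121285227, 121285227, 128654828, 1840465119, 128654828, 1840465119, 137648505, 1507953460, 6539698303, 137648505, 1507953460, 3558349812, 294436980, 294436980, 312316602, 255876668, 4211898645, 312316602, 255876668, 334142033, 279226318, 3266095936, 334142033, 279226318, 714848889, 714848889, 758295020, 621317322, 2694214290, 758295020, 621317322, 1735050754] := by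
  rw [stepV_spec, v27]
  decide +kernel

lemma v29 : states.map (cnt 29) = [38569081299, 55055063624, 38081039655, 28497822908, 20968353443, 8208629335, 8208629335, 30608979313, 8880418031, 1969119947, 1969119947, 1645601965, 18279274803, 1645601965, 19245749363, 294436980, 294436980, 312316602, 4467775313, 312316602, 4467775313, 334142033, 3660537244, 15875407771, 334142033, 3660537244, 8637847577, 714848889, 714848889, 758295020, 621317322, 10224795771, 758295020, 621317322, 811317758, 678047854, 7928409087, 811317758, 678047854, 1735050754, 1735050754, 1840465119, 1507953460, 6539698303, 1840465119, 1507953460, 4211898645] := by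
  rw [stepV_spec, v28]
  decide +kernel

lemma v30 : states.map (cnt 30) = [93624144923, 133645766770, 92440675737, 69178060612, 50899697580, 19924876768, 19924876768, 74300812987, 21557227403, 4780091915, 4780091915, 3994679277, 44373230679, 3994679277, 46718887232, 714848889, 714848889, 758295020, 10846113093, 758295020, 10846113093, 811317758, 8886677189, 38537388400, 811317758, 8886677189, 20968353443, 1735050754, 1735050754, 1840465119, 1507953460, 24818973106, 1840465119, 1507953460, 1969119947, 1645601965, 19245749363, 1969119947, 1645601965, 4211898645, 4211898645, 4467775313, 3660537244, 15875407771, 4467775313, 3660537244, 10224795771] := by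
  rw [stepV_spec, v29]
  decide +kernel

lemma v31 : states.map (cnt 31) = [227269911693, 324420941884, 224395217886, 167924957910, 123558086970, 48367909956, 48367909956, 180364654002, 52329395358, 11604408113, 11604408113, 9697994947, 107715449012, 9697994947, 113409029180, 1735050754, 1735050754, 1840465119, 26326926566, 1840465119, 26326926566, 1969119947, 21570478733, 93546562350, 1969119947, 21570478733, 50899697580, 4211898645, 4211898645, 4467775313, 3660537244, 60248638450, 4467775313, 3660537244, 4780091915, 3994679277, 46718887232, 4780091915, 3994679277, 10224795771, 10224795771, 10846113093, 8886677189, 38537388400, 10846113093, 8886677189, 24818973106] := by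
  rw [stepV_spec, v30]
  decide +kernel

lemma v32 : states.map (cnt 32) = [551690853577, 787515045399, 544714848766, 407634565695, 299933429470, 117413443959, 117413443959, 437829971064, 127028188478, 28167391685, 28167391685, 23539598680, 261471520260, 23539598680, 275294915466, 4211898645, 4211898645, 4467775313, 63909175694, 4467775313, 63909175694, 4780091915, 52362589233, 227083541234, 4780091915, 52362589233, 123558086970, 10224795771, 10224795771, 10846113093, 8886677189, 146252837412, 10846113093, 8886677189, 11604408113, 9697994947, 113409029180, 11604408113, 9697994947, 24818973106, 24818973106, 26326926566, 21570478733, 93546562350, 26326926566, 21570478733, 60248638450] := by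
  rw [stepV_spec, v31]
  decide +kernel

lemma v33 : states.map (cnt 33) = [1339205898976, 1911674833733, 1322275362787, 989520824641, 728077820614, 285011118940, 285011118940, 1062809960865, 308357226760, 68376951007, 68376951007, 57142681148, 634718106929, 57142681148, 668272935736, 10224795771, 10224795771, 10846113093, 155139514601, 10846113093, 155139514601, 11604408113, 127111438906, 551239000244, 11604408113, 127111438906, 299933429470, 24818973106, 24818973106, 26326926566, 21570478733, 355018082610, 26326926566, 21570478733, 28167391685, 23539598680, 275294915466, 28167391685, 23539598680, 60248638450, 60248638450, 63909175694, 52362589233, 227083541234, 63909175694, 52362589233, 146252837412] := by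
  rw [stepV_spec, v32]
  decide +kernel

lemma v34 : states.map (cnt 34) = [3250880732709, 4640522911045, 3209774892227, 2402015859841, 1767386491561, 691860788077, 691860788077, 2579947769469, 748527412156, 165985627694, 165985627694, 138715847019, 1540759824885, 138715847019, 1622208792257, 24818973106, 24818973106, 26326926566, 376588561343, 26326926566, 376588561343, 28167391685, 308550717620, 1338104876331, 28167391685, 308550717620, 728077820614, 60248638450, 60248638450, 63909175694, 52362589233, 861801648163, 63909175694, 52362589233, 68376951007, 57142681148, 668272935736, 68376951007, 57142681148, 146252837412, 146252837412, 155139514601, 127111438906, 551239000244, 155139514601, 127111438906, 355018082610] := by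
  rw [stepV_spec, v33]
  decide +kernel

lemma v35 : states.map (cnt 35) = [7891403643754, 11264687344618, 7791630978760, 5830828502178, 4290273559771, 1679475671904, 1679475671904, 6262731703302, 1817024437773, 402915487909, 402915487909, 336718109305, 3740120736172, 336718109305, 3937852712841, 60248638450, 60248638450, 63909175694, 914164237396, 63909175694, 914164237396, 68376951007, 749003469225, 3248220705205, 68376951007, 749003469225, 1767386491561, 146252837412, 146252837412, 155139514601, 127111438906, 2091998825129, 155139514601, 127111438906, 165985627694, 138715847019, 1622208792257, 165985627694, 138715847019, 355018082610, 355018082610, 376588561343, 308550717620, 1338104876331, 376588561343, 308550717620, 861801648163] := by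
  rw [stepV_spec, v34]
  decide +kernel

lemma v36 : states.map (cnt 36) = [19156090988372, 27344691626870, 18913912248197, 14154135347056, 10414486392351, 4076838845477, 4076838845477, 15202540057459, 4410770836671, 978073413090, 978073413090, 817380420232, 9079049207383, 817380420232, 9559017470321, 146252837412, 146252837412, 155139514601, 2219110264035, 155139514601, 2219110264035, 165985627694, 1818191518923, 7884940495559, 165985627694, 1818191518923, 4290273559771, 355018082610, 355018082610, 376588561343, 308550717620, 5078225612503, 376588561343, 308550717620, 402915487909, 336718109305, 3937852712841, 402915487909, 336718109305, 861801648163, 861801648163, 914164237396, 749003469225, 3248220705205, 914164237396, 749003469225, 2091998825129] := by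
  rw [stepV_spec, v35]
  decide +kernel

lemma v37 : states.map (cnt 37) = [46500782615242, 66378273930681, 45912855710175, 34358631045831, 25280829911048, 9896429627615, 9896429627615, 36903709097191, 10706992067175, 2374249778636, 2374249778636, 1984177146617, 22039075842615, 1984177146617, 23204185807968, 355018082610, 355018082610, 376588561343, 5386776330123, 376588561343, 5386776330123, 402915487909, 4413556954782, 19140392770300, 402915487909, 4413556954782, 10414486392351, 861801648163, 861801648163, 914164237396, 749003469225, 12327269912588, 914164237396, 749003469225, 978073413090, 817380420232, 9559017470321, 978073413090, 817380420232, 2091998825129, 2091998825129, 2219110264035, 1818191518923, 7884940495559, 2219110264035, 1818191518923, 5078225612503] := by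
  rw [stepV_spec, v36]
  decide +kernel

lemma v38 : states.map (cnt 38) = [112879056545923, 161130900417079, 111451963096959, 83404491712433, 61368347334622, 24023252989232, 24023252989232, 89582459738649, 25990866076268, 5763364891466, 5763364891466, 4816472442691, 53499023816131, 4816472442691, 56327342102526, 861801648163, 861801648163, 914164237396, 13076273381813, 914164237396, 13076273381813, 978073413090, 10713810047847, 46462726567512, 978073413090, 10713810047847, 25280829911048, 2091998825129, 2091998825129, 2219110264035, 1818191518923, 29924016338174, 2219110264035, 1818191518923, 2374249778636, 1984177146617, 23204185807968, 2374249778636, 1984177146617, 5078225612503, 5078225612503, 5386776330123, 4413556954782, 19140392770300, 5386776330123, 4413556954782, 12327269912588] := by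
  rw [stepV_spec, v37]
  decide +kernel

/-- the count for words of length 38 -/
lemma cnt38 : cnt 38 [] = 112879056545923 := by
  have hs : states = [] :: states.tail := rfl
  have h := v38
  rw [hs, List.map_cons] at h
  exact (List.cons_eq_cons.1 h).1

end Pool.Agent.R121.Cyc321
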