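import Pool.Agent.R121.GenTree

set_option autoImplicit false

/-! Permutations as functions on `ℕ`. -/

namespace Pool.Agent.R121

open Finset

/-- the function of a permutation -/
def fn {n : ℕ} (π : Equiv.Perm (Fin n)) (i : ℕ) : ℕ := if h : i < n then (π ⟨i, h⟩ : ℕ) else i

lemma fn_fin {n : ℕ} (π : Equiv.Perm (Fin n)) (i : Fin n) : fn π i = π i := by
  simp [fn]

lemma fn_lt {n : ℕ} (π : Equiv.Perm (Fin n)) {i : ℕ} (h : i < n) : fn π i < n := by
  simp [fn, h]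

lemma fn_self {n : ℕ} (π : Equiv.Perm (Fin n)) : fn π n = n := by simp [fn]

lemma fn_ge {n : ℕ} (π : Equiv.Perm (Fin n)) {i : ℕ} (h : n ≤ i) : fn π i = i := by
  simp [fn, show ¬ i < n by omega]

lemma fn_mul {n : ℕ} (π σ : Equiv.Perm (Fin n)) (i : ℕ) : fn (π * σ) i = fn π (fn σ i) := by
  by_cases h : i < n
  · have h1 : fn σ i = σ ⟨i, h⟩ := fn_fin σ ⟨i, h⟩
    rw [h1, fn_fin π (σ ⟨i, h⟩)]
    exact fn_fin (π * σ) ⟨i, h⟩
  · simp [fn, h]

lemma fn_inj {n : ℕ} (π : Equiv.Perm (Fin n)) : ∀ i < n, ∀ j < n, fn π i = fn π j → i = j := by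
  intro i hi j hj h
  have h1 := fn_fin π ⟨i, hi⟩
  have h2 := fn_fin π ⟨j, hj⟩
  simp only at h1 h2
  rw [h1, h2] at h
  have := π.injective (Fin.ext h)
  simpa using this

lemma fn_surj {n : ℕ} (π : Equiv.Perm (Fin n)) : ∀ w < n, ∃ i < n, fn π i = w := by
  intro w hw
  refine ⟨π.symm ⟨w, hw⟩, Fin.is_lt _, ?_⟩
  rw [fn_fin]
  simp

lemma ext_of_fn {n : ℕ} {π σ : Equiv.Perm (Fin n)} (h : ∀ i < n, fn π i = fn σ i) : π = σ := by
  apply Equiv.ext
  intro i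
  apply Fin.ext
  rw [← fn_fin, ← fn_fin]
  exact h i i.2

lemma exists_snoc {n : ℕ} (π : Equiv.Perm (Fin (n + 1))) : ∃ v τ, snocP v τ = π := by
  obtain ⟨⟨v, τ⟩, h⟩ := (snocP_bijective n).2 π
  exact ⟨v, τ, h⟩

lemma fn_snocP_lt {n : ℕ} (v : Fin (n + 1)) (τ : Equiv.Perm (Fin n)) {i : ℕ} (h : i < n) :
    fn (snocP v τ) i = if fn τ i < v then fn τ i else fn τ i + 1 := by
  have h1 := fn_fin (snocP v τ) (⟨i, h⟩ : Fin n).castSucc
  have h2 := fn_fin τ ⟨i, h⟩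
  rw [snocP_castSucc, succAbove_val] at h1
  simp only at h2
  rw [← h2] at h1
  exact h1

lemma fn_snocP_last {n : ℕ} (v : Fin (n + 1)) (τ : Equiv.Perm (Fin n)) :
    fn (snocP v τ) n = v := by
  have h1 := fn_fin (snocP v τ) (Fin.last n)
  rw [snocP_last] at h1
  exact h1

lemma fn_last_eq {n : ℕ} (v : Fin (n + 1)) (τ : Equiv.Perm (Fin n)) {w : ℕ}
    (h : fn (snocP v τ) n = w) : (v : ℕ) = w := by
  rw [← h, fn_snocP_last]

lemma fn_inv {n : ℕ} (π : Equiv.Perm (Fin n)) {i j : ℕ} (h : j < n) :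
    fn π⁻¹ j = i ↔ fn π i = j := by
  constructor
  · rintro rfl
    rw [← fn_mul, mul_inv_cancel]
    simp [fn, h]
  · intro h1
    have hi : i < n := by
      by_contra h2
      rw [fn_ge π (by omega)] at h1
      omega
    rw [← h1, ← fn_mul, inv_mul_cancel]
    simp [fn, hi]

/-- the permutation with the largest value at the place `p` and the pattern `σ` elsewhere -/
noncomputable def insP {n : ℕ} (p : Fin (n + 1)) (σ : Equiv.Perm (Fin n)) :
    Equiv.Perm (Fin (n + 1)) := (snocP p σ⁻¹)⁻¹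

lemma fn_insP {n : ℕ} (p : Fin (n + 1)) (σ : Equiv.Perm (Fin n)) {i : ℕ} (hi : i < n + 1) :
    fn (insP p σ) i = if i < p then fn σ i else if i = p then n else fn σ (i - 1) := by
  have hp := p.2
  unfold insP
  rw [fn_inv _ hi]
  split_ifs with h1 h2
  · have h3 : fn σ i < n := fn_lt σ (by omega)
    rw [fn_snocP_lt _ _ h3]
    have h4 : fn σ⁻¹ (fn σ i) = i := (fn_inv σ h3).2 rfl
    rw [h4, if_pos h1]
  · rw [fn_snocP_last, h2]
  · have h3 : fn σ (i - 1) < n := fn_lt σ (by omega)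
    rw [fn_snocP_lt _ _ h3]
    have h4 : fn σ⁻¹ (fn σ (i - 1)) = i - 1 := (fn_inv σ h3).2 rfl
    rw [h4, if_neg (by omega)]
    omega

lemma exists_ins {n : ℕ} (π : Equiv.Perm (Fin (n + 1))) : ∃ p σ, insP p σ = π := by
  obtain ⟨v, τ, h⟩ := exists_snoc π⁻¹
  refine ⟨v, τ⁻¹, ?_⟩
  unfold insP
  rw [inv_inv, h, inv_inv]

end Pool.Agent.R121
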