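import Mathlib

set_option autoImplicit false

/-!
# The number of alternating segmentations depends only on the number of descending runs
-/

namespace Pool.Agent.R121.RunCount

open Finset

/-- the parity of a number as a Boolean: `true` for odd numbers -/
def od (a : ℕ) : Bool := decide (a % 2 = 1)

lemma od_even {a : ℕ} (h : a % 2 = 0) : od a = false := by simp [od, h]

lemma od_odd {a : ℕ} (h : a % 2 = 1) : od a = true := by simp [od, h]

/-- `V u a`: the number of weakly increasing sequences of block indices ending in `a`, for a descent
word (last letter first) -/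
def V : List Bool → ℕ → ℤ
  | [], _ => 1
  | x :: u, b => (∑ a ∈ range b, V u a) + if od b = x then V u b else 0

/-- the sum of the entries of `V u` -/
def S (k : ℕ) (u : List Bool) : ℤ := ∑ a ∈ range k, V u a

/-- the number of maximal blocks of `true` -/
def dr : List Bool → ℕ
  | [] => 0
  | false :: u => dr u
  | true :: u => if u.head? = some true then dr u else dr u + 1

lemma V_nonneg (u : List Bool) : ∀ a, 0 ≤ V u a := by
  induction u with
  | nil => intro a; simp [V]
  | cons x u ih =>
    intro a
    simp only [V]
    have h1 : 0 ≤ ∑ a ∈ range a, V u a := sum_nonneg fun b _ => ih b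
    have h2 := ih a
    split_ifs <;> omega

/-- the last letter is not a descent -/
abbrev TA (w : List Bool) : Prop := w.head? ≠ some true

/-- the last letter is a descent -/
abbrev TD (w : List Bool) : Prop := w.head? = some true

lemma V_TA {w : List Bool} (h : TA w) {v : ℕ} (hv : v % 2 = 0) : V w v = V w (v + 1) := by
  match w, h with
  | [], _ => rfl
  | false :: u, _ =>
    simp only [V]
    rw [sum_range_succ, if_pos (od_even hv), od_odd (show (v + 1) % 2 = 1 by omega)]
    simp
  | true :: u, h => exact absurd rfl h

lemma V_TD {w : List Bool} (h : TD w) {v : ℕ} (hv : v % 2 = 1) : V w v = V w (v + 1) := by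
  match w, h with
  | true :: u, _ =>
    simp only [V]
    rw [sum_range_succ, if_pos (od_odd hv), od_even (show (v + 1) % 2 = 0 by omega)]
    simp

lemma V_TD_zero {w : List Bool} (h : TD w) : V w 0 = 0 := by
  match w, h with
  | true :: u, _ => simp [V, od]

/-- the sign `(-1)^v` -/
def sg (v : ℕ) : ℤ := if v % 2 = 0 then 1 else -1

lemma V_diff (w : List Bool) (v : ℕ) : V (false :: w) v - V (true :: w) v = sg v * V w v := by
  simp only [V, sg]
  rcases Nat.mod_two_eq_zero_or_one v with h | h
  · rw [od_even h, if_pos rfl, if_pos h]; simp
  · rw [od_odd h, if_pos rfl, if_neg (show ¬ v % 2 = 0 by omega)]; simp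

/-- alternating partial sums -/
def alt (w : List Bool) (c : ℕ) : ℤ := ∑ v ∈ range c, sg v * V w v

lemma alt_TA {w : List Bool} (h : TA w) (j : ℕ) : alt w (2 * j) = 0 := by
  induction j with
  | zero => rfl
  | succ j ih =>
    unfold alt at ih ⊢
    rw [show 2 * (j + 1) = 2 * j + 1 + 1 by ring, sum_range_succ, sum_range_succ, ih,
      ← V_TA h (show (2 * j) % 2 = 0 by omega)]
    simp [sg, Nat.add_mod]

lemma alt_TD {w : List Bool} (h : TD w) (j : ℕ) : alt w (2 * j + 1) = 0 := by
  induction j with
  | zero => simp [alt, V_TD_zero h]
  | succ j ih =>
    unfold alt at ih ⊢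
    rw [show 2 * (j + 1) + 1 = 2 * j + 1 + 1 + 1 by ring, sum_range_succ, sum_range_succ, ih,
      ← V_TD h (show (2 * j + 1) % 2 = 1 by omega)]
    simp [sg, Nat.add_mod]

lemma V_two_diff (x : Bool) (w : List Bool) (c : ℕ) : V (x :: false :: w) c - V (x :: true :: w) c =
    alt w c + if od c = x then sg c * V w c else 0 := by
  have h : ∀ u : List Bool, V (x :: u) c = (∑ a ∈ range c, V u a) + if od c = x then V u c else 0 :=
    fun u => rfl
  rw [h, h]
  unfold alt
  have e : ∑ v ∈ range c, sg v * V w v = ∑ v ∈ range c, V (false :: w) v -
      ∑ v ∈ range c, V (true :: w) v := by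
    rw [← sum_sub_distrib]
    exact sum_congr rfl (fun v _ => (V_diff w v).symm)
  rw [e]
  split_ifs
  · rw [← V_diff]; ring
  · ring

/-- after an ascent: `v A D = v D D` -/
lemma move1 {w : List Bool} (h : TA w) : V (true :: false :: w) = V (true :: true :: w) := by
  funext c
  have e := V_two_diff true w c
  have : alt w c + (if od c = true then sg c * V w c else 0) = 0 := by
    rcases Nat.mod_two_eq_zero_or_one c with hc | hc
    · obtain ⟨j, rfl⟩ : ∃ j, c = 2 * j := ⟨c / 2, by omega⟩
      rw [alt_TA h, od_even hc]
      simp
    · obtain ⟨j, rfl⟩ : ∃ j, c = 2 * j + 1 := ⟨c / 2, by omega⟩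
      have h2 := alt_TA h (j + 1)
      unfold alt at h2 ⊢
      rw [show 2 * (j + 1) = 2 * j + 1 + 1 by ring, sum_range_succ] at h2
      rw [od_odd hc, if_pos rfl]
      exact h2
  rw [this] at e
  linarith

/-- after a descent: `v A A = v D A` -/
lemma move2 {w : List Bool} (h : TD w) : V (false :: false :: w) = V (false :: true :: w) := by
  funext c
  have e := V_two_diff false w c
  have : alt w c + (if od c = false then sg c * V w c else 0) = 0 := by
    rcases Nat.mod_two_eq_zero_or_one c with hc | hc
    · obtain ⟨j, rfl⟩ : ∃ j, c = 2 * j := ⟨c / 2, by omega⟩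
      have h2 := alt_TD h j
      unfold alt at h2 ⊢
      rw [sum_range_succ] at h2
      rw [od_even hc, if_pos rfl]
      exact h2
    · obtain ⟨j, rfl⟩ : ∃ j, c = 2 * j + 1 := ⟨c / 2, by omega⟩
      rw [alt_TD h, od_odd hc]
      simp
  rw [this] at e
  linarith

/-- the last letter can be changed after a descent, for odd `k` -/
lemma move3 {w : List Bool} (h : TD w) (m : ℕ) :
    S (2 * m + 1) (false :: w) = S (2 * m + 1) (true :: w) := by
  have h2 := alt_TD h m
  unfold alt at h2
  have e : ∑ v ∈ range (2 * m + 1), sg v * V w v = S (2 * m + 1) (false :: w) -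
      S (2 * m + 1) (true :: w) := by
    unfold S
    rw [← sum_sub_distrib]
    exact sum_congr rfl (fun v _ => (V_diff w v).symm)
  rw [e] at h2
  linarith

lemma exZ1 (w1 : List Bool) : ∃ z : List Bool, z.length = w1.length ∧ TA z ∧
    dr z + 1 = dr (true :: w1) := by
  induction w1 with
  | nil => exact ⟨[], rfl, by simp [TA], by simp [dr]⟩
  | cons x w2 ih =>
    cases x with
    | false => exact ⟨false :: w2, rfl, by simp [TA], by simp [dr]⟩
    | true =>
      obtain ⟨z, h1, h2, h3⟩ := ih
      refine ⟨false :: z, by simp [h1], by simp [TA], ?_⟩
      have : dr (true :: true :: w2) = dr (true :: w2) := by simp [dr]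
      rw [this, ← h3]
      simp [dr]

lemma exZ2 (w1 : List Bool) (h : 1 ≤ dr w1) : ∃ z : List Bool, z.length = w1.length ∧ TD z ∧
    dr z = dr w1 := by
  induction w1 with
  | nil => simp [dr] at h
  | cons x w2 ih =>
    cases x with
    | true => exact ⟨true :: w2, rfl, by simp [TD], rfl⟩
    | false =>
      simp only [dr] at h
      obtain ⟨z, h1, h2, h3⟩ := ih h
      refine ⟨true :: z, by simp [h1], by simp [TD], ?_⟩
      unfold TD at h2
      simp [dr, h2, h3]

lemma dr_TD {w : List Bool} (h : TD w) : 1 ≤ dr w := by
  induction w with
  | nil => simp [TD] at h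
  | cons x w ih =>
    cases x with
    | false => simp [TD] at h
    | true =>
      simp only [dr]
      split_ifs with h1
      · exact ih h1
      · omega

lemma V_class : ∀ (L : ℕ) (u u' : List Bool), u.length = L → u'.length = L → dr u = dr u' →
    u.head? = u'.head? → V u = V u' := by
  intro L
  induction L with
  | zero =>
    intro u u' h1 h2 _ _
    rw [List.length_eq_zero_iff.1 h1, List.length_eq_zero_iff.1 h2]
  | succ L ih =>
    intro u u' h1 h2 h3 h4
    have cong : ∀ (x : Bool) (a b : List Bool), V a = V b → V (x :: a) = V (x :: b) := by
      intro x a b hab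
      funext c
      simp only [V, hab]
    match u, u', h1, h2, h3, h4 with
    | x :: w, y :: w', h1, h2, h3, h4 =>
      simp only [List.head?_cons, Option.some.injEq] at h4
      subst h4
      simp only [List.length_cons, Nat.add_right_cancel_iff] at h1 h2
      -- the mixed case for a final descent
      have mix1 : ∀ a b : List Bool, a.length = L → b.length = L → TD a → ¬ TD b →
          dr (true :: a) = dr (true :: b) → V (true :: a) = V (true :: b) := by
        intro a b ha hb hTa hTb hd
        match a, b, hTa, hTb with
        | true :: a1, [], _, _ => simp at ha hb; omega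
        | true :: a1, true :: b1, _, hTb => exact absurd rfl hTb
        | true :: a1, false :: b1, _, _ =>
          obtain ⟨z, z1, z2, z3⟩ := exZ1 a1
          simp only [List.length_cons] at ha
          have d1 : dr (true :: true :: a1) = dr (true :: a1) := by simp [dr]
          have d2 : dr (true :: false :: b1) = dr (false :: b1) + 1 := by simp [dr]
          have d3 : dr (true :: z) = dr z + 1 := by
            simp only [dr]
            rw [if_neg z2]
          have d4 : dr (false :: z) = dr z := rfl
          have e1 := ih (true :: a1) (true :: z) (by simp; omega) (by simp; omega) (by omega) rfl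
          have e2 := ih (false :: b1) (false :: z) hb (by simp; omega) (by omega) rfl
          rw [cong _ _ _ e1, cong _ _ _ e2, move1 z2]
      have mix2 : ∀ a b : List Bool, a.length = L → b.length = L → TD a → ¬ TD b →
          dr a = dr b → V (false :: a) = V (false :: b) := by
        intro a b ha hb hTa hTb hd
        have hda := dr_TD hTa
        match a, b, hTa, hTb with
        | true :: a1, [], _, _ => simp at ha hb; omega
        | true :: a1, true :: b1, _, hTb => exact absurd rfl hTb
        | true :: a1, false :: b1, _, _ =>
          have d0 : dr (false :: b1) = dr b1 := rfl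
          obtain ⟨z, z1, z2, z3⟩ := exZ2 b1 (by omega)
          simp only [List.length_cons] at hb
          have d3 : dr (true :: z) = dr z := by
            simp only [dr]
            rw [if_pos z2]
          have d4 : dr (false :: z) = dr z := rfl
          have e1 := ih (true :: a1) (true :: z) ha (by simp; omega) (by omega) rfl
          have e2 := ih (false :: b1) (false :: z) (by simp; omega) (by simp; omega) (by omega) rfl
          rw [cong _ _ _ e1, cong _ _ _ e2, move2 z2]
      by_cases c1 : TD w
      · by_cases c2 : TD w'
        · apply cong
          apply ih w w' h1 h2 _ (by rw [c1, c2])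
          cases x with
          | false => exact h3
          | true =>
            simp only [dr] at h3
            rwa [if_pos c1, if_pos c2] at h3
        · cases x with
          | false => exact mix2 w w' h1 h2 c1 c2 h3
          | true => exact mix1 w w' h1 h2 c1 c2 h3
      · by_cases c2 : TD w'
        · cases x with
          | false => exact (mix2 w' w h2 h1 c2 c1 h3.symm).symm
          | true => exact (mix1 w' w h2 h1 c2 c1 h3.symm).symm
        · apply cong
          have hh : w.head? = w'.head? := by
            match w, w', c1, c2, h1, h2 with
            | [], [], _, _, _, _ => rfl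
            | [], _ :: _, _, _, h1, h2 => simp at h1 h2; omega
            | _ :: _, [], _, _, h1, h2 => simp at h1 h2; omega
            | false :: _, false :: _, _, _, _, _ => rfl
            | true :: _, _, c1, _, _, _ => exact absurd rfl c1
            | _, true :: _, _, c2, _, _ => exact absurd rfl c2
          apply ih w w' h1 h2 _ hh
          cases x with
          | false => exact h3
          | true =>
            simp only [dr] at h3
            rw [if_neg c1, if_neg c2] at h3
            omega

/-- for odd `k` the number of segmentations depends only on the number of descending runs -/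
lemma S_class (m : ℕ) {u u' : List Bool} (h1 : u.length = u'.length) (h2 : dr u = dr u') :
    S (2 * m + 1) u = S (2 * m + 1) u' := by
  have mix : ∀ a b : List Bool, a.length = b.length → TD a → ¬ TD b → dr a = dr b →
      S (2 * m + 1) a = S (2 * m + 1) b := by
    intro a b hab hTa hTb hd
    have hda := dr_TD hTa
    match a, b, hTa, hTb with
    | true :: a1, [], _, _ => simp at hab
    | true :: a1, true :: b1, _, hTb => exact absurd rfl hTb
    | true :: a1, false :: b1, _, _ =>
      have d0 : dr (false :: b1) = dr b1 := rfl
      obtain ⟨z, z1, z2, z3⟩ := exZ2 b1 (by omega)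
      simp only [List.length_cons] at hab
      have d3 : dr (true :: z) = dr z := by
        simp only [dr]
        rw [if_pos z2]
      have d4 : dr (false :: z) = dr z := rfl
      have e1 := V_class (b1.length + 1) (true :: a1) (true :: z) (by simp; omega) (by simp; omega)
        (by omega) rfl
      have e2 := V_class (b1.length + 1) (false :: b1) (false :: z) (by simp) (by simp; omega)
        (by omega) rfl
      have e3 := move3 z2 m
      unfold S at e3 ⊢
      rw [e1, e2, e3]
  by_cases c1 : TD u
  · by_cases c2 : TD u'
    · unfold S
      rw [V_class u'.length u u' h1 rfl h2 (by rw [c1, c2])]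
    · exact mix u u' h1 c1 c2 h2
  · by_cases c2 : TD u'
    · exact (mix u' u h1.symm c2 c1 h2.symm).symm
    · have hh : u.head? = u'.head? := by
        match u, u', c1, c2, h1 with
        | [], [], _, _, _ => rfl
        | [], _ :: _, _, _, h1 => simp at h1
        | _ :: _, [], _, _, h1 => simp at h1
        | false :: _, false :: _, _, _, _ => rfl
        | true :: _, _, c1, _, _ => exact absurd rfl c1
        | _, true :: _, _, c2, _ => exact absurd rfl c2
      unfold S
      rw [V_class u'.length u u' h1 rfl h2 hh]

/-- the least possible last block -/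
def lo (u : List Bool) : ℕ := if u.head? = some true then 2 * dr u - 1 else 2 * dr u

lemma V_lo (u : List Bool) : (∀ a, V u a ≠ 0 → lo u ≤ a) ∧ 0 < V u (lo u) := by
  induction u with
  | nil => simp [lo, dr, V]
  | cons x u ih =>
    obtain ⟨ih1, ih2⟩ := ih
    have hstep : ∀ b, V (x :: u) b ≠ 0 → ∃ a ≤ b, V u a ≠ 0 ∧ (a < b ∨ od b = x) := by
      intro b hb
      by_contra hc
      push Not at hc
      apply hb
      simp only [V]
      have h1 : ∑ a ∈ range b, V u a = 0 := by
        apply sum_eq_zero
        intro a ha
        rw [mem_range] at ha
        by_contra h2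
        exact absurd ha (not_lt.2 (hc a ha.le h2).1)
      rw [h1]
      split_ifs with h3
      · by_contra h2
        have := (hc b le_rfl (by simpa using h2)).2
        exact this h3
      · rfl
    have hge : ∀ a b, a < b → 0 < V u a → 0 < V (x :: u) b := by
      intro a b hab ha
      simp only [V]
      have h1 : V u a ≤ ∑ a ∈ range b, V u a :=
        single_le_sum (fun c _ => V_nonneg u c) (mem_range.2 hab)
      have h2 := V_nonneg u b
      split_ifs <;> omega
    have hge' : ∀ b, od b = x → 0 < V u b → 0 < V (x :: u) b := by
      intro b hb h1
      simp only [V]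
      have h2 : 0 ≤ ∑ a ∈ range b, V u a := sum_nonneg fun c _ => V_nonneg u c
      rw [if_pos hb]
      omega
    cases x with
    | false =>
      have e1 : lo (false :: u) = 2 * dr u := by simp [lo, dr]
      rw [e1]
      by_cases hT : TD u
      · have e2 : lo u = 2 * dr u - 1 := by unfold lo; rw [if_pos hT]
        have hd := dr_TD hT
        rw [e2] at ih1 ih2
        refine ⟨?_, hge _ _ (by omega) ih2⟩
        intro b hb
        obtain ⟨a, h1, h2, h3⟩ := hstep b hb
        have h4 := ih1 a h2
        rcases h3 with h3 | h3
        · omega
        · have : b % 2 = 0 := by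
            by_contra h5
            rw [od_odd (by omega)] at h3
            simp at h3
          omega
      · have e2 : lo u = 2 * dr u := by unfold lo; rw [if_neg hT]
        rw [e2] at ih1 ih2
        refine ⟨?_, hge' _ (od_even (by omega)) ih2⟩
        intro b hb
        obtain ⟨a, h1, h2, h3⟩ := hstep b hb
        have h4 := ih1 a h2
        omega
    | true =>
      by_cases hT : TD u
      · have e1 : lo (true :: u) = 2 * dr u - 1 := by
          have : u.head? = some true := hT
          simp [lo, dr, this]
        have e2 : lo u = 2 * dr u - 1 := by unfold lo; rw [if_pos hT]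
        have hd := dr_TD hT
        rw [e1]
        rw [e2] at ih1 ih2
        refine ⟨?_, hge' _ (od_odd (by omega)) ih2⟩
        intro b hb
        obtain ⟨a, h1, h2, h3⟩ := hstep b hb
        have h4 := ih1 a h2
        omega
      · have e1 : lo (true :: u) = 2 * dr u + 1 := by
          have : ¬ u.head? = some true := hT
          simp only [lo, dr, this, if_false, List.head?_cons, if_true]
          omega
        have e2 : lo u = 2 * dr u := by unfold lo; rw [if_neg hT]
        rw [e1]
        rw [e2] at ih1 ih2
        refine ⟨?_, hge _ _ (by omega) ih2⟩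
        intro b hb
        obtain ⟨a, h1, h2, h3⟩ := hstep b hb
        have h4 := ih1 a h2
        rcases h3 with h3 | h3
        · omega
        · have : b % 2 = 1 := by
            by_contra h5
            rw [od_even (by omega)] at h3
            simp at h3
          omega

lemma lo_le (u : List Bool) (m : ℕ) : lo u < 2 * m + 1 ↔ dr u ≤ m := by
  unfold lo
  split_ifs with h
  · have := dr_TD h
    omega
  · omega

lemma S_pos (u : List Bool) (m : ℕ) : 0 < S (2 * m + 1) u ↔ dr u ≤ m := by
  obtain ⟨h1, h2⟩ := V_lo u
  rw [← lo_le]
  constructor
  · intro h
    by_contra h3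
    have : S (2 * m + 1) u = 0 := by
      apply sum_eq_zero
      intro a ha
      rw [mem_range] at ha
      by_contra h4
      have := h1 a h4
      omega
    omega
  · intro h
    have := single_le_sum (f := fun a => V u a) (fun c _ => V_nonneg u c) (mem_range.2 h)
    unfold S
    omega

lemma S_zero (u : List Bool) (m : ℕ) (h : m < dr u) : S (2 * m + 1) u = 0 := by
  have h1 : 0 ≤ S (2 * m + 1) u := sum_nonneg fun c _ => V_nonneg u c
  have h2 := (S_pos u m).1
  by_contra h3
  have := h2 (lt_of_le_of_ne h1 (Ne.symm h3))
  omega

end Pool.Agent.R121.RunCount
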