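import Pool.Agent.R121.NecklaceCount
import Pool.Agent.R121.RunCount
import Pool.Agent.R121.FnPerm

set_option autoImplicit false

/-!
# Cyclic permutations and segmentations
-/

namespace Pool.Agent.R121.CycSeg

open Finset Pool.Agent.R121 Pool.Agent.R121.Necklace Pool.Agent.R121.RunCount

variable {n k : ℕ}

/-- `b` assigns to the places of `π` the indices of the blocks of a segmentation -/
def Val (neg : Fin k → Bool) (π : Equiv.Perm (Fin n)) (b : Fin n → Fin k) : Prop :=
  (∀ y z, y < z → b y ≤ b z) ∧
  ∀ y z, b y = b z → y < z → if neg (b y) = true then π z < π y else π y < π z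

open Classical in
lemma sum_F_eq (neg : Fin k → Bool) (c : Equiv.Perm (Fin n)) :
    ∑ w : Fin n → Fin k, F neg c w =
      ∑ r : Equiv.Perm (Fin n), (univ.filter fun b : Fin n → Fin k => Val neg (r * c * r⁻¹) b).card := by
  unfold F
  simp only [card_filter]
  rw [sum_comm]
  apply sum_congr rfl
  intro r _
  apply Fintype.sum_equiv (Equiv.arrowCongr r (Equiv.refl (Fin k)))
  intro w
  have : Cond neg c w r ↔ Val neg (r * c * r⁻¹) ((Equiv.arrowCongr r (Equiv.refl (Fin k))) w) := by
    unfold Cond Val
    simp only [Equiv.arrowCongr_apply, Equiv.coe_refl, Function.comp, id, Equiv.Perm.mul_apply]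
    constructor
    · rintro ⟨h1, h2⟩
      refine ⟨?_, ?_⟩
      · intro y z hyz
        exact h1 _ _ (by simpa using hyz)
      · intro y z hb hyz
        exact h2 _ _ hb (by simpa using hyz)
    · rintro ⟨h1, h2⟩
      refine ⟨?_, ?_⟩
      · intro i j hij
        simpa using h1 (r i) (r j) hij
      · intro i j hw hij
        have := h2 (r i) (r j) (by simpa using hw) hij
        simpa using this
  simp only [this]

/-- the descent word, last letter first -/
def dl (u : ℕ → Bool) : ℕ → List Bool
  | 0 => []
  | m + 1 => u m :: dl u m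

lemma length_dl (u : ℕ → Bool) (m : ℕ) : (dl u m).length = m := by
  induction m with
  | zero => rfl
  | succ m ih => simp [dl, ih]

/-- compatibility with a descent word in terms of neighbours -/
def Adj (u : ℕ → Bool) (m : ℕ) (b : Fin (m + 1) → Fin k) : Prop :=
  ∀ i (hi : i < m), b ⟨i, by omega⟩ < b ⟨i + 1, by omega⟩ ∨
    (b ⟨i, by omega⟩ = b ⟨i + 1, by omega⟩ ∧ od (b ⟨i, by omega⟩) = u i)

open Classical in
lemma card_adj_last (u : ℕ → Bool) (m : ℕ) : ∀ a : Fin k,
    (((univ.filter fun b : Fin (m + 1) → Fin k => Adj u m b).filter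
      fun b => b (Fin.last m) = a).card : ℤ) = V (dl u m) a := by
  induction m with
  | zero =>
    intro a
    have : ((univ.filter fun b : Fin (0 + 1) → Fin k => Adj u 0 b).filter
      fun b => b (Fin.last 0) = a) = {fun _ => a} := by
      ext b
      simp only [mem_filter, mem_univ, true_and, mem_singleton]
      constructor
      · rintro ⟨-, h⟩
        funext i
        rw [← h]
        congr 1
        apply Fin.ext
        simp only [Fin.val_last]
        omega
      · rintro rfl
        refine ⟨?_, rfl⟩
        intro i hi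
        omega
    rw [this]
    simp [dl, V]
  | succ m ih =>
    intro a
    have hbij : ((univ.filter fun b : Fin (m + 1 + 1) → Fin k => Adj u (m + 1) b).filter
        fun b => b (Fin.last (m + 1)) = a).card =
        ((univ.filter fun b : Fin (m + 1) → Fin k => Adj u m b).filter
        fun b => b (Fin.last m) < a ∨ (b (Fin.last m) = a ∧ od a = u m)).card := by
      symm
      apply card_bij (fun b _ => (Fin.snoc b a : Fin (m + 1 + 1) → Fin k))
      · intro b hb
        simp only [mem_filter, mem_univ, true_and] at hb ⊢
        obtain ⟨h1, h2⟩ := hb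
        have hc : ∀ i (hi : i < m + 1), (Fin.snoc b a : Fin (m + 1 + 1) → Fin k) ⟨i, by omega⟩ =
            b ⟨i, hi⟩ := by
          intro i hi
          exact Fin.snoc_castSucc (α := fun _ => Fin k) a b ⟨i, hi⟩
        have hl : (Fin.snoc b a : Fin (m + 1 + 1) → Fin k) ⟨m + 1, by omega⟩ = a :=
          Fin.snoc_last (α := fun _ => Fin k) a b
        refine ⟨?_, hl⟩
        intro i hi
        rw [hc i hi]
        rcases Nat.lt_or_ge i m with h3 | h3
        · rw [hc (i + 1) (by omega)]
          exact h1 i h3
        · have h4 : i = m := by omega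
          subst h4
          rw [hl]
          have h5 : b ⟨i, hi⟩ = b (Fin.last i) := rfl
          rw [h5]
          rcases h2 with h2 | h2
          · left; exact h2
          · right
            refine ⟨h2.1, ?_⟩
            rw [h2.1]; exact h2.2
      · intro b _ b' _ h
        funext i
        have := congrFun h i.castSucc
        simpa using this
      · intro b hb
        simp only [mem_filter, mem_univ, true_and] at hb
        obtain ⟨h1, h2⟩ := hb
        refine ⟨Fin.init b, ?_, ?_⟩
        · simp only [mem_filter, mem_univ, true_and]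
          refine ⟨?_, ?_⟩
          · intro i hi
            exact h1 i (by omega)
          · have h3 := h1 m (by omega)
            have h4 : b ⟨m + 1, by omega⟩ = a := h2
            rw [h4] at h3
            rcases h3 with h3 | h3
            · left; exact h3
            · right
              refine ⟨h3.1, ?_⟩
              rw [← h3.2, h3.1]
        · rw [← h2]
          exact Fin.snoc_init_self b
    rw [hbij]
    set Y := univ.filter fun b : Fin (m + 1) → Fin k => Adj u m b with hY
    have hdisj : Y.filter (fun b => b (Fin.last m) < a ∨ (b (Fin.last m) = a ∧ od a = u m)) =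
        (Y.filter fun b => b (Fin.last m) < a) ∪
        (Y.filter fun b => b (Fin.last m) = a ∧ od a = u m) := by
      ext b
      simp only [mem_filter, mem_union]
      tauto
    rw [hdisj, card_union_of_disjoint]
    · push_cast
      have e1 : ((Y.filter fun b => b (Fin.last m) < a).card : ℤ) =
          ∑ x ∈ range a, V (dl u m) x := by
        rw [card_eq_sum_card_fiberwise (f := fun b => ((b (Fin.last m) : Fin k) : ℕ)) (t := range a)]
        · push_cast
          apply sum_congr rfl
          intro x hx
          rw [mem_range] at hx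
          have := ih ⟨x, by have := a.2; omega⟩
          rw [← this]
          congr 2
          ext b
          simp only [mem_filter]
          constructor
          · rintro ⟨⟨h1, h2⟩, h3⟩
            exact ⟨h1, Fin.ext h3⟩
          · rintro ⟨h1, h3⟩
            refine ⟨⟨h1, ?_⟩, by rw [h3]⟩
            rw [h3, Fin.lt_def]; exact hx
        · intro b hb
          simp only [coe_filter, Set.mem_setOf_eq] at hb
          simp only [coe_range, Set.mem_Iio]
          exact hb.2
      rw [e1]
      simp only [dl, V]
      congr 1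
      by_cases h : od a = u m
      · rw [if_pos h, ← ih a]
        congr 2
        ext b
        simp only [mem_filter, h, and_true]
      · rw [if_neg h]
        simp [h]
    · rw [disjoint_filter]
      rintro b - h1 ⟨h2, -⟩
      rw [h2] at h1
      exact lt_irrefl _ h1

open Classical in
lemma card_adj (u : ℕ → Bool) (m : ℕ) :
    ((univ.filter fun b : Fin (m + 1) → Fin k => Adj u m b).card : ℤ) = S k (dl u m) := by
  rw [card_eq_sum_card_fiberwise (f := fun b => ((b (Fin.last m) : Fin k) : ℕ)) (t := range k)]
  · push_cast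
    unfold S
    apply sum_congr rfl
    intro x hx
    rw [mem_range] at hx
    rw [show (x : ℕ) = ((⟨x, hx⟩ : Fin k) : ℕ) from rfl, ← card_adj_last u m ⟨x, hx⟩]
    congr 2
    ext b
    simp only [mem_filter, Fin.ext_iff]
  · intro b _
    simp only [coe_range, Set.mem_Iio]
    exact (b (Fin.last m)).2

/-- descents, with all letters changed if `fl` is `true` -/
def ds (fl : Bool) (π : Equiv.Perm (Fin n)) (i : ℕ) : Bool :=
  xor fl (decide (fn π (i + 1) < fn π i))

/-- the signs: `od` or its negation -/
def sn (fl : Bool) (a : Fin k) : Bool := xor fl (od a)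

lemma val_iff (fl : Bool) {m : ℕ} (π : Equiv.Perm (Fin (m + 1))) (b : Fin (m + 1) → Fin k) :
    Val (sn fl) π b ↔ Adj (ds fl π) m b := by
  have hxor : ∀ (a : Fin k) (x : Bool), od a = xor fl x ↔ sn fl a = x := by
    intro a x
    unfold sn
    cases fl <;> cases x <;> cases od a <;> simp
  have f : ∀ i (hi : i < m + 1), (π ⟨i, hi⟩ : ℕ) = fn π i := fun i hi => (fn_fin π ⟨i, hi⟩).symm
  have hne : ∀ i, i < m → fn π (i + 1) ≠ fn π i := by
    intro i hi h
    have := fn_inj π (i + 1) (by omega) i (by omega) h
    omega
  constructor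
  · rintro ⟨h1, h2⟩ i hi
    have hlt : (⟨i, by omega⟩ : Fin (m + 1)) < ⟨i + 1, by omega⟩ := by simp
    have h3 := h1 _ _ hlt
    rcases lt_or_eq_of_le h3 with h4 | h4
    · left; exact h4
    · right
      refine ⟨h4, ?_⟩
      have h5 := h2 _ _ h4 hlt
      unfold ds
      rw [hxor]
      split_ifs at h5 with h6
      · rw [Fin.lt_def, f, f] at h5
        rw [h6]
        simp [h5]
      · rw [Fin.lt_def, f, f] at h5
        have h7 : sn fl (b ⟨i, by omega⟩) = false := by simpa using h6
        rw [h7]
        simp
        omega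
  · intro h
    have key : ∀ d y, ∀ (hy : y + d < m + 1), b ⟨y, by omega⟩ ≤ b ⟨y + d, hy⟩ ∧
        (b ⟨y, by omega⟩ = b ⟨y + d, hy⟩ → 0 < d → if sn fl (b ⟨y, by omega⟩) = true then
          fn π (y + d) < fn π y else fn π y < fn π (y + d)) := by
      intro d
      induction d with
      | zero => intro y hy; exact ⟨le_rfl, fun _ h => absurd h (lt_irrefl _)⟩
      | succ d ih =>
        intro y hy
        obtain ⟨i1, i2⟩ := ih y (by omega)
        have h1 := h (y + d) (by omega)
        have h2 : b ⟨y + d, by omega⟩ ≤ b ⟨y + d + 1, by omega⟩ := by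
          rcases h1 with h1 | h1
          · exact h1.le
          · exact h1.1.le
        refine ⟨i1.trans h2, ?_⟩
        intro he _
        have he1 : b ⟨y, by omega⟩ = b ⟨y + d, by omega⟩ := le_antisymm i1 (by
          have : b ⟨y + (d + 1), hy⟩ = b ⟨y + d + 1, by omega⟩ := rfl
          rw [he, this]; exact h2)
        have he2 : b ⟨y + d, by omega⟩ = b ⟨y + d + 1, by omega⟩ := by
          rw [← he1, he]; rfl
        rcases h1 with h1 | h1
        · rw [he2] at h1; exact absurd h1 (lt_irrefl _)
        · have h3 := h1.2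
          unfold ds at h3
          rw [hxor, ← he1] at h3
          have h5 := hne (y + d) (by omega)
          rcases Nat.eq_zero_or_pos d with h4 | h4
          · subst h4
            simp only [add_zero] at h3 h5
            simp only [zero_add]
            by_cases h6 : fn π (y + 1) < fn π y
            · rw [h3, if_pos (by simp [h6])]; exact h6
            · rw [h3, if_neg (by simp [h6])]; omega
          · have h6 := i2 he1 h4
            have e : y + (d + 1) = y + d + 1 := by ring
            rw [e]
            by_cases h7 : fn π (y + d + 1) < fn π (y + d)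
            · rw [h3, if_pos (by simp [h7])] at h6
              rw [h3, if_pos (by simp [h7])]
              omega
            · rw [h3, if_neg (by simp [h7])] at h6
              rw [h3, if_neg (by simp [h7])]
              omega
    refine ⟨?_, ?_⟩
    · intro y z hyz
      rw [Fin.lt_def] at hyz
      have h2 := (key (z - y) y (by have := z.2; omega)).1
      have e : (⟨(y : ℕ) + (z - y), by have := z.2; omega⟩ : Fin (m + 1)) = z := by
        apply Fin.ext; simp only; omega
      rw [e] at h2
      exact h2
    · intro y z hb hyz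
      rw [Fin.lt_def] at hyz
      have h2 := (key (z - y) y (by have := z.2; omega)).2
      have e : (⟨(y : ℕ) + (z - y), by have := z.2; omega⟩ : Fin (m + 1)) = z := by
        apply Fin.ext; simp only; omega
      have e' : (y : ℕ) + (z - y) = z := by omega
      have h3 := h2 (by rw [e]; exact hb) (by omega)
      simp only [e'] at h3
      have g : ∀ i : Fin (m + 1), fn π i = π i := fun i => fn_fin π i
      rw [g, g, ← Fin.lt_def, ← Fin.lt_def] at h3
      exact h3

/-- the descent word of a permutation, last letter first, complemented if `fl` is `true` -/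
def W (fl : Bool) (π : Equiv.Perm (Fin n)) : List Bool := dl (ds fl π) (n - 1)

open Classical in
lemma card_val (fl : Bool) (hn : 0 < n) (π : Equiv.Perm (Fin n)) :
    ((univ.filter fun b : Fin n → Fin k => Val (sn fl) π b).card : ℤ) = S k (W fl π) := by
  obtain ⟨m, rfl⟩ : ∃ m, n = m + 1 := ⟨n - 1, by omega⟩
  have : W fl π = dl (ds fl π) m := rfl
  rw [this, ← card_adj]
  congr 2
  ext b
  simp only [mem_filter, val_iff]

lemma exists_val_iff (fl : Bool) (hn : 0 < n) (m : ℕ) (π : Equiv.Perm (Fin n)) :
    (∃ b : Fin n → Fin (2 * m + 1), Val (sn fl) π b) ↔ dr (W fl π) ≤ m := by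
  classical
  rw [← S_pos, ← card_val fl hn π]
  norm_cast
  rw [card_pos]
  constructor
  · rintro ⟨b, hb⟩
    exact ⟨b, by simpa using hb⟩
  · rintro ⟨b, hb⟩
    exact ⟨b, by simpa using hb⟩

lemma tri {ι : Type*} [Fintype ι] (α β : ι → ℕ) (s : ℕ → ℕ → ℤ)
    (h0 : ∀ m ρ, m < ρ → s m ρ = 0) (hα : ∀ i, 0 < s (α i) (α i)) (hβ : ∀ i, 0 < s (β i) (β i))
    (h : ∀ m, ∑ i, s m (α i) = ∑ i, s m (β i)) :
    ∀ ρ, (univ.filter fun i => α i = ρ).card = (univ.filter fun i => β i = ρ).card := by
  have hs : ∀ (γ : ι → ℕ) (m : ℕ), ∑ i, s m (γ i) =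
      ∑ ρ ∈ range (m + 1), ((univ.filter fun i => γ i = ρ).card : ℤ) * s m ρ := by
    intro γ m
    have h1 : ∑ i, s m (γ i) = ∑ i ∈ univ.filter (fun i => γ i ≤ m), s m (γ i) := by
      rw [sum_filter]
      apply sum_congr rfl
      intro i _
      split_ifs with h2
      · rfl
      · exact h0 _ _ (by omega)
    rw [h1, ← sum_fiberwise_of_maps_to (t := range (m + 1)) (g := γ)
      (fun i hi => by rw [mem_filter] at hi; rw [mem_range]; omega)]
    apply sum_congr rfl
    intro ρ hρ
    rw [mem_range] at hρ
    have h2 : (univ.filter (fun i => γ i ≤ m)).filter (fun i => γ i = ρ) =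
        univ.filter fun i => γ i = ρ := by
      ext i
      simp only [mem_filter, mem_univ, true_and]
      omega
    rw [h2, sum_congr rfl (g := fun _ => s m ρ) (fun i hi => by
      rw [mem_filter] at hi; rw [hi.2])]
    simp
  intro ρ
  induction ρ using Nat.strong_induction_on with
  | _ m ih =>
  have h1 := h m
  rw [hs α m, hs β m, sum_range_succ, sum_range_succ, sum_congr rfl
    (g := fun ρ => ((univ.filter fun i => β i = ρ).card : ℤ) * s m ρ) (fun ρ hρ => by
      rw [mem_range] at hρ; rw [ih ρ hρ])] at h1
  have h2 : ((univ.filter fun i => α i = m).card : ℤ) * s m m =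
      ((univ.filter fun i => β i = m).card : ℤ) * s m m := by linarith
  by_cases h3 : 0 < s m m
  · have := mul_right_cancel₀ h3.ne' h2
    exact_mod_cast this
  · have e1 : (univ.filter fun i => α i = m) = ∅ := by
      rw [filter_eq_empty_iff]
      rintro i - rfl
      exact h3 (hα i)
    have e2 : (univ.filter fun i => β i = m) = ∅ := by
      rw [filter_eq_empty_iff]
      rintro i - rfl
      exact h3 (hβ i)
    rw [e1, e2]

/-- a single cycle through all elements -/
def Cyc (π : Equiv.Perm (Fin n)) : Prop := ∀ i j, ∃ t : ℕ, (π ^ t) i = j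

lemma rot_facts (hn : 2 ≤ n) : (finRotate n) ^ n = 1 ∧ Cyc (finRotate n) ∧
    ∀ (s : ℕ) (i : Fin n), ((finRotate n) ^ s) i = i → n ∣ s := by
  have h1 := isCycle_finRotate_of_le hn
  have h2 := support_finRotate_of_le hn
  have h3 : orderOf (finRotate n) = n := by
    rw [h1.orderOf, h2, card_univ, Fintype.card_fin]
  have h4 : ∀ i, (finRotate n) i ≠ i := by
    intro i
    rw [← Equiv.Perm.mem_support, h2]
    exact mem_univ i
  refine ⟨?_, ?_, ?_⟩
  · have := pow_orderOf_eq_one (finRotate n)
    rwa [h3] at this
  · intro i j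
    exact h1.exists_pow_eq (h4 i) (h4 j)
  · intro s i hi
    rw [← h3]
    apply orderOf_dvd_of_pow_eq_one
    exact h1.pow_eq_one_iff.2 ⟨i, h4 i, hi⟩

lemma Cyc.conj {π : Equiv.Perm (Fin n)} (h : Cyc π) (r : Equiv.Perm (Fin n)) : Cyc (r * π * r⁻¹) := by
  intro i j
  obtain ⟨t, ht⟩ := h (r⁻¹ i) (r⁻¹ j)
  refine ⟨t, ?_⟩
  rw [conj_pow, Equiv.Perm.mul_apply, Equiv.Perm.mul_apply, ht]
  simp

lemma cyc_iff (hn : 2 ≤ n) (π : Equiv.Perm (Fin n)) :
    Cyc π ↔ ∃ r : Equiv.Perm (Fin n), r * finRotate n * r⁻¹ = π := by
  constructor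
  · intro h
    have hne : ∀ x, π x ≠ x := by
      intro x hx
      have hfix : ∀ t : ℕ, (π ^ t) x = x := by
        intro t
        induction t with
        | zero => rfl
        | succ t ih => rw [pow_succ, Equiv.Perm.mul_apply, hx, ih]
      have hall : ∀ j, x = j := by
        intro j
        obtain ⟨t, ht⟩ := h x j
        rw [← ht, hfix]
      have h1 := hall ⟨0, by omega⟩
      have h2 := hall ⟨1, by omega⟩
      rw [h1] at h2
      simp at h2
    have hc : π.IsCycle := by
      refine ⟨⟨0, by omega⟩, hne _, ?_⟩
      intro y _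
      obtain ⟨t, ht⟩ := h ⟨0, by omega⟩ y
      exact ⟨t, by simpa using ht⟩
    have hs : π.support = univ := by
      ext x
      simp [hne x]
    have h1 : π.cycleType = {n} := by
      rw [hc.cycleType, hs, card_univ, Fintype.card_fin]
    have h2 : IsConj (finRotate n) π := by
      rw [Equiv.Perm.isConj_iff_cycleType_eq, h1, cycleType_finRotate_of_le hn]
    exact isConj_iff.1 h2
  · rintro ⟨r, rfl⟩
    exact (rot_facts hn).2.1.conj r

open Classical in
/-- conjugates of the rotation, counted with multiplicity -/
lemma card_conj (hn : 2 ≤ n) (P : Equiv.Perm (Fin n) → Prop) :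
    (univ.filter fun r : Equiv.Perm (Fin n) => P (r * finRotate n * r⁻¹)).card =
    (univ.filter fun π : Equiv.Perm (Fin n) => Cyc π ∧ P π).card *
      (univ.filter fun r : Equiv.Perm (Fin n) => r * finRotate n * r⁻¹ = finRotate n).card := by
  rw [card_eq_sum_card_fiberwise (f := fun r => r * finRotate n * r⁻¹)
    (t := univ.filter fun π : Equiv.Perm (Fin n) => Cyc π ∧ P π)]
  · rw [sum_const_nat]
    intro π hπ
    rw [mem_filter] at hπ
    obtain ⟨-, hC, hP⟩ := hπ
    obtain ⟨r0, hr0⟩ := (cyc_iff hn π).1 hC
    apply card_bij (fun r _ => r0⁻¹ * r)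
    · intro r hr
      simp only [mem_filter, mem_univ, true_and] at hr ⊢
      have e : r0⁻¹ * r * finRotate n * (r0⁻¹ * r)⁻¹ = r0⁻¹ * (r * finRotate n * r⁻¹) * r0 := by
        simp only [mul_inv_rev, inv_inv, mul_assoc]
      rw [e, hr.2, ← hr0]
      simp only [mul_assoc, inv_mul_cancel_left, inv_mul_cancel, mul_one]
    · intro r _ r' _ h
      exact mul_left_cancel h
    · intro r hr
      simp only [mem_filter, mem_univ, true_and] at hr
      refine ⟨r0 * r, ?_, by simp⟩
      have e : r0 * r * finRotate n * (r0 * r)⁻¹ = r0 * (r * finRotate n * r⁻¹) * r0⁻¹ := by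
        simp only [mul_inv_rev, mul_assoc]
      simp only [mem_filter, mem_univ, true_and]
      rw [e, hr, hr0]
      exact ⟨hP, rfl⟩
  · intro r hr
    simp only [coe_filter, mem_univ, true_and, Set.mem_setOf_eq] at hr ⊢
    exact ⟨(rot_facts hn).2.1.conj r, hr⟩

lemma sum_sign (m : ℕ) :
    (∑ a : Fin (2 * m + 1), if sn false a = true then (-1 : ℤ) else 1) = 1 := by
  have h : ∀ a : Fin (2 * m + 1), (if sn false a = true then (-1 : ℤ) else 1) =
      (fun x : ℕ => if x % 2 = 1 then (-1 : ℤ) else 1) a := by
    intro a
    simp [sn, od]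
  rw [sum_congr rfl (fun a _ => h a), Fin.sum_univ_eq_sum_range
    (fun x : ℕ => if x % 2 = 1 then (-1 : ℤ) else 1) (2 * m + 1)]
  induction m with
  | zero => simp
  | succ m ih =>
    rw [show 2 * (m + 1) + 1 = 2 * m + 1 + 1 + 1 by ring, sum_range_succ, sum_range_succ, ih
      (by intro a; simp [sn, od])]
    have e1 : (2 * m + 1) % 2 = 1 := by omega
    have e2 : ¬ (2 * m + 1 + 1) % 2 = 1 := by omega
    rw [if_pos e1, if_neg e2]
    norm_num

open Classical in
/-- For `n ≥ 3` the number of cyclic permutations with a given number of descending runs is the number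
of those with that number of ascending runs. -/
theorem runs (hn : 3 ≤ n) (m : ℕ) :
    (univ.filter fun π : Equiv.Perm (Fin n) => Cyc π ∧ dr (W false π) ≤ m).card =
    (univ.filter fun π : Equiv.Perm (Fin n) => Cyc π ∧ dr (W true π) ≤ m).card := by
  obtain ⟨f1, f2, f3⟩ := rot_facts (n := n) (by omega)
  set c := finRotate n with hc
  -- the number of segmentations as a function of the number of runs
  let s : ℕ → ℕ → ℤ := fun m ρ => if h : ∃ u : List Bool, u.length = n - 1 ∧ dr u = ρ then
    RunCount.S (2 * m + 1) h.choose else 0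
  have hs : ∀ m (u : List Bool), u.length = n - 1 → RunCount.S (2 * m + 1) u = s m (dr u) := by
    intro m u hu
    have hex : ∃ v : List Bool, v.length = n - 1 ∧ dr v = dr u := ⟨u, hu, rfl⟩
    simp only [s]
    rw [dif_pos hex]
    exact S_class m (by rw [hu, hex.choose_spec.1]) hex.choose_spec.2.symm
  have hlen : ∀ fl (π : Equiv.Perm (Fin n)), (W fl π).length = n - 1 := fun fl π => length_dl _ _
  have htri := tri (fun r : Equiv.Perm (Fin n) => dr (W false (r * c * r⁻¹)))
    (fun r : Equiv.Perm (Fin n) => dr (W true (r * c * r⁻¹))) s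
    (by
      intro m ρ h
      simp only [s]
      split_ifs with hex
      · exact S_zero _ _ (by rw [hex.choose_spec.2]; exact h)
      · rfl)
    (by
      intro r
      rw [← hs _ _ (hlen _ _), S_pos])
    (by
      intro r
      rw [← hs _ _ (hlen _ _), S_pos])
    (by
      intro m
      have e : ∀ fl, ∑ r : Equiv.Perm (Fin n), s m (dr (W fl (r * c * r⁻¹))) =
          ((∑ w : Fin n → Fin (2 * m + 1), F (sn fl) c w : ℕ) : ℤ) := by
        intro fl
        rw [sum_F_eq]
        push_cast
        apply sum_congr rfl
        intro r _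
        rw [card_val fl (by omega), hs _ _ (hlen _ _)]
      rw [e, e, sum_F hn f1 f2 f3 (sum_sign m)]
      have : (fun a : Fin (2 * m + 1) => !sn false a) = sn true := by
        funext a
        simp [sn]
      rw [this])
  have hcard : ∀ fl, (univ.filter fun r : Equiv.Perm (Fin n) => dr (W fl (r * c * r⁻¹)) ≤ m).card =
      ∑ ρ ∈ range (m + 1), (univ.filter fun r : Equiv.Perm (Fin n) =>
        dr (W fl (r * c * r⁻¹)) = ρ).card := by
    intro fl
    rw [card_eq_sum_card_fiberwise (f := fun r : Equiv.Perm (Fin n) => dr (W fl (r * c * r⁻¹)))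
      (t := range (m + 1))]
    · apply sum_congr rfl
      intro ρ hρ
      rw [mem_range] at hρ
      congr 1
      ext r
      simp only [mem_filter, mem_univ, true_and]
      omega
    · intro r hr
      simp only [coe_filter, mem_univ, true_and, Set.mem_setOf_eq] at hr
      simp only [coe_range, Set.mem_Iio]
      omega
  have h1 : (univ.filter fun r : Equiv.Perm (Fin n) => dr (W false (r * c * r⁻¹)) ≤ m).card =
      (univ.filter fun π : Equiv.Perm (Fin n) => Cyc π ∧ dr (W false π) ≤ m).card *
      (univ.filter fun r : Equiv.Perm (Fin n) => r * c * r⁻¹ = c).card := by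
    have := card_conj (n := n) (by omega) (fun π => dr (W false π) ≤ m)
    convert this
  have h2 : (univ.filter fun r : Equiv.Perm (Fin n) => dr (W true (r * c * r⁻¹)) ≤ m).card =
      (univ.filter fun π : Equiv.Perm (Fin n) => Cyc π ∧ dr (W true π) ≤ m).card *
      (univ.filter fun r : Equiv.Perm (Fin n) => r * c * r⁻¹ = c).card := by
    have := card_conj (n := n) (by omega) (fun π => dr (W true π) ≤ m)
    convert this
  rw [hcard] at h1 h2
  rw [sum_congr rfl (fun ρ _ => htri ρ)] at h1
  rw [h2] at h1
  have hpos : 0 < (univ.filter fun r : Equiv.Perm (Fin n) => r * c * r⁻¹ = c).card := by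
    rw [card_pos]
    exact ⟨1, by simp⟩
  exact (Nat.eq_of_mul_eq_mul_right hpos h1).symm

end Pool.Agent.R121.CycSeg
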