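import Pool.Agent.R121.ExGen

set_option autoImplicit false

/-!
# Codes of the low points
-/

namespace Pool.Agent.R121.ExGen

open Finset Pool.Agent.R121

variable {n r : ℕ} [NeZero r] {R : (Fin r → ℕ) → (Fin r → ℕ) → Prop}

/-- comparison -/
def cmp (t : Bool) (a b : ℕ) : Prop := if t = true then a < b else b < a

open Classical in
/-- the number of earlier available values below (`t = true`) or above (`t = false`) -/
noncomputable def code (t : Bool) (n : ℕ) {r : ℕ} (R : (Fin r → ℕ) → (Fin r → ℕ) → Prop)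
    (f : ℕ → ℕ) (x : ℕ) : ℕ :=
  ((range x).filter fun k => cmp t (f k) (f x) ∧ Lam n R f x (f k)).card

lemma cmp_irrefl (t : Bool) (a : ℕ) : ¬ cmp t a a := by
  cases t <;> simp [cmp]

lemma cmp_trans {t : Bool} {a b c : ℕ} (h1 : cmp t a b) (h2 : cmp t b c) : cmp t a c := by
  cases t <;> simp only [cmp, Bool.false_eq_true, if_false, if_true] at * <;> omega

lemma cmp_total {t : Bool} {a b : ℕ} (h : a ≠ b) : cmp t a b ∨ cmp t b a := by
  cases t <;> simp only [cmp, Bool.false_eq_true, if_false, if_true] <;> omega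

open Classical in
/-- an element with a given number of elements before it -/
lemma exists_rank (t : Bool) : ∀ (e : ℕ) (s : Finset ℕ), e < s.card →
    ∃ v ∈ s, (s.filter fun w => cmp t w v).card = e := by
  intro e
  induction e with
  | zero =>
    intro s hs
    have hne : s.Nonempty := card_pos.1 hs
    cases t
    · refine ⟨s.max' hne, s.max'_mem hne, ?_⟩
      rw [card_eq_zero, filter_eq_empty_iff]
      intro w hw
      simp only [cmp, Bool.false_eq_true, if_false, not_lt]
      exact s.le_max' w hw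
    · refine ⟨s.min' hne, s.min'_mem hne, ?_⟩
      rw [card_eq_zero, filter_eq_empty_iff]
      intro w hw
      simp only [cmp, if_true, not_lt]
      exact s.min'_le w hw
  | succ e ih =>
    intro s hs
    have hne : s.Nonempty := card_pos.1 (by omega)
    obtain ⟨m, hm, hmin⟩ : ∃ m ∈ s, ∀ w ∈ s, w ≠ m → cmp t m w := by
      cases t
      · refine ⟨s.max' hne, s.max'_mem hne, ?_⟩
        intro w hw hwm
        simp only [cmp, Bool.false_eq_true, if_false]
        exact lt_of_le_of_ne (s.le_max' w hw) hwm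
      · refine ⟨s.min' hne, s.min'_mem hne, ?_⟩
        intro w hw hwm
        simp only [cmp, if_true]
        exact lt_of_le_of_ne (s.min'_le w hw) (Ne.symm hwm)
    obtain ⟨v, hv, hc⟩ := ih (s.erase m) (by rw [card_erase_of_mem hm]; omega)
    rw [mem_erase] at hv
    refine ⟨v, hv.2, ?_⟩
    have : s.filter (fun w => cmp t w v) = insert m ((s.erase m).filter fun w => cmp t w v) := by
      ext w
      rw [mem_insert, mem_filter, mem_filter, mem_erase]
      constructor
      · rintro ⟨h1, h2⟩
        by_cases h3 : w = m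
        · exact Or.inl h3
        · exact Or.inr ⟨⟨h3, h1⟩, h2⟩
      · rintro (h | h)
        · rw [h]
          exact ⟨hm, hmin v hv.2 hv.1⟩
        · exact ⟨h.1.2, h.2⟩
    rw [this, card_insert_of_notMem, hc]
    simp

lemma card_swap (ρ : Equiv.Perm (Fin n)) {i j y : ℕ} (hi : i < n) (hj : j < n) (hiy : i < y)
    (hjy : j < y) (P : ℕ → Prop) [DecidablePred P] :
    ((range y).filter fun k => P (fn (ρ * Equiv.swap ⟨i, hi⟩ ⟨j, hj⟩) k)).card =
    ((range y).filter fun k => P (fn ρ k)).card := by
  apply Finset.card_nbij' (fun k => if k = i then j else if k = j then i else k)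
    (fun k => if k = i then j else if k = j then i else k)
  · intro k hk
    simp only [coe_filter, mem_range, Set.mem_ofPred_eq] at hk ⊢
    rw [fn_mul_swap] at hk
    split_ifs at hk ⊢ <;> exact ⟨by omega, hk.2⟩
  · intro k hk
    simp only [coe_filter, mem_range, Set.mem_ofPred_eq] at hk ⊢
    refine ⟨by split_ifs <;> omega, ?_⟩
    rw [fn_mul_swap]
    by_cases c1 : k = i
    · subst c1
      simp only [if_true]
      by_cases c2 : j = k
      · subst c2
        simpa using hk.2
      · rw [if_neg c2]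
        exact hk.2
    · by_cases c2 : k = j
      · subst c2
        rw [if_neg c1, if_pos rfl, if_pos rfl]
        exact hk.2
      · rw [if_neg c1, if_neg c2, if_neg c1, if_neg c2]
        exact hk.2
  · intro k hk
    simp only
    split_ifs <;> omega
  · intro k hk
    simp only
    split_ifs <;> omega

lemma Same.lam_iff {f h : ℕ → ℕ} (hs : Same n R f h) {x v : ℕ} : Lam n R f x v ↔ Lam n R h x v :=
  ⟨hs.lam, hs.symm.lam⟩

open Classical in
/-- the available places -/
noncomputable def JJ (n : ℕ) {r : ℕ} (R : (Fin r → ℕ) → (Fin r → ℕ) → Prop)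
    (f : ℕ → ℕ) (x : ℕ) : Finset ℕ := (range (x + 1)).filter fun k => Lam n R f x (f k)

lemma mem_JJ {f : ℕ → ℕ} {x k : ℕ} : k ∈ JJ n R f x ↔ k < x + 1 ∧ Lam n R f x (f k) := by
  classical
  unfold JJ
  rw [mem_filter, mem_range]

open Classical in
lemma card_JJ {σ ρ : Equiv.Perm (Fin n)} (hs : Same n R (fn σ) (fn ρ)) {x : ℕ} (hx : x < n) :
    (JJ n R (fn σ) x).card = (JJ n R (fn ρ) x).card := by
  have tot : ∀ τ : Equiv.Perm (Fin n), (JJ n R (fn τ) x).card +
      ((range n).filter fun j => x < j ∧ Lam n R (fn τ) x (fn τ j)).card =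
      ((range n).filter fun v => Lam n R (fn τ) x v).card := by
    intro τ
    have h1 : ((range n).filter fun v => Lam n R (fn τ) x v) =
        ((range n).filter fun j => Lam n R (fn τ) x (fn τ j)).image (fn τ) := by
      ext v
      rw [mem_image, mem_filter, mem_range]
      constructor
      · rintro ⟨h2, h3⟩
        obtain ⟨j, hj, rfl⟩ := fn_surj τ v h2
        exact ⟨j, by rw [mem_filter, mem_range]; exact ⟨hj, h3⟩, rfl⟩
      · rintro ⟨j, hj, rfl⟩
        rw [mem_filter, mem_range] at hj
        exact ⟨fn_lt τ hj.1, hj.2⟩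
    have e1 : JJ n R (fn τ) x = ((range n).filter fun j => Lam n R (fn τ) x (fn τ j)).filter
        fun j => j < x + 1 := by
      ext j
      rw [mem_JJ]
      simp only [mem_filter, mem_range]
      constructor
      · rintro ⟨h2, h3⟩
        exact ⟨⟨by omega, h3⟩, h2⟩
      · rintro ⟨⟨h2, h3⟩, h4⟩
        exact ⟨h4, h3⟩
    have e2 : ((range n).filter fun j => x < j ∧ Lam n R (fn τ) x (fn τ j)) =
        ((range n).filter fun j => Lam n R (fn τ) x (fn τ j)).filter fun j => ¬ j < x + 1 := by
      ext j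
      simp only [mem_filter, mem_range]
      constructor
      · rintro ⟨h2, h3, h4⟩
        exact ⟨⟨h2, h4⟩, by omega⟩
      · rintro ⟨⟨h2, h3⟩, h4⟩
        exact ⟨h2, by omega, h3⟩
    rw [h1, card_image_of_injOn, e1, e2, Finset.card_filter_add_card_filter_not]
    · intro a ha b hb hab
      simp only [coe_filter, mem_range, Set.mem_ofPred_eq] at ha hb
      exact fn_inj τ a ha.1 b hb.1 hab
  have h1 := tot σ
  have h2 := tot ρ
  have h3 : ((range n).filter fun j => x < j ∧ Lam n R (fn σ) x (fn σ j)) =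
      (range n).filter fun j => x < j ∧ Lam n R (fn ρ) x (fn ρ j) := by
    apply Finset.filter_congr
    intro j _
    by_cases hl : Low n R (fn σ) j
    · constructor
      · rintro ⟨h, _⟩
        have h5 : Low n R (fn ρ) j := (hs.1 j).1 hl
        exact ⟨h, h5.mono (by omega) le_rfl⟩
      · rintro ⟨h, _⟩
        exact ⟨h, Lam.mono hl (by omega) le_rfl⟩
    · rw [← hs.2 j hl, hs.lam_iff]
  have h4 : ((range n).filter fun v => Lam n R (fn σ) x v) =
      (range n).filter fun v => Lam n R (fn ρ) x v := by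
    apply Finset.filter_congr
    intro j _
    exact hs.lam_iff
  rw [h3, h4] at h1
  omega

open Classical in
lemma code_eq_JJ (t : Bool) (f : ℕ → ℕ) (x : ℕ) :
    code t n R f x = ((JJ n R f x).filter fun k => cmp t (f k) (f x)).card := by
  unfold code JJ
  congr 1
  ext k
  simp only [mem_filter, mem_range]
  constructor
  · rintro ⟨h1, h2, h3⟩
    exact ⟨⟨by omega, h3⟩, h2⟩
  · rintro ⟨⟨h1, h2⟩, h3⟩
    refine ⟨?_, h3, h2⟩
    have : k ≠ x := by
      rintro rfl
      exact cmp_irrefl t _ h3
    omega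

open Classical in
lemma code_lt (t : Bool) {f : ℕ → ℕ} {x : ℕ} (hl : Low n R f x) :
    code t n R f x < (JJ n R f x).card := by
  rw [code_eq_JJ]
  apply card_lt_card
  rw [Finset.ssubset_iff_of_subset (filter_subset _ _)]
  refine ⟨x, mem_JJ.2 ⟨by omega, hl⟩, ?_⟩
  rw [mem_filter]
  rintro ⟨_, h⟩
  exact cmp_irrefl t _ h

open Classical in
lemma exists_code (t : Bool) (σ : Equiv.Perm (Fin n)) (c : ℕ → ℕ)
    (hc : ∀ x < n, Low n R (fn σ) x → c x < (JJ n R (fn σ) x).card) : ∀ d : ℕ,
    ∃ ρ : Equiv.Perm (Fin n), Same n R (fn σ) (fn ρ) ∧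
      ∀ x < n, n - x ≤ d → Low n R (fn σ) x → code t n R (fn ρ) x = c x := by
  intro d
  induction d with
  | zero => exact ⟨σ, Same.refl _, fun x hx h => by omega⟩
  | succ d ih =>
    obtain ⟨ρ, hs, hρ⟩ := ih
    by_cases hd : d + 1 ≤ n
    swap
    · exact ⟨ρ, hs, fun x hx h => hρ x hx (by omega)⟩
    obtain ⟨x, hx⟩ : ∃ x, x = n - (d + 1) := ⟨_, rfl⟩
    have hxn : x < n := by omega
    by_cases hl : Low n R (fn σ) x
    swap
    · refine ⟨ρ, hs, fun y hy h hly => hρ y hy ?_ hly⟩
      have : y ≠ x := by rintro rfl; exact hl hly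
      omega
    have hlρ : Low n R (fn ρ) x := (hs.1 x).1 hl
    have h1 := hc x hxn hl
    rw [card_JJ hs hxn] at h1
    have hinj : Set.InjOn (fn ρ) (JJ n R (fn ρ) x) := by
      intro a ha b hb hab
      rw [mem_coe, mem_JJ] at ha hb
      exact fn_inj ρ a (by omega) b (by omega) hab
    rw [← card_image_of_injOn hinj] at h1
    obtain ⟨v, hv, hcard⟩ := exists_rank t (c x) _ h1
    rw [mem_image] at hv
    obtain ⟨j, hj, rfl⟩ := hv
    rw [mem_JJ] at hj
    have hjn : j < n := by omega
    have hsw : Same n R (fn ρ) (fn (ρ * Equiv.swap ⟨x, hxn⟩ ⟨j, hjn⟩)) := by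
      apply same_swap ρ hxn hjn hlρ
      · exact hj.2.mono (by omega) le_rfl
      · exact hj.2
      · exact Lam.mono hlρ (by omega) le_rfl
    refine ⟨ρ * Equiv.swap ⟨x, hxn⟩ ⟨j, hjn⟩, hs.trans hsw, ?_⟩
    intro y hy hyd hly
    have hval : fn (ρ * Equiv.swap ⟨x, hxn⟩ ⟨j, hjn⟩) y = if y = x then fn ρ j else fn ρ y := by
      rw [fn_mul_swap]
      by_cases c1 : y = x
      · rw [if_pos c1, if_pos c1]
      · rw [if_neg c1, if_neg c1, if_neg (by omega)]
    by_cases hyx : y = x
    · subst hyx
      rw [if_pos rfl] at hval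
      rw [code_eq_JJ]
      unfold JJ
      rw [Finset.filter_filter]
      rw [hval]
      have h2 := card_swap ρ hxn hjn (show y < y + 1 by omega) (show j < y + 1 by omega)
        (fun v => Lam n R (fn (ρ * Equiv.swap ⟨y, hxn⟩ ⟨j, hjn⟩)) y v ∧ cmp t v (fn ρ j))
      rw [h2]
      have h3 : (filter (fun w => cmp t w (fn ρ j)) (image (fn ρ) (JJ n R (fn ρ) y))).card =
          ((range (y + 1)).filter fun k => Lam n R (fn (ρ * Equiv.swap ⟨y, hxn⟩ ⟨j, hjn⟩)) y (fn ρ k) ∧
            cmp t (fn ρ k) (fn ρ j)).card := by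
        rw [Finset.filter_image, card_image_of_injOn (hinj.mono (by
          intro a ha
          rw [mem_coe, mem_filter] at ha
          exact ha.1))]
        congr 1
        ext k
        rw [mem_filter, mem_JJ, mem_filter, mem_range, hsw.lam_iff]
        tauto
      rw [← h3, hcard]
    · rw [if_neg hyx] at hval
      have h2 := hρ y hy (by omega) hly
      rw [← h2]
      unfold code
      rw [hval]
      have h4 := card_swap ρ hxn hjn (show x < y by omega) (show j < y by omega)
        (fun v => cmp t v (fn ρ y) ∧ Lam n R (fn (ρ * Equiv.swap ⟨x, hxn⟩ ⟨j, hjn⟩)) y v)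
      rw [h4]
      congr 1
      apply Finset.filter_congr
      intro k _
      rw [hsw.lam_iff]

open Classical in
lemma unique_code (t : Bool) {σ ρ : Equiv.Perm (Fin n)} (hs : Same n R (fn σ) (fn ρ))
    (hc : ∀ x < n, Low n R (fn σ) x → code t n R (fn σ) x = code t n R (fn ρ) x) : σ = ρ := by
  have key : ∀ d x, n - x ≤ d → x < n → fn σ x = fn ρ x := by
    intro d
    induction d with
    | zero => intro x h1 h2; omega
    | succ d ih =>
      intro x hd hx
      by_cases hl : Low n R (fn σ) x
      swap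
      · exact hs.2 x hl
      by_contra hne
      have hlρ : Low n R (fn ρ) x := (hs.1 x).1 hl
      have hsub : ∀ σ ρ : Equiv.Perm (Fin n), Same n R (fn σ) (fn ρ) →
          (∀ y, n - y ≤ d → y < n → fn σ y = fn ρ y) →
          (JJ n R (fn σ) x).image (fn σ) ⊆ (JJ n R (fn ρ) x).image (fn ρ) := by
        intro σ ρ hs ih v hv
        rw [mem_image] at hv ⊢
        obtain ⟨k, hk, rfl⟩ := hv
        rw [mem_JJ] at hk
        obtain ⟨k', hk', hk2⟩ := fn_surj ρ (fn σ k) (fn_lt σ (by omega))
        refine ⟨k', ?_, hk2⟩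
        rw [mem_JJ, hk2]
        refine ⟨?_, hs.lam hk.2⟩
        by_contra h3
        have h4 := ih k' (by omega) hk'
        rw [hk2] at h4
        have := fn_inj σ k' hk' k (by omega) h4
        omega
      have hA : (JJ n R (fn σ) x).image (fn σ) = (JJ n R (fn ρ) x).image (fn ρ) :=
        Subset.antisymm (hsub σ ρ hs ih) (hsub ρ σ hs.symm (fun y h1 h2 => (ih y h1 h2).symm))
      have hcode : ∀ τ : Equiv.Perm (Fin n), code t n R (fn τ) x =
          (((JJ n R (fn τ) x).image (fn τ)).filter fun v => cmp t v (fn τ x)).card := by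
        intro τ
        rw [code_eq_JJ, Finset.filter_image, card_image_of_injOn]
        intro a ha b hb hab
        simp only [coe_filter, mem_JJ, Set.mem_ofPred_eq] at ha hb
        exact fn_inj τ a (by omega) b (by omega) hab
      have e := hc x hx hl
      rw [hcode σ, hcode ρ, hA] at e
      have main : ∀ a b : ℕ, ∀ A : Finset ℕ, a ∈ A → cmp t a b →
          (A.filter fun v => cmp t v a).card < (A.filter fun v => cmp t v b).card := by
        intro a b A ha hab
        apply card_lt_card
        rw [Finset.ssubset_iff_of_subset]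
        · refine ⟨a, mem_filter.2 ⟨ha, hab⟩, ?_⟩
          rw [mem_filter]
          rintro ⟨_, h⟩
          exact cmp_irrefl t _ h
        · intro v hv
          rw [mem_filter] at hv ⊢
          exact ⟨hv.1, cmp_trans hv.2 hab⟩
      have m1 : fn σ x ∈ (JJ n R (fn ρ) x).image (fn ρ) := by
        rw [← hA]
        exact mem_image_of_mem _ (mem_JJ.2 ⟨by omega, hl⟩)
      have m2 : fn ρ x ∈ (JJ n R (fn ρ) x).image (fn ρ) :=
        mem_image_of_mem _ (mem_JJ.2 ⟨by omega, hlρ⟩)
      rcases cmp_total (t := t) hne with h | h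
      · have := main _ _ _ m1 h
        omega
      · have := main _ _ _ m2 h
        omega
  exact ext_of_fn (fun x hx => key n x (by omega) hx)

open Classical in
/-- the exchange of codes -/
theorem exchange_code (m : ℕ) :
    (univ.filter fun σ : Equiv.Perm (Fin n) =>
      ∀ x < n, Low n R (fn σ) x → code true n R (fn σ) x ≤ m).card =
    (univ.filter fun σ : Equiv.Perm (Fin n) =>
      ∀ x < n, Low n R (fn σ) x → code false n R (fn σ) x ≤ m).card := by
  have main : ∀ t t' : Bool, (univ.filter fun σ : Equiv.Perm (Fin n) =>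
      ∀ x < n, Low n R (fn σ) x → code t n R (fn σ) x ≤ m).card ≤
    (univ.filter fun σ : Equiv.Perm (Fin n) =>
      ∀ x < n, Low n R (fn σ) x → code t' n R (fn σ) x ≤ m).card := by
    intro t t'
    have hex : ∀ σ : Equiv.Perm (Fin n), ∃ ρ : Equiv.Perm (Fin n), Same n R (fn σ) (fn ρ) ∧
        ∀ x < n, Low n R (fn σ) x → code t' n R (fn ρ) x = code t n R (fn σ) x := by
      intro σ
      obtain ⟨ρ, h1, h2⟩ := exists_code (R := R) t' σ (fun x => code t n R (fn σ) x)
        (fun x _ hl => code_lt t hl) n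
      exact ⟨ρ, h1, fun x hx => h2 x hx (by omega)⟩
    choose F hF1 hF2 using hex
    apply card_le_card_of_injOn F
    · intro σ hσ
      simp only [coe_filter, mem_univ, true_and, Set.mem_ofPred_eq] at hσ ⊢
      intro x hx hl
      have hl' := ((hF1 σ).1 x).2 hl
      rw [hF2 σ x hx hl']
      exact hσ x hx hl'
    · intro σ _ ρ _ h
      have s1 := hF1 σ
      have s2 := hF1 ρ
      rw [← h] at s2
      have hs := s1.trans s2.symm
      apply unique_code t hs
      intro x hx hl
      rw [← hF2 σ x hx hl, ← hF2 ρ x hx ((hs.1 x).1 hl), h]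
  exact le_antisymm (main _ _) (main _ _)

end Pool.Agent.R121.ExGen
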