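import Pool.Agent.R121.OfFn

set_option autoImplicit false

/-!
# Exchanging prefixes, with a general upper part
-/

namespace Pool.Agent.R121.ExGen

open Finset Pool.Agent.R121

variable {n r : ℕ} [NeZero r] {R : (Fin r → ℕ) → (Fin r → ℕ) → Prop}

/-- the cell `(x, v)` has an occurrence of the upper part of the pattern to its upper right -/
def Lam (n : ℕ) {r : ℕ} (R : (Fin r → ℕ) → (Fin r → ℕ) → Prop) (f : ℕ → ℕ) (x v : ℕ) : Prop :=
  ∃ X : Fin r → ℕ, (∀ s, x < X s ∧ X s < n ∧ v < f (X s)) ∧ R X (fun s => f (X s))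

/-- the point at place `x` is low -/
def Low (n : ℕ) {r : ℕ} (R : (Fin r → ℕ) → (Fin r → ℕ) → Prop) (f : ℕ → ℕ) (x : ℕ) : Prop :=
  Lam n R f x (f x)

omit [NeZero r] in
lemma Lam.mono {f : ℕ → ℕ} {x v x' v' : ℕ} (h : Lam n R f x v) (hx : x' ≤ x) (hv : v' ≤ v) :
    Lam n R f x' v' := by
  obtain ⟨X, h1, h2⟩ := h
  exact ⟨X, fun s => ⟨by have := h1 s; omega, (h1 s).2.1, by have := h1 s; omega⟩, h2⟩

lemma Lam.lt {f : ℕ → ℕ} {x v : ℕ} (h : Lam n R f x v) : x + 1 < n := by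
  obtain ⟨X, h1, h2⟩ := h
  have := h1 0
  omega

lemma witness {f : ℕ → ℕ} : ∀ (d x v : ℕ), n - x ≤ d → Lam n R f x v →
    ∃ X : Fin r → ℕ, ((∀ s, x < X s ∧ X s < n ∧ v < f (X s)) ∧ R X (fun s => f (X s))) ∧
      ∀ s, ¬ Low n R f (X s) := by
  intro d
  induction d with
  | zero => intro x v hd h; have := h.lt; omega
  | succ d ih =>
    intro x v hd h
    obtain ⟨X, h1, h2⟩ := h
    by_cases hj : ∀ s, ¬ Low n R f (X s)
    · exact ⟨X, ⟨h1, h2⟩, hj⟩
    · push Not at hj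
      obtain ⟨s, hs⟩ := hj
      have h3 := h1 s
      obtain ⟨Y, ⟨a1, a2⟩, b⟩ := ih (X s) (f (X s)) (by omega) hs
      exact ⟨Y, ⟨fun s => ⟨by have := a1 s; omega, (a1 s).2.1, by have := a1 s; omega⟩, a2⟩, b⟩

/-- same low places and same points at the other places -/
def Same (n : ℕ) {r : ℕ} (R : (Fin r → ℕ) → (Fin r → ℕ) → Prop) (f h : ℕ → ℕ) : Prop :=
  (∀ x, Low n R f x ↔ Low n R h x) ∧ ∀ x, ¬ Low n R f x → f x = h x

omit [NeZero r] in
lemma Same.refl (f : ℕ → ℕ) : Same n R f f := ⟨fun _ => Iff.rfl, fun _ _ => rfl⟩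

omit [NeZero r] in
lemma Same.symm {f h : ℕ → ℕ} (hs : Same n R f h) : Same n R h f :=
  ⟨fun x => (hs.1 x).symm, fun x hx => (hs.2 x (fun h' => hx ((hs.1 x).1 h'))).symm⟩

omit [NeZero r] in
lemma Same.trans {f h k : ℕ → ℕ} (h1 : Same n R f h) (h2 : Same n R h k) : Same n R f k :=
  ⟨fun x => (h1.1 x).trans (h2.1 x), fun x hx =>
    (h1.2 x hx).trans (h2.2 x (fun h' => hx ((h1.1 x).2 h')))⟩

lemma Same.lam {f h : ℕ → ℕ} (hs : Same n R f h) {x v : ℕ} (hl : Lam n R f x v) :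
    Lam n R h x v := by
  obtain ⟨X, ⟨a1, a2⟩, b⟩ := witness n x v (by omega) hl
  have e : ∀ s, f (X s) = h (X s) := fun s => hs.2 (X s) (b s)
  refine ⟨X, ?_, ?_⟩
  · intro s
    rw [← e]
    exact a1 s
  · have : (fun s => h (X s)) = fun s => f (X s) := funext fun s => (e s).symm
    rw [this]
    exact a2

/-- moving low points inside the region -/
lemma rearrange {f h : ℕ → ℕ} (h1 : ∀ x, ¬ Low n R f x → f x = h x)
    (h2 : ∀ x, Low n R f x → Lam n R f x (h x)) : Same n R f h := by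
  have e1 : ∀ x v, Lam n R f x v → Lam n R h x v := by
    intro x v hl
    obtain ⟨X, ⟨a1, a2⟩, b⟩ := witness n x v (by omega) hl
    have e : ∀ s, f (X s) = h (X s) := fun s => h1 (X s) (b s)
    refine ⟨X, ?_, ?_⟩
    · intro s
      rw [← e]
      exact a1 s
    · have : (fun s => h (X s)) = fun s => f (X s) := funext fun s => (e s).symm
      rw [this]
      exact a2
  have e2 : ∀ x v, Lam n R h x v → Lam n R f x v := by
    rintro x v ⟨X, a1, a2⟩
    by_cases hj : ∀ s, ¬ Low n R f (X s)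
    · have e : ∀ s, f (X s) = h (X s) := fun s => h1 (X s) (hj s)
      refine ⟨X, ?_, ?_⟩
      · intro s
        rw [e]
        exact a1 s
      · have : (fun s => f (X s)) = fun s => h (X s) := funext fun s => e s
        rw [this]
        exact a2
    · push Not at hj
      obtain ⟨s, hs⟩ := hj
      have h3 := a1 s
      exact (h2 _ hs).mono (by omega) (by omega)
  refine ⟨?_, h1⟩
  intro x
  constructor
  · intro hx
    exact e1 _ _ (h2 x hx)
  · intro hx
    by_contra hc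
    apply hc
    have := e2 _ _ hx
    rw [← h1 x hc] at this
    exact this

/-- no occurrence of `12` followed by the upper part -/
def A12 (n : ℕ) {r : ℕ} (R : (Fin r → ℕ) → (Fin r → ℕ) → Prop) (f : ℕ → ℕ) : Prop :=
  ∀ i j, i < j → Low n R f j → ¬ f i < f j

/-- no occurrence of `21` followed by the upper part -/
def A21 (n : ℕ) {r : ℕ} (R : (Fin r → ℕ) → (Fin r → ℕ) → Prop) (f : ℕ → ℕ) : Prop :=
  ∀ i j, i < j → f j < f i → ¬ Lam n R f j (f i)

lemma fn_mul_swap (ρ : Equiv.Perm (Fin n)) {i j : ℕ} (hi : i < n) (hj : j < n) (x : ℕ) :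
    fn (ρ * Equiv.swap ⟨i, hi⟩ ⟨j, hj⟩) x =
      if x = i then fn ρ j else if x = j then fn ρ i else fn ρ x := by
  rw [fn_mul]
  rcases Nat.lt_or_ge x n with h | h
  · have h1 : fn (Equiv.swap (⟨i, hi⟩ : Fin n) ⟨j, hj⟩) x =
        (Equiv.swap (⟨i, hi⟩ : Fin n) ⟨j, hj⟩ ⟨x, h⟩ : Fin n) := fn_fin _ ⟨x, h⟩
    rw [h1, Equiv.swap_apply_def]
    simp only [Fin.mk.injEq]
    split_ifs <;> rfl
  · rw [fn_ge _ h, if_neg (by omega), if_neg (by omega)]

/-- exchanging two points inside the region -/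
lemma same_swap (ρ : Equiv.Perm (Fin n)) {i j : ℕ} (hi : i < n) (hj : j < n)
    (h1 : Lam n R (fn ρ) i (fn ρ i)) (h2 : Lam n R (fn ρ) j (fn ρ j))
    (h3 : Lam n R (fn ρ) i (fn ρ j)) (h4 : Lam n R (fn ρ) j (fn ρ i)) :
    Same n R (fn ρ) (fn (ρ * Equiv.swap ⟨i, hi⟩ ⟨j, hj⟩)) := by
  apply rearrange
  · intro x hx
    rw [fn_mul_swap]
    split_ifs with c1 c2
    · subst c1
      exact absurd h1 hx
    · subst c2
      exact absurd h2 hx
    · rfl
  · intro x hx
    rw [fn_mul_swap]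
    split_ifs with c1 c2
    · subst c1
      exact h3
    · subst c2
      exact h4
    · exact hx

lemma unique12 {σ ρ : Equiv.Perm (Fin n)} (hs : Same n R (fn σ) (fn ρ))
    (h1 : A12 n R (fn σ)) (h2 : A12 n R (fn ρ)) : σ = ρ := by
  have key : ∀ x, x < n → fn σ x = fn ρ x := by
    intro x
    induction x using Nat.strong_induction_on with
    | _ x ih =>
    intro hx
    by_contra hne
    have main : ∀ σ ρ : Equiv.Perm (Fin n), Same n R (fn σ) (fn ρ) → A12 n R (fn σ) →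
        (∀ y < x, fn σ y = fn ρ y) → ¬ fn σ x < fn ρ x := by
      intro σ ρ hs h1 ih hlt
      obtain ⟨y, hy, hyv⟩ := fn_surj σ (fn ρ x) (fn_lt ρ hx)
      have hxy : x < y := by
        by_contra h3
        rcases Nat.lt_or_ge y x with h4 | h4
        · have h5 := ih y h4
          rw [hyv] at h5
          have := fn_inj ρ x hx y hy h5
          omega
        · have : y = x := by omega
          subst this
          omega
      have hly : Low n R (fn σ) y := by
        by_contra h3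
        have h5 := hs.2 y h3
        rw [hyv] at h5
        have := fn_inj ρ x hx y hy h5
        omega
      exact h1 x y (by omega) hly (by rw [hyv]; exact hlt)
    rcases Nat.lt_or_gt_of_ne hne with h3 | h3
    · exact main σ ρ hs h1 (fun y hy => ih y hy (by omega)) h3
    · exact main ρ σ hs.symm h2 (fun y hy => (ih y hy (by omega)).symm) h3
  exact ext_of_fn key

lemma unique21 {σ ρ : Equiv.Perm (Fin n)} (hs : Same n R (fn σ) (fn ρ))
    (h1 : A21 n R (fn σ)) (h2 : A21 n R (fn ρ)) : σ = ρ := by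
  have key : ∀ d x, n - x = d → x < n → fn σ x = fn ρ x := by
    intro d
    induction d using Nat.strong_induction_on with
    | _ d ih =>
    intro x hd hx
    by_contra hne
    have hl : Low n R (fn σ) x := by
      by_contra h; exact hne (hs.2 x h)
    have main : ∀ σ ρ : Equiv.Perm (Fin n), Same n R (fn σ) (fn ρ) → A21 n R (fn σ) →
        Low n R (fn ρ) x → (∀ y, x < y → y < n → fn σ y = fn ρ y) → ¬ fn σ x < fn ρ x := by
      intro σ ρ hs h1 hl ih hlt
      obtain ⟨y, hy, hyv⟩ := fn_surj σ (fn ρ x) (fn_lt ρ hx)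
      have hxy : y < x := by
        by_contra h3
        rcases Nat.lt_or_ge x y with h4 | h4
        · have h5 := ih y h4 hy
          rw [hyv] at h5
          have := fn_inj ρ x hx y hy h5
          omega
        · have : y = x := by omega
          subst this
          omega
      exact h1 y x (by omega) (by rw [hyv]; exact hlt) (by rw [hyv]; exact hs.symm.lam hl)
    have ih' : ∀ y, x < y → y < n → fn σ y = fn ρ y := fun y hy hyn => ih (n - y) (by omega) y rfl hyn
    rcases Nat.lt_or_gt_of_ne hne with h3 | h3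
    · exact main σ ρ hs h1 ((hs.1 x).1 hl) ih' h3
    · exact main ρ σ hs.symm h2 hl (fun y hy hyn => (ih' y hy hyn).symm) h3
  exact ext_of_fn (fun x hx => key _ x rfl hx)

open Classical in
lemma exists12 (σ : Equiv.Perm (Fin n)) :
    ∃ ρ : Equiv.Perm (Fin n), Same n R (fn σ) (fn ρ) ∧ A12 n R (fn ρ) := by
  obtain ⟨ρ, hρ, hmax⟩ := Finset.exists_max_image
    (univ.filter fun ρ : Equiv.Perm (Fin n) => Same n R (fn σ) (fn ρ))
    (fun ρ => toLex (fun i => ρ i)) ⟨σ, by simp [Same.refl]⟩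
  simp only [mem_filter, mem_univ, true_and] at hρ hmax
  refine ⟨ρ, hρ, ?_⟩
  intro i j hij hl hlt
  have hjn := hl.lt
  have hi : i < n := by omega
  have hj : j < n := by omega
  have hs := same_swap ρ hi hj (hl.mono (by omega) (by omega)) hl (hl.mono (by omega) le_rfl)
    (hl.mono le_rfl (by omega))
  have h1 := hmax _ (hρ.trans hs)
  apply absurd h1 (not_le.2 _)
  refine ⟨⟨i, hi⟩, ?_, ?_⟩
  · intro k hk
    rw [Fin.lt_def] at hk
    simp only at hk
    have h2 := fn_mul_swap ρ hi hj k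
    rw [if_neg (by omega), if_neg (by omega), fn_fin, fn_fin] at h2
    exact (Fin.ext h2).symm
  · have h2 := fn_mul_swap ρ hi hj i
    rw [if_pos rfl] at h2
    have h3 : fn (ρ * Equiv.swap ⟨i, hi⟩ ⟨j, hj⟩) i =
        ((ρ * Equiv.swap (⟨i, hi⟩ : Fin n) ⟨j, hj⟩ : Equiv.Perm (Fin n)) ⟨i, hi⟩ : Fin n) :=
      fn_fin _ ⟨i, hi⟩
    have h4 : fn ρ i = (ρ ⟨i, hi⟩ : Fin n) := fn_fin _ ⟨i, hi⟩
    show ρ (⟨i, hi⟩ : Fin n) < (ρ * Equiv.swap (⟨i, hi⟩ : Fin n) ⟨j, hj⟩) ⟨i, hi⟩
    rw [Fin.lt_def, ← h3, ← h4, h2]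
    exact hlt

open Classical in
lemma exists21 (σ : Equiv.Perm (Fin n)) :
    ∃ ρ : Equiv.Perm (Fin n), Same n R (fn σ) (fn ρ) ∧ A21 n R (fn ρ) := by
  obtain ⟨ρ, hρ, hmax⟩ := Finset.exists_min_image
    (univ.filter fun ρ : Equiv.Perm (Fin n) => Same n R (fn σ) (fn ρ))
    (fun ρ => toLex (fun i => ρ i)) ⟨σ, by simp [Same.refl]⟩
  simp only [mem_filter, mem_univ, true_and] at hρ hmax
  refine ⟨ρ, hρ, ?_⟩
  intro i j hij hlt hl
  have hjn := hl.lt
  have hi : i < n := by omega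
  have hj : j < n := by omega
  have hs := same_swap ρ hi hj (hl.mono (by omega) le_rfl) (hl.mono le_rfl (by omega))
    (hl.mono (by omega) (by omega)) hl
  have h1 := hmax _ (hρ.trans hs)
  apply absurd h1 (not_le.2 _)
  refine ⟨⟨i, hi⟩, ?_, ?_⟩
  · intro k hk
    rw [Fin.lt_def] at hk
    simp only at hk
    have h2 := fn_mul_swap ρ hi hj k
    rw [if_neg (by omega), if_neg (by omega), fn_fin, fn_fin] at h2
    exact Fin.ext h2
  · have h2 := fn_mul_swap ρ hi hj i
    rw [if_pos rfl] at h2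
    have h3 : fn (ρ * Equiv.swap ⟨i, hi⟩ ⟨j, hj⟩) i =
        ((ρ * Equiv.swap (⟨i, hi⟩ : Fin n) ⟨j, hj⟩ : Equiv.Perm (Fin n)) ⟨i, hi⟩ : Fin n) :=
      fn_fin _ ⟨i, hi⟩
    have h4 : fn ρ i = (ρ ⟨i, hi⟩ : Fin n) := fn_fin _ ⟨i, hi⟩
    show (ρ * Equiv.swap (⟨i, hi⟩ : Fin n) ⟨j, hj⟩) ⟨i, hi⟩ < ρ ⟨i, hi⟩
    rw [Fin.lt_def, ← h3, ← h4, h2]
    exact hlt

open Classical in
/-- the classical exchange -/
lemma exchange : (univ.filter fun σ : Equiv.Perm (Fin n) => A12 n R (fn σ)).card =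
    (univ.filter fun σ : Equiv.Perm (Fin n) => A21 n R (fn σ)).card := by
  apply le_antisymm
  · choose F hF1 hF2 using fun σ : Equiv.Perm (Fin n) => exists21 (R := R) σ
    apply card_le_card_of_injOn F
    · intro σ _
      simp [hF2 σ]
    · intro σ hσ ρ hρ h
      simp only [coe_filter, mem_univ, true_and, Set.mem_ofPred_eq] at hσ hρ
      have h1 := hF1 ρ
      rw [← h] at h1
      exact unique12 ((hF1 σ).trans h1.symm) hσ hρ
  · choose F hF1 hF2 using fun σ : Equiv.Perm (Fin n) => exists12 (R := R) σ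
    apply card_le_card_of_injOn F
    · intro σ _
      simp [hF2 σ]
    · intro σ hσ ρ hρ h
      simp only [coe_filter, mem_univ, true_and, Set.mem_ofPred_eq] at hσ hρ
      have h1 := hF1 ρ
      rw [← h] at h1
      exact unique21 ((hF1 σ).trans h1.symm) hσ hρ

end Pool.Agent.R121.ExGen
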