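import Mathlib

set_option autoImplicit false

/-! Generating tree tools: appending a last value to a permutation. -/

namespace Pool.Agent.R121

open Finset

/-- A sum over a finite set of numbers of a function of the rank. -/
lemma sum_rank {M : Type*} [AddCommMonoid M] (S : Finset ℕ) (f : ℕ → M) :
    ∑ v ∈ S, f ((S.filter (fun u => u ≤ v)).card) = ∑ j ∈ Icc 1 S.card, f j := by
  induction S using Finset.induction_on_max with
  | empty => simp
  | insert a S ha ih =>
    have hnot : a ∉ S := fun h => lt_irrefl a (ha a h)
    rw [sum_insert hnot, card_insert_of_notMem hnot]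
    have h1 : (insert a S).filter (fun u => u ≤ a) = insert a S := by
      apply filter_true_of_mem
      intro u hu
      rcases mem_insert.1 hu with rfl | hu
      · exact le_rfl
      · exact (ha u hu).le
    have h2 : ∀ v ∈ S, (insert a S).filter (fun u => u ≤ v) = S.filter (fun u => u ≤ v) := by
      intro v hv
      rw [filter_insert, if_neg (not_le.2 (ha v hv))]
    rw [h1, card_insert_of_notMem hnot, sum_congr rfl (fun v hv => by rw [h2 v hv]), ih]
    rw [← Finset.insert_Icc_right_eq_Icc_add_one (by omega), sum_insert (by simp)]

/-- the permutation with last value `v` and the pattern `τ` before it -/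
noncomputable def snocP {n : ℕ} (v : Fin (n + 1)) (τ : Equiv.Perm (Fin n)) :
    Equiv.Perm (Fin (n + 1)) :=
  Equiv.ofBijective (Fin.snoc (α := fun _ => Fin (n + 1)) (fun i => v.succAbove (τ i)) v) (by
    rw [← Finite.injective_iff_bijective]
    intro i j hij
    induction i using Fin.lastCases with
    | last =>
      induction j using Fin.lastCases with
      | last => rfl
      | cast j =>
        rw [Fin.snoc_last, Fin.snoc_castSucc] at hij
        exact absurd hij.symm (Fin.succAbove_ne v _)
    | cast i =>
      induction j using Fin.lastCases with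
      | last =>
        rw [Fin.snoc_last, Fin.snoc_castSucc] at hij
        exact absurd hij (Fin.succAbove_ne v _)
      | cast j =>
        rw [Fin.snoc_castSucc, Fin.snoc_castSucc] at hij
        have := τ.injective (Fin.succAbove_right_injective hij)
        rw [this])

@[simp] lemma snocP_last {n : ℕ} (v : Fin (n + 1)) (τ : Equiv.Perm (Fin n)) :
    snocP v τ (Fin.last n) = v := by
  simp [snocP]

@[simp] lemma snocP_castSucc {n : ℕ} (v : Fin (n + 1)) (τ : Equiv.Perm (Fin n)) (i : Fin n) :
    snocP v τ i.castSucc = v.succAbove (τ i) := by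
  simp [snocP]

lemma snocP_bijective (n : ℕ) :
    Function.Bijective (fun p : Fin (n + 1) × Equiv.Perm (Fin n) => snocP p.1 p.2) := by
  rw [Fintype.bijective_iff_injective_and_card]
  constructor
  · rintro ⟨v, τ⟩ ⟨v', τ'⟩ h
    simp only at h
    have h1 : v = v' := by
      have := congrArg (fun σ => σ (Fin.last n)) h
      simpa using this
    subst h1
    have h2 : τ = τ' := by
      ext i
      have := congrArg (fun σ => σ i.castSucc) h
      simp only [snocP_castSucc] at this
      rw [Fin.succAbove_right_injective this]
    rw [h2]
  · rw [Fintype.card_prod, Fintype.card_perm, Fintype.card_perm, Fintype.card_fin,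
      Fintype.card_fin, Nat.factorial_succ]

lemma sum_snocP {n : ℕ} {M : Type*} [AddCommMonoid M] (g : Equiv.Perm (Fin (n + 1)) → M) :
    ∑ σ, g σ = ∑ τ : Equiv.Perm (Fin n), ∑ v : Fin (n + 1), g (snocP v τ) := by
  rw [Finset.sum_comm, ← Fintype.sum_prod_type']
  exact ((snocP_bijective n).sum_comp g).symm

lemma succAbove_val {n : ℕ} (v : Fin (n + 1)) (x : Fin n) :
    ((v.succAbove x : Fin (n + 1)) : ℕ) = if (x : ℕ) < v then (x : ℕ) else x + 1 := by
  unfold Fin.succAbove
  by_cases h : (x : ℕ) < v
  · have h2 : x.castSucc < v := by rw [Fin.lt_def]; simpa using h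
    simp [h, h2]
  · have h2 : ¬ x.castSucc < v := by rw [Fin.lt_def]; simpa using h
    simp [h, h2]

end Pool.Agent.R121
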