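import Pool.Agent.R121.LP

set_option autoImplicit false

/-!
# The forms `(a j + r) n + c`
-/

namespace Pool.Agent.R121.LA

open Finset
open Pool.Agent.H373R2.T7 Pool.Agent.R490.LGa Pool.Agent.R490.LGb Pool.Agent.R490.LGd
open Pool.Agent.R490.LGe Pool.Agent.R121.PX Pool.Agent.R121.LP

lemma c_lt {a p : ℕ} {c : ℤ} (ha : 1 ≤ a) (hc : c ≠ 0) (hp : a * c.natAbs < p) : ¬ (p : ℤ) ∣ c := by
  intro h
  have h1 : p ∣ c.natAbs := Int.natCast_dvd.1 h
  have h2 := Nat.le_of_dvd (Int.natAbs_pos.2 hc) h1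
  have h3 : 1 * c.natAbs ≤ a * c.natAbs := Nat.mul_le_mul_right _ ha
  omega

lemma datA (a r : ℕ) (c : ℤ) (ha : 1 ≤ a) (hc : c ≠ 0) :
    Dat (fun j => a * j + r) (fun _ => c) (a + r + c.natAbs + 1) (a * c.natAbs) := by
  refine ⟨?_, ?_, ?_, ?_, ?_⟩
  · intro j hj
    show 1 ≤ a * j + r
    have : 1 * 1 ≤ a * j := Nat.mul_le_mul ha hj
    omega
  · intro j hj
    show a * j + r ≤ (j + 1) ^ (a + r + c.natAbs + 1)
    have h1 : a + r ≤ (j + 1) ^ (a + r + c.natAbs) := by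
      calc a + r ≤ 2 ^ (a + r) := (Nat.lt_two_pow_self).le
        _ ≤ (j + 1) ^ (a + r) := Nat.pow_le_pow_left (by omega) _
        _ ≤ (j + 1) ^ (a + r + c.natAbs) := Nat.pow_le_pow_right (by omega) (by omega)
    have h2 : r * 1 ≤ r * j := Nat.mul_le_mul_left _ hj
    calc a * j + r ≤ a * j + r * j := by omega
      _ = (a + r) * j := by ring
      _ ≤ (j + 1) ^ (a + r + c.natAbs) * (j + 1) := Nat.mul_le_mul h1 (by omega)
      _ = (j + 1) ^ (a + r + c.natAbs + 1) := (pow_succ _ _).symm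
  · intro j hj
    show c.natAbs ≤ (j + 1) ^ (a + r + c.natAbs + 1)
    calc c.natAbs ≤ 2 ^ c.natAbs := (Nat.lt_two_pow_self).le
      _ ≤ (j + 1) ^ c.natAbs := Nat.pow_le_pow_left (by omega) _
      _ ≤ (j + 1) ^ (a + r + c.natAbs + 1) := Nat.pow_le_pow_right (by omega) (by omega)
  · intro j _ p _ hp _
    exact c_lt ha hc hp
  · intro j j' h1 h2 hne h
    have e : Rs (fun j => a * j + r) (fun _ => c) j j' = (a : ℤ) * ((j : ℤ) - j') * c := by
      unfold Rs
      push_cast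
      ring
    rw [e] at h
    rcases mul_eq_zero.1 h with h3 | h3
    · rcases mul_eq_zero.1 h3 with h4 | h4
      · omega
      · omega
    · exact hc h3

lemma excA (a r : ℕ) (c : ℤ) (ha : 1 ≤ a) (hc : c ≠ 0) (w K y : ℕ) (hw : 14 ≤ w) (hcw : a * c.natAbs ≤ w) :
    ∑ j ∈ Icc 1 K, ∑ j' ∈ Icc 1 K, exc (fun j => a * j + r) (fun _ => c) w y j j' ≤
      (56 * (a + r + 1) / 3 : ℝ) * (K : ℝ) ^ 2 / w := by
  have hw0 : (0 : ℝ) < w := by exact_mod_cast (by omega : 0 < w)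
  obtain ⟨G, hG⟩ : ∃ G, G = ∑ n ∈ Icc 1 K, (tw w y n ^ 3 - 1) := ⟨_, rfl⟩
  have hG1 : G ≤ 28 * K / w := by rw [hG]; exact sum_ex w y K hw
  obtain ⟨H, hH⟩ : ∃ H, H = ∑ j ∈ Icc 1 K, (tw w y (a * j + r) ^ 3 - 1) := ⟨_, rfl⟩
  have hH1 : H ≤ 28 * (((a + r) * K : ℕ) : ℝ) / w := by
    refine le_trans ?_ (sum_ex w y ((a + r) * K) hw)
    rw [hH, ← sum_image (f := fun n => tw w y n ^ 3 - 1) (g := fun j => a * j + r) (s := Icc 1 K)]
    · apply sum_le_sum_of_subset_of_nonneg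
      · intro h hh
        rw [mem_image] at hh
        obtain ⟨j, hj, rfl⟩ := hh
        rw [mem_Icc] at hj
        rw [mem_Icc]
        have k1 : 1 * 1 ≤ a * j := Nat.mul_le_mul ha hj.1
        have k2 : a * j ≤ a * K := Nat.mul_le_mul_left _ hj.2
        have k3 : r * 1 ≤ r * K := Nat.mul_le_mul_left _ (by omega)
        have k4 : (a + r) * K = a * K + r * K := by ring
        omega
      · intro n _ _
        exact cube_ge w y n
    · intro x _ x' _ hab
      simp only at hab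
      have k1 : a * x = a * x' := by omega
      exact Nat.eq_of_mul_eq_mul_left (by omega : 0 < a) k1
  have h2 : ∀ j ∈ Icc 1 K, ∑ j' ∈ Icc 1 K, exc (fun j => a * j + r) (fun _ => c) w y j j' ≤
      (K * (tw w y (a * j + r) ^ 3 - 1) + H + 2 * G) / 3 := by
    intro j hj
    have h1 : ∀ j' ∈ Icc 1 K, exc (fun j => a * j + r) (fun _ => c) w y j j' ≤
        ((tw w y (a * j + r) ^ 3 - 1) + (tw w y (a * j' + r) ^ 3 - 1) +
          (if j = j' then 0 else (tw w y ((j : ℤ) - j').natAbs ^ 3 - 1))) / 3 := by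
      intro j' _
      unfold exc
      split_ifs with hne
      · have a1 := cube_ge w y (a * j + r)
        have a2 := cube_ge w y (a * j' + r)
        linarith
      · have e : (Rs (fun j => a * j + r) (fun _ => c) j j').natAbs = (a * c.natAbs) * ((j : ℤ) - j').natAbs := by
          have e1 : Rs (fun j => a * j + r) (fun _ => c) j j' = ((a : ℤ) * c) * ((j : ℤ) - j') := by
            unfold Rs
            push_cast
            ring
          rw [e1, Int.natAbs_mul, Int.natAbs_mul, Int.natAbs_natCast]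
        rw [e]
        have a1 := tw_mul_le w y (a * c.natAbs) ((j : ℤ) - j').natAbs
        have a2 : tw w y (a * c.natAbs) ≤ 1 :=
          (tw_small w y _ (Nat.mul_pos (by omega) (Int.natAbs_pos.2 hc)) hcw).le
        have a3 := one_le_tw w y ((j : ℤ) - j').natAbs
        have a4 := one_le_tw w y (a * j + r)
        have a5 := one_le_tw w y (a * j' + r)
        have a6 := amgm3 _ _ _ a4 a5 a3
        have a7 : tw w y (a * c.natAbs * ((j : ℤ) - j').natAbs) ≤ tw w y ((j : ℤ) - j').natAbs := by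
          refine a1.trans ?_
          calc tw w y (a * c.natAbs) * tw w y ((j : ℤ) - j').natAbs ≤ 1 * tw w y ((j : ℤ) - j').natAbs :=
                mul_le_mul_of_nonneg_right a2 (by linarith)
            _ = _ := one_mul _
        have a8 : tw w y (a * j + r) * tw w y (a * j' + r) * tw w y (a * c.natAbs * ((j : ℤ) - j').natAbs) ≤
            tw w y (a * j + r) * tw w y (a * j' + r) * tw w y ((j : ℤ) - j').natAbs :=
          mul_le_mul_of_nonneg_left a7 (mul_nonneg (by linarith) (by linarith))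
        linarith
    refine (sum_le_sum h1).trans ?_
    rw [← sum_div, sum_add_distrib, sum_add_distrib, sum_const, nsmul_eq_mul, Nat.card_Icc, Nat.add_sub_cancel, ← hH]
    have h3 := sum_diff (fun n => tw w y n ^ 3 - 1) (cube_ge w y) K j hj
    rw [← hG] at h3
    linarith
  refine (sum_le_sum h2).trans ?_
  rw [← sum_div, sum_add_distrib, sum_add_distrib, ← mul_sum, ← hH, sum_const, sum_const, nsmul_eq_mul, nsmul_eq_mul,
    Nat.card_Icc, Nat.add_sub_cancel]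
  have hK0 : (0 : ℝ) ≤ K := Nat.cast_nonneg _
  have h3 : (K : ℝ) * H ≤ K * (28 * (((a + r) * K : ℕ) : ℝ) / w) := mul_le_mul_of_nonneg_left hH1 hK0
  have h4 : (K : ℝ) * (2 * G) ≤ K * (2 * (28 * K / w)) := mul_le_mul_of_nonneg_left (by linarith) hK0
  have h5 : (56 * (a + r + 1) / 3 : ℝ) * (K : ℝ) ^ 2 / w =
      (K * (28 * (((a + r) * K : ℕ) : ℝ) / w) + K * (28 * (((a + r) * K : ℕ) : ℝ) / w) + K * (2 * (28 * K / w))) / 3 := by
    push_cast
    field_simp
    ring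
  rw [h5]
  linarith

/-- no prime divides all the values `(a m + r) n + c` -/
def AdmA (a r : ℕ) (c : ℤ) (n : ℕ) : Prop :=
  ∀ p : ℕ, p.Prime → ∃ m : ℕ, ¬ (p : ℤ) ∣ ((a * m + r : ℕ) : ℤ) * n + c

lemma root_gen (g : Polynomial ℤ) (p : ℕ) (hp : p.Prime) (hm : ∃ m : ℕ, ¬ (p : ℤ) ∣ g.eval (m : ℤ)) (S : Finset ℕ)
    (hS : ∀ j ∈ S, j < p ∧ (p : ℤ) ∣ g.eval (j : ℤ)) : S.card ≤ g.natDegree ∧ S.card < p := by
  classical
  obtain ⟨m, hm'⟩ := hm
  constructor
  · refine root_card g p hp ?_ S hS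
    intro h
    apply hm'
    have : Fact p.Prime := ⟨hp⟩
    rw [← ZMod.intCast_zmod_eq_zero_iff_dvd]
    have h2 := Polynomial.eval_natCast_map (Int.castRingHom (ZMod p)) g m
    rw [h, Polynomial.eval_zero] at h2
    exact h2.symm
  · have h1 : S ⊆ (range p).erase (m % p) := by
      intro j hj
      rw [mem_erase, mem_range]
      refine ⟨?_, (hS j hj).1⟩
      rintro rfl
      apply hm'
      rw [per_poly]
      exact (hS _ hj).2
    have h2 := card_le_card h1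
    rw [card_erase_of_mem (mem_range.2 (Nat.mod_lt m hp.pos)), card_range] at h2
    have := hp.pos
    omega

/-- the form as a polynomial in `j` -/
noncomputable def gp (a r : ℕ) (c : ℤ) (n : ℕ) : Polynomial ℤ :=
  Polynomial.C ((a : ℤ) * n) * Polynomial.X + Polynomial.C ((r : ℤ) * n + c)

lemma gp_eval (a r : ℕ) (c : ℤ) (n j : ℕ) :
    ((a * j + r : ℕ) : ℤ) * n + c = (gp a r c n).eval (j : ℤ) := by
  unfold gp
  rw [Polynomial.eval_add, Polynomial.eval_mul, Polynomial.eval_C, Polynomial.eval_X, Polynomial.eval_C]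
  push_cast
  ring

lemma gp_deg (a r : ℕ) (c : ℤ) (n : ℕ) : (gp a r c n).natDegree ≤ 1 := by
  unfold gp
  compute_degree

lemma rootA (a r : ℕ) (c : ℤ) (n p : ℕ) (hn : AdmA a r c n) (hp : p.Prime) :
    nuB (fun p j => (p : ℤ) ∣ (((fun j => a * j + r : ℕ → ℕ) j : ℕ) : ℤ) * n + c) p ≤ 1 ∧
    nuB (fun p j => (p : ℤ) ∣ (((fun j => a * j + r : ℕ → ℕ) j : ℕ) : ℤ) * n + c) p < p := by
  have h : ∀ S : Finset ℕ, (∀ j ∈ S, j < p ∧ (p : ℤ) ∣ (((fun j => a * j + r : ℕ → ℕ) j : ℕ) : ℤ) * n + c) →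
      S.card ≤ 1 ∧ S.card < p := by
    intro S hS
    have h1 := root_gen (gp a r c n) p hp (by
      obtain ⟨m, hm⟩ := hn p hp
      refine ⟨m, ?_⟩
      rw [← gp_eval]
      exact hm) S (by
      intro j hj
      refine ⟨(hS j hj).1, ?_⟩
      rw [← gp_eval]
      exact (hS j hj).2)
    exact ⟨h1.1.trans (gp_deg a r c n), h1.2⟩
  refine ⟨nuB_le_of _ _ _ fun S hS => (h S hS).1, ?_⟩
  have h2 := nuB_le_of (fun p j => (p : ℤ) ∣ (((fun j => a * j + r : ℕ → ℕ) j : ℕ) : ℤ) * n + c) p (p - 1)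
    fun S hS => Nat.le_sub_one_of_lt (h S hS).2
  have := hp.pos
  omega

lemma perA (a r : ℕ) (c : ℤ) (n : ℕ) (hn : AdmA a r c n) :
    PerB (fun p j => (p : ℤ) ∣ (((fun j => a * j + r : ℕ → ℕ) j : ℕ) : ℤ) * n + c) 1 := by
  refine ⟨fun p j => ?_, fun p hp => (rootA a r c n p hn hp).1⟩
  show (p : ℤ) ∣ ((a * j + r : ℕ) : ℤ) * n + c ↔ (p : ℤ) ∣ ((a * (j % p) + r : ℕ) : ℤ) * n + c
  rw [gp_eval, gp_eval]
  exact per_poly _ p j

open Classical in
/-- for almost all admissible `n` many of the `(a j + r) n + c` with small `j` are almost primes -/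
theorem mainA (a r : ℕ) (c : ℤ) (ha : 1 ≤ a) (hc : c ≠ 0)
    (θ ε : ℝ) (k : ℕ) (hθ : 0 < θ) (hθ1 : θ ≤ 1) (hk : 1 / 8 + 25 / (12 * θ) < k) (hε : 0 < ε) :
    ∃ κ Λ : ℝ, 0 < κ ∧ 0 < Λ ∧ ∀ l : ℝ, Λ ≤ l → ∀ᶠ X : ℕ in Filter.atTop, ∀ Z L : ℕ,
      (X : ℝ) ^ θ ≤ L → Z + L ≤ X →
      (((Ioc Z (Z + L)).filter (fun n => AdmA a r c n ∧
        (cnt (fun j => a * j + r) (fun _ => c) k ⌊l * Real.log X⌋₊ n
          ((X : ℝ) ^ (θ / 10)) : ℝ) < κ * l)).card : ℝ) ≤ ε * L :=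
  mainH (datA a r c ha hc) (AdmA a r c)
    (avg_of 1 le_rfl (fun j => a * j + r) (fun _ => c) (AdmA a r c) (a * c.natAbs) (56 * (a + r + 1) / 3)
      (fun w K y hw hw1 => excA a r c ha hc w K y hw hw1)
      (fun n hn => perA a r c n hn) (fun n hn p hp => (rootA a r c n p hn hp).2)) θ ε k hθ hθ1 hk hε

end Pool.Agent.R121.LA
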