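import Pool.Agent.R490.LGe

set_option autoImplicit false

/-!
# The averages of the weights over the values of a polynomial
-/

namespace Pool.Agent.R121.PX4

open Finset
open Pool.Agent.H373R2.T7 Pool.Agent.R490.LGa

lemma prod_sub_le {s t : Finset ℕ} (f : ℕ → ℝ) (h : s ⊆ t) (hf : ∀ i ∈ t, 1 ≤ f i) :
    ∏ i ∈ s, f i ≤ ∏ i ∈ t, f i := by
  rw [← prod_sdiff h]
  have h1 : 1 ≤ ∏ i ∈ t \ s, f i := by
    have : ∏ i ∈ t \ s, (1 : ℝ) ≤ ∏ i ∈ t \ s, f i :=
      prod_le_prod (fun _ _ => zero_le_one) (fun i hi => hf i (mem_sdiff.1 hi).1)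
    rwa [prod_const_one] at this
  have h2 : 0 ≤ ∏ i ∈ s, f i := prod_nonneg fun i hi => zero_le_one.trans (hf i (h hi))
  nlinarith

lemma quart_inv {p : ℕ} (hp : p.Prime) : ((1 - 1 / (p : ℝ))⁻¹) ^ 4 ≤ 1 + 30 / p := by
  have h2 : (2 : ℝ) ≤ p := by exact_mod_cast hp.two_le
  have hp0 : (0 : ℝ) < p := by linarith
  obtain ⟨hx0, hx1⟩ := one_sub_pos hp
  rw [inv_pow, inv_le_iff_one_le_mul₀ (by positivity)]
  obtain ⟨t, ht⟩ : ∃ t : ℝ, (p : ℝ) = t + 2 := ⟨p - 2, by ring⟩
  have ht0 : 0 ≤ t := by linarith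
  rw [ht] at hp0 ⊢
  have e : (1 + 30 / (t + 2)) * (1 - 1 / (t + 2)) ^ 4 =
    1 + (t * (49 + 116 * t + 94 * t ^ 2 + 26 * t ^ 3)) / (t + 2) ^ 5 := by
    field_simp
    ring
  rw [e]
  have : 0 ≤ (t * (49 + 116 * t + 94 * t ^ 2 + 26 * t ^ 3)) / (t + 2) ^ 5 := by
    positivity
  linarith

lemma tw_pf (w y n : ℕ) (hn : 1 ≤ n) :
    tw w y n ^ 4 ≤ ∏ p ∈ n.primeFactors.filter (fun p => w < p), (1 + 30 / (p : ℝ)) := by
  classical
  unfold tw
  rw [← prod_pow]
  have e : ∏ p ∈ pz y, (if w < p ∧ p ∣ n then (1 - 1 / (p : ℝ))⁻¹ else 1) ^ 4 =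
      ∏ p ∈ (pz y).filter (fun p => w < p ∧ p ∣ n), ((1 - 1 / (p : ℝ))⁻¹) ^ 4 := by
    rw [prod_filter]
    apply prod_congr rfl
    intro p _
    split_ifs <;> simp
  rw [e]
  refine (prod_le_prod (f := fun p : ℕ => ((1 - 1 / (p : ℝ))⁻¹) ^ 4) (g := fun p : ℕ => 1 + 30 / (p : ℝ)) ?_ ?_).trans ?_
  · intro p hp
    have hpp := (mem_pz.1 (mem_filter.1 hp).1).2
    have := one_le_inv' hpp
    exact pow_nonneg (by linarith) 4
  · intro p hp
    exact quart_inv (mem_pz.1 (mem_filter.1 hp).1).2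
  · apply prod_sub_le
    · intro p hp
      rw [mem_filter] at hp
      rw [mem_filter, Nat.mem_primeFactors]
      exact ⟨⟨(mem_pz.1 hp.1).2, hp.2.2, by omega⟩, hp.2.1⟩
    · intro p _
      have : (0 : ℝ) ≤ 30 / p := by positivity
      linarith

/-- few large primes -/
lemma prod_few (S : Finset ℕ) (T m : ℕ) (hT : 1 ≤ T) (hS : ∀ p ∈ S, T < p) (hm : S.card ≤ m) :
    ∏ p ∈ S, (1 + 30 / (p : ℝ)) ≤ Real.exp (30 * m / T) := by
  have hT0 : (0 : ℝ) < T := by exact_mod_cast hT
  calc ∏ p ∈ S, (1 + 30 / (p : ℝ)) ≤ ∏ _p ∈ S, Real.exp (30 / (T : ℝ)) := by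
        apply prod_le_prod
        · intro p _
          positivity
        · intro p hp
          have h1 : (T : ℝ) ≤ p := by exact_mod_cast (hS p hp).le
          have h2 : 30 / (p : ℝ) ≤ 30 / T := by gcongr
          have := Real.add_one_le_exp (30 / (T : ℝ))
          linarith
    _ = Real.exp (S.card * (30 / T)) := by
        rw [prod_const, ← Real.exp_nat_mul]
    _ ≤ Real.exp (30 * m / T) := by
        apply Real.exp_le_exp.2
        have h1 : (S.card : ℝ) ≤ m := by exact_mod_cast hm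
        have h2 : (0 : ℝ) ≤ 30 / T := by positivity
        calc (S.card : ℝ) * (30 / T) ≤ m * (30 / T) := mul_le_mul_of_nonneg_right h1 h2
          _ = 30 * m / T := by ring

lemma pow_card_le (n w : ℕ) (hn : 1 ≤ n) : w ^ (n.primeFactors.filter (fun p => w < p)).card ≤ n := by
  calc w ^ (n.primeFactors.filter (fun p => w < p)).card = ∏ _p ∈ n.primeFactors.filter (fun p => w < p), w := by
        rw [prod_const]
    _ ≤ ∏ p ∈ n.primeFactors.filter (fun p => w < p), p :=
        prod_le_prod' fun p hp => (mem_filter.1 hp).2.le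
    _ ≤ ∏ p ∈ n.primeFactors, p := by
        apply prod_le_prod_of_subset_of_one_le' (filter_subset _ _)
        intro p hp _
        exact (Nat.prime_of_mem_primeFactors hp).one_lt.le
    _ ≤ n := Nat.le_of_dvd hn (Nat.prod_primeFactors_dvd n)

open Classical in
/-- the first-order average -/
lemma mid (c K w T : ℕ) (hw : 30 ≤ w) (hwT : w ≤ T) (Q : ℕ → ℕ → Prop) (hper : ∀ p n, Q p n ↔ Q p (n % p))
    (hfew : ∀ p, p.Prime → w < p → nuB Q p ≤ c) :
    ∑ j ∈ Icc 1 K, ∏ p ∈ (pz T).filter (fun p => w < p), (1 + 30 / (p : ℝ) * (if Q p j then 1 else 0)) ≤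
      K * Real.exp (30 * c / w) + ((T : ℝ) / w) ^ (30 * c) := by
  have hw0 : (0 : ℝ) < w := by exact_mod_cast (by omega : 0 < w)
  obtain ⟨P, hP⟩ : ∃ P, P = (pz T).filter (fun p => w < p) := ⟨_, rfl⟩
  have hPp : ∀ p ∈ P, p.Prime ∧ w < p ∧ p ≤ T := by
    intro p hp
    rw [hP, mem_filter] at hp
    exact ⟨(mem_pz.1 hp.1).2, hp.2, (mem_pz.1 hp.1).1⟩
  rw [← hP]
  have h1 : ∀ j, ∏ p ∈ P, (1 + 30 / (p : ℝ) * (if Q p j then 1 else 0)) =
      ∑ U ∈ P.powerset, ∏ p ∈ U, (30 / (p : ℝ) * (if Q p j then 1 else 0)) := fun j => prod_one_add _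
  rw [sum_congr rfl (fun j _ => h1 j), sum_comm]
  have h2 : ∀ U ∈ P.powerset, ∑ j ∈ Icc 1 K, ∏ p ∈ U, (30 / (p : ℝ) * (if Q p j then 1 else 0)) ≤
      K * ∏ p ∈ U, (30 * c / (p : ℝ) ^ 2) + ∏ p ∈ U, (30 * c / (p : ℝ)) := by
    intro U hU
    rw [mem_powerset] at hU
    have hUp : ∀ p ∈ U, p.Prime := fun p hp => (hPp p (hU hp)).1
    have e1 : ∀ j, ∏ p ∈ U, (30 / (p : ℝ) * (if Q p j then (1 : ℝ) else 0)) =
        (∏ p ∈ U, (30 / (p : ℝ))) * (if ∀ p ∈ U, Q p j then 1 else 0) := by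
      intro j
      rw [prod_mul_distrib]
      congr 1
      by_cases h : ∀ p ∈ U, Q p j
      · rw [if_pos h]
        exact prod_eq_one fun p hp => if_pos (h p hp)
      · rw [if_neg h]
        push Not at h
        obtain ⟨p, hp, hq⟩ := h
        exact prod_eq_zero hp (if_neg hq)
    rw [sum_congr rfl (fun j _ => e1 j), ← mul_sum, ← sum_filter, sum_const, nsmul_eq_mul, mul_one]
    have h3 := count_sys (fun p a => Q p a) K U hUp 1 le_rfl (fun p hp hd => (hUp p hp).one_lt.ne' (Nat.dvd_one.1 hd)) 0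
    have e2 : (Icc 1 K).filter (fun n => n ≡ 0 [MOD 1] ∧ ∀ p ∈ U, Q p (n % p)) =
        (Icc 1 K).filter (fun j => ∀ p ∈ U, Q p j) := by
      apply filter_congr
      intro n _
      constructor
      · rintro ⟨_, h⟩ p hp
        exact (hper p n).2 (h p hp)
      · intro h
        exact ⟨Nat.modEq_one, fun p hp => (hper p n).1 (h p hp)⟩
    rw [e2, Nat.cast_one, div_one] at h3
    have h4 := (abs_le.1 h3).2
    have h5 : ∏ p ∈ U, ((((range p).filter (fun a => Q p a)).card : ℝ) / p) ≤ ∏ p ∈ U, ((c : ℝ) / p) := by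
      apply prod_le_prod
      · intro p _
        exact div_nonneg (Nat.cast_nonneg _) (Nat.cast_nonneg _)
      · intro p hp
        apply div_le_div_of_nonneg_right _ (Nat.cast_nonneg _)
        exact_mod_cast hfew p (hUp p hp) (hPp p (hU hp)).2.1
    have h6 : ∏ p ∈ U, (((range p).filter (fun a => Q p a)).card : ℝ) ≤ ∏ _p ∈ U, (c : ℝ) := by
      apply prod_le_prod
      · intro p _
        exact Nat.cast_nonneg _
      · intro p hp
        exact_mod_cast hfew p (hUp p hp) (hPp p (hU hp)).2.1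
    have h7 : (((Icc 1 K).filter (fun j => ∀ p ∈ U, Q p j)).card : ℝ) ≤
        K * ∏ p ∈ U, ((c : ℝ) / p) + ∏ _p ∈ U, (c : ℝ) := by
      have := mul_le_mul_of_nonneg_left h5 (Nat.cast_nonneg K : (0 : ℝ) ≤ K)
      linarith
    have h8 : (0 : ℝ) ≤ ∏ p ∈ U, (30 / (p : ℝ)) := prod_nonneg fun p _ => by positivity
    refine (mul_le_mul_of_nonneg_left h7 h8).trans (le_of_eq ?_)
    rw [mul_add, show ∀ a b c : ℝ, a * (b * c) = b * (a * c) by intros; ring, ← prod_mul_distrib, ← prod_mul_distrib]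
    congr 1
    · congr 1
      apply prod_congr rfl
      intro p _
      rw [div_mul_div_comm, sq]
    · apply prod_congr rfl
      intro p _
      rw [div_mul_eq_mul_div]
  refine (sum_le_sum h2).trans ?_
  rw [sum_add_distrib, ← mul_sum, ← prod_one_add, ← prod_one_add]
  apply add_le_add
  · apply mul_le_mul_of_nonneg_left _ (Nat.cast_nonneg _)
    have h3 : ∏ p ∈ P, (1 + 30 * c / (p : ℝ) ^ 2) ≤ Real.exp (∑ p ∈ P, 30 * c / (p : ℝ) ^ 2) := by
      rw [Real.exp_sum]
      apply Finset.prod_le_prod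
      · intro p _
        positivity
      · intro p _
        linarith [Real.add_one_le_exp (30 * c / (p : ℝ) ^ 2)]
    refine h3.trans (Real.exp_le_exp.2 ?_)
    have h5 : ∑ p ∈ P, 30 * c / (p : ℝ) ^ 2 ≤ ∑ p ∈ Ioc w T, 30 * c / (p : ℝ) ^ 2 := by
      apply sum_le_sum_of_subset_of_nonneg
      · intro p hp
        rw [mem_Ioc]
        exact (hPp p hp).2
      · intro p _ _
        positivity
    refine h5.trans ?_
    have e1 : ∑ p ∈ Ioc w T, 30 * c / (p : ℝ) ^ 2 = 30 * c * ∑ p ∈ Ioc w T, ((p : ℝ) ^ 2)⁻¹ := by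
      rw [mul_sum]
      rfl
    rw [e1]
    have h9 := sum_Ioc_inv_sq_le_sub (α := ℝ) (k := w) (n := T) (by omega) hwT
    have h10 : (0 : ℝ) ≤ ((T : ℕ) : ℝ)⁻¹ := by positivity
    rw [div_eq_mul_inv]
    apply mul_le_mul_of_nonneg_left _ (by positivity)
    linarith
  · have h3 : ∏ p ∈ P, (1 + 30 * c / (p : ℝ)) ≤ ∏ p ∈ Ioc w T, (1 + 1 / (p : ℝ)) ^ (30 * c) := by
      refine (prod_le_prod (f := fun p : ℕ => 1 + 30 * c / (p : ℝ)) (g := fun p : ℕ => (1 + 1 / (p : ℝ)) ^ (30 * c)) ?_ ?_).trans ?_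
      · intro p _
        positivity
      · intro p _
        have h4 := one_add_mul_le_pow (a := 1 / (p : ℝ)) (by have : (0 : ℝ) ≤ 1 / p := by positivity
                                                             linarith) (30 * c)
        have e : ((30 * c : ℕ) : ℝ) * (1 / (p : ℝ)) = 30 * c / p := by
          push_cast
          ring
        rw [e] at h4
        exact h4
      · apply prod_sub_le
        · intro p hp
          rw [mem_Ioc]
          exact (hPp p hp).2
        · intro p _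
          apply one_le_pow₀
          have : (0 : ℝ) ≤ 1 / p := by positivity
          linarith
    refine h3.trans ?_
    rw [prod_pow]
    apply pow_le_pow_left₀ (by positivity)
    have h4 : ∀ t : ℕ, w ≤ t → ∏ p ∈ Ioc w t, (1 + 1 / (p : ℝ)) = ((t : ℝ) + 1) / (w + 1) := by
      intro t ht
      induction t, ht using Nat.le_induction with
      | base =>
        rw [Ioc_self, prod_empty, div_self (by positivity)]
      | succ t ht ih =>
        rw [prod_Ioc_succ_top ht, ih]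
        push_cast
        field_simp
    rw [h4 T hwT, div_le_div_iff₀ (by positivity) hw0]
    have : (w : ℝ) ≤ T := by exact_mod_cast hwT
    nlinarith

lemma exp_sub_le (x : ℝ) : Real.exp x - 1 ≤ x * Real.exp x := by
  have h := Real.add_one_le_exp (-x)
  have h2 : Real.exp (-x) * Real.exp x = 1 := by rw [← Real.exp_add]; simp
  have h3 := Real.exp_pos x
  nlinarith

/-- the logarithms -/
lemma log_small (D c : ℕ) (hc : 1 ≤ c) : ∃ C : ℝ, 0 ≤ C ∧ ∀ K : ℕ, 1 ≤ K →
    ((Nat.log 2 ((K + 1) ^ D) + 1 : ℕ) : ℝ) ^ (30 * c) ≤ C * √(K : ℝ) := by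
  obtain ⟨e, he⟩ : ∃ e : ℝ, e = 1 / (60 * c) := ⟨_, rfl⟩
  have hc0 : (0 : ℝ) < c := by exact_mod_cast hc
  have he0 : 0 < e := by rw [he]; positivity
  obtain ⟨C1, hC1⟩ : ∃ C1 : ℝ, C1 = 2 * D / e + 1 := ⟨_, rfl⟩
  have hC10 : 0 ≤ C1 := by rw [hC1]; positivity
  refine ⟨C1 ^ (30 * c) * 2, by positivity, ?_⟩
  intro K hK
  have hK1 : (1 : ℝ) ≤ K := by exact_mod_cast hK
  obtain ⟨M, hM⟩ : ∃ M, M = Nat.log 2 ((K + 1) ^ D) := ⟨_, rfl⟩
  have h1 : 2 ^ M ≤ (K + 1) ^ D := by
    rw [hM]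
    exact Nat.pow_log_le_self 2 (by positivity)
  have h2 : (M : ℝ) * Real.log 2 ≤ D * Real.log (K + 1) := by
    have h3 : ((2 : ℝ)) ^ M ≤ ((K : ℝ) + 1) ^ D := by exact_mod_cast h1
    have h4 := Real.log_le_log (by positivity) h3
    rwa [Real.log_pow, Real.log_pow] at h4
  have h3 : Real.log ((K : ℝ) + 1) ≤ ((K : ℝ) + 1) ^ e / e := Real.log_le_rpow_div (by positivity) he0
  have h4 : (1 : ℝ) ≤ ((K : ℝ) + 1) ^ e := Real.one_le_rpow (by linarith) he0.le
  have h5 : (M : ℝ) ≤ 2 * D * (((K : ℝ) + 1) ^ e / e) := by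
    have h6 : (1 : ℝ) / 2 ≤ Real.log 2 := by linarith [Real.log_two_gt_d9]
    have h7 : (M : ℝ) * (1 / 2) ≤ M * Real.log 2 := mul_le_mul_of_nonneg_left h6 (Nat.cast_nonneg _)
    have h8 : (D : ℝ) * Real.log (K + 1) ≤ D * (((K : ℝ) + 1) ^ e / e) := mul_le_mul_of_nonneg_left h3 (Nat.cast_nonneg _)
    linarith
  have h6 : ((M + 1 : ℕ) : ℝ) ≤ C1 * ((K : ℝ) + 1) ^ e := by
    push_cast
    rw [hC1]
    have : 2 * (D : ℝ) * (((K : ℝ) + 1) ^ e / e) = 2 * D / e * ((K : ℝ) + 1) ^ e := by ring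
    rw [this] at h5
    linarith
  rw [← hM]
  calc ((M + 1 : ℕ) : ℝ) ^ (30 * c) ≤ (C1 * ((K : ℝ) + 1) ^ e) ^ (30 * c) := pow_le_pow_left₀ (by positivity) h6 _
    _ = C1 ^ (30 * c) * √((K : ℝ) + 1) := by
        rw [mul_pow]
        congr 1
        rw [← Real.rpow_natCast, ← Real.rpow_mul (by positivity), Real.sqrt_eq_rpow]
        congr 1
        rw [he]
        push_cast
        field_simp
        norm_num
    _ ≤ C1 ^ (30 * c) * (2 * √(K : ℝ)) := by
        apply mul_le_mul_of_nonneg_left _ (by positivity)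
        rw [show (2 : ℝ) * √(K : ℝ) = √(4 * K) by
          rw [Real.sqrt_mul (by norm_num)]
          congr 1
          rw [show (4 : ℝ) = 2 ^ 2 by norm_num, Real.sqrt_sq (by norm_num)]]
        apply Real.sqrt_le_sqrt
        linarith
    _ = C1 ^ (30 * c) * 2 * √(K : ℝ) := by ring

/-- **The average of the weights over values which are divisible by few primes.** -/
theorem poly_ex (c D : ℕ) (hc : 1 ≤ c) : ∃ C : ℝ, 0 ≤ C ∧ ∀ w K y : ℕ, 30 ≤ w → ∀ (Q : ℕ → ℕ → Prop) (g : ℕ → ℕ)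
    (S0 : Finset ℕ), S0 ⊆ Icc 1 K → (∀ p n, Q p n ↔ Q p (n % p)) → (∀ p, p.Prime → w < p → nuB Q p ≤ c) →
    (∀ j ∈ S0, 1 ≤ g j ∧ g j ≤ (K + 1) ^ D ∧ ∀ p, p ∣ g j ↔ Q p j) →
    ∑ j ∈ S0, (tw w y (g j) ^ 4 - 1) ≤ C * K / w := by
  classical
  obtain ⟨C3, hC3, hlog⟩ := log_small D c hc
  obtain ⟨Ca, hCa⟩ : ∃ Ca : ℝ, Ca = 30 * c * Real.exp (30 * c) := ⟨_, rfl⟩
  obtain ⟨Cb, hCb⟩ : ∃ Cb : ℝ, Cb = 60 * D * Real.exp (60 * D) := ⟨_, rfl⟩
  have hCa0 : 0 ≤ Ca := by rw [hCa]; positivity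
  have hCb0 : 0 ≤ Cb := by rw [hCb]; positivity
  refine ⟨3 * (Ca + C3) + 60 + Cb, by positivity, ?_⟩
  intro w K y hw Q g S0 hS0 hper hfew hg
  have hw0 : (0 : ℝ) < w := by exact_mod_cast (by omega : 0 < w)
  have hw1 : (1 : ℝ) ≤ w := by exact_mod_cast (by omega : 1 ≤ w)
  have hw30 : (30 : ℝ) ≤ w := by exact_mod_cast hw
  rcases Nat.eq_zero_or_pos K with hK0 | hK1
  · subst hK0
    have : S0 = ∅ := by
      apply subset_empty.1
      simpa using hS0
    rw [this]
    simp
  have hKr : (1 : ℝ) ≤ K := by exact_mod_cast hK1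
  have hK00 : (0 : ℝ) ≤ K := by linarith
  rcases lt_or_ge K (w ^ 2) with hKw | hKw
  · -- the primes are few
    have h1 : ∀ j ∈ S0, tw w y (g j) ^ 4 - 1 ≤ Cb / w := by
      intro j hj
      obtain ⟨g1, g2, _⟩ := hg j hj
      have h2 := tw_pf w y (g j) g1
      have h3 : ((g j).primeFactors.filter (fun p => w < p)).card ≤ 2 * D := by
        have h4 := pow_card_le (g j) w g1
        have h5 : g j ≤ w ^ (2 * D) := by
          refine g2.trans ?_
          rw [pow_mul]
          exact Nat.pow_le_pow_left (by omega) D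
        exact (Nat.pow_le_pow_iff_right (by omega)).1 (h4.trans h5)
      have h4 := prod_few _ w (2 * D) (by omega) (fun p hp => (mem_filter.1 hp).2) h3
      have h5 : tw w y (g j) ^ 4 ≤ Real.exp (60 * D / w) := by
        refine h2.trans (h4.trans (le_of_eq ?_))
        congr 1
        push_cast
        ring
      have h6 := exp_sub_le (60 * D / w)
      have h7 : (60 : ℝ) * D / w * Real.exp (60 * D / w) ≤ Cb / w := by
        rw [hCb, div_mul_eq_mul_div]
        apply div_le_div_of_nonneg_right _ hw0.le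
        apply mul_le_mul_of_nonneg_left _ (by positivity)
        apply Real.exp_le_exp.2
        exact div_le_self (by positivity) hw1
      linarith
    have h2 : ∑ j ∈ S0, (tw w y (g j) ^ 4 - 1) ≤ S0.card * (Cb / w) := by
      refine (sum_le_sum h1).trans ?_
      rw [sum_const, nsmul_eq_mul]
    have h3 : (S0.card : ℝ) ≤ K := by
      have := card_le_card hS0
      rw [Nat.card_Icc, Nat.add_sub_cancel] at this
      exact_mod_cast this
    have h4 : (S0.card : ℝ) * (Cb / w) ≤ K * (Cb / w) := mul_le_mul_of_nonneg_right h3 (by positivity)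
    have h5 : (K : ℝ) * (Cb / w) = Cb * K / w := by ring
    have h6 : Cb * K / w ≤ (3 * (Ca + C3) + 60 + Cb) * K / w := by
      apply div_le_div_of_nonneg_right _ hw0.le
      apply mul_le_mul_of_nonneg_right _ hK00
      linarith
    linarith
  · obtain ⟨M, hM⟩ : ∃ M, M = Nat.log 2 ((K + 1) ^ D) + 1 := ⟨_, rfl⟩
    obtain ⟨T, hT⟩ : ∃ T, T = w * M := ⟨_, rfl⟩
    have hM1 : 1 ≤ M := by omega
    have hwT : w ≤ T := by
      rw [hT]
      exact Nat.le_mul_of_pos_right w hM1
    have hM0 : (0 : ℝ) < M := by exact_mod_cast hM1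
    obtain ⟨X, hX⟩ : ∃ X : ℕ → ℝ, ∀ j, X j =
        ∏ p ∈ (pz T).filter (fun p => w < p), (1 + 30 / (p : ℝ) * (if Q p j then 1 else 0)) := ⟨_, fun _ => rfl⟩
    have hX1 : ∀ j, 1 ≤ X j := by
      intro j
      rw [hX]
      have : ∏ p ∈ (pz T).filter (fun p => w < p), (1 : ℝ) ≤
          ∏ p ∈ (pz T).filter (fun p => w < p), (1 + 30 / (p : ℝ) * (if Q p j then 1 else 0)) := by
        apply prod_le_prod (fun _ _ => zero_le_one)
        intro p _
        have : (0 : ℝ) ≤ 30 / (p : ℝ) * (if Q p j then 1 else 0) := by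
          apply mul_nonneg (by positivity)
          split_ifs <;> norm_num
        linarith
      rwa [prod_const_one] at this
    have hexp : Real.exp (30 / (w : ℝ)) ≤ 1 + 60 / w := by
      have h5 : 30 / (w : ℝ) ≤ 1 := by
        rw [div_le_one hw0]
        exact hw30
      have h6 : (0 : ℝ) ≤ 30 / w := by positivity
      have h7 := Real.abs_exp_sub_one_le (x := 30 / (w : ℝ)) (by rw [abs_of_nonneg h6]; exact h5)
      rw [abs_of_nonneg h6, abs_le] at h7
      have e : (60 : ℝ) / w = 2 * (30 / w) := by ring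
      rw [e]
      linarith [h7.2]
    have h1 : ∀ j ∈ S0, tw w y (g j) ^ 4 - 1 ≤ X j * (1 + 60 / w) - 1 := by
      intro j hj
      obtain ⟨g1, g2, g3⟩ := hg j hj
      have h2 := tw_pf w y (g j) g1
      have h3 : ∏ p ∈ (g j).primeFactors.filter (fun p => w < p), (1 + 30 / (p : ℝ)) =
          (∏ p ∈ ((g j).primeFactors.filter (fun p => w < p)).filter (fun p => p ≤ T), (1 + 30 / (p : ℝ))) *
          ∏ p ∈ ((g j).primeFactors.filter (fun p => w < p)).filter (fun p => ¬ p ≤ T), (1 + 30 / (p : ℝ)) :=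
        (prod_filter_mul_prod_filter_not _ _ _).symm
      have h4 : ∏ p ∈ ((g j).primeFactors.filter (fun p => w < p)).filter (fun p => p ≤ T), (1 + 30 / (p : ℝ)) ≤ X j := by
        rw [hX]
        have e : ∏ p ∈ (pz T).filter (fun p => w < p), (1 + 30 / (p : ℝ) * (if Q p j then 1 else 0)) =
            ∏ p ∈ ((pz T).filter (fun p => w < p)).filter (fun p => Q p j), (1 + 30 / (p : ℝ)) := by
          rw [prod_filter (fun p => Q p j)]
          apply prod_congr rfl
          intro p _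
          split_ifs <;> simp
        rw [e]
        apply prod_sub_le
        · intro p hp
          rw [mem_filter, mem_filter, Nat.mem_primeFactors] at hp
          rw [mem_filter, mem_filter, mem_pz]
          exact ⟨⟨⟨hp.2, hp.1.1.1⟩, hp.1.2⟩, (g3 p).1 hp.1.1.2.1⟩
        · intro p _
          have : (0 : ℝ) ≤ 30 / p := by positivity
          linarith
      have h5 : ∏ p ∈ ((g j).primeFactors.filter (fun p => w < p)).filter (fun p => ¬ p ≤ T), (1 + 30 / (p : ℝ)) ≤
          Real.exp (30 / w) := by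
        have h6 : (((g j).primeFactors.filter (fun p => w < p)).filter (fun p => ¬ p ≤ T)).card ≤ M := by
          refine (card_le_card ((filter_subset _ _).trans (filter_subset _ _))).trans ?_
          have h7 := pow_card_le (g j) 1 g1
          have h8 : (g j).primeFactors.card ≤ Nat.log 2 ((K + 1) ^ D) := by
            have h9 : 2 ^ (g j).primeFactors.card ≤ g j := by
              calc 2 ^ (g j).primeFactors.card = ∏ _p ∈ (g j).primeFactors, 2 := by rw [prod_const]
                _ ≤ ∏ p ∈ (g j).primeFactors, p :=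
                    prod_le_prod' fun p hp => (Nat.prime_of_mem_primeFactors hp).two_le
                _ ≤ g j := Nat.le_of_dvd g1 (Nat.prod_primeFactors_dvd _)
            exact Nat.le_log_of_pow_le (by norm_num) (h9.trans g2)
          omega
        refine (prod_few _ T M (by omega) (fun p hp => by
          rw [mem_filter] at hp
          omega) h6).trans (le_of_eq ?_)
        congr 1
        rw [hT]
        push_cast
        field_simp
      have h6 : 0 ≤ X j := zero_le_one.trans (hX1 j)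
      have h7 : tw w y (g j) ^ 4 ≤ X j * (1 + 60 / w) := by
        refine h2.trans ?_
        rw [h3]
        apply mul_le_mul h4 (h5.trans hexp) _ h6
        exact prod_nonneg fun p _ => by positivity
      linarith
    have h60 : (0 : ℝ) ≤ 60 / w := by positivity
    have h2 : ∑ j ∈ S0, (tw w y (g j) ^ 4 - 1) ≤ ∑ j ∈ Icc 1 K, (X j * (1 + 60 / w) - 1) := by
      refine (sum_le_sum h1).trans ?_
      apply sum_le_sum_of_subset_of_nonneg hS0
      intro j _ _
      have := hX1 j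
      nlinarith
    have h3 := mid c K w T hw hwT Q hper hfew
    have h4 : ∑ j ∈ Icc 1 K, (X j * (1 + 60 / w) - 1) = (∑ j ∈ Icc 1 K, X j) * (1 + 60 / w) - K := by
      rw [sum_sub_distrib, ← sum_mul, sum_const, nsmul_eq_mul, mul_one, Nat.card_Icc, Nat.add_sub_cancel]
    rw [← sum_congr rfl (fun j _ => hX j)] at h3
    obtain ⟨Y, hY⟩ : ∃ Y, Y = ∑ j ∈ Icc 1 K, X j := ⟨_, rfl⟩
    rw [← hY] at h3 h4
    have h5 : ((T : ℝ) / w) ^ (30 * c) ≤ C3 * K / w := by
      have e : (T : ℝ) / w = M := by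
        rw [hT]
        push_cast
        field_simp
      rw [e, hM]
      refine (hlog K hK1).trans ?_
      rw [mul_div_assoc]
      apply mul_le_mul_of_nonneg_left _ hC3
      rw [le_div_iff₀ hw0]
      have h6 : (w : ℝ) ≤ √(K : ℝ) := by
        apply Real.le_sqrt_of_sq_le
        exact_mod_cast hKw
      calc √(K : ℝ) * w ≤ √(K : ℝ) * √(K : ℝ) := mul_le_mul_of_nonneg_left h6 (Real.sqrt_nonneg _)
        _ = K := Real.mul_self_sqrt hK00
    have h6 : Real.exp (30 * c / w) ≤ 1 + Ca / w := by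
      have h7 := exp_sub_le (30 * c / w)
      have h8 : (30 : ℝ) * c / w * Real.exp (30 * c / w) ≤ Ca / w := by
        rw [hCa, div_mul_eq_mul_div]
        apply div_le_div_of_nonneg_right _ hw0.le
        apply mul_le_mul_of_nonneg_left _ (by positivity)
        apply Real.exp_le_exp.2
        exact div_le_self (by positivity) hw1
      linarith
    have h7 : Y ≤ K * (1 + Ca / w) + C3 * K / w := by
      have := mul_le_mul_of_nonneg_left h6 hK00
      linarith
    have h8 : 60 / (w : ℝ) ≤ 2 := by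
      rw [div_le_iff₀ hw0]
      linarith
    have h9 : Y * (1 + 60 / w) - K ≤ 3 * ((Ca + C3) * K / w) + 60 * K / w := by
      have a1 : Y - K ≤ (Ca + C3) * K / w := by
        have : (K : ℝ) * (1 + Ca / w) + C3 * K / w = K + (Ca + C3) * K / w := by ring
        linarith
      have a2 : 0 ≤ (Ca + C3) * K / w := by positivity
      have a3 : (Y - K) * (1 + 60 / w) ≤ (Ca + C3) * K / w * 3 := by
        calc (Y - K) * (1 + 60 / w) ≤ (Ca + C3) * K / w * (1 + 60 / w) := mul_le_mul_of_nonneg_right a1 (by positivity)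
          _ ≤ (Ca + C3) * K / w * 3 := mul_le_mul_of_nonneg_left (by linarith) a2
      have a4 : Y * (1 + 60 / w) - K = (Y - K) * (1 + 60 / w) + 60 * K / w := by ring
      linarith
    have h10 : 0 ≤ Cb * K / w := by positivity
    have h11 : (3 * (Ca + C3) + 60 + Cb) * K / w = 3 * ((Ca + C3) * K / w) + 60 * K / w + Cb * K / w := by ring
    rw [h11]
    rw [h4] at h2
    linarith

end Pool.Agent.R121.PX4
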