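import Pool.Agent.R121.LA
import Pool.Agent.R121.PX4

set_option autoImplicit false

/-!
# The forms `j ^ d n + c`
-/

namespace Pool.Agent.R121.LM

open Finset
open Pool.Agent.H373R2.T7 Pool.Agent.R490.LGa Pool.Agent.R490.LGb Pool.Agent.R490.LGd
open Pool.Agent.R490.LGe Pool.Agent.R121.LP Pool.Agent.R121.LA

lemma tw_pow (w y j d : ℕ) (hd : 1 ≤ d) : tw w y (j ^ d) = tw w y j := by
  unfold tw
  apply prod_congr rfl
  intro p hp
  have hpp := (mem_pz.1 hp).2
  have h : p ∣ j ^ d ↔ p ∣ j := ⟨fun h => hpp.dvd_of_dvd_pow h, fun h => dvd_pow h (by omega)⟩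
  simp only [h]

lemma amgm4 (a b c d : ℝ) :
    a * b * (c * d) - 1 ≤ ((a ^ 4 - 1) + (b ^ 4 - 1) + (c ^ 4 - 1) + (d ^ 4 - 1)) / 4 := by
  nlinarith [sq_nonneg (a * b - c * d), sq_nonneg (a ^ 2 - b ^ 2), sq_nonneg (c ^ 2 - d ^ 2)]

lemma quart_ge (w y n : ℕ) : 0 ≤ tw w y n ^ 4 - 1 := by
  have := one_le_pow₀ (one_le_tw w y n) (n := 4)
  linarith

lemma datM (d : ℕ) (c : ℤ) (hd : 1 ≤ d) (hc : c ≠ 0) :
    Dat (fun j => j ^ d) (fun _ => c) (d + c.natAbs) (c.natAbs + 30) := by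
  refine ⟨?_, ?_, ?_, ?_, ?_⟩
  · intro j hj
    exact Nat.one_le_pow _ _ hj
  · intro j hj
    show j ^ d ≤ (j + 1) ^ (d + c.natAbs)
    calc j ^ d ≤ (j + 1) ^ d := Nat.pow_le_pow_left (by omega) d
      _ ≤ (j + 1) ^ (d + c.natAbs) := Nat.pow_le_pow_right (by omega) (by omega)
  · intro j hj
    show c.natAbs ≤ (j + 1) ^ (d + c.natAbs)
    calc c.natAbs ≤ 2 ^ c.natAbs := (Nat.lt_two_pow_self).le
      _ ≤ (j + 1) ^ c.natAbs := Nat.pow_le_pow_left (by omega) _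
      _ ≤ (j + 1) ^ (d + c.natAbs) := Nat.pow_le_pow_right (by omega) (by omega)
  · intro j _ p _ hp _
    exact c_lt (a := 1) le_rfl hc (by omega)
  · intro j j' h1 h2 hne h
    have e : Rs (fun j => j ^ d) (fun _ => c) j j' = (((j ^ d : ℕ) : ℤ) - ((j' ^ d : ℕ) : ℤ)) * c := by
      unfold Rs
      ring
    rw [e] at h
    rcases mul_eq_zero.1 h with h3 | h3
    · have h4 : j ^ d = j' ^ d := by omega
      exact hne (Nat.pow_left_injective (by omega) h4)
    · exact hc h3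

lemma excM (d : ℕ) (c : ℤ) (hd : 1 ≤ d) (hc : c ≠ 0) :
    ∃ Cx : ℝ, ∀ w K y : ℕ, 14 ≤ w → c.natAbs + 30 ≤ w →
      ∑ j ∈ Icc 1 K, ∑ j' ∈ Icc 1 K, exc (fun j => j ^ d) (fun _ => c) w y j j' ≤ Cx * (K : ℝ) ^ 2 / w := by
  classical
  obtain ⟨C1, hC10, hC1⟩ := Pool.Agent.R121.PX4.poly_ex 1 1 le_rfl
  obtain ⟨C2, hC20, hC2⟩ := Pool.Agent.R121.PX4.poly_ex d (d + 1) hd
  refine ⟨(4 * C1 + C2) / 4, ?_⟩
  intro w K y _ hcw
  have hw : 30 ≤ w := by omega
  have hw0 : (0 : ℝ) < w := by exact_mod_cast (by omega : 0 < w)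
  have hK0 : (0 : ℝ) ≤ K := Nat.cast_nonneg _
  obtain ⟨G, hG⟩ : ∃ G, G = ∑ n ∈ Icc 1 K, (tw w y n ^ 4 - 1) := ⟨_, rfl⟩
  have hG1 : G ≤ C1 * K / w := by
    rw [hG]
    apply hC1 w K y hw (fun p n => p ∣ n) (fun n => n) _ (Subset.refl _)
    · intro p n
      exact (Nat.dvd_mod_iff dvd_rfl).symm
    · intro p hp _
      apply nuB_le_of
      intro S hS
      rw [card_le_one]
      intro x hx x' hx'
      have h1 := hS x hx
      have h2 := hS x' hx'
      rw [Nat.eq_zero_of_dvd_of_lt h1.2 h1.1, Nat.eq_zero_of_dvd_of_lt h2.2 h2.1]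
    · intro j hj
      rw [mem_Icc] at hj
      refine ⟨hj.1, ?_, fun p => Iff.rfl⟩
      rw [pow_one]
      omega
  obtain ⟨f, hf⟩ : ∃ f : Polynomial ℤ, f = Polynomial.X ^ d := ⟨_, rfl⟩
  have hdeg : f.natDegree = d := by rw [hf, Polynomial.natDegree_X_pow]
  have hlc : f.leadingCoeff = 1 := by rw [hf]; exact Polynomial.monic_X_pow d
  have hev0 : ∀ x : ℤ, f.eval x = x ^ d := fun x => by
    rw [hf, Polynomial.eval_pow, Polynomial.eval_X]
  have h2 : ∀ j ∈ Icc 1 K, ∑ j' ∈ Icc 1 K, exc (fun j => j ^ d) (fun _ => c) w y j j' ≤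
      (K * (tw w y j ^ 4 - 1) + G + 2 * G + C2 * K / w) / 4 := by
    intro j hj
    obtain ⟨q, q1, q2, q3⟩ := quo f (by omega) (j : ℤ)
    have hev : ∀ j' : ℕ, (j' : ℤ) ^ d - (j : ℤ) ^ d = ((j' : ℤ) - j) * q.eval (j' : ℤ) := by
      intro j'
      have := q3 (j' : ℤ)
      rw [hev0, hev0] at this
      rw [this]
      ring
    have hq : ∀ j' ∈ Icc 1 K, exc (fun j => j ^ d) (fun _ => c) w y j j' ≤
        ((tw w y j ^ 4 - 1) + (tw w y j' ^ 4 - 1) +
          (if j = j' then 0 else (tw w y ((j : ℤ) - j').natAbs ^ 4 - 1)) +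
          (if ¬ j = j' then (tw w y (q.eval (j' : ℤ)).natAbs ^ 4 - 1) else 0)) / 4 := by
      intro j' _
      unfold exc
      split_ifs with hne
      · have a1 := quart_ge w y j
        have a2 := quart_ge w y j'
        linarith
      · have e : (Rs (fun j => j ^ d) (fun _ => c) j j').natAbs =
            c.natAbs * (((j : ℤ) - j').natAbs * (q.eval (j' : ℤ)).natAbs) := by
          have e1 : Rs (fun j => j ^ d) (fun _ => c) j j' = c * (((j : ℤ) - j') * q.eval (j' : ℤ)) := by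
            unfold Rs
            have := hev j'
            push_cast
            linear_combination (-c) * this
          rw [e1, Int.natAbs_mul, Int.natAbs_mul]
        rw [e, tw_pow w y j d hd, tw_pow w y j' d hd]
        have a1 := tw_mul_le w y c.natAbs (((j : ℤ) - j').natAbs * (q.eval (j' : ℤ)).natAbs)
        rw [tw_small w y c.natAbs (Int.natAbs_pos.2 hc) (by omega), one_mul] at a1
        have a2 := tw_mul_le w y ((j : ℤ) - j').natAbs (q.eval (j' : ℤ)).natAbs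
        have a4 := one_le_tw w y j
        have a5 := one_le_tw w y j'
        have a6 := amgm4 (tw w y j) (tw w y j') (tw w y ((j : ℤ) - j').natAbs) (tw w y (q.eval (j' : ℤ)).natAbs)
        have a8 : tw w y j * tw w y j' * tw w y (c.natAbs * (((j : ℤ) - j').natAbs * (q.eval (j' : ℤ)).natAbs)) ≤
            tw w y j * tw w y j' * (tw w y ((j : ℤ) - j').natAbs * tw w y (q.eval (j' : ℤ)).natAbs) :=
          mul_le_mul_of_nonneg_left (a1.trans a2) (mul_nonneg (by linarith) (by linarith))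
        linarith
    refine (sum_le_sum hq).trans ?_
    rw [← sum_div, sum_add_distrib, sum_add_distrib, sum_add_distrib, sum_const, nsmul_eq_mul, Nat.card_Icc,
      Nat.add_sub_cancel, ← hG]
    have h3 := sum_diff (fun n => tw w y n ^ 4 - 1) (quart_ge w y) K j hj
    rw [← hG] at h3
    have h4 : ∑ j' ∈ Icc 1 K, (if ¬ j = j' then (tw w y (q.eval (j' : ℤ)).natAbs ^ 4 - 1) else 0) ≤ C2 * K / w := by
      rw [← sum_filter]
      apply hC2 w K y hw (fun p n => (p : ℤ) ∣ q.eval (n : ℤ)) (fun j' => (q.eval (j' : ℤ)).natAbs) _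
        (filter_subset _ _) (fun p n => per_poly q p n)
      · intro p hp hwp
        apply nuB_le_of
        intro S hS
        refine (root_card q p hp ?_ S hS).trans (q1.trans hdeg.le)
        intro h
        have h5 : (q.map (Int.castRingHom (ZMod p))).coeff q.natDegree = 0 := by rw [h, Polynomial.coeff_zero]
        rw [Polynomial.coeff_map] at h5
        have h6 : ((q.leadingCoeff : ℤ) : ZMod p) = 0 := h5
        rw [q2, hlc, ZMod.intCast_zmod_eq_zero_iff_dvd] at h6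
        have h7 : p ∣ 1 := by exact_mod_cast h6
        exact hp.one_lt.ne' (Nat.dvd_one.1 h7)
      · intro j' hj'
        rw [mem_filter] at hj'
        obtain ⟨hj1, hne⟩ := hj'
        rw [mem_Icc] at hj1 hj
        have h5 : (j' : ℤ) ^ d - (j : ℤ) ^ d ≠ 0 := by
          intro h
          have h6 : (j' : ℤ) ^ d = (j : ℤ) ^ d := by linarith
          have h7 : j' ^ d = j ^ d := by exact_mod_cast h6
          exact hne (Nat.pow_left_injective (by omega) h7).symm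
        have h5' := h5
        rw [hev j'] at h5'
        refine ⟨?_, ?_, fun p => ?_⟩
        · exact Int.natAbs_pos.2 (right_ne_zero_of_mul h5')
        · have h6 : (q.eval (j' : ℤ)).natAbs ≤ ((j' : ℤ) ^ d - (j : ℤ) ^ d).natAbs := by
            rw [hev j', Int.natAbs_mul]
            exact Nat.le_mul_of_pos_left _ (Int.natAbs_pos.2 (left_ne_zero_of_mul h5'))
          have h7 : ((j' : ℤ) ^ d - (j : ℤ) ^ d).natAbs ≤ j' ^ d + j ^ d := by
            refine (Int.natAbs_sub_le _ _).trans ?_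
            rw [Int.natAbs_pow, Int.natAbs_pow, Int.natAbs_natCast, Int.natAbs_natCast]
          have h10 : j' ^ d ≤ (K + 1) ^ d := Nat.pow_le_pow_left (by omega) d
          have h11 : j ^ d ≤ (K + 1) ^ d := Nat.pow_le_pow_left (by omega) d
          have h12 : (K + 1) ^ (d + 1) = (K + 1) ^ d * (K + 1) := pow_succ _ _
          have h13 : (K + 1) ^ d * 2 ≤ (K + 1) ^ d * (K + 1) := Nat.mul_le_mul_left _ (by omega)
          omega
        · exact Int.natCast_dvd.symm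
    linarith
  refine (sum_le_sum h2).trans ?_
  rw [← sum_div, sum_add_distrib, sum_add_distrib, sum_add_distrib, ← mul_sum, ← hG, sum_const, sum_const, sum_const,
    nsmul_eq_mul, nsmul_eq_mul, nsmul_eq_mul, Nat.card_Icc, Nat.add_sub_cancel]
  have h3 : (K : ℝ) * G ≤ K * (C1 * K / w) := mul_le_mul_of_nonneg_left hG1 hK0
  have h5 : (4 * C1 + C2) / 4 * (K : ℝ) ^ 2 / w =
      (K * (C1 * K / w) + K * (C1 * K / w) + 2 * (K * (C1 * K / w)) + K * (C2 * K / w)) / 4 := by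
    field_simp
    ring
  rw [h5]
  linarith

/-- no prime divides all the values `m ^ d n + c` -/
def AdmM (d : ℕ) (c : ℤ) (n : ℕ) : Prop :=
  ∀ p : ℕ, p.Prime → ∃ m : ℕ, ¬ (p : ℤ) ∣ ((m ^ d : ℕ) : ℤ) * n + c

/-- the form as a polynomial in `j` -/
noncomputable def gp (d : ℕ) (c : ℤ) (n : ℕ) : Polynomial ℤ :=
  Polynomial.C (n : ℤ) * Polynomial.X ^ d + Polynomial.C c

lemma gp_eval (d : ℕ) (c : ℤ) (n j : ℕ) : ((j ^ d : ℕ) : ℤ) * n + c = (gp d c n).eval (j : ℤ) := by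
  unfold gp
  rw [Polynomial.eval_add, Polynomial.eval_mul, Polynomial.eval_C, Polynomial.eval_pow, Polynomial.eval_X,
    Polynomial.eval_C]
  push_cast
  ring

lemma gp_deg (d : ℕ) (c : ℤ) (n : ℕ) : (gp d c n).natDegree ≤ d := by
  unfold gp
  compute_degree

lemma rootM (d : ℕ) (c : ℤ) (n p : ℕ) (hn : AdmM d c n) (hp : p.Prime) :
    nuB (fun p j => (p : ℤ) ∣ (((fun j => j ^ d : ℕ → ℕ) j : ℕ) : ℤ) * n + c) p ≤ d ∧
    nuB (fun p j => (p : ℤ) ∣ (((fun j => j ^ d : ℕ → ℕ) j : ℕ) : ℤ) * n + c) p < p := by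
  have h : ∀ S : Finset ℕ, (∀ j ∈ S, j < p ∧ (p : ℤ) ∣ (((fun j => j ^ d : ℕ → ℕ) j : ℕ) : ℤ) * n + c) →
      S.card ≤ d ∧ S.card < p := by
    intro S hS
    have h1 := root_gen (gp d c n) p hp (by
      obtain ⟨m, hm⟩ := hn p hp
      refine ⟨m, ?_⟩
      rw [← gp_eval]
      exact hm) S (by
      intro j hj
      refine ⟨(hS j hj).1, ?_⟩
      rw [← gp_eval]
      exact (hS j hj).2)
    exact ⟨h1.1.trans (gp_deg d c n), h1.2⟩
  refine ⟨nuB_le_of _ _ _ fun S hS => (h S hS).1, ?_⟩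
  have h2 := nuB_le_of (fun p j => (p : ℤ) ∣ (((fun j => j ^ d : ℕ → ℕ) j : ℕ) : ℤ) * n + c) p (p - 1)
    fun S hS => Nat.le_sub_one_of_lt (h S hS).2
  have := hp.pos
  omega

lemma perM (d : ℕ) (c : ℤ) (n : ℕ) (hn : AdmM d c n) :
    PerB (fun p j => (p : ℤ) ∣ (((fun j => j ^ d : ℕ → ℕ) j : ℕ) : ℤ) * n + c) d := by
  refine ⟨fun p j => ?_, fun p hp => (rootM d c n p hn hp).1⟩
  show (p : ℤ) ∣ ((j ^ d : ℕ) : ℤ) * n + c ↔ (p : ℤ) ∣ (((j % p) ^ d : ℕ) : ℤ) * n + c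
  rw [gp_eval, gp_eval]
  exact per_poly _ p j

open Classical in
/-- for almost all admissible `n` many of the `j ^ d n + c` with small `j` are almost primes -/
theorem mainM (d : ℕ) (c : ℤ) (hd : 1 ≤ d) (hc : c ≠ 0)
    (θ ε : ℝ) (k : ℕ) (hθ : 0 < θ) (hθ1 : θ ≤ 1) (hk : 1 / 8 + 25 / (12 * θ) < k) (hε : 0 < ε) :
    ∃ κ Λ : ℝ, 0 < κ ∧ 0 < Λ ∧ ∀ l : ℝ, Λ ≤ l → ∀ᶠ X : ℕ in Filter.atTop, ∀ Z L : ℕ,
      (X : ℝ) ^ θ ≤ L → Z + L ≤ X →
      (((Ioc Z (Z + L)).filter (fun n => AdmM d c n ∧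
        (cnt (fun j => j ^ d) (fun _ => c) k ⌊l * Real.log X⌋₊ n
          ((X : ℝ) ^ (θ / 10)) : ℝ) < κ * l)).card : ℝ) ≤ ε * L := by
  obtain ⟨Cx, hCx⟩ := excM d c hd hc
  exact mainH (datM d c hd hc) (AdmM d c)
    (avg_of d hd (fun j => j ^ d) (fun _ => c) (AdmM d c) (c.natAbs + 30) Cx hCx
      (fun n hn => perM d c n hn) (fun n hn p hp => (rootM d c n p hn hp).2)) θ ε k hθ hθ1 hk hε

end Pool.Agent.R121.LM
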