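import Pool.Agent.R121.PX

set_option autoImplicit false

/-!
# The forms `n - f j` for a polynomial `f`
-/

namespace Pool.Agent.R121.LP

open Finset
open Pool.Agent.H373R2.T7 Pool.Agent.R490.LGa Pool.Agent.R490.LGb Pool.Agent.R490.LGd
open Pool.Agent.R490.LGe Pool.Agent.R121.PX

/-- the value -/
noncomputable def ev (f : Polynomial ℤ) (j : ℕ) : ℤ := f.eval (j : ℤ)

lemma ev_le (f : Polynomial ℤ) : ∃ D : ℕ, ∀ j : ℕ, 1 ≤ j → (ev f j).natAbs ≤ (j + 1) ^ D := by
  obtain ⟨C, hC⟩ : ∃ C, C = ∑ i ∈ range (f.natDegree + 1), (f.coeff i).natAbs := ⟨_, rfl⟩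
  refine ⟨C + f.natDegree, ?_⟩
  intro j hj
  unfold ev
  rw [Polynomial.eval_eq_sum_range]
  calc (∑ i ∈ range (f.natDegree + 1), f.coeff i * (j : ℤ) ^ i).natAbs
      ≤ ∑ i ∈ range (f.natDegree + 1), (f.coeff i * (j : ℤ) ^ i).natAbs := Int.natAbs_sum_le _ _
    _ ≤ ∑ i ∈ range (f.natDegree + 1), (f.coeff i).natAbs * (j + 1) ^ f.natDegree := by
        apply sum_le_sum
        intro i hi
        rw [Int.natAbs_mul, Int.natAbs_pow, Int.natAbs_natCast]
        apply Nat.mul_le_mul_left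
        calc j ^ i ≤ (j + 1) ^ i := Nat.pow_le_pow_left (by omega) i
          _ ≤ (j + 1) ^ f.natDegree := Nat.pow_le_pow_right (by omega) (by rw [mem_range] at hi; omega)
    _ = C * (j + 1) ^ f.natDegree := by rw [← sum_mul, hC]
    _ ≤ (j + 1) ^ C * (j + 1) ^ f.natDegree := by
        apply Nat.mul_le_mul_right
        calc C ≤ 2 ^ C := (Nat.lt_two_pow_self).le
          _ ≤ (j + 1) ^ C := Nat.pow_le_pow_left (by omega) _
    _ = _ := by rw [← pow_add]

lemma datF (f : Polynomial ℤ) (D : ℕ) (hD : ∀ j : ℕ, 1 ≤ j → (ev f j).natAbs ≤ (j + 1) ^ D)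
    (hinj : ∀ j j' : ℕ, 1 ≤ j → 1 ≤ j' → j ≠ j' → ev f j ≠ ev f j') (w1 : ℕ) :
    Dat (fun _ => 1) (fun j => -ev f j) D w1 := by
  refine ⟨fun j _ => le_rfl, ?_, ?_, ?_, ?_⟩
  · intro j _
    exact Nat.one_le_pow _ _ (by omega)
  · intro j hj
    show (-ev f j).natAbs ≤ (j + 1) ^ D
    rw [Int.natAbs_neg]
    exact hD j hj
  · intro j _ p hp _ hd
    exact absurd (Nat.dvd_one.1 hd) hp.one_lt.ne'
  · intro j j' h1 h2 hne
    unfold Rs
    intro h
    apply hinj j j' h1 h2 hne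
    push_cast at h
    linarith

/-- the quotient -/
lemma quo (f : Polynomial ℤ) (hd : 1 ≤ f.natDegree) (a : ℤ) : ∃ q : Polynomial ℤ,
    q.natDegree ≤ f.natDegree ∧ q.leadingCoeff = f.leadingCoeff ∧
    ∀ x : ℤ, f.eval x = f.eval a + (x - a) * q.eval x := by
  refine ⟨f /ₘ (Polynomial.X - Polynomial.C a), ?_, ?_, ?_⟩
  · rw [Polynomial.natDegree_divByMonic f (Polynomial.monic_X_sub_C a)]
    omega
  · apply Polynomial.leadingCoeff_divByMonic_X_sub_C
    intro h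
    have := Polynomial.natDegree_eq_zero_iff_degree_le_zero.2 h.le
    omega
  · intro x
    have h1 := Polynomial.modByMonic_add_div f (Polynomial.X - Polynomial.C a)
    rw [Polynomial.modByMonic_X_sub_C_eq_C_eval] at h1
    have h2 := congrArg (Polynomial.eval x) h1
    rw [Polynomial.eval_add, Polynomial.eval_mul, Polynomial.eval_C, Polynomial.eval_sub, Polynomial.eval_X,
      Polynomial.eval_C] at h2
    exact h2.symm

lemma root_card (g : Polynomial ℤ) (p : ℕ) (hp : p.Prime) (h0 : g.map (Int.castRingHom (ZMod p)) ≠ 0)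
    (S : Finset ℕ) (hS : ∀ j ∈ S, j < p ∧ (p : ℤ) ∣ g.eval (j : ℤ)) : S.card ≤ g.natDegree := by
  classical
  have : Fact p.Prime := ⟨hp⟩
  obtain ⟨P, hP⟩ : ∃ P, P = g.map (Int.castRingHom (ZMod p)) := ⟨_, rfl⟩
  rw [← hP] at h0
  have h1 : S.card ≤ P.roots.toFinset.card := by
    apply card_le_card_of_injOn (fun j : ℕ => (j : ZMod p))
    · intro j hj
      rw [mem_coe] at hj ⊢
      rw [Multiset.mem_toFinset, Polynomial.mem_roots h0, Polynomial.IsRoot.def, hP, Polynomial.eval_natCast_map]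
      show ((g.eval (j : ℤ) : ℤ) : ZMod p) = 0
      exact (ZMod.intCast_zmod_eq_zero_iff_dvd _ p).2 (hS j hj).2
    · intro j hj j' hj' h
      simp only at h
      rw [ZMod.natCast_eq_natCast_iff] at h
      have k1 := (hS j hj).1
      have k2 := (hS j' hj').1
      have k3 : j % p = j' % p := h
      rwa [Nat.mod_eq_of_lt k1, Nat.mod_eq_of_lt k2] at k3
  refine h1.trans ((Multiset.toFinset_card_le _).trans ((Polynomial.card_roots' P).trans ?_))
  rw [hP]
  exact Polynomial.natDegree_map_le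

lemma per_poly (g : Polynomial ℤ) (p n : ℕ) :
    ((p : ℤ) ∣ g.eval (n : ℤ)) ↔ ((p : ℤ) ∣ g.eval ((n % p : ℕ) : ℤ)) := by
  have h1 : ((n : ℤ) - ((n % p : ℕ) : ℤ)) ∣ g.eval (n : ℤ) - g.eval ((n % p : ℕ) : ℤ) :=
    Polynomial.sub_dvd_eval_sub _ _ g
  have h2 : (p : ℤ) ∣ (n : ℤ) - ((n % p : ℕ) : ℤ) := (Int.natCast_modEq_iff.2 (Nat.mod_modEq n p)).dvd
  exact dvd_iff_dvd_of_dvd_sub (h2.trans h1)

lemma nuB_le_of (Q : ℕ → ℕ → Prop) (p c : ℕ) (h : ∀ S : Finset ℕ, (∀ j ∈ S, j < p ∧ Q p j) → S.card ≤ c) :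
    nuB Q p ≤ c := by
  classical
  unfold nuB
  apply h
  intro j hj
  rw [mem_filter, mem_range] at hj
  exact hj

lemma excF (f : Polynomial ℤ) (hd : 1 ≤ f.natDegree) (D : ℕ) (hD : ∀ j : ℕ, 1 ≤ j → (ev f j).natAbs ≤ (j + 1) ^ D)
    (hinj : ∀ j j' : ℕ, 1 ≤ j → 1 ≤ j' → j ≠ j' → ev f j ≠ ev f j') :
    ∃ Cx : ℝ, ∀ w K y : ℕ, 14 ≤ w → f.leadingCoeff.natAbs ≤ w →
      ∑ j ∈ Icc 1 K, ∑ j' ∈ Icc 1 K, exc (fun _ => 1) (fun j => -ev f j) w y j j' ≤ Cx * (K : ℝ) ^ 2 / w := by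
  classical
  obtain ⟨C, hC0, hC⟩ := poly_ex f.natDegree (D + 1) hd
  refine ⟨(C + 56) / 3, ?_⟩
  intro w K y hw hlc
  have hw0 : (0 : ℝ) < w := by exact_mod_cast (by omega : 0 < w)
  obtain ⟨G, hG⟩ : ∃ G, G = ∑ n ∈ Icc 1 K, (tw w y n ^ 3 - 1) := ⟨_, rfl⟩
  have hG1 : G ≤ 28 * K / w := by rw [hG]; exact sum_ex w y K hw
  have h2 : ∀ j ∈ Icc 1 K, ∑ j' ∈ Icc 1 K, exc (fun _ => 1) (fun j => -ev f j) w y j j' ≤
      (C * K / w + 2 * G) / 3 := by
    intro j hj
    obtain ⟨q, q1, q2, q3⟩ := quo f hd (j : ℤ)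
    have hev : ∀ j' : ℕ, ev f j' - ev f j = ((j' : ℤ) - j) * q.eval (j' : ℤ) := by
      intro j'
      unfold ev
      rw [q3 (j' : ℤ)]
      ring
    have hq : ∀ j' ∈ Icc 1 K, exc (fun _ => 1) (fun j => -ev f j) w y j j' ≤
        ((if ¬ j = j' then (tw w y (q.eval (j' : ℤ)).natAbs ^ 3 - 1) else 0) +
          (if j = j' then 0 else (tw w y ((j : ℤ) - j').natAbs ^ 3 - 1))) / 3 := by
      intro j' _
      unfold exc
      split_ifs with hne
      · norm_num
      · have e : (Rs (fun _ => 1) (fun j => -ev f j) j j').natAbs =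
            ((j : ℤ) - j').natAbs * (q.eval (j' : ℤ)).natAbs := by
          unfold Rs
          have e1 : (((fun _ => 1 : ℕ → ℕ) j : ℕ) : ℤ) * (-ev f j') -
              (((fun _ => 1 : ℕ → ℕ) j' : ℕ) : ℤ) * (-ev f j) = ((j : ℤ) - j') * q.eval (j' : ℤ) := by
            have := hev j'
            push_cast
            linarith
          rw [e1, Int.natAbs_mul]
        rw [e]
        have a0 : tw w y 1 = 1 := tw_small w y 1 le_rfl (by omega)
        have a1 := tw_mul_le w y ((j : ℤ) - j').natAbs (q.eval (j' : ℤ)).natAbs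
        have a3 := amgm3 1 _ _ le_rfl (one_le_tw w y ((j : ℤ) - j').natAbs) (one_le_tw w y (q.eval (j' : ℤ)).natAbs)
        rw [a0]
        linarith
    refine (sum_le_sum hq).trans ?_
    rw [← sum_div, sum_add_distrib]
    have h3 := sum_diff (fun n => tw w y n ^ 3 - 1) (cube_ge w y) K j hj
    rw [← hG] at h3
    have h4 : ∑ j' ∈ Icc 1 K, (if ¬ j = j' then (tw w y (q.eval (j' : ℤ)).natAbs ^ 3 - 1) else 0) ≤ C * K / w := by
      rw [← sum_filter]
      apply hC w K y hw (fun p n => (p : ℤ) ∣ q.eval (n : ℤ)) (fun j' => (q.eval (j' : ℤ)).natAbs) _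
        (filter_subset _ _) (fun p n => per_poly q p n)
      · intro p hp hwp
        apply nuB_le_of
        intro S hS
        refine (root_card q p hp ?_ S hS).trans q1
        · intro h
          have h5 : (q.map (Int.castRingHom (ZMod p))).coeff q.natDegree = 0 := by rw [h, Polynomial.coeff_zero]
          rw [Polynomial.coeff_map] at h5
          have h6 : ((q.leadingCoeff : ℤ) : ZMod p) = 0 := h5
          rw [q2, ZMod.intCast_zmod_eq_zero_iff_dvd] at h6
          have h7 : p ∣ f.leadingCoeff.natAbs := Int.natCast_dvd.1 h6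
          have h8 : 0 < f.leadingCoeff.natAbs := by
            apply Int.natAbs_pos.2
            intro h9
            rw [Polynomial.leadingCoeff_eq_zero] at h9
            rw [h9, Polynomial.natDegree_zero] at hd
            omega
          have := Nat.le_of_dvd h8 h7
          omega
      · intro j' hj'
        rw [mem_filter] at hj'
        obtain ⟨hj1, hne⟩ := hj'
        rw [mem_Icc] at hj1 hj
        have h5 : ev f j' - ev f j ≠ 0 := by
          intro h
          exact hinj j j' hj.1 hj1.1 hne (by omega)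
        rw [hev j'] at h5
        refine ⟨?_, ?_, fun p => ?_⟩
        · exact Int.natAbs_pos.2 (right_ne_zero_of_mul h5)
        · have h6 : (q.eval (j' : ℤ)).natAbs ≤ (ev f j' - ev f j).natAbs := by
            rw [hev j', Int.natAbs_mul]
            exact Nat.le_mul_of_pos_left _ (Int.natAbs_pos.2 (left_ne_zero_of_mul h5))
          have h7 : (ev f j' - ev f j).natAbs ≤ (ev f j').natAbs + (ev f j).natAbs := Int.natAbs_sub_le _ _
          have h8 := hD j' hj1.1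
          have h9 := hD j hj.1
          have h10 : (j' + 1) ^ D ≤ (K + 1) ^ D := Nat.pow_le_pow_left (by omega) D
          have h11 : (j + 1) ^ D ≤ (K + 1) ^ D := Nat.pow_le_pow_left (by omega) D
          have h12 : (K + 1) ^ (D + 1) = (K + 1) ^ D * (K + 1) := pow_succ _ _
          have h13 : (K + 1) ^ D * 2 ≤ (K + 1) ^ D * (K + 1) := Nat.mul_le_mul_left _ (by omega)
          omega
        · exact Int.natCast_dvd.symm
    linarith
  refine (sum_le_sum h2).trans ?_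
  rw [sum_const, nsmul_eq_mul, Nat.card_Icc, Nat.add_sub_cancel]
  have h3 : (K : ℝ) * ((C * K / w + 2 * G) / 3) ≤ K * ((C * K / w + 2 * (28 * K / w)) / 3) := by
    apply mul_le_mul_of_nonneg_left _ (Nat.cast_nonneg _)
    linarith
  refine h3.trans (le_of_eq ?_)
  field_simp
  ring

/-- no prime divides all the values `n - f m` -/
def AdmF (f : Polynomial ℤ) (n : ℕ) : Prop :=
  ∀ p : ℕ, p.Prime → ∃ m : ℕ, ¬ (p : ℤ) ∣ (n : ℤ) - f.eval (m : ℤ)

lemma form_eq (f : Polynomial ℤ) (n j : ℕ) :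
    (((fun _ => 1 : ℕ → ℕ) j : ℕ) : ℤ) * n + -ev f j = (Polynomial.C (n : ℤ) - f).eval (j : ℤ) := by
  unfold ev
  rw [Polynomial.eval_sub, Polynomial.eval_C]
  push_cast
  ring

lemma rootF_aux (f : Polynomial ℤ) (n p : ℕ) (hn : AdmF f n) (hp : p.Prime) (S : Finset ℕ)
    (hS : ∀ j ∈ S, j < p ∧ (p : ℤ) ∣ (Polynomial.C (n : ℤ) - f).eval (j : ℤ)) :
    S.card ≤ f.natDegree ∧ S.card < p := by
  classical
  obtain ⟨m, hm⟩ := hn p hp
  have hm' : ¬ (p : ℤ) ∣ (Polynomial.C (n : ℤ) - f).eval (m : ℤ) := by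
    rw [Polynomial.eval_sub, Polynomial.eval_C]
    exact hm
  constructor
  · refine (root_card (Polynomial.C (n : ℤ) - f) p hp ?_ S hS).trans ?_
    · intro h
      apply hm'
      have : Fact p.Prime := ⟨hp⟩
      rw [← ZMod.intCast_zmod_eq_zero_iff_dvd]
      have h2 := Polynomial.eval_natCast_map (Int.castRingHom (ZMod p)) (Polynomial.C (n : ℤ) - f) m
      rw [h, Polynomial.eval_zero] at h2
      exact h2.symm
    · refine (Polynomial.natDegree_sub_le _ _).trans ?_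
      rw [Polynomial.natDegree_C]
      omega
  · have h1 : S ⊆ (range p).erase (m % p) := by
      intro j hj
      rw [mem_erase, mem_range]
      refine ⟨?_, (hS j hj).1⟩
      rintro rfl
      apply hm'
      rw [per_poly]
      exact (hS _ hj).2
    have h2 := card_le_card h1
    rw [card_erase_of_mem (mem_range.2 (Nat.mod_lt m hp.pos)), card_range] at h2
    have := hp.pos
    omega

lemma rootF (f : Polynomial ℤ) (n p : ℕ) (hn : AdmF f n) (hp : p.Prime) :
    nuB (fun p j => (p : ℤ) ∣ (((fun _ => 1 : ℕ → ℕ) j : ℕ) : ℤ) * n + -ev f j) p ≤ f.natDegree ∧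
    nuB (fun p j => (p : ℤ) ∣ (((fun _ => 1 : ℕ → ℕ) j : ℕ) : ℤ) * n + -ev f j) p < p := by
  have h : ∀ S : Finset ℕ, (∀ j ∈ S, j < p ∧ (p : ℤ) ∣ (((fun _ => 1 : ℕ → ℕ) j : ℕ) : ℤ) * n + -ev f j) →
      S.card ≤ f.natDegree ∧ S.card < p := by
    intro S hS
    apply rootF_aux f n p hn hp
    intro j hj
    refine ⟨(hS j hj).1, ?_⟩
    rw [← form_eq]
    exact (hS j hj).2
  refine ⟨nuB_le_of _ _ _ fun S hS => (h S hS).1, ?_⟩
  have h2 := nuB_le_of (fun p j => (p : ℤ) ∣ (((fun _ => 1 : ℕ → ℕ) j : ℕ) : ℤ) * n + -ev f j) p (p - 1)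
    fun S hS => Nat.le_sub_one_of_lt (h S hS).2
  have := hp.pos
  omega

lemma perF (f : Polynomial ℤ) (n : ℕ) (hn : AdmF f n) :
    PerB (fun p j => (p : ℤ) ∣ (((fun _ => 1 : ℕ → ℕ) j : ℕ) : ℤ) * n + -ev f j) f.natDegree := by
  refine ⟨fun p j => ?_, fun p hp => (rootF f n p hn hp).1⟩
  rw [form_eq, form_eq]
  exact per_poly _ p j

open Classical in
/-- almost all admissible `n` are the sum of a small value of the polynomial and an almost prime -/
theorem mainP (f : Polynomial ℤ) (hd : 1 ≤ f.natDegree)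
    (hinj : ∀ j j' : ℕ, 1 ≤ j → 1 ≤ j' → j ≠ j' → f.eval (j : ℤ) ≠ f.eval (j' : ℤ))
    (θ ε : ℝ) (k : ℕ) (hθ : 0 < θ) (hθ1 : θ ≤ 1) (hk : 1 / 8 + 25 / (12 * θ) < k) (hε : 0 < ε) :
    ∃ κ Λ : ℝ, 0 < κ ∧ 0 < Λ ∧ ∀ l : ℝ, Λ ≤ l → ∀ᶠ X : ℕ in Filter.atTop, ∀ Z L : ℕ,
      (X : ℝ) ^ θ ≤ L → Z + L ≤ X →
      (((Ioc Z (Z + L)).filter (fun n => AdmF f n ∧
        (cnt (fun _ => 1) (fun j => -ev f j) k ⌊l * Real.log X⌋₊ n
          ((X : ℝ) ^ (θ / 10)) : ℝ) < κ * l)).card : ℝ) ≤ ε * L := by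
  obtain ⟨D, hD⟩ := ev_le f
  obtain ⟨Cx, hCx⟩ := excF f hd D hD hinj
  exact mainH (datF f D hD hinj f.leadingCoeff.natAbs) (AdmF f)
    (avg_of f.natDegree hd (fun _ => 1) (fun j => -ev f j) (AdmF f) f.leadingCoeff.natAbs Cx hCx
      (fun n hn => perF f n hn) (fun n hn p hp => (rootF f n p hn hp).2)) θ ε k hθ hθ1 hk hε

end Pool.Agent.R121.LP
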