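import Pool.Agent.R490.LGe

set_option autoImplicit false

/-!
# The forms `n - (a j² + c j)`
-/

namespace Pool.Agent.R121.LQ

open Finset Filter
open Pool.Agent.W123.RP Pool.Agent.H373R2.T7 Pool.Agent.W123.RU Pool.Agent.TH464.PO Pool.Agent.TH464.PW
open Pool.Agent.Y879.AP Pool.Agent.R490.P3b Pool.Agent.R490.LGa Pool.Agent.R490.LGb Pool.Agent.R490.LGd
open Pool.Agent.R490.LGe

lemma datQ (a c : ℕ) (ha : 1 ≤ a) :
    Dat (fun _ => 1) (fun j => -((a * j ^ 2 + c * j : ℕ) : ℤ)) (a + c + 2) 0 := by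
  refine ⟨fun j _ => le_rfl, ?_, ?_, ?_, ?_⟩
  · intro j _
    exact Nat.one_le_pow _ _ (by omega)
  · intro j hj
    show (-((a * j ^ 2 + c * j : ℕ) : ℤ)).natAbs ≤ (j + 1) ^ (a + c + 2)
    rw [Int.natAbs_neg, Int.natAbs_natCast]
    have h1 : a + c ≤ (j + 1) ^ (a + c) := by
      calc a + c ≤ 2 ^ (a + c) := (Nat.lt_two_pow_self).le
        _ ≤ (j + 1) ^ (a + c) := Nat.pow_le_pow_left (by omega) _
    have h2 : j ^ 2 ≤ (j + 1) ^ 2 := Nat.pow_le_pow_left (by omega) 2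
    have h3 : j ≤ j ^ 2 := Nat.le_self_pow two_ne_zero j
    calc a * j ^ 2 + c * j ≤ a * j ^ 2 + c * j ^ 2 := by gcongr
      _ = (a + c) * j ^ 2 := by ring
      _ ≤ (j + 1) ^ (a + c) * (j + 1) ^ 2 := Nat.mul_le_mul h1 h2
      _ = (j + 1) ^ (a + c + 2) := by ring
  · intro j _ p hp _ hd
    exact absurd (Nat.dvd_one.1 hd) hp.one_lt.ne'
  · intro j j' h1 h2 hne
    unfold Rs
    intro h
    have e : ((j : ℤ) - j') * ((a : ℤ) * (j + j') + c) = 0 := by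
      push_cast at h
      linarith
    rcases mul_eq_zero.1 e with h3 | h3
    · exact hne (by omega)
    · have h4 : (0 : ℤ) < (a : ℤ) * (j + j') := by
        apply mul_pos
        · exact_mod_cast ha
        · omega
      have h5 : (0 : ℤ) ≤ c := Int.natCast_nonneg c
      omega

lemma excQ (a c w K y : ℕ) (ha : 1 ≤ a) (hw : 14 ≤ w) :
    ∑ j ∈ Icc 1 K, ∑ j' ∈ Icc 1 K, exc (fun _ => 1) (fun j => -((a * j ^ 2 + c * j : ℕ) : ℤ)) w y j j' ≤
      (28 * (2 * a + c + 2) / 3 : ℝ) * (K : ℝ) ^ 2 / w := by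
  have hw0 : (0 : ℝ) < w := by exact_mod_cast (by omega : 0 < w)
  obtain ⟨G, hG⟩ : ∃ G, G = ∑ n ∈ Icc 1 K, (tw w y n ^ 3 - 1) := ⟨_, rfl⟩
  have hG1 : G ≤ 28 * K / w := by rw [hG]; exact sum_ex w y K hw
  obtain ⟨G2, hG2⟩ : ∃ G2, G2 = ∑ n ∈ Icc 1 ((2 * a + c) * K), (tw w y n ^ 3 - 1) := ⟨_, rfl⟩
  have hG21 : G2 ≤ 28 * (((2 * a + c) * K : ℕ) : ℝ) / w := by rw [hG2]; exact sum_ex w y ((2 * a + c) * K) hw
  have h1 : ∀ j ∈ Icc 1 K, ∀ j' ∈ Icc 1 K,
      exc (fun _ => 1) (fun j => -((a * j ^ 2 + c * j : ℕ) : ℤ)) w y j j' ≤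
      ((tw w y (a * (j + j') + c) ^ 3 - 1) +
        (if j = j' then 0 else (tw w y ((j : ℤ) - j').natAbs ^ 3 - 1))) / 3 := by
    intro j _ j' _
    unfold exc
    split_ifs with hne
    · have a1 := cube_ge w y (a * (j + j') + c)
      linarith
    · have e : (Rs (fun _ => 1) (fun j => -((a * j ^ 2 + c * j : ℕ) : ℤ)) j j').natAbs =
          ((j : ℤ) - j').natAbs * (a * (j + j') + c) := by
        unfold Rs
        have e1 : (((fun _ => 1 : ℕ → ℕ) j : ℕ) : ℤ) * (-((a * j' ^ 2 + c * j' : ℕ) : ℤ)) -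
            (((fun _ => 1 : ℕ → ℕ) j' : ℕ) : ℤ) * (-((a * j ^ 2 + c * j : ℕ) : ℤ)) =
            ((j : ℤ) - j') * ((a * (j + j') + c : ℕ) : ℤ) := by
          push_cast
          ring
        rw [e1, Int.natAbs_mul, Int.natAbs_natCast]
      rw [e]
      have a0 : tw w y 1 = 1 := tw_small w y 1 le_rfl (by omega)
      have a1 := tw_mul_le w y ((j : ℤ) - j').natAbs (a * (j + j') + c)
      have a3 := amgm3 1 _ _ le_rfl (one_le_tw w y ((j : ℤ) - j').natAbs) (one_le_tw w y (a * (j + j') + c))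
      rw [a0]
      linarith
  have h2 : ∀ j ∈ Icc 1 K, ∑ j' ∈ Icc 1 K,
      exc (fun _ => 1) (fun j => -((a * j ^ 2 + c * j : ℕ) : ℤ)) w y j j' ≤ (G2 + 2 * G) / 3 := by
    intro j hj
    refine (sum_le_sum (h1 j hj)).trans ?_
    rw [← sum_div, sum_add_distrib]
    have h3 := sum_diff (fun n => tw w y n ^ 3 - 1) (cube_ge w y) K j hj
    rw [← hG] at h3
    have h4 : ∑ j' ∈ Icc 1 K, (tw w y (a * (j + j') + c) ^ 3 - 1) ≤ G2 := by
      rw [hG2, ← sum_image (f := fun n => tw w y n ^ 3 - 1) (g := fun j' => a * (j + j') + c) (s := Icc 1 K)]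
      · apply sum_le_sum_of_subset_of_nonneg
        · intro h hh
          rw [mem_image] at hh
          obtain ⟨j', hj', rfl⟩ := hh
          rw [mem_Icc] at hj' hj
          rw [mem_Icc]
          have k1 : 1 * 1 ≤ a * (j + j') := Nat.mul_le_mul ha (by omega)
          have k2 : a * (j + j') ≤ a * (2 * K) := Nat.mul_le_mul_left _ (by omega)
          have k3 : c * 1 ≤ c * K := Nat.mul_le_mul_left _ (by omega)
          have k4 : (2 * a + c) * K = a * (2 * K) + c * K := by ring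
          omega
        · intro n _ _
          exact cube_ge w y n
      · intro x _ x' _ hab
        simp only at hab
        have k1 : a * (j + x) = a * (j + x') := by omega
        have k2 := Nat.eq_of_mul_eq_mul_left (by omega : 0 < a) k1
        omega
    linarith
  refine (sum_le_sum h2).trans ?_
  rw [sum_const, nsmul_eq_mul, Nat.card_Icc, Nat.add_sub_cancel]
  have h3 : (K : ℝ) * ((G2 + 2 * G) / 3) ≤
      K * ((28 * (((2 * a + c) * K : ℕ) : ℝ) / w + 2 * (28 * K / w)) / 3) := by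
    apply mul_le_mul_of_nonneg_left _ (Nat.cast_nonneg _)
    linarith
  refine h3.trans (le_of_eq ?_)
  push_cast
  field_simp

/-- no prime divides all the values -/
def AdmQ (a c n : ℕ) : Prop :=
  ∀ p : ℕ, p.Prime → ∃ m : ℕ, ¬ (p : ℤ) ∣ ((1 : ℕ) : ℤ) * n + -((a * m ^ 2 + c * m : ℕ) : ℤ)

lemma perQ' (a c n p j : ℕ) : ((p : ℤ) ∣ ((1 : ℕ) : ℤ) * n + -((a * j ^ 2 + c * j : ℕ) : ℤ)) ↔
    ((p : ℤ) ∣ ((1 : ℕ) : ℤ) * n + -((a * (j % p) ^ 2 + c * (j % p) : ℕ) : ℤ)) := by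
  have h1 : (j : ℤ) ≡ ((j % p : ℕ) : ℤ) [ZMOD p] := Int.natCast_modEq_iff.2 (Nat.mod_modEq j p).symm
  have h2 : ((1 : ℕ) : ℤ) * n + -((a * j ^ 2 + c * j : ℕ) : ℤ) ≡
      ((1 : ℕ) : ℤ) * n + -((a * (j % p) ^ 2 + c * (j % p) : ℕ) : ℤ) [ZMOD p] := by
    apply Int.ModEq.add_left
    apply Int.ModEq.neg
    push_cast
    exact ((h1.pow 2).mul_left _).add (h1.mul_left _)
  exact h2.dvd_iff

lemma fewQ_aux (a c n p : ℕ) (hp : p.Prime) (hn : AdmQ a c n) (S : Finset ℕ)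
    (hS : ∀ j ∈ S, j < p ∧ (p : ℤ) ∣ ((1 : ℕ) : ℤ) * n + -((a * j ^ 2 + c * j : ℕ) : ℤ)) :
    S.card ≤ 2 ∧ S.card < p := by
  classical
  have : Fact p.Prime := ⟨hp⟩
  have heq : ∀ j : ℕ, ((p : ℤ) ∣ ((1 : ℕ) : ℤ) * n + -((a * j ^ 2 + c * j : ℕ) : ℤ)) ↔
      (n : ZMod p) - ((a : ZMod p) * (j : ZMod p) ^ 2 + (c : ZMod p) * (j : ZMod p)) = 0 := by
    intro j
    rw [← ZMod.intCast_zmod_eq_zero_iff_dvd]
    push_cast
    rw [one_mul, sub_eq_add_neg]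
  obtain ⟨m, hm⟩ := hn p hp
  constructor
  · obtain ⟨P, hP⟩ : ∃ P : Polynomial (ZMod p), P = Polynomial.C (n : ZMod p) -
        (Polynomial.C (a : ZMod p) * Polynomial.X ^ 2 + Polynomial.C (c : ZMod p) * Polynomial.X) := ⟨_, rfl⟩
    have hev : ∀ x : ZMod p, P.eval x = (n : ZMod p) - ((a : ZMod p) * x ^ 2 + (c : ZMod p) * x) := by
      intro x
      rw [hP]
      simp
    have hP0 : P ≠ 0 := by
      intro h0
      apply hm
      rw [heq, ← hev, h0, Polynomial.eval_zero]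
    have hdeg : P.natDegree ≤ 2 := by
      rw [hP]
      compute_degree
    have h1 : S.card ≤ P.roots.toFinset.card := by
      apply card_le_card_of_injOn (fun j : ℕ => (j : ZMod p))
      · intro j hj
        rw [mem_coe] at hj ⊢
        rw [Multiset.mem_toFinset, Polynomial.mem_roots hP0, Polynomial.IsRoot.def, hev]
        exact (heq j).1 (hS j hj).2
      · intro j hj j' hj' h
        simp only at h
        rw [ZMod.natCast_eq_natCast_iff] at h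
        have k1 := (hS j hj).1
        have k2 := (hS j' hj').1
        have k3 : j % p = j' % p := h
        rwa [Nat.mod_eq_of_lt k1, Nat.mod_eq_of_lt k2] at k3
    exact h1.trans ((Multiset.toFinset_card_le _).trans ((Polynomial.card_roots' P).trans hdeg))
  · have h1 : S ⊆ (range p).erase (m % p) := by
      intro j hj
      rw [mem_erase, mem_range]
      refine ⟨?_, (hS j hj).1⟩
      rintro rfl
      apply hm
      rw [perQ']
      exact (hS _ hj).2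
    have h2 := card_le_card h1
    rw [card_erase_of_mem (mem_range.2 (Nat.mod_lt m hp.pos)), card_range] at h2
    have := hp.pos
    omega

lemma nuB_le_of (Q : ℕ → ℕ → Prop) (p c : ℕ) (h : ∀ S : Finset ℕ, (∀ j ∈ S, j < p ∧ Q p j) → S.card ≤ c) :
    nuB Q p ≤ c := by
  classical
  unfold nuB
  apply h
  intro j hj
  rw [mem_filter, mem_range] at hj
  exact hj

lemma fewQ (a c n : ℕ) (hn : AdmQ a c n) (p : ℕ) (hp : p.Prime) :
    nuB (fun p j => (p : ℤ) ∣ ((1 : ℕ) : ℤ) * n + -((a * j ^ 2 + c * j : ℕ) : ℤ)) p ≤ 2 ∧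
    nuB (fun p j => (p : ℤ) ∣ ((1 : ℕ) : ℤ) * n + -((a * j ^ 2 + c * j : ℕ) : ℤ)) p < p := by
  have h : ∀ S : Finset ℕ, (∀ j ∈ S, j < p ∧ (p : ℤ) ∣ ((1 : ℕ) : ℤ) * n + -((a * j ^ 2 + c * j : ℕ) : ℤ)) →
      S.card ≤ 2 ∧ S.card < p := fun S hS => fewQ_aux a c n p hp hn S hS
  refine ⟨nuB_le_of _ _ _ fun S hS => (h S hS).1, ?_⟩
  have h2 := nuB_le_of (fun p j => (p : ℤ) ∣ ((1 : ℕ) : ℤ) * n + -((a * j ^ 2 + c * j : ℕ) : ℤ)) p (p - 1)
    fun S hS => Nat.le_sub_one_of_lt (h S hS).2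
  have := hp.pos
  omega

lemma perQ (a c n : ℕ) (hn : AdmQ a c n) :
    PerB (fun p j => (p : ℤ) ∣ ((1 : ℕ) : ℤ) * n + -((a * j ^ 2 + c * j : ℕ) : ℤ)) 2 :=
  ⟨fun p j => perQ' a c n p j, fun p hp => (fewQ a c n hn p hp).1⟩

open Classical in
/-- almost all admissible `n` are the sum of a small value of `a j² + c j` and an almost prime -/
theorem mainQ (a c : ℕ) (ha : 1 ≤ a) (θ ε : ℝ) (k : ℕ) (hθ : 0 < θ) (hθ1 : θ ≤ 1)
    (hk : 1 / 8 + 25 / (12 * θ) < k) (hε : 0 < ε) :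
    ∃ κ Λ : ℝ, 0 < κ ∧ 0 < Λ ∧ ∀ l : ℝ, Λ ≤ l → ∀ᶠ X : ℕ in atTop, ∀ Z L : ℕ,
      (X : ℝ) ^ θ ≤ L → Z + L ≤ X →
      (((Ioc Z (Z + L)).filter (fun n => AdmQ a c n ∧
        (cnt (fun _ => 1) (fun j => -((a * j ^ 2 + c * j : ℕ) : ℤ)) k ⌊l * Real.log X⌋₊ n
          ((X : ℝ) ^ (θ / 10)) : ℝ) < κ * l)).card : ℝ) ≤ ε * L :=
  mainH (datQ a c ha) (AdmQ a c)
    (avg_of 2 (by norm_num) (fun _ => 1) (fun j => -((a * j ^ 2 + c * j : ℕ) : ℤ)) (AdmQ a c) 0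
      (28 * (2 * a + c + 2) / 3)
      (fun w K y hw _ => excQ a c w K y ha hw) (fun n hn => perQ a c n hn)
      (fun n hn p hp => (fewQ a c n hn p hp).2)) θ ε k hθ hθ1 hk hε

/-- for odd `n` and `a + c = 2` there is no obstruction -/
lemma adm_of (a c n : ℕ) (hac : a + c = 2) (hn : Odd n) : AdmQ a c n := by
  intro p hp
  by_contra hno
  push Not at hno
  have k0 := hno 0
  have k1 := hno 1
  have e0 : ((1 : ℕ) : ℤ) * n + -((a * 0 ^ 2 + c * 0 : ℕ) : ℤ) = n := by push_cast; ring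
  have e1 : ((1 : ℕ) : ℤ) * n + -((a * 1 ^ 2 + c * 1 : ℕ) : ℤ) = n - 2 := by
    have : (a * 1 ^ 2 + c * 1 : ℕ) = 2 := by omega
    rw [this]
    push_cast
    ring
  rw [e0] at k0
  rw [e1] at k1
  have k2 := dvd_sub k0 k1
  have e2 : ((n : ℤ) - (n - 2)) = ((2 : ℕ) : ℤ) := by push_cast; ring
  rw [e2] at k2
  have k3 : p ∣ 2 := by exact_mod_cast k2
  have k4 : p = 2 := (Nat.prime_dvd_prime_iff_eq hp Nat.prime_two).1 k3
  subst k4
  have k5 : 2 ∣ n := by exact_mod_cast k0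
  rcases hn with ⟨t, ht⟩
  omega

end Pool.Agent.R121.LQ
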