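import Mathlib

set_option autoImplicit false

/-! Moebius inversion on the lattice of finite lower sets. -/

namespace Pool.Agent.R121.LowerMoebius

open Finset

variable {P : Type*} [PartialOrder P] [DecidableEq P]

/-- lower sets -/
def Lower (D : Finset P) : Prop := ∀ p ∈ D, ∀ q, q ≤ p → q ∈ D

open Classical in
/-- the maximal elements -/
noncomputable def cor (D : Finset P) : Finset P := D.filter fun s => ∀ r ∈ D, ¬ s < r

lemma mem_cor {D : Finset P} {s : P} : s ∈ cor D ↔ s ∈ D ∧ ∀ r ∈ D, ¬ s < r := by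
  classical
  unfold cor
  rw [mem_filter]

lemma cor_sub (D : Finset P) : cor D ⊆ D := fun _ h => (mem_cor.1 h).1

/-- the Moebius transform -/
noncomputable def moeb (g : Finset P → ℤ) (D : Finset P) : ℤ :=
  ∑ S ∈ (cor D).powerset, (-1) ^ S.card * g (D \ S)

lemma lower_sdiff {D S : Finset P} (hD : Lower D) (hS : S ⊆ cor D) : Lower (D \ S) := by
  intro p hp q hq
  rw [mem_sdiff] at hp ⊢
  refine ⟨hD p hp.1 q hq, fun h => ?_⟩
  have h1 := (mem_cor.1 (hS h)).2 p hp.1
  rcases lt_or_eq_of_le hq with h2 | h2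
  · exact h1 h2
  · exact hp.2 (h2 ▸ h)

open Classical in
/-- addable elements inside `T` -/
noncomputable def add (T D : Finset P) : Finset P := (T \ D).filter fun s => ∀ r, r < s → r ∈ D

lemma mem_add {T D : Finset P} {s : P} : s ∈ add T D ↔ (s ∈ T ∧ s ∉ D) ∧ ∀ r, r < s → r ∈ D := by
  classical
  unfold add
  rw [mem_filter, mem_sdiff]

open Classical in
theorem moebius (g : Finset P → ℤ) {T : Finset P} (hT : Lower T) :
    ∑ D ∈ T.powerset.filter (fun D => Lower D), moeb g D = g T := by
  have h1 : ∑ D ∈ T.powerset.filter (fun D => Lower D), moeb g D =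
      ∑ x ∈ (T.powerset.filter (fun D => Lower D)).sigma (fun D => (cor D).powerset),
        (-1) ^ x.2.card * g (x.1 \ x.2) := by
    rw [Finset.sum_sigma]
    rfl
  have h2 : ∑ x ∈ (T.powerset.filter (fun D => Lower D)).sigma (fun D => (cor D).powerset),
        (-1 : ℤ) ^ x.2.card * g (x.1 \ x.2) =
      ∑ x ∈ (T.powerset.filter (fun D => Lower D)).sigma (fun D => (add T D).powerset),
        (-1) ^ x.2.card * g x.1 := by
    refine Finset.sum_bij' (fun x _ => (⟨x.1 \ x.2, x.2⟩ : Σ _ : Finset P, Finset P))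
      (fun x _ => (⟨x.1 ∪ x.2, x.2⟩ : Σ _ : Finset P, Finset P)) ?_ ?_ ?_ ?_ ?_
    · rintro ⟨D, S⟩ h
      simp only [mem_sigma, mem_filter, mem_powerset] at h ⊢
      obtain ⟨⟨hDT, hD⟩, hS⟩ := h
      refine ⟨⟨(sdiff_subset).trans hDT, lower_sdiff hD hS⟩, ?_⟩
      intro s hs
      have h3 := mem_cor.1 (hS hs)
      rw [mem_add]
      refine ⟨⟨hDT h3.1, fun h => (mem_sdiff.1 h).2 hs⟩, ?_⟩
      intro r hr
      rw [mem_sdiff]
      refine ⟨hD s h3.1 r hr.le, fun h => ?_⟩
      exact (mem_cor.1 (hS h)).2 s h3.1 hr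
    · rintro ⟨D, S⟩ h
      simp only [mem_sigma, mem_filter, mem_powerset] at h ⊢
      obtain ⟨⟨hDT, hD⟩, hS⟩ := h
      refine ⟨⟨union_subset hDT (fun s hs => (mem_add.1 (hS hs)).1.1), ?_⟩, ?_⟩
      · intro p hp q hq
        rw [mem_union] at hp ⊢
        rcases hp with hp | hp
        · exact Or.inl (hD p hp q hq)
        · rcases lt_or_eq_of_le hq with h2 | h2
          · exact Or.inl ((mem_add.1 (hS hp)).2 q h2)
          · exact Or.inr (h2 ▸ hp)
      · intro s hs
        rw [mem_cor]
        refine ⟨mem_union_right _ hs, ?_⟩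
        intro r hr hsr
        rw [mem_union] at hr
        rcases hr with hr | hr
        · exact (mem_add.1 (hS hs)).1.2 (hD r hr s hsr.le)
        · exact (mem_add.1 (hS hs)).1.2 ((mem_add.1 (hS hr)).2 s hsr)
    · rintro ⟨D, S⟩ h
      simp only [mem_sigma, mem_filter, mem_powerset] at h
      have : D \ S ∪ S = D := by
        rw [sdiff_union_of_subset]
        exact h.2.trans (cor_sub D)
      simp [this]
    · rintro ⟨D, S⟩ h
      simp only [mem_sigma, mem_filter, mem_powerset] at h
      have : (D ∪ S) \ S = D := by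
        ext x
        rw [mem_sdiff, mem_union]
        constructor
        · rintro ⟨h1 | h1, h2⟩
          · exact h1
          · exact absurd h1 h2
        · intro hx
          exact ⟨Or.inl hx, fun hs => (mem_add.1 (h.2 hs)).1.2 hx⟩
      simp [this]
    · rintro ⟨D, S⟩ _
      rfl
  rw [h1, h2, Finset.sum_sigma]
  have h3 : ∀ D ∈ T.powerset.filter (fun D => Lower D),
      ∑ S ∈ (add T D).powerset, (-1 : ℤ) ^ S.card * g D = if D = T then g T else 0 := by
    intro D hD
    simp only [mem_filter, mem_powerset] at hD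
    rw [← Finset.sum_mul, Finset.sum_powerset_neg_one_pow_card]
    by_cases hDT : D = T
    · subst hDT
      have : add D D = ∅ := by
        apply eq_empty_of_forall_notMem
        intro s hs
        exact (mem_add.1 hs).1.2 (mem_add.1 hs).1.1
      rw [if_pos this, if_pos rfl, one_mul]
    · have : add T D ≠ ∅ := by
        have hne : (T \ D).Nonempty := by
          rw [Finset.sdiff_nonempty]
          intro h
          exact hDT (Subset.antisymm hD.1 h)
        obtain ⟨s, hs⟩ := Finset.exists_minimal hne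
        apply Finset.Nonempty.ne_empty
        refine ⟨s, mem_add.2 ⟨mem_sdiff.1 hs.1, ?_⟩⟩
        intro r hr
        by_contra hc
        have h4 : r ∈ T \ D := mem_sdiff.2 ⟨hT s (mem_sdiff.1 hs.1).1 r hr.le, hc⟩
        exact absurd (hs.2 h4 hr.le) (not_le_of_gt hr)
      rw [if_neg this, if_neg hDT, zero_mul]
  rw [Finset.sum_congr rfl h3, Finset.sum_ite_eq']
  rw [if_pos]
  simp only [mem_filter, mem_powerset]
  exact ⟨Subset.refl T, hT⟩

end Pool.Agent.R121.LowerMoebius
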