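import Mathlib

set_option autoImplicit false

/-!
# Orders compatible with a cyclic word (signed necklaces)
-/

namespace Pool.Agent.R121.Necklace

open Finset

variable {n k : ℕ}

/-- the ranking `r` of the places is compatible with the cyclic word `w` -/
def Cond (neg : Fin k → Bool) (c : Equiv.Perm (Fin n)) (w : Fin n → Fin k) (r : Equiv.Perm (Fin n)) :
    Prop :=
  (∀ i j, r i < r j → w i ≤ w j) ∧
  ∀ i j, w i = w j → r i < r j → if neg (w i) = true then r (c j) < r (c i) else r (c i) < r (c j)

/-- the places `i` and `j` have the same itinerary -/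
def Tie (c : Equiv.Perm (Fin n)) (w : Fin n → Fin k) (i j : Fin n) : Prop :=
  ∀ t : ℕ, w ((c ^ t) i) = w ((c ^ t) j)

/-- keys for the sorting of itineraries -/
def K (neg : Fin k → Bool) (c : Equiv.Perm (Fin n)) (w : Fin n → Fin k) (τ : Fin n → ℕ) :
    ℕ → Fin n → ℕ
  | 0, i => τ i
  | L + 1, i => (w i : ℕ) * (2 * k ^ L) + (if neg (w i) = true then
      2 * k ^ L - 1 - K neg c w τ L (c i) else K neg c w τ L (c i))

lemma pow_succ_app (c : Equiv.Perm (Fin n)) (t : ℕ) (i : Fin n) : (c ^ (t + 1)) i = (c ^ t) (c i) := by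
  rw [pow_succ, Equiv.Perm.mul_apply]

lemma pow_add_app (c : Equiv.Perm (Fin n)) (s t : ℕ) (i : Fin n) :
    (c ^ (s + t)) i = (c ^ s) ((c ^ t) i) := by
  rw [pow_add, Equiv.Perm.mul_apply]

lemma pow_mod {c : Equiv.Perm (Fin n)} (hper : c ^ n = 1) (t : ℕ) : c ^ (t % n) = c ^ t := by
  conv_rhs => rw [← Nat.mod_add_div t n, pow_add, pow_mul, hper, one_pow, mul_one]

variable {neg : Fin k → Bool} {c : Equiv.Perm (Fin n)} {w : Fin n → Fin k} {τ : Fin n → ℕ}

lemma Tie.refl (i : Fin n) : Tie c w i i := fun _ => rfl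

lemma Tie.symm {i j : Fin n} (h : Tie c w i j) : Tie c w j i := fun t => (h t).symm

lemma Tie.pow {i j : Fin n} (h : Tie c w i j) (s : ℕ) : Tie c w ((c ^ s) i) ((c ^ s) j) := by
  intro t
  rw [← pow_add_app, ← pow_add_app]
  exact h _

lemma Tie.app {i j : Fin n} (h : Tie c w i j) : Tie c w (c i) (c j) := by
  have := h.pow 1
  simpa using this

lemma Tie.eq {i j : Fin n} (h : Tie c w i j) : w i = w j := by
  have := h 0
  simpa using this

lemma kpos (w : Fin n → Fin k) (i : Fin n) : 0 < k := by
  have := (w i).2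
  omega

lemma K_lt (hτ : ∀ i, τ i < 2) (L : ℕ) : ∀ i, K neg c w τ L i < 2 * k ^ L := by
  induction L with
  | zero => intro i; simpa [K] using hτ i
  | succ L ih =>
    intro i
    have h1 := ih (c i)
    have hB : 0 < k ^ L := Nat.pow_pos (kpos w i)
    have h2 : ((w i : ℕ) + 1) * (2 * k ^ L) ≤ k * (2 * k ^ L) := Nat.mul_le_mul_right _ (w i).2
    have h3 : k * (2 * k ^ L) = 2 * k ^ (L + 1) := by rw [pow_succ]; ring
    rw [add_mul, one_mul, h3] at h2
    simp only [K]
    split_ifs <;> omega

lemma K_cmp (hτ : ∀ i, τ i < 2) (L : ℕ) (i j : Fin n) :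
    K neg c w τ (L + 1) i < K neg c w τ (L + 1) j ↔ w i < w j ∨ (w i = w j ∧
      if neg (w i) = true then K neg c w τ L (c j) < K neg c w τ L (c i) else
        K neg c w τ L (c i) < K neg c w τ L (c j)) := by
  have h1 := K_lt (neg := neg) (c := c) (w := w) hτ L (c i)
  have h2 := K_lt (neg := neg) (c := c) (w := w) hτ L (c j)
  have key : ∀ a b : Fin n, w a < w b →
      (w a : ℕ) * (2 * k ^ L) + 2 * k ^ L ≤ (w b : ℕ) * (2 * k ^ L) := by
    intro a b hab
    have : ((w a : ℕ) + 1) * (2 * k ^ L) ≤ (w b : ℕ) * (2 * k ^ L) := Nat.mul_le_mul_right _ hab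
    rw [add_mul, one_mul] at this
    exact this
  rcases lt_trichotomy (w i) (w j) with h | h | h
  · simp only [h, true_or, iff_true]
    have := key i j h
    simp only [K]
    split_ifs <;> omega
  · simp only [h, lt_irrefl, false_or, true_and]
    simp only [K, h]
    split_ifs <;> omega
  · have h3 : ¬ w i < w j := not_lt.2 h.le
    have h4 : ¬ w i = w j := fun h5 => by rw [h5] at h; exact lt_irrefl _ h
    simp only [h3, h4, false_and, or_false, iff_false]
    have := key j i h
    simp only [K]
    split_ifs <;> omega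

lemma K_nt (hτ : ∀ i, τ i < 2) (L : ℕ) : ∀ i j, (∃ t < L, w ((c ^ t) i) ≠ w ((c ^ t) j)) →
    K neg c w τ L i ≠ K neg c w τ L j ∧
    (K neg c w τ (L + 1) i < K neg c w τ (L + 1) j ↔ K neg c w τ L i < K neg c w τ L j) := by
  induction L with
  | zero => rintro i j ⟨t, ht, -⟩; omega
  | succ L ih =>
    rintro i j ⟨t, ht, hne⟩
    rcases lt_trichotomy (w i) (w j) with h | h | h
    · have a1 : K neg c w τ (L + 1) i < K neg c w τ (L + 1) j := (K_cmp hτ L i j).2 (Or.inl h)
      have a2 : K neg c w τ (L + 1 + 1) i < K neg c w τ (L + 1 + 1) j :=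
        (K_cmp hτ (L + 1) i j).2 (Or.inl h)
      exact ⟨a1.ne, by simp [a1, a2]⟩
    · match t, ht, hne with
      | 0, _, hne => simp [h] at hne
      | t + 1, ht, hne =>
        rw [pow_succ_app, pow_succ_app] at hne
        have h1 := ih (c i) (c j) ⟨t, by omega, hne⟩
        have h2 := ih (c j) (c i) ⟨t, by omega, hne.symm⟩
        have b1 := K_cmp (neg := neg) (c := c) (w := w) hτ L i j
        have b2 := K_cmp (neg := neg) (c := c) (w := w) hτ L j i
        have b3 := K_cmp (neg := neg) (c := c) (w := w) hτ (L + 1) i j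
        rw [h] at b1 b2 b3
        simp only [lt_irrefl, false_or, true_and] at b1 b2 b3
        constructor
        · intro he
          rw [he] at b1
          rw [he] at b2
          split_ifs at b1 b2 <;> omega
        · rw [b3, b1]
          split_ifs
          · exact h2.2
          · exact h1.2
    · have a1 : K neg c w τ (L + 1) j < K neg c w τ (L + 1) i := (K_cmp hτ L j i).2 (Or.inl h)
      have a2 : K neg c w τ (L + 1 + 1) j < K neg c w τ (L + 1 + 1) i :=
        (K_cmp hτ (L + 1) j i).2 (Or.inl h)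
      refine ⟨a1.ne', ?_⟩
      constructor <;> intro h3 <;> omega

lemma cond_iff {r : Equiv.Perm (Fin n)} (h : Cond neg c w r) {i j : Fin n} (hij : i ≠ j)
    (hw : w i = w j) :
    r (c i) < r (c j) ↔ if neg (w i) = true then r j < r i else r i < r j := by
  have h1 := h.2 i j hw
  have h2 := h.2 j i hw.symm
  rw [← hw] at h2
  have hne : r i ≠ r j := fun he => hij (r.injective he)
  rcases lt_or_gt_of_ne hne with h3 | h3
  · have h4 := h1 h3
    have h5 := not_lt.2 h3.le
    split_ifs at h4 ⊢ with h6
    · simp only [h5, iff_false, not_lt]; exact h4.le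
    · simp only [h3, iff_true]; exact h4
  · have h4 := h2 h3
    have h5 := not_lt.2 h3.le
    split_ifs at h4 ⊢ with h6
    · simp only [h3, iff_true]; exact h4
    · simp only [h5, iff_false, not_lt]; exact h4.le

lemma r_nt (hτ : ∀ i, τ i < 2) {r : Equiv.Perm (Fin n)} (h : Cond neg c w r) (L : ℕ) :
    ∀ i j, (∃ t < L, w ((c ^ t) i) ≠ w ((c ^ t) j)) →
    (r i < r j ↔ K neg c w τ L i < K neg c w τ L j) := by
  induction L with
  | zero => rintro i j ⟨t, ht, -⟩; omega
  | succ L ih =>
    rintro i j ⟨t, ht, hne⟩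
    have hij : i ≠ j := by rintro rfl; exact hne rfl
    have hrij : r i ≠ r j := fun he => hij (r.injective he)
    rw [K_cmp hτ]
    rcases lt_trichotomy (w i) (w j) with h1 | h1 | h1
    · simp only [h1, true_or, iff_true]
      by_contra h2
      have h3 := lt_of_le_of_ne (not_lt.1 h2) hrij.symm
      exact absurd (h.1 j i h3) (not_le.2 h1)
    · match t, ht, hne with
      | 0, _, hne => simp [h1] at hne
      | t + 1, ht, hne =>
        rw [pow_succ_app, pow_succ_app] at hne
        have e1 := ih (c i) (c j) ⟨t, by omega, hne⟩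
        have e2 := ih (c j) (c i) ⟨t, by omega, hne.symm⟩
        have e3 := cond_iff h hij h1
        have e4 := cond_iff h hij.symm h1.symm
        rw [← h1] at e4
        simp only [h1, lt_irrefl, false_or, true_and]
        rw [← e1, ← e2, e3, e4, h1]
        split_ifs <;> rfl
    · have h3 : ¬ w i < w j := not_lt.2 h1.le
      have h4 : ¬ w i = w j := fun h5 => by rw [h5] at h1; exact lt_irrefl _ h1
      simp only [h3, h4, false_and, or_false, iff_false]
      intro h2
      exact absurd (h.1 i j h2) (not_le.2 h1)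

lemma K_tie (hτ : ∀ i, τ i < 2) (hc : ∀ i, τ (c i) = if neg (w i) = true then 1 - τ i else τ i)
    (L : ℕ) : ∀ i j, Tie c w i j → τ i ≠ τ j →
    K neg c w τ L i ≠ K neg c w τ L j ∧ (K neg c w τ L i < K neg c w τ L j ↔ τ i < τ j) := by
  induction L with
  | zero => intro i j _ h; exact ⟨h, Iff.rfl⟩
  | succ L ih =>
    intro i j ht hne
    have hw := ht.eq
    have c1 := hc i
    have c2 := hc j
    rw [← hw] at c2
    have t1 := hτ i
    have t2 := hτ j
    have hne' : τ (c i) ≠ τ (c j) := by
      split_ifs at c1 c2 <;> omega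
    have e1 := ih (c i) (c j) ht.app hne'
    have b1 := K_cmp (neg := neg) (c := c) (w := w) hτ L i j
    have b2 := K_cmp (neg := neg) (c := c) (w := w) hτ L j i
    rw [← hw] at b1 b2
    simp only [lt_irrefl, false_or, true_and] at b1 b2
    by_cases hn : neg (w i) = true
    · rw [if_pos hn] at c1 c2 b1 b2
      omega
    · rw [if_neg hn] at c1 c2 b1 b2
      omega

lemma tie_of_lt (hn : 0 < n) (hper : c ^ n = 1) {i j : Fin n}
    (h : ∀ t < n, w ((c ^ t) i) = w ((c ^ t) j)) : Tie c w i j := by
  intro t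
  have := h (t % n) (Nat.mod_lt _ hn)
  rwa [pow_mod hper] at this

lemma exists_r (hn : 0 < n) (hper : c ^ n = 1) (hτ : ∀ i, τ i < 2)
    (hc : (∀ i, τ (c i) = if neg (w i) = true then 1 - τ i else τ i) ∨
      ∀ i j, i ≠ j → ¬ Tie c w i j)
    (ht : ∀ i j, i ≠ j → Tie c w i j → τ i ≠ τ j) :
    ∃ r : Equiv.Perm (Fin n), Cond neg c w r ∧
      ∀ i j, i ≠ j → Tie c w i j → (r i < r j ↔ τ i < τ j) := by
  have main : ∀ i j, i ≠ j → K neg c w τ n i ≠ K neg c w τ n j ∧
      (K neg c w τ (n + 1) i < K neg c w τ (n + 1) j ↔ K neg c w τ n i < K neg c w τ n j) ∧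
      (Tie c w i j → (K neg c w τ n i < K neg c w τ n j ↔ τ i < τ j)) := by
    intro i j hij
    by_cases hT : Tie c w i j
    · rcases hc with hc | hc
      · have e1 := K_tie hτ hc n i j hT (ht i j hij hT)
        have e2 := K_tie hτ hc (n + 1) i j hT (ht i j hij hT)
        exact ⟨e1.1, by rw [e1.2, e2.2], fun _ => e1.2⟩
      · exact absurd hT (hc i j hij)
    · have : ∃ t < n, w ((c ^ t) i) ≠ w ((c ^ t) j) := by
        by_contra h
        push Not at h
        exact hT (tie_of_lt hn hper h)
      have e1 := K_nt (neg := neg) hτ n i j this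
      exact ⟨e1.1, e1.2, fun h => absurd h hT⟩
  set f := K neg c w τ n with hf
  have hm := Tuple.monotone_sort f
  have ho : ∀ i j, (Tuple.sort f)⁻¹ i < (Tuple.sort f)⁻¹ j ↔ f i < f j := by
    intro i j
    have key : ∀ a b, (Tuple.sort f)⁻¹ a ≤ (Tuple.sort f)⁻¹ b → f a ≤ f b := by
      intro a b hab
      have := hm hab
      simpa using this
    constructor
    · intro h
      have h1 := key i j h.le
      have hij : i ≠ j := by rintro rfl; exact lt_irrefl _ h
      exact lt_of_le_of_ne h1 (main i j hij).1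
    · intro h
      by_contra h1
      exact absurd (key j i (not_lt.1 h1)) (not_le.2 h)
  refine ⟨(Tuple.sort f)⁻¹, ⟨?_, ?_⟩, ?_⟩
  · intro i j h
    rw [ho] at h
    obtain ⟨m, rfl⟩ : ∃ m, n = m + 1 := ⟨n - 1, by omega⟩
    rw [hf, K_cmp hτ] at h
    rcases h with h | h
    · exact h.le
    · exact h.1.le
  · intro i j hw h
    rw [ho] at h
    have hij : i ≠ j := by rintro rfl; exact lt_irrefl _ h
    rw [← (main i j hij).2.1, K_cmp hτ] at h
    rw [ho, ho]
    rcases h with h | h
    · rw [hw] at h; exact absurd h (lt_irrefl _)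
    · exact h.2
  · intro i j hij hT
    rw [ho]
    exact (main i j hij).2.2 hT

lemma perm_ext_order {r r' : Equiv.Perm (Fin n)} (h : ∀ i j, r i < r j ↔ r' i < r' j) : r = r' := by
  have h1 : StrictMono (fun a => r' (r.symm a)) := by
    intro a b hab
    have := h (r.symm a) (r.symm b)
    simp only [Equiv.apply_symm_apply] at this
    exact this.1 hab
  have h2 : (fun a => r' (r.symm a)) = id := le_antisymm h1.le_id h1.id_le
  apply Equiv.ext
  intro i
  have := congrFun h2 (r i)
  simpa using this.symm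

lemma r_unique (hn : 0 < n) (hper : c ^ n = 1) {r r' : Equiv.Perm (Fin n)} (h : Cond neg c w r)
    (h' : Cond neg c w r') (ht : ∀ i j, i ≠ j → Tie c w i j → (r i < r j ↔ r' i < r' j)) : r = r' := by
  apply perm_ext_order
  intro i j
  by_cases hij : i = j
  · subst hij; simp
  by_cases hT : Tie c w i j
  · exact ht i j hij hT
  · have : ∃ t < n, w ((c ^ t) i) ≠ w ((c ^ t) j) := by
      by_contra h
      push Not at h
      exact hT (tie_of_lt hn hper h)
    rw [r_nt (τ := fun _ => 0) (fun _ => by omega) h n i j this,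
      r_nt (τ := fun _ => 0) (fun _ => by omega) h' n i j this]

/-- the number of negative letters -/
def par (neg : Fin k → Bool) (c : Equiv.Perm (Fin n)) (w : Fin n → Fin k) (i : Fin n) (t : ℕ) : ℕ :=
  ∑ s ∈ range t, if neg (w ((c ^ s) i)) = true then 1 else 0

lemma par_zero (i : Fin n) : par neg c w i 0 = 0 := rfl

lemma par_succ (i : Fin n) (t : ℕ) : par neg c w i (t + 1) =
    par neg c w i t + if neg (w ((c ^ t) i)) = true then 1 else 0 := sum_range_succ _ _

lemma par_add (i : Fin n) (s t : ℕ) :
    par neg c w i (s + t) = par neg c w i s + par neg c w ((c ^ s) i) t := by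
  induction t with
  | zero => rfl
  | succ t ih =>
    rw [← add_assoc, par_succ, par_succ, ih, ← pow_add_app, add_comm t s]
    ring

lemma par_tie {i j : Fin n} (h : Tie c w i j) (t : ℕ) : par neg c w i t = par neg c w j t := by
  unfold par
  apply sum_congr rfl
  intro s _
  rw [h s]

lemma ord_pow {r : Equiv.Perm (Fin n)} (h : Cond neg c w r) {i j : Fin n} (hij : i ≠ j)
    (hT : Tie c w i j) (t : ℕ) : r ((c ^ t) i) < r ((c ^ t) j) ↔
      if Even (par neg c w i t) then r i < r j else r j < r i := by
  induction t with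
  | zero => simp [par_zero]
  | succ t ih =>
    have hne : (c ^ t) i ≠ (c ^ t) j := fun he => hij ((c ^ t).injective he)
    have hri : r i ≠ r j := fun he => hij (r.injective he)
    have hrt : r ((c ^ t) i) ≠ r ((c ^ t) j) := fun he => hne (r.injective he)
    have e1 := cond_iff h hne (hT t)
    have e2 : (c ^ (t + 1)) i = c ((c ^ t) i) := by rw [add_comm, pow_add_app, pow_one]
    have e3 : (c ^ (t + 1)) j = c ((c ^ t) j) := by rw [add_comm, pow_add_app, pow_one]
    rw [e2, e3, e1, par_succ]
    have hflip : r ((c ^ t) j) < r ((c ^ t) i) ↔ ¬ (r ((c ^ t) i) < r ((c ^ t) j)) :=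
      ⟨fun h => not_lt.2 h.le, fun h => lt_of_le_of_ne (not_lt.1 h) hrt.symm⟩
    have hflip2 : r j < r i ↔ ¬ (r i < r j) :=
      ⟨fun h => not_lt.2 h.le, fun h => lt_of_le_of_ne (not_lt.1 h) hri.symm⟩
    rw [hflip, ih, hflip2]
    by_cases hn : neg (w ((c ^ t) i)) = true
    · simp only [hn, if_true, Nat.even_add_one]
      by_cases hE : Even (par neg c w i t)
      · simp [hE]
      · simp [hE]
    · simp only [hn, add_zero]
      simp

/-- no period with an even number of negative letters -/
lemma no_even {r : Equiv.Perm (Fin n)} (hn : 0 < n) (hper : c ^ n = 1) (h : Cond neg c w r)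
    {i : Fin n} {s : ℕ} (hne : (c ^ s) i ≠ i) (hT : Tie c w i ((c ^ s) i)) :
    ¬ Even (par neg c w i s) := by
  intro hE
  have hTm : ∀ m, Tie c w i ((c ^ (m * s)) i) := by
    intro m
    induction m with
    | zero => simp only [zero_mul, pow_zero, Equiv.Perm.one_apply]; exact Tie.refl i
    | succ m ih =>
      intro t
      have e : (c ^ ((m + 1) * s)) i = (c ^ (m * s)) ((c ^ s) i) := by
        rw [← pow_add_app]; congr 2; ring
      rw [e, ih t]
      exact hT.pow (m * s) t
  have hEm : ∀ m, Even (par neg c w i (m * s)) := by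
    intro m
    induction m with
    | zero => simp [par_zero]
    | succ m ih =>
      have e : (m + 1) * s = m * s + s := by ring
      rw [e, par_add, ← par_tie (hTm m)]
      exact ih.add hE
  have hstep : ∀ m, r ((c ^ (m * s)) i) < r ((c ^ ((m + 1) * s)) i) ↔ r i < r ((c ^ s) i) := by
    intro m
    have := ord_pow h hne.symm hT (m * s)
    rw [if_pos (hEm m), ← pow_add_app] at this
    rw [← this]
    have e : (m + 1) * s = m * s + s := by ring
    rw [e]
  have hend : (c ^ (n * s)) i = i := by
    rw [pow_mul, hper, one_pow]; rfl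
  have hri : r i ≠ r ((c ^ s) i) := fun he => hne (r.injective he).symm
  rcases lt_or_gt_of_ne hri with h1 | h1
  · have : ∀ m, r i < r ((c ^ ((m + 1) * s)) i) := by
      intro m
      induction m with
      | zero => simpa using h1
      | succ m ih => exact ih.trans ((hstep (m + 1)).2 h1)
    have h2 := this (n - 1)
    rw [show n - 1 + 1 = n by omega, hend] at h2
    exact lt_irrefl _ h2
  · have hlt : ∀ m, r ((c ^ ((m + 1) * s)) i) < r ((c ^ (m * s)) i) := by
      intro m
      by_contra h2
      have h3 : r ((c ^ ((m + 1) * s)) i) ≠ r ((c ^ (m * s)) i) := by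
        intro he
        have h4 := r.injective he
        have e : (m + 1) * s = m * s + s := by ring
        rw [e, pow_add_app] at h4
        exact hne ((c ^ (m * s)).injective h4)
      have h5 := (hstep m).1 (lt_of_le_of_ne (not_lt.1 h2) h3.symm)
      exact absurd h5 (not_lt.2 h1.le)
    have : ∀ m, r ((c ^ ((m + 1) * s)) i) < r i := by
      intro m
      induction m with
      | zero => simpa using h1
      | succ m ih => exact (hlt (m + 1)).trans ih
    have h2 := this (n - 1)
    rw [show n - 1 + 1 = n by omega, hend] at h2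
    exact lt_irrefl _ h2

lemma tie_half {r : Equiv.Perm (Fin n)} (hn : 0 < n) (hper : c ^ n = 1)
    (htr : ∀ i j, ∃ t : ℕ, (c ^ t) i = j) (hfree : ∀ (s : ℕ) (i : Fin n), (c ^ s) i = i → n ∣ s)
    (h : Cond neg c w r) {i j : Fin n} (hij : i ≠ j) (hT : Tie c w i j) :
    n = 2 * (n / 2) ∧ j = (c ^ (n / 2)) i ∧ Odd (par neg c w i (n / 2)) := by
  obtain ⟨s', hs'⟩ := htr i j
  rw [← pow_mod hper] at hs'
  set s := s' % n with hs
  have hsn : s < n := Nat.mod_lt _ hn
  subst hs'
  have hodd : Odd (par neg c w i s) := Nat.not_even_iff_odd.1 (no_even hn hper h hij.symm hT)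
  have h2s : (c ^ (s + s)) i = i := by
    by_contra hne
    have hT2 : Tie c w i ((c ^ (s + s)) i) := by
      intro t
      rw [hT t, pow_add_app]
      exact hT.pow s t
    apply no_even hn hper h hne hT2
    rw [par_add, ← par_tie hT]
    exact hodd.add_odd hodd
  have h3 := hfree _ _ h2s
  have hs0 : s ≠ 0 := by
    intro h0
    rw [h0] at hij
    simp at hij
  obtain ⟨q, hq⟩ := h3
  have hq1 : q = 1 := by
    rcases Nat.lt_or_ge q 2 with h4 | h4
    · rcases (show q = 0 ∨ q = 1 by omega) with h5 | h5
      · subst h5; omega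
      · exact h5
    · have : n * 2 ≤ n * q := Nat.mul_le_mul_left n h4
      omega
  subst hq1
  have e : n / 2 = s := by omega
  rw [e]
  exact ⟨by omega, rfl, hodd⟩

/-- no two places with the same itinerary -/
def Aper (c : Equiv.Perm (Fin n)) (w : Fin n → Fin k) : Prop := ∀ i j, i ≠ j → ¬ Tie c w i j

/-- the word is the square of an aperiodic one -/
def Dbl (c : Equiv.Perm (Fin n)) (w : Fin n → Fin k) : Prop :=
  n = 2 * (n / 2) ∧ (∀ i, w ((c ^ (n / 2)) i) = w i) ∧
    ∀ i j, Tie c w i j → j = i ∨ j = (c ^ (n / 2)) i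

lemma par_shift {p : ℕ} (hp : ∀ i, w ((c ^ p) i) = w i) (i : Fin n) (t : ℕ) :
    par neg c w ((c ^ t) i) p = par neg c w i p := by
  induction t with
  | zero => simp
  | succ t ih =>
    rw [← ih]
    have e1 := par_add (neg := neg) (w := w) ((c ^ t) i) p 1 (c := c)
    have e2 := par_add (neg := neg) (w := w) ((c ^ t) i) 1 p (c := c)
    rw [add_comm p 1] at e1
    rw [e1] at e2
    have e3 : (c ^ 1) ((c ^ t) i) = (c ^ (t + 1)) i := by rw [← pow_add_app, add_comm]
    rw [e3] at e2
    have e4 : par neg c w ((c ^ p) ((c ^ t) i)) 1 = par neg c w ((c ^ t) i) 1 := by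
      simp only [par, range_one, sum_singleton, pow_zero, Equiv.Perm.one_apply, hp]
    rw [e4] at e2
    omega

lemma dbl_of_cond {r : Equiv.Perm (Fin n)} (hn : 0 < n) (hper : c ^ n = 1)
    (htr : ∀ i j, ∃ t : ℕ, (c ^ t) i = j) (hfree : ∀ (s : ℕ) (i : Fin n), (c ^ s) i = i → n ∣ s)
    (h : Cond neg c w r) (hA : ¬ Aper c w) (i0 : Fin n) :
    Dbl c w ∧ Odd (par neg c w i0 (n / 2)) := by
  unfold Aper at hA
  push Not at hA
  obtain ⟨i, j, hij, hT⟩ := hA
  obtain ⟨h1, h2, h3⟩ := tie_half hn hper htr hfree h hij hT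
  have hp : ∀ i', w ((c ^ (n / 2)) i') = w i' := by
    intro i'
    obtain ⟨t, rfl⟩ := htr i i'
    rw [← pow_add_app, add_comm, pow_add_app, ← h2]
    exact (hT t).symm
  refine ⟨⟨h1, hp, ?_⟩, ?_⟩
  · intro a b hab
    by_cases he : a = b
    · left; exact he.symm
    · right; exact (tie_half hn hper htr hfree h he hab).2.1
  · obtain ⟨t, ht⟩ := htr i i0
    rw [← ht, par_shift hp]
    exact h3

open Classical in
/-- the number of compatible rankings of an aperiodic word is one -/
lemma card_aper (hn : 0 < n) (hper : c ^ n = 1) (hA : Aper c w) :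
    (univ.filter fun r : Equiv.Perm (Fin n) => Cond neg c w r).card = 1 := by
  rw [card_eq_one]
  obtain ⟨r, hr, -⟩ := exists_r (neg := neg) (τ := fun _ => 0) hn hper (fun _ => by omega) (Or.inr hA)
    (fun i j hij hT => absurd hT (hA i j hij))
  refine ⟨r, ?_⟩
  ext r'
  simp only [mem_filter, mem_univ, true_and, mem_singleton]
  constructor
  · intro hr'
    exact r_unique hn hper hr' hr (fun i j hij hT => absurd hT (hA i j hij))
  · rintro rfl; exact hr

open Classical in
/-- the number of compatible rankings of a square with an odd number of negative letters in its half is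
two -/
lemma card_dbl (hn : 0 < n) (hper : c ^ n = 1)
    (htr : ∀ i j, ∃ t : ℕ, (c ^ t) i = j) (hfree : ∀ (s : ℕ) (i : Fin n), (c ^ s) i = i → n ∣ s)
    (hD : Dbl c w) (i0 : Fin n) (hodd : Odd (par neg c w i0 (n / 2))) :
    (univ.filter fun r : Equiv.Perm (Fin n) => Cond neg c w r).card = 2 := by
  obtain ⟨hD1, hD2, hD3⟩ := hD
  set p := n / 2 with hp
  have hTp : ∀ i, Tie c w i ((c ^ p) i) := by
    intro i t
    rw [← pow_add_app, add_comm, pow_add_app, hD2]
  have hpne : ∀ i, (c ^ p) i ≠ i := by
    intro i he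
    have := Nat.le_of_dvd (by omega) (hfree p i he)
    omega
  have hnev : Even (par neg c w i0 n) := by
    have : par neg c w i0 n = par neg c w i0 p + par neg c w ((c ^ p) i0) p := by
      rw [← par_add]; congr 1; omega
    rw [this, par_shift hD2]
    exact hodd.add_odd hodd
  -- parity of the place
  have hpm : ∀ q t, Even (par neg c w i0 (t + n * q)) ↔ Even (par neg c w i0 t) := by
    intro q
    induction q with
    | zero => intro t; simp
    | succ q ih =>
      intro t
      have e : t + n * (q + 1) = n + (t + n * q) := by ring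
      rw [e, par_add, hper, Equiv.Perm.one_apply, Nat.even_add, ih t]
      simp [hnev]
  choose T hT using fun i => htr i0 i
  have hwell : ∀ t t', (c ^ t) i0 = (c ^ t') i0 →
      (Even (par neg c w i0 t) ↔ Even (par neg c w i0 t')) := by
    have key : ∀ t t', t ≤ t' → (c ^ t) i0 = (c ^ t') i0 →
        (Even (par neg c w i0 t) ↔ Even (par neg c w i0 t')) := by
      intro t t' hle he
      obtain ⟨d, rfl⟩ := Nat.exists_eq_add_of_le hle
      rw [add_comm, pow_add_app] at he
      have h1 : (c ^ d) ((c ^ t) i0) = (c ^ t) i0 := he.symm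
      obtain ⟨q, hq⟩ := hfree d _ h1
      rw [hq]
      exact (hpm q t).symm
    intro t t' he
    rcases Nat.le_total t t' with h | h
    · exact key t t' h he
    · exact (key t' t h he.symm).symm
  -- the two labellings
  have hex : ∀ e : Bool, ∃ r : Equiv.Perm (Fin n), Cond neg c w r ∧
      (r i0 < r ((c ^ p) i0) ↔ e = true) := by
    intro e
    let τ : Fin n → ℕ := fun i => if (Even (par neg c w i0 (T i)) ↔ e = true) then 0 else 1
    have hτ : ∀ i, τ i < 2 := by intro i; simp only [τ]; split_ifs <;> omega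
    have hτv : ∀ t, τ ((c ^ t) i0) = if (Even (par neg c w i0 t) ↔ e = true) then 0 else 1 := by
      intro t
      simp only [τ]
      have := hwell (T ((c ^ t) i0)) t (hT _)
      simp only [this]
    have hcons : ∀ i, τ (c i) = if neg (w i) = true then 1 - τ i else τ i := by
      intro i
      obtain ⟨t, rfl⟩ := htr i0 i
      have e1 : c ((c ^ t) i0) = (c ^ (t + 1)) i0 := by
        rw [add_comm, pow_add_app, pow_one]
      rw [e1, hτv, hτv, par_succ]
      by_cases hn' : neg (w ((c ^ t) i0)) = true
      · simp only [hn', if_true, Nat.even_add_one]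
        by_cases hE : Even (par neg c w i0 t) <;> cases e <;> simp [hE]
      · simp [hn']
    have htie : ∀ i j, i ≠ j → Tie c w i j → τ i ≠ τ j := by
      intro i j hij hTij
      rcases hD3 i j hTij with h1 | h1
      · exact absurd h1.symm hij
      · subst h1
        obtain ⟨t, rfl⟩ := htr i0 i
        rw [← pow_add_app, add_comm, hτv, hτv]
        simp only [par_add, par_shift hD2, Nat.even_add]
        have : ¬ Even (par neg c w i0 p) := Nat.not_even_iff_odd.2 hodd
        by_cases hE : Even (par neg c w i0 t) <;> cases e <;> simp [hE, this]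
    obtain ⟨r, hr, hr2⟩ := exists_r hn hper hτ (Or.inl hcons) htie
    refine ⟨r, hr, ?_⟩
    rw [hr2 i0 _ (hpne i0).symm (hTp i0)]
    have e0 := hτv 0
    have ep := hτv p
    simp only [pow_zero, Equiv.Perm.one_apply, par_zero] at e0
    rw [e0, ep]
    have : ¬ Even (par neg c w i0 p) := Nat.not_even_iff_odd.2 hodd
    cases e <;> simp [this]
  have huniq : ∀ r r' : Equiv.Perm (Fin n), Cond neg c w r → Cond neg c w r' →
      (r i0 < r ((c ^ p) i0) ↔ r' i0 < r' ((c ^ p) i0)) → r = r' := by
    intro r r' hr hr' he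
    apply r_unique hn hper hr hr'
    intro i j hij hTij
    rcases hD3 i j hTij with h1 | h1
    · exact absurd h1.symm hij
    · subst h1
      obtain ⟨t, rfl⟩ := htr i0 i
      have e1 := ord_pow hr (hpne i0).symm (hTp i0) t
      have e2 := ord_pow hr' (hpne i0).symm (hTp i0) t
      have e3 : (c ^ p) ((c ^ t) i0) = (c ^ t) ((c ^ p) i0) := by
        rw [← pow_add_app, ← pow_add_app, add_comm]
      rw [e3, e1, e2]
      have hflip : ∀ r : Equiv.Perm (Fin n), r ((c ^ p) i0) < r i0 ↔ ¬ (r i0 < r ((c ^ p) i0)) := by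
        intro r
        have : r ((c ^ p) i0) ≠ r i0 := fun h => hpne i0 (r.injective h)
        exact ⟨fun h => not_lt.2 h.le, fun h => lt_of_le_of_ne (not_lt.1 h) this⟩
      rw [hflip r, hflip r', he]
  obtain ⟨r1, h1, h1'⟩ := hex true
  obtain ⟨r2, h2, h2'⟩ := hex false
  have hne : r1 ≠ r2 := by
    rintro rfl
    simp only [iff_true, Bool.false_eq_true, iff_false] at h1' h2'
    exact h2' h1'
  have : (univ.filter fun r : Equiv.Perm (Fin n) => Cond neg c w r) = {r1, r2} := by
    ext r
    simp only [mem_filter, mem_univ, true_and, mem_insert, mem_singleton]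
    constructor
    · intro hr
      by_cases h : r i0 < r ((c ^ p) i0)
      · left
        apply huniq r r1 hr h1
        simp only [iff_true] at h1'
        simp [h, h1']
      · right
        apply huniq r r2 hr h2
        simp only [Bool.false_eq_true, iff_false] at h2'
        simp only [h, false_iff]
        exact h2'
    · rintro (rfl | rfl)
      · exact h1
      · exact h2
  rw [this, card_pair hne]

end Pool.Agent.R121.Necklace
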