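import Pool.Agent.R121.Necklace

set_option autoImplicit false

/-!
# Counting compatible rankings over all words
-/

namespace Pool.Agent.R121.Necklace

open Finset

variable {n k : ℕ}

open Classical in
/-- the number of compatible rankings -/
noncomputable def F (neg : Fin k → Bool) (c : Equiv.Perm (Fin n)) (w : Fin n → Fin k) : ℕ :=
  (univ.filter fun r : Equiv.Perm (Fin n) => Cond neg c w r).card

variable {neg : Fin k → Bool} {c : Equiv.Perm (Fin n)} {w : Fin n → Fin k}

open Classical in
lemma F_eq (hn : 0 < n) (hper : c ^ n = 1)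
    (htr : ∀ i j, ∃ t : ℕ, (c ^ t) i = j) (hfree : ∀ (s : ℕ) (i : Fin n), (c ^ s) i = i → n ∣ s)
    (i0 : Fin n) : F neg c w = if Aper c w then 1 else
      if Dbl c w ∧ Odd (par neg c w i0 (n / 2)) then 2 else 0 := by
  unfold F
  split_ifs with h1 h2
  · exact card_aper hn hper h1
  · exact card_dbl hn hper htr hfree h2.1 i0 h2.2
  · rw [card_eq_zero, filter_eq_empty_iff]
    intro r _ hr
    exact h2 (dbl_of_cond hn hper htr hfree hr h1 i0)

lemma par_not (i : Fin n) (t : ℕ) : par neg c w i t + par (fun a => !neg a) c w i t = t := by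
  unfold par
  rw [← sum_add_distrib]
  have : ∀ s ∈ range t, ((if neg (w ((c ^ s) i)) = true then 1 else 0) +
      if (!neg (w ((c ^ s) i))) = true then 1 else 0) = 1 := by
    intro s _
    cases neg (w ((c ^ s) i)) <;> simp
  rw [sum_congr rfl this]
  simp

/-- for `n` not congruent to `2` modulo `4` the number of compatible rankings does not change when all
signs are changed -/
lemma F_not (hn : 0 < n) (hper : c ^ n = 1)
    (htr : ∀ i j, ∃ t : ℕ, (c ^ t) i = j) (hfree : ∀ (s : ℕ) (i : Fin n), (c ^ s) i = i → n ∣ s)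
    (h4 : n % 4 ≠ 2) : F neg c w = F (fun a => !neg a) c w := by
  classical
  rw [F_eq hn hper htr hfree ⟨0, hn⟩, F_eq hn hper htr hfree ⟨0, hn⟩]
  have key : (Dbl c w ∧ Odd (par neg c w ⟨0, hn⟩ (n / 2))) ↔
      (Dbl c w ∧ Odd (par (fun a => !neg a) c w ⟨0, hn⟩ (n / 2))) := by
    constructor
    · rintro ⟨hD, ho⟩
      refine ⟨hD, ?_⟩
      have := hD.1
      have h1 := par_not (neg := neg) (c := c) (w := w) ⟨0, hn⟩ (n / 2)
      rw [Nat.odd_iff] at ho ⊢
      omega
    · rintro ⟨hD, ho⟩
      refine ⟨hD, ?_⟩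
      have := hD.1
      have h1 := par_not (neg := neg) (c := c) (w := w) ⟨0, hn⟩ (n / 2)
      rw [Nat.odd_iff] at ho ⊢
      omega
  simp only [key]

/-- `s` is a period of `f` -/
def Pd (f : ℕ → Fin k) (s : ℕ) : Prop := ∀ t, f (t + s) = f t

lemma Pd.mul {f : ℕ → Fin k} {s : ℕ} (h : Pd f s) (m : ℕ) : Pd f (s * m) := by
  induction m with
  | zero => intro t; rfl
  | succ m ih =>
    intro t
    rw [Nat.mul_succ, ← add_assoc, h, ih]

lemma Pd.mod {f : ℕ → Fin k} {s s' : ℕ} (h : Pd f s) (h' : Pd f s') : Pd f (s % s') := by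
  intro t
  have h1 := h t
  have h2 := (h'.mul (s / s')) (t + s % s')
  have e : t + s % s' + s' * (s / s') = t + s := by
    have := Nat.mod_add_div s s'
    omega
  rw [e, h1] at h2
  exact h2.symm

lemma Pd.apply_mod {f : ℕ → Fin k} {s : ℕ} (h : Pd f s) (t : ℕ) : f (t % s) = f t := by
  have := (h.mul (t / s)) (t % s)
  rw [Nat.mod_add_div] at this
  exact this.symm

/-- the periodic extension -/
def pext {q : ℕ} (hq : 0 < q) (u : Fin q → Fin k) : ℕ → Fin k := fun t => u ⟨t % q, Nat.mod_lt _ hq⟩

lemma pext_injective {q : ℕ} (hq : 0 < q) : Function.Injective (pext (k := k) hq) := by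
  intro u v h
  funext i
  have := congrFun h i
  simp only [pext, Nat.mod_eq_of_lt i.2] at this
  exact this

open Classical in
/-- the sequences of period `q` -/
noncomputable def Seq (k q : ℕ) (hq : 0 < q) : Finset (ℕ → Fin k) :=
  (univ : Finset (Fin q → Fin k)).image (pext hq)

lemma mem_Seq {q : ℕ} {hq : 0 < q} {f : ℕ → Fin k} : f ∈ Seq k q hq ↔ Pd f q := by
  simp only [Seq, mem_image, mem_univ, true_and]
  constructor
  · rintro ⟨u, rfl⟩ t
    simp [pext]
  · intro h
    refine ⟨fun i => f i, ?_⟩
    funext t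
    exact h.apply_mod t

open Classical in
/-- the sequences of least period `q` -/
noncomputable def Prim (k q : ℕ) (hq : 0 < q) : Finset (ℕ → Fin k) :=
  (Seq k q hq).filter fun f => ∀ s, 0 < s → s < q → ¬ Pd f s

lemma mem_Prim {q : ℕ} {hq : 0 < q} {f : ℕ → Fin k} :
    f ∈ Prim k q hq ↔ Pd f q ∧ ∀ s, 0 < s → s < q → ¬ Pd f s := by
  simp [Prim, mem_Seq]

lemma Prim.dvd {q : ℕ} {hq : 0 < q} {f : ℕ → Fin k} (h : f ∈ Prim k q hq) {s : ℕ} (hs : Pd f s) :
    q ∣ s := by
  rw [mem_Prim] at h
  by_contra h1
  have h2 : s % q ≠ 0 := fun h3 => h1 (Nat.dvd_of_mod_eq_zero h3)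
  exact h.2 (s % q) (by omega) (Nat.mod_lt _ hq) (hs.mod h.1)

/-- the sign of the first `q` letters -/
def chi (neg : Fin k → Bool) (f : ℕ → Fin k) (q : ℕ) : ℤ :=
  ∏ t ∈ range q, if neg (f t) = true then -1 else 1

lemma sum_Seq (q : ℕ) (hq : 0 < q) : ∑ f ∈ Seq k q hq, chi neg f q =
    (∑ a, if neg a = true then (-1 : ℤ) else 1) ^ q := by
  classical
  rw [Seq, sum_image (fun u _ v _ h => pext_injective hq h), Fintype.sum_pow]
  apply sum_congr rfl
  intro u _
  unfold chi
  rw [← Fin.prod_univ_eq_prod_range (fun t => if neg (pext hq u t) = true then (-1 : ℤ) else 1) q]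
  apply prod_congr rfl
  intro i _
  simp only [pext, Nat.mod_eq_of_lt i.2]

lemma chi_mul {f : ℕ → Fin k} {q : ℕ} (h : Pd f q) (m : ℕ) : chi neg f (q * m) = chi neg f q ^ m := by
  induction m with
  | zero => simp [chi]
  | succ m ih =>
    rw [Nat.mul_succ, pow_succ, ← ih]
    unfold chi
    rw [prod_range_add]
    congr 1
    apply prod_congr rfl
    intro t _
    have := (h.mul m) t
    rw [add_comm] at this
    rw [this]

lemma chi_sq (f : ℕ → Fin k) (q : ℕ) : chi neg f q = 1 ∨ chi neg f q = -1 := by
  induction q with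
  | zero => left; simp [chi]
  | succ q ih =>
    unfold chi at ih ⊢
    rw [prod_range_succ]
    split_ifs <;> rcases ih with h | h <;> rw [h] <;> simp

lemma chi_odd {f : ℕ → Fin k} {q m : ℕ} (h : Pd f q) (hm : Odd m) :
    chi neg f (q * m) = chi neg f q := by
  rw [chi_mul h]
  rcases chi_sq (neg := neg) f q with h1 | h1
  · rw [h1, one_pow]
  · rw [h1, hm.neg_one_pow]

/-- the sum of the signs over the sequences of least period `q` -/
noncomputable def AA (neg : Fin k → Bool) (q : ℕ) : ℤ :=
  if hq : 0 < q then ∑ f ∈ Prim k q hq, chi neg f q else 0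

lemma sum_AA (p : ℕ) (hp : 0 < p) (hodd : Odd p) : ∑ q ∈ p.divisors, AA neg q =
    (∑ a, if neg a = true then (-1 : ℤ) else 1) ^ p := by
  classical
  rw [← sum_Seq p hp]
  have h1 : ∀ q ∈ p.divisors, AA neg q =
      ∑ f ∈ (Seq k p hp).filter (fun f => ∃ hq : 0 < q, f ∈ Prim k q hq), chi neg f p := by
    intro q hq
    have hqp := Nat.dvd_of_mem_divisors hq
    have hq0 : 0 < q := Nat.pos_of_dvd_of_pos hqp hp
    unfold AA
    rw [dif_pos hq0]
    have h2 : (Seq k p hp).filter (fun f => ∃ hq : 0 < q, f ∈ Prim k q hq) = Prim k q hq0 := by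
      ext f
      rw [mem_filter, mem_Seq]
      constructor
      · rintro ⟨_, _, h⟩; exact h
      · intro h
        refine ⟨?_, hq0, h⟩
        obtain ⟨m, rfl⟩ := hqp
        exact (mem_Prim.1 h).1.mul m
    rw [h2]
    apply sum_congr rfl
    intro f hf
    obtain ⟨m, rfl⟩ := hqp
    rw [chi_odd (mem_Prim.1 hf).1 (Nat.odd_mul.1 hodd).2]
  rw [sum_congr rfl h1]
  rw [← Finset.sum_fiberwise_of_maps_to (s := Seq k p hp) (t := p.divisors)
    (g := fun f => sInf {s | 0 < s ∧ Pd f s})]
  · apply sum_congr rfl
    intro q hq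
    have hqp := Nat.dvd_of_mem_divisors hq
    have hq0 : 0 < q := Nat.pos_of_dvd_of_pos hqp hp
    apply sum_congr _ (fun _ _ => rfl)
    apply filter_congr
    intro f hf
    rw [mem_Seq] at hf
    have hne : {s | 0 < s ∧ Pd f s}.Nonempty := ⟨p, hp, hf⟩
    have hI := Nat.sInf_mem hne
    constructor
    · rintro ⟨hq', h⟩
      rw [mem_Prim] at h
      apply le_antisymm
      · exact Nat.sInf_le ⟨hq', h.1⟩
      · by_contra h2
        exact h.2 _ hI.1 (by omega) hI.2
    · intro h
      refine ⟨hq0, ?_⟩
      rw [mem_Prim]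
      rw [h] at hI
      refine ⟨hI.2, ?_⟩
      intro s hs1 hs2 hs3
      have := Nat.sInf_le (show s ∈ {s | 0 < s ∧ Pd f s} from ⟨hs1, hs3⟩)
      omega
  · intro f hf
    rw [mem_Seq] at hf
    have hne : {s | 0 < s ∧ Pd f s}.Nonempty := ⟨p, hp, hf⟩
    have hI := Nat.sInf_mem hne
    rw [Nat.mem_divisors]
    refine ⟨?_, by omega⟩
    by_contra h1
    have h2 : p % sInf {s | 0 < s ∧ Pd f s} ≠ 0 := fun h3 => h1 (Nat.dvd_of_mod_eq_zero h3)
    have h3 := Nat.sInf_le (show p % sInf {s | 0 < s ∧ Pd f s} ∈ {s | 0 < s ∧ Pd f s} from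
      ⟨by omega, hf.mod hI.2⟩)
    have := Nat.mod_lt p hI.1
    omega

lemma AA_zero (h1 : (∑ a, if neg a = true then (-1 : ℤ) else 1) = 1) (p : ℕ) :
    Odd p → AA neg p = if p = 1 then 1 else 0 := by
  induction p using Nat.strong_induction_on with
  | _ p ih =>
  intro hodd
  have hp : 0 < p := hodd.pos
  have h2 := sum_AA (neg := neg) p hp hodd
  rw [h1, one_pow] at h2
  split_ifs with h3
  · subst h3
    simpa using h2
  · have hsplit : p.divisors = insert p p.properDivisors := (Nat.insert_self_properDivisors hp.ne').symm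
    rw [hsplit, sum_insert Nat.self_notMem_properDivisors] at h2
    have h4 : ∑ q ∈ p.properDivisors, AA neg q = ∑ q ∈ p.properDivisors, if q = 1 then (1 : ℤ) else 0 := by
      apply sum_congr rfl
      intro q hq
      rw [Nat.mem_properDivisors] at hq
      apply ih q hq.2
      obtain ⟨m, rfl⟩ := hq.1
      exact (Nat.odd_mul.1 hodd).1
    rw [h4, sum_ite_eq', if_pos (Nat.one_mem_properDivisors_iff_one_lt.2 (by omega))] at h2
    linarith

/-- number of negative letters of a sequence -/
def parf (neg : Fin k → Bool) (f : ℕ → Fin k) (q : ℕ) : ℕ :=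
  ∑ t ∈ range q, if neg (f t) = true then 1 else 0

lemma chi_parf (f : ℕ → Fin k) (q : ℕ) : chi neg f q = if Odd (parf neg f q) then -1 else 1 := by
  induction q with
  | zero => simp [chi, parf]
  | succ q ih =>
    have e1 : chi neg f (q + 1) = chi neg f q * if neg (f q) = true then -1 else 1 :=
      prod_range_succ _ _
    have e2 : parf neg f (q + 1) = parf neg f q + if neg (f q) = true then 1 else 0 :=
      sum_range_succ _ _
    rw [e1, e2, ih]
    by_cases h : neg (f q) = true
    · simp only [h, if_true, Nat.odd_add_one]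
      by_cases h2 : Odd (parf neg f q) <;> simp [h2]
    · simp [h]

lemma card_Prim_eq (h1 : (∑ a, if neg a = true then (-1 : ℤ) else 1) = 1) {p : ℕ} (hp : 0 < p)
    (hodd : Odd p) (hp1 : p ≠ 1) :
    ((Prim k p hp).filter fun f => Odd (parf neg f p)).card =
      ((Prim k p hp).filter fun f => ¬ Odd (parf neg f p)).card := by
  have h2 := AA_zero h1 p hodd
  rw [if_neg hp1] at h2
  unfold AA at h2
  rw [dif_pos hp] at h2
  rw [sum_congr rfl (fun f _ => chi_parf (neg := neg) f p), sum_ite] at h2
  simp only [sum_const, nsmul_eq_mul, mul_neg, mul_one] at h2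
  have : (((Prim k p hp).filter fun f => Odd (parf neg f p)).card : ℤ) =
      ((Prim k p hp).filter fun f => ¬ Odd (parf neg f p)).card := by linarith
  exact_mod_cast this

open Classical in
lemma card_Dbl (hn : 0 < n) (hper : c ^ n = 1)
    (htr : ∀ i j, ∃ t : ℕ, (c ^ t) i = j) (hfree : ∀ (s : ℕ) (i : Fin n), (c ^ s) i = i → n ∣ s)
    (i0 : Fin n) (hp : 0 < n / 2) (hev : n = 2 * (n / 2)) (Q : ℕ → Prop) :
    (univ.filter fun w : Fin n → Fin k => Dbl c w ∧ Q (par neg c w i0 (n / 2))).card =
      ((Prim k (n / 2) hp).filter fun f => Q (parf neg f (n / 2))).card := by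
  set p := n / 2 with hpd
  apply card_bij (fun w _ => fun t => w ((c ^ t) i0))
  · intro w hw
    rw [mem_filter] at hw
    obtain ⟨-, hD, hQ⟩ := hw
    obtain ⟨-, hD2, hD3⟩ := hD
    rw [← hpd] at hD2 hD3
    rw [mem_filter, mem_Prim]
    refine ⟨⟨?_, ?_⟩, hQ⟩
    · intro t
      simp only
      rw [add_comm, pow_add_app]
      exact hD2 _
    · intro s hs1 hs2 hs3
      have hT : Tie c w i0 ((c ^ s) i0) := by
        intro t
        rw [← pow_add_app]
        exact (hs3 t).symm
      rcases hD3 _ _ hT with h | h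
      · have := Nat.le_of_dvd hs1 (hfree s i0 h)
        omega
      · have e : p = (p - s) + s := by omega
        have h' : (c ^ ((p - s) + s)) i0 = (c ^ s) i0 := by rw [← e]; exact h.symm
        rw [pow_add_app] at h'
        have := Nat.le_of_dvd (by omega) (hfree _ _ h')
        omega
  · intro w _ w' _ h
    funext i
    obtain ⟨t, rfl⟩ := htr i0 i
    exact congrFun h t
  · intro f hf
    rw [mem_filter, mem_Prim] at hf
    obtain ⟨⟨hf1, hf2⟩, hQ⟩ := hf
    have hfn : Pd f n := by
      rw [hev, mul_comm]; exact hf1.mul 2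
    choose T hT using fun i => htr i0 i
    have hw : ∀ t, f (T ((c ^ t) i0)) = f t := by
      have key : ∀ a b, a ≤ b → (c ^ a) i0 = (c ^ b) i0 → f a = f b := by
        intro a b hab he
        obtain ⟨d, rfl⟩ := Nat.exists_eq_add_of_le hab
        rw [add_comm, pow_add_app] at he
        obtain ⟨q, hq⟩ := hfree d _ he.symm
        rw [hq]
        exact (hfn.mul q a).symm
      intro t
      rcases Nat.le_total (T ((c ^ t) i0)) t with h | h
      · exact key _ _ h (hT _)
      · exact (key _ _ h (hT _).symm).symm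
    have hpar : par neg c (fun i => f (T i)) i0 p = parf neg f p := by
      unfold par parf
      apply sum_congr rfl
      intro s _
      simp only [hw]
    refine ⟨fun i => f (T i), ?_, ?_⟩
    · rw [mem_filter]
      refine ⟨mem_univ _, ⟨hev, ?_, ?_⟩, ?_⟩
      · intro i
        obtain ⟨t, rfl⟩ := htr i0 i
        simp only
        rw [← pow_add_app, hw, hw, add_comm]
        exact hf1 t
      · have key : ∀ i j : Fin n, ∀ a d : ℕ, d < n → (c ^ a) i0 = i → (c ^ d) i = j →
            Tie c (fun i => f (T i)) i j → j = i ∨ j = (c ^ p) i := by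
          intro i j a d hd ha hb hij
          have hPd : Pd f d := by
            intro t
            have e0 := hij (t + (n - 1) * a)
            subst hb
            subst ha
            simp only at e0
            rw [← pow_add_app, ← pow_add_app, ← pow_add_app, hw, hw] at e0
            have e1 : t + (n - 1) * a + a = t + n * a := by
              have : (n - 1) * a + a = n * a := by
                obtain ⟨m, rfl⟩ : ∃ m, n = m + 1 := ⟨n - 1, by omega⟩
                simp only [Nat.add_sub_cancel]; ring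
              omega
            have e2 : t + (n - 1) * a + d + a = (t + d) + n * a := by omega
            rw [e1, e2] at e0
            rw [hfn.mul a, hfn.mul a] at e0
            exact e0.symm
          have hdvd := Prim.dvd (hq := hp) (mem_Prim.2 ⟨hf1, hf2⟩) hPd
          obtain ⟨m, hm⟩ := hdvd
          rcases Nat.lt_or_ge m 2 with h | h
          · rcases (show m = 0 ∨ m = 1 by omega) with h | h
            · subst h
              rw [mul_zero] at hm
              subst hm
              left
              rw [← hb]; simp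
            · subst h
              rw [mul_one] at hm
              subst hm
              right
              exact hb.symm
          · have : p * 2 ≤ p * m := Nat.mul_le_mul_left p h
            omega
        intro i j hij
        obtain ⟨d, hd⟩ := htr i j
        rw [← pow_mod hper] at hd
        exact key i j (T i) (d % n) (Nat.mod_lt _ hn) (hT i) hd hij
      · rw [← hpd, hpar]; exact hQ
    · funext t
      exact hw t

/-- the total number of compatible rankings does not change when all signs are changed, if one more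
letter is positive than negative and `n ≥ 3` -/
lemma sum_F (hn : 3 ≤ n) (hper : c ^ n = 1)
    (htr : ∀ i j, ∃ t : ℕ, (c ^ t) i = j) (hfree : ∀ (s : ℕ) (i : Fin n), (c ^ s) i = i → n ∣ s)
    (h1 : (∑ a, if neg a = true then (-1 : ℤ) else 1) = 1) :
    ∑ w : Fin n → Fin k, F neg c w = ∑ w : Fin n → Fin k, F (fun a => !neg a) c w := by
  classical
  by_cases h4 : n % 4 = 2
  · have hn0 : 0 < n := by omega
    have hev : n = 2 * (n / 2) := by omega
    have hodd : Odd (n / 2) := by rw [Nat.odd_iff]; omega
    have hp : 0 < n / 2 := by omega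
    have key : ∀ neg : Fin k → Bool, ∑ w : Fin n → Fin k, F neg c w =
        (univ.filter fun w : Fin n → Fin k => Aper c w).card +
        2 * (univ.filter fun w : Fin n → Fin k => Dbl c w ∧
          Odd (par neg c w ⟨0, hn0⟩ (n / 2))).card := by
      intro neg
      rw [card_filter, card_filter, mul_sum, ← sum_add_distrib]
      apply sum_congr rfl
      intro w _
      rw [F_eq hn0 hper htr hfree ⟨0, hn0⟩]
      by_cases hA : Aper c w
      · have hD : ¬ Dbl c w := by
          rintro ⟨-, hD2, -⟩
          have hT : Tie c w ⟨0, hn0⟩ ((c ^ (n / 2)) ⟨0, hn0⟩) := by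
            intro t
            rw [← pow_add_app, add_comm, pow_add_app, hD2]
          apply hA _ _ _ hT
          intro he
          have := Nat.le_of_dvd (by omega) (hfree _ _ he.symm)
          omega
        simp [hA, hD]
      · by_cases hD : Dbl c w ∧ Odd (par neg c w ⟨0, hn0⟩ (n / 2))
        · simp [hA, hD]
        · simp [hA, hD]
    rw [key, key]
    congr 2
    have e1 := card_Dbl (neg := neg) (k := k) hn0 hper htr hfree ⟨0, hn0⟩ hp hev (fun m => Odd m)
    have e2 := card_Dbl (neg := neg) (k := k) hn0 hper htr hfree ⟨0, hn0⟩ hp hev (fun m => ¬ Odd m)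
    have e3 := card_Prim_eq h1 hp hodd (by omega)
    have g1 : (univ.filter fun w : Fin n → Fin k => Dbl c w ∧
        Odd (par neg c w ⟨0, hn0⟩ (n / 2))).card =
        ((Prim k (n / 2) hp).filter fun f => Odd (parf neg f (n / 2))).card := by convert e1
    have g3 := e3.trans (Eq.trans (by convert rfl) e2.symm)
    rw [g1, g3]
    congr 1
    ext w
    have h5 := par_not (neg := neg) (c := c) (w := w) ⟨0, hn0⟩ (n / 2)
    have : (¬ Odd (par neg c w ⟨0, hn0⟩ (n / 2))) ↔
        Odd (par (fun a => !neg a) c w ⟨0, hn0⟩ (n / 2)) := by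
      rw [Nat.odd_iff] at hodd
      rw [Nat.odd_iff, Nat.odd_iff]
      omega
    simp only [mem_filter, this]
  · apply sum_congr rfl
    intro w _
    exact F_not (by omega) hper htr hfree h4

end Pool.Agent.R121.Necklace
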