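import Pool.Agent.R121.FnPerm

set_option autoImplicit false

/-! Permutations from functions on `ℕ`. -/

namespace Pool.Agent.R121

open Finset

/-- the permutation of a function on `ℕ` -/
noncomputable def ofFn (n : ℕ) (F : ℕ → ℕ) (hlt : ∀ i < n, F i < n)
    (hinj : ∀ i < n, ∀ j < n, F i = F j → i = j) : Equiv.Perm (Fin n) :=
  Equiv.ofBijective (fun i : Fin n => (⟨F i, hlt i i.2⟩ : Fin n)) (by
    rw [← Finite.injective_iff_bijective]
    intro i j h
    simp only [Fin.mk.injEq] at h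
    exact Fin.ext (hinj i i.2 j j.2 h))

lemma fn_ofFn {n : ℕ} {F : ℕ → ℕ} {hlt : ∀ i < n, F i < n}
    {hinj : ∀ i < n, ∀ j < n, F i = F j → i = j} {i : ℕ} (h : i < n) :
    fn (ofFn n F hlt hinj) i = F i := by
  have := fn_fin (ofFn n F hlt hinj) ⟨i, h⟩
  exact this

end Pool.Agent.R121
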