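import Pool.Agent.R460.SB.Leg

set_option autoImplicit false

/-! Sums of a prime and a value `α m² + γ m` in a residue class. -/

namespace Pool.Agent.R121.PQ

open Finset
open Pool.Agent.H373R2.T7 (lamz Vz pz Vz_pos Vz_inv_small nuB nuB_le mem_pz)
open Pool.Agent.Y614.GJ.Core (ev_log)
open Pool.Agent.R460.SQ (thp)
open Pool.Agent.R460.SB (fv Sz Sz_low Sz_prod loc_lt GoodF fin_sb QS nu_leg)

/-- the sum of `log p` over the solutions of `n = p + α m² + γ m` with `1 ≤ m ≤ y` -/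
noncomputable def RepP (α γ n y : ℕ) : ℝ :=
  ∑ m ∈ Icc 1 y, if (n - (α * m ^ 2 + γ * m)).Prime then Real.log ((n - (α * m ^ 2 + γ * m) : ℕ) : ℝ) else 0

/-- the conclusion for one integer -/
def GoodP (α γ C N z n : ℕ) : Prop :=
  ((∀ p : ℕ, p.Prime → ∃ m : ℕ, ¬ (p : ℤ) ∣ fv α γ n m) →
    ∃ p m : ℕ, p.Prime ∧ 1 ≤ m ∧ n = p + (α * m ^ 2 + γ * m)) ∧
  ∀ y : ℕ, α * y ^ 2 + γ * y < n → |RepP α γ n y - Sz α γ n z * y| ≤ Real.sqrt N / Real.log N ^ C

lemma RepP_eq {α γ n y : ℕ} (hy : α * y ^ 2 + γ * y < n) :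
    RepP α γ n y = ∑ m ∈ Icc 1 y, thp (fv α γ n m).natAbs := by
  unfold RepP thp
  refine sum_congr rfl fun m hm => ?_
  rw [mem_Icc] at hm
  have h1 : α * m ^ 2 + γ * m ≤ n := by
    have h3 : m ^ 2 ≤ y ^ 2 := Nat.pow_le_pow_left hm.2 2
    have h4 : α * m ^ 2 ≤ α * y ^ 2 := Nat.mul_le_mul_left _ h3
    have h5 : γ * m ≤ γ * y := Nat.mul_le_mul_left _ hm.2
    omega
  have h2 : (fv α γ n m).natAbs = n - (α * m ^ 2 + γ * m) := by
    have : fv α γ n m = ((n - (α * m ^ 2 + γ * m) : ℕ) : ℤ) := by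
      unfold fv
      push_cast [h1]
      ring
    rw [this, Int.natAbs_natCast]
  rw [h2]

open Classical in
theorem fin_pos (α γ : ℕ) (hα : 1 ≤ α) (ρ : ℝ) (hρ : 0 < ρ) (A C T : ℕ) :
    ∃ B : ℕ, ∀ E : ℕ, ∃ N₀ : ℕ, ∀ N : ℕ, N₀ ≤ N → ∀ z : ℕ, Real.log N ^ B ≤ z → (z : ℝ) ≤ Real.log N ^ E →
      ∀ q : ℕ, 1 ≤ q → (q : ℝ) ≤ (N : ℝ) ^ (1 / 2 - ρ) → (q.divisors.card : ℝ) ≤ Real.log N ^ T →
      ∀ b : ℕ, (Int.gcd (4 * α * b + γ ^ 2) q : ℝ) ≤ Real.log N ^ T →
        (((Icc 1 N).filter (fun n => n ≡ b [MOD q] ∧ ¬ GoodP α γ C N z n)).card : ℝ) ≤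
          (N : ℝ) / (q * Real.log N ^ A) := by
  obtain ⟨C', hC'⟩ : ∃ C', C' = C + A + 6 := ⟨_, rfl⟩
  have hαz : (α : ℤ) ≠ 0 := by omega
  obtain ⟨B, hB⟩ := fin_sb (α := (α : ℤ)) (γ := (γ : ℤ)) hαz ρ hρ (A + 1) C' T
  refine ⟨B, fun E => ?_⟩
  obtain ⟨N₁, h1⟩ := hB E
  obtain ⟨N₂, h2⟩ := Vz_inv_small E
  obtain ⟨κ, hκ⟩ : ∃ κ : ℝ, κ = (1 / (((α : ℤ).natAbs : ℕ) : ℝ)) ^ (α : ℤ).natAbs := ⟨_, rfl⟩
  have ha1 : (1 : ℝ) ≤ (((α : ℤ).natAbs : ℕ) : ℝ) := by exact_mod_cast Int.natAbs_pos.2 hαz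
  have hκ0 : 0 < κ := by rw [hκ]; positivity
  obtain ⟨D, hD⟩ : ∃ D : ℕ, D = α + γ := ⟨_, rfl⟩
  have hD1 : 1 ≤ D := by omega
  have hD1r : (1 : ℝ) ≤ D := by exact_mod_cast hD1
  obtain ⟨N₃, h3⟩ := Filter.eventually_atTop.1
    (ev_log (A + 4) (s := min ρ (1 / 2)) (by positivity) (100 + 2 * D + 2 * D / κ))
  refine ⟨N₁ + N₂ + N₃ + 3, fun N hN z hz1 hz2 q hq1 hqN hτ b hb => ?_⟩
  have hN1 : 1 ≤ N := by omega
  have hN0 : (0 : ℝ) < N := by exact_mod_cast hN1
  have hN1r : (1 : ℝ) ≤ N := by exact_mod_cast hN1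
  have hq0 : (0 : ℝ) < q := by exact_mod_cast hq1
  obtain ⟨hLb, hLp⟩ := h3 N (by omega)
  have c1 := h1 N (by omega) z hz1 hz2 q hq1 hqN hτ (b : ℤ) hb
  obtain ⟨L, hLd⟩ : ∃ L, L = Real.log (N : ℝ) := ⟨_, rfl⟩
  have hDκ : 0 < 2 * (D : ℝ) / κ := by positivity
  have hLb' : 100 + 2 * (D : ℝ) + 2 * D / κ ≤ L := by rw [hLd]; exact hLb
  have hL100 : 100 ≤ L := by linarith
  have hL0 : 0 < L := by linarith
  have hL1 : 1 ≤ L := by linarith
  have hLD : 2 * (D : ℝ) ≤ L := by linarith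
  have hLκ : 2 * (D : ℝ) ≤ κ * L := by
    have : 2 * (D : ℝ) / κ ≤ L := by linarith
    rw [div_le_iff₀ hκ0] at this
    linarith
  rw [← hLd] at hLp c1 hz1 hz2 hτ ⊢
  have hz0 : 1 ≤ z := by
    have : (1 : ℝ) ≤ z := (one_le_pow₀ hL1).trans hz1
    exact_mod_cast this
  have hV := h2 N (by omega) z hz0 (by rw [← hLd]; exact hz2)
  rw [← hLd] at hV
  obtain ⟨M, hM⟩ : ∃ M, M = Real.sqrt N := ⟨_, rfl⟩
  have hM0 : 0 < M := by rw [hM]; exact Real.sqrt_pos.2 hN0
  have hMM : M * M = N := by rw [hM]; exact Real.mul_self_sqrt hN0.le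
  have hMr : M = (N : ℝ) ^ (1 / 2 : ℝ) := by rw [hM, Real.sqrt_eq_rpow]
  have hML : L ^ (A + 4) ≤ M := by
    rw [hMr]
    exact hLp.trans (Real.rpow_le_rpow_of_exponent_le hN1r (min_le_right _ _))
  have hqM : (q : ℝ) * L ^ (A + 4) ≤ M := by
    calc (q : ℝ) * L ^ (A + 4) ≤ (N : ℝ) ^ (1 / 2 - ρ) * (N : ℝ) ^ ρ := by
          apply mul_le_mul hqN _ (by positivity) (by positivity)
          exact hLp.trans (Real.rpow_le_rpow_of_exponent_le hN1r (min_le_left _ _))
      _ = M := by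
          rw [← Real.rpow_add hN0, hMr]
          congr 1
          ring
  have hM1 : 1 ≤ M := le_trans (one_le_pow₀ hL1) hML
  have hMN : M ≤ N := by
    rw [← hMM]
    nlinarith
  -- the small integers
  obtain ⟨K, hK⟩ : ∃ K : ℕ, K = ⌊(N : ℝ) / L ^ (A + 2)⌋₊ := ⟨_, rfl⟩
  have hKr : (K : ℝ) ≤ (N : ℝ) / L ^ (A + 2) := by
    rw [hK]
    exact Nat.floor_le (by positivity)
  have hKl : (N : ℝ) / L ^ (A + 2) < K + 1 := by
    rw [hK]
    exact Nat.lt_floor_add_one _
  have hsub : (Icc 1 N).filter (fun n => n ≡ b [MOD q] ∧ ¬ GoodP α γ C N z n) ⊆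
      ((Icc 1 K).filter (fun n : ℕ => (n : ZMod q) = (b : ZMod q))) ∪
      (((Icc (-(N : ℤ)) N).filter (fun n : ℤ => n ≡ (b : ℤ) [ZMOD q] ∧ ¬ GoodF α γ C' N z n))).image Int.toNat := by
    intro n hn
    rw [mem_filter, mem_Icc] at hn
    obtain ⟨⟨n1, n2⟩, n3, n4⟩ := hn
    have n3' : (n : ZMod q) = (b : ZMod q) := (ZMod.natCast_eq_natCast_iff _ _ _).2 n3
    rw [mem_union]
    rcases le_or_gt n K with h5 | h5
    · left
      rw [mem_filter, mem_Icc]
      exact ⟨⟨n1, h5⟩, n3'⟩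
    · right
      rw [mem_image]
      refine ⟨(n : ℤ), ?_, Int.toNat_natCast n⟩
      rw [mem_filter, mem_Icc]
      refine ⟨⟨by linarith [Int.natCast_nonneg n, Int.natCast_nonneg N], by exact_mod_cast n2⟩,
        (Int.natCast_modEq_iff).2 n3, fun hg => n4 ?_⟩
      -- the main property
      have hgood : ∀ y : ℕ, α * y ^ 2 + γ * y < n → |RepP α γ n y - Sz α γ n z * y| ≤ M / L ^ C' := by
        intro y hy
        rw [RepP_eq hy, hM, hLd]
        apply hg.2 y
        have : y ^ 2 ≤ α * y ^ 2 := Nat.le_mul_of_pos_left _ hα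
        omega
      refine ⟨fun hloc => ?_, fun y hy => (hgood y hy).trans ?_⟩
      · -- the representation
        obtain ⟨y, hy⟩ : ∃ y, y = Nat.sqrt ((n - 1) / D) := ⟨_, rfl⟩
        have hyD : D * y ^ 2 ≤ n - 1 := by
          have h6 : y ^ 2 ≤ (n - 1) / D := by rw [hy]; exact Nat.sqrt_le' _
          calc D * y ^ 2 ≤ D * ((n - 1) / D) := Nat.mul_le_mul_left _ h6
            _ ≤ n - 1 := Nat.mul_div_le _ _
        have hval : ∀ m : ℕ, m ≤ y → α * m ^ 2 + γ * m < n := by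
          intro m hm
          have h6 : m ^ 2 ≤ y ^ 2 := Nat.pow_le_pow_left hm 2
          have h7 : m ≤ m ^ 2 := Nat.le_self_pow two_ne_zero m
          have h8 : α * m ^ 2 + γ * m ≤ D * y ^ 2 := by
            rw [hD, add_mul]
            exact Nat.add_le_add (Nat.mul_le_mul_left _ h6) (Nat.mul_le_mul_left _ (h7.trans h6))
          omega
        have hy1 : α * y ^ 2 + γ * y < n := hval y le_rfl
        have hy2 : n ≤ D * (y + 1) ^ 2 := by
          have h6 : (n - 1) / D < (y + 1) ^ 2 := by rw [hy]; exact Nat.lt_succ_sqrt' _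
          have h7 : n - 1 < D * (y + 1) ^ 2 := by
            rw [Nat.div_lt_iff_lt_mul (by omega)] at h6
            rwa [mul_comm] at h6
          omega
        have h6 := hgood y hy1
        by_contra hno
        have h7 : RepP α γ n y = 0 := by
          unfold RepP
          apply sum_eq_zero
          intro m hm
          rw [if_neg]
          intro hp
          apply hno
          rw [mem_Icc] at hm
          refine ⟨n - (α * m ^ 2 + γ * m), m, hp, hm.1, ?_⟩
          have := hval m hm.2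
          omega
        rw [h7, zero_sub, abs_neg] at h6
        have hS := Sz_low hαz (n : ℤ) z (fun p hp => loc_lt (mem_pz.1 hp).2 (hloc p (mem_pz.1 hp).2))
        rw [← hκ] at hS
        have hVp := Vz_pos z
        have hV2 : κ * (1 / L ^ 2) ≤ Sz α γ (n : ℤ) z := by
          refine le_trans ?_ hS
          have : 1 / L ≤ Vz z := by
            rw [one_div]
            exact inv_le_of_inv_le₀ hVp hV
          apply mul_le_mul_of_nonneg_left _ hκ0.le
          calc 1 / L ^ 2 = (1 / L) ^ 2 := by rw [div_pow, one_pow]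
            _ ≤ Vz z ^ 2 := by gcongr
        have e1 : (N : ℝ) < L ^ (A + 2) * (D * ((y : ℝ) + 1) ^ 2) := by
          have e2 : (K : ℝ) + 1 ≤ n := by exact_mod_cast h5
          have e3 : (n : ℝ) ≤ D * ((y : ℝ) + 1) ^ 2 := by exact_mod_cast hy2
          have e4 : (N : ℝ) / L ^ (A + 2) < D * ((y : ℝ) + 1) ^ 2 := by linarith
          rw [div_lt_iff₀ (by positivity)] at e4
          linarith
        have e2 : M ≤ L ^ (A + 2) * (D * ((y : ℝ) + 1)) := by
          have : M ^ 2 ≤ (L ^ (A + 2) * (D * ((y : ℝ) + 1))) ^ 2 := by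
            rw [sq, hMM]
            refine e1.le.trans ?_
            have k1 : 1 ≤ L ^ (A + 2) := one_le_pow₀ hL1
            have k2 : L ^ (A + 2) * (D * ((y : ℝ) + 1) ^ 2) ≤
                (L ^ (A + 2) * L ^ (A + 2)) * ((D * D) * ((y : ℝ) + 1) ^ 2) := by
              apply mul_le_mul
              · nlinarith
              · apply mul_le_mul_of_nonneg_right _ (sq_nonneg _)
                nlinarith
              · positivity
              · positivity
            refine k2.trans (le_of_eq ?_)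
            ring
          exact (pow_le_pow_iff_left₀ hM0.le (by positivity) two_ne_zero).1 this
        have e3 : 1 ≤ (y : ℝ) := by
          have h8 : L ^ (A + 2) * (L * L) ≤ L ^ (A + 2) * (D * ((y : ℝ) + 1)) := by
            refine le_trans ?_ e2
            calc L ^ (A + 2) * (L * L) = L ^ (A + 4) := by ring
              _ ≤ M := hML
          have h9 := le_of_mul_le_mul_left h8 (by positivity)
          have h10 : 2 * (D : ℝ) * 1 ≤ L * L := mul_le_mul hLD hL1 (by norm_num) hL0.le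
          have h11 : (D : ℝ) * 2 ≤ D * ((y : ℝ) + 1) := by linarith
          have h12 := le_of_mul_le_mul_left h11 (by linarith)
          linarith
        have hyr : M ≤ 2 * D * L ^ (A + 2) * y := by
          refine e2.trans ?_
          have : L ^ (A + 2) * (D * ((y : ℝ) + 1)) ≤ L ^ (A + 2) * (D * (2 * y)) := by gcongr; linarith
          linarith
        have h8 : Sz α γ (n : ℤ) z * y ≤ M / L ^ C' := le_trans (le_abs_self _) h6
        have h9 : κ * (1 / L ^ 2) * (M / (2 * D * L ^ (A + 2))) ≤ M / L ^ C' := by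
          refine le_trans ?_ h8
          apply mul_le_mul hV2 _ (by positivity) (le_trans (by positivity) hV2)
          rw [div_le_iff₀ (by positivity)]
          linarith
        have h10 : M / L ^ C' = κ * (1 / L ^ 2) * (M / (2 * D * L ^ (A + 2))) * (2 * D / (κ * L ^ (C + 2))) := by
          have : L ^ C' = L ^ 2 * L ^ (A + 2) * L ^ (C + 2) := by rw [hC']; ring
          rw [this]
          have hD0 : (D : ℝ) ≠ 0 := by linarith
          field_simp
        rw [h10] at h9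
        have h11 : 2 * D / (κ * L ^ (C + 2)) < 1 := by
          rw [div_lt_one (by positivity)]
          have a1 : L ^ 2 ≤ L ^ (C + 2) := pow_le_pow_right₀ hL1 (by omega)
          have a2 : κ * L ^ 2 ≤ κ * L ^ (C + 2) := by gcongr
          have a3 : 2 * (D : ℝ) * L ≤ κ * L ^ 2 := by nlinarith
          have a4 : 2 * (D : ℝ) * 1 < 2 * (D : ℝ) * L := by
            apply mul_lt_mul_of_pos_left _ (by linarith)
            linarith
          linarith
        have h12 : 0 < κ * (1 / L ^ 2) * (M / (2 * D * L ^ (A + 2))) := by positivity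
        nlinarith
      · rw [hM, ← hLd]
        apply div_le_div_of_nonneg_left (Real.sqrt_nonneg _) (by positivity)
        exact pow_le_pow_right₀ hL1 (by omega)
  have hc1 : (((Icc 1 K).filter (fun n : ℕ => (n : ZMod q) = (b : ZMod q))).card : ℝ) ≤ 2 * (N / (q * L ^ (A + 2))) := by
    have : NeZero q := ⟨by omega⟩
    have k1 := Pool.Agent.Y812.GJ.card_class q K (b : ZMod q)
    refine k1.trans ?_
    have k2 : (K : ℝ) / q ≤ N / (q * L ^ (A + 2)) := by
      calc (K : ℝ) / q ≤ ((N : ℝ) / L ^ (A + 2)) / q := by gcongr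
        _ = _ := by rw [div_div, mul_comm]
    have k3 : 1 ≤ (N : ℝ) / (q * L ^ (A + 2)) := by
      rw [one_le_div (by positivity)]
      calc (q : ℝ) * L ^ (A + 2) ≤ q * L ^ (A + 4) := by
            apply mul_le_mul_of_nonneg_left _ hq0.le
            exact pow_le_pow_right₀ hL1 (by omega)
        _ ≤ N := hqM.trans hMN
    linarith
  have hc2 : (((((Icc (-(N : ℤ)) N).filter (fun n : ℤ => n ≡ (b : ℤ) [ZMOD q] ∧ ¬ GoodF α γ C' N z n))).image
      Int.toNat).card : ℝ) ≤ N / (q * L ^ (A + 1)) := by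
    refine le_trans ?_ c1
    exact_mod_cast card_image_le
  calc (((Icc 1 N).filter (fun n => n ≡ b [MOD q] ∧ ¬ GoodP α γ C N z n)).card : ℝ)
      ≤ ((((Icc 1 K).filter (fun n : ℕ => (n : ZMod q) = (b : ZMod q))) ∪
      (((Icc (-(N : ℤ)) N).filter (fun n : ℤ => n ≡ (b : ℤ) [ZMOD q] ∧ ¬ GoodF α γ C' N z n))).image
        Int.toNat).card : ℝ) := by exact_mod_cast card_le_card hsub
    _ ≤ (((Icc 1 K).filter (fun n : ℕ => (n : ZMod q) = (b : ZMod q))).card : ℝ) +
      (((((Icc (-(N : ℤ)) N).filter (fun n : ℤ => n ≡ (b : ℤ) [ZMOD q] ∧ ¬ GoodF α γ C' N z n))).image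
        Int.toNat).card : ℝ) := by exact_mod_cast card_union_le _ _
    _ ≤ 2 * (N / (q * L ^ (A + 2))) + N / (q * L ^ (A + 1)) := add_le_add hc1 hc2
    _ = N / (q * L ^ A) * (2 / L ^ 2 + 1 / L) := by
        rw [pow_add, pow_add]
        field_simp
    _ ≤ N / (q * L ^ A) * 1 := by
        apply mul_le_mul_of_nonneg_left _ (by positivity)
        have a1 : 2 / L ^ 2 ≤ 1 / 2 := by
          rw [div_le_div_iff₀ (by positivity) two_pos]
          nlinarith
        have a2 : 1 / L ≤ 1 / 2 := by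
          rw [div_le_div_iff₀ hL0 two_pos]
          linarith
        linarith
    _ = _ := mul_one _

/-! ### The singular series for odd `n` -/

lemma not_dvd_two {p : ℕ} (hp : p.Prime) (h2 : p ≠ 2) : ¬ (p : ℤ) ∣ 2 := by
  intro h
  have h3 : p ∣ 2 := by exact_mod_cast h
  exact h2 ((Nat.prime_dvd_prime_iff_eq hp Nat.prime_two).1 h3)

/-- a factor of the singular series -/
lemma fac (α γ n d : ℤ) {p : ℕ} (hp : p.Prime) (h2 : p ≠ 2) (hpa : ¬ (p : ℤ) ∣ α)
    (hd : jacobiSym (4 * α * n + γ ^ 2) p = jacobiSym d p) :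
    (1 - (nuB (QS α γ n) p : ℝ) / p) / (1 - 1 / (p : ℝ)) = 1 - (jacobiSym d p : ℝ) / ((p : ℝ) - 1) := by
  have hp2 : (2 : ℝ) ≤ p := by exact_mod_cast hp.two_le
  have h1 := nu_leg α γ n hp h2 hpa
  rw [hd] at h1
  have h5 : (nuB (QS α γ n) p : ℝ) = 1 + (jacobiSym d p : ℝ) := by exact_mod_cast h1
  rw [h5]
  have h6 : (p : ℝ) ≠ 0 := by linarith
  have h7 : (p : ℝ) - 1 ≠ 0 := by linarith
  field_simp
  ring

/-- the singular series when there is no root modulo `2` -/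
lemma Sz_odd (α γ n d : ℤ) (z : ℕ) (hz : 2 ≤ z) (h0 : nuB (QS α γ n) 2 = 0)
    (hα : ∀ p : ℕ, p.Prime → p ≠ 2 → ¬ (p : ℤ) ∣ α)
    (hd : ∀ p : ℕ, p.Prime → p ≠ 2 → jacobiSym (4 * α * n + γ ^ 2) p = jacobiSym d p) :
    Sz α γ n z = 2 * ∏ w ∈ (Icc 3 z).filter Nat.Prime, (1 - (jacobiSym d w : ℝ) / ((w : ℝ) - 1)) := by
  rw [Sz_prod]
  have e : pz z = insert 2 ((Icc 3 z).filter Nat.Prime) := by
    ext p
    rw [mem_pz, mem_insert, mem_filter, mem_Icc]
    constructor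
    · rintro ⟨h1, h2⟩
      by_cases h3 : p = 2
      · left; exact h3
      · right
        have := h2.two_le
        exact ⟨⟨by omega, h1⟩, h2⟩
    · rintro (h1 | ⟨⟨h1, h2⟩, h3⟩)
      · subst h1
        exact ⟨hz, Nat.prime_two⟩
      · exact ⟨h2, h3⟩
  rw [e, prod_insert (by rw [mem_filter, mem_Icc]; omega)]
  congr 1
  · rw [h0]
    norm_num
  · refine prod_congr rfl fun p hp => ?_
    rw [mem_filter, mem_Icc] at hp
    exact fac α γ n d hp.2 (by omega) (hα p hp.2 (by omega)) (hd p hp.2 (by omega))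

lemma nu_two_zero (α γ : ℤ) (n : ℤ) (h : ∀ r : ℕ, ¬ (2 : ℤ) ∣ n - (α * (r : ℤ) ^ 2 + γ * (r : ℤ))) :
    nuB (QS α γ n) 2 = 0 := by
  classical
  unfold nuB
  have h' : ((range 2).filter (fun r => QS α γ n 2 r)).card = 0 := by
    rw [card_eq_zero, filter_eq_empty_iff]
    intro r _ hr
    exact h r hr
  convert h' using 1

end Pool.Agent.R121.PQ
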