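import Mathlib

set_option autoImplicit false

/-! Sums over all permutations of `Fin n` as sums over the structural list of permutations. -/

namespace Pool.Agent.R121

/-- one-line word of a permutation as a list of naturals -/
def toL {n : ℕ} (σ : Equiv.Perm (Fin n)) : List ℕ := List.ofFn fun i => ((σ i : Fin n) : ℕ)

lemma toL_injective {n : ℕ} : Function.Injective (toL (n := n)) := by
  intro σ τ h
  have h1 : (fun i => ((σ i : Fin n) : ℕ)) = fun i => ((τ i : Fin n) : ℕ) := List.ofFn_injective h
  ext i
  exact congrFun h1 i

lemma toL_perm {n : ℕ} (σ : Equiv.Perm (Fin n)) : List.Perm (toL σ) (List.range n) := by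
  have h : List.Perm (toL σ) ((List.ofFn fun i : Fin n => (i : ℕ))) := by
    unfold toL
    have := Equiv.Perm.ofFn_comp_perm σ (fun i : Fin n => (i : ℕ))
    exact this
  have h2 : (List.ofFn fun i : Fin n => (i : ℕ)) = List.range n := by
    apply List.ext_getElem
    · simp
    · intro i h1 h2
      simp
  rwa [h2] at h

lemma exists_toL {n : ℕ} (l : List ℕ) (hl : List.Perm l (List.range n)) : ∃ σ : Equiv.Perm (Fin n), toL σ = l := by
  have hlen : l.length = n := by simpa using hl.length_eq
  have hnd : l.Nodup := hl.nodup_iff.2 List.nodup_range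
  have hmem : ∀ x ∈ l, x < n := fun x hx => List.mem_range.1 (hl.mem_iff.1 hx)
  let f : Fin n → Fin n := fun i => ⟨l[(i : ℕ)]'(by rw [hlen]; exact i.2), hmem _ (List.getElem_mem _)⟩
  have hf : Function.Injective f := by
    intro i j hij
    have h1 : l[(i : ℕ)]'(by rw [hlen]; exact i.2) = l[(j : ℕ)]'(by rw [hlen]; exact j.2) := by
      have := congrArg Fin.val hij
      exact this
    have h2 := (List.Nodup.getElem_inj_iff hnd).1 h1
    exact Fin.ext h2
  refine ⟨Equiv.ofBijective f (Finite.injective_iff_bijective.1 hf), ?_⟩
  apply List.ext_getElem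
  · simp [toL, hlen]
  · intro i h1 h2
    simp [toL, f]

lemma sum_perm {n : ℕ} {M : Type*} [AddCommMonoid M] (F : List ℕ → M) :
    ∑ σ : Equiv.Perm (Fin n), F (toL σ) = (((List.range n).permutations').map F).sum := by
  classical
  have hnd : ((List.range n).permutations').Nodup := by
    rw [← (List.permutations_perm_permutations' (List.range n)).nodup_iff]
    exact List.nodup_permutations _ List.nodup_range
  have h1 : ∑ σ : Equiv.Perm (Fin n), F (toL σ) =
      ∑ l ∈ (Finset.univ : Finset (Equiv.Perm (Fin n))).image toL, F l := by
    rw [Finset.sum_image]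
    intro a _ b _ h
    exact toL_injective h
  have h2 : (Finset.univ : Finset (Equiv.Perm (Fin n))).image toL =
      ((List.range n).permutations').toFinset := by
    ext l
    simp only [Finset.mem_image, Finset.mem_univ, true_and, List.mem_toFinset,
      List.mem_permutations']
    constructor
    · rintro ⟨σ, rfl⟩
      exact toL_perm σ
    · intro h
      exact exists_toL l h
  rw [h1, h2, List.sum_toFinset F hnd]

end Pool.Agent.R121
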