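import Pool.Agent.R121.GenTree

set_option autoImplicit false

/-! The generating tree of the permutations avoiding `2-14-3` (plane permutations) and of the
inversion sequences avoiding `101` and `201`. -/

namespace Pool.Agent.R121.SB

open Finset Pool.Agent.R121

/-- transfer operator of the tree of permutations -/
def T (f : ℕ → ℕ → ℕ) (h k : ℕ) : ℕ :=
  (∑ j ∈ Icc 1 h, f j (h + k + 1 - j)) + ∑ i ∈ Icc 1 k, f (h + 1) (k + 1 - i)

/-- transfer operator of the tree of inversion sequences -/
def T' (f : ℕ → ℕ → ℕ) (h k : ℕ) : ℕ :=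
  (∑ j ∈ Icc 1 h, f j (k + 1)) + ∑ i ∈ Icc 1 k, f (h + i) (k + 1 - i)

lemma T_T' (n : ℕ) : ∀ h k, (T^[n] (fun _ _ => 1)) h k = (T'^[n] (fun _ _ => 1)) k h := by
  induction n with
  | zero => intro h k; rfl
  | succ n ih =>
    intro h k
    rw [Function.iterate_succ_apply', Function.iterate_succ_apply']
    unfold T T'
    rw [add_comm]
    congr 1
    · refine Finset.sum_bij' (fun i _ => k + 1 - i) (fun i _ => k + 1 - i) ?_ ?_ ?_ ?_ ?_
      · intro i hi; simp only [mem_Icc] at hi ⊢; omega
      · intro i hi; simp only [mem_Icc] at hi ⊢; omega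
      · intro i hi; simp only [mem_Icc] at hi; omega
      · intro i hi; simp only [mem_Icc] at hi; omega
      · intro i hi; exact ih _ _
    · refine Finset.sum_bij' (fun i _ => h + 1 - i) (fun i _ => h + 1 - i) ?_ ?_ ?_ ?_ ?_
      · intro i hi; simp only [mem_Icc] at hi ⊢; omega
      · intro i hi; simp only [mem_Icc] at hi ⊢; omega
      · intro i hi; simp only [mem_Icc] at hi; omega
      · intro i hi; simp only [mem_Icc] at hi; omega
      · intro i hi
        simp only [mem_Icc] at hi
        have h1 : h + k + 1 - i = k + (h + 1 - i) := by omega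
        have h2 : h + 1 - (h + 1 - i) = i := by omega
        exact (ih i (h + k + 1 - i)).trans (by rw [h1, h2]; rfl)

attribute [local instance] Classical.propDecidable

/-! ### permutations -/

/-- the site `u` is forbidden: `2-14` with the new value between the values of `2` and `4` -/
def Bad {n : ℕ} (τ : Equiv.Perm (Fin n)) (u : ℕ) : Prop :=
  ∃ a b c : Fin n, a < b ∧ (c : ℕ) = b + 1 ∧ τ b < τ a ∧ (τ a : ℕ) < u ∧ u ≤ (τ c : ℕ)

/-- avoidance of `2-14-3` -/
def Valid {n : ℕ} (τ : Equiv.Perm (Fin n)) : Prop :=
  ∀ a b c d : Fin n, a < b → (c : ℕ) = b + 1 → c < d →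
    ¬ (τ b < τ a ∧ τ a < τ d ∧ τ d < τ c)

lemma valid_snocP {n : ℕ} (v : Fin (n + 1)) (τ : Equiv.Perm (Fin n)) :
    Valid (snocP v τ) ↔ Valid τ ∧ ¬ Bad τ v := by
  constructor
  · intro H
    constructor
    · intro a b c d h1 h2 h3 h4
      apply H a.castSucc b.castSucc c.castSucc d.castSucc (by simpa using h1) (by simpa using h2)
        (by simpa using h3)
      simp only [snocP_castSucc]
      simpa using h4
    · rintro ⟨a, b, c, h1, h2, h3, h4, h5⟩
      apply H a.castSucc b.castSucc c.castSucc (Fin.last n) (by simpa using h1) (by simpa using h2)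
        (Fin.castSucc_lt_last c)
      simp only [snocP_castSucc, snocP_last]
      refine ⟨by simpa using h3, ?_, ?_⟩
      · rw [Fin.lt_def, succAbove_val, if_pos h4]
        exact h4
      · rw [Fin.lt_def, succAbove_val, if_neg (by omega)]
        omega
  · rintro ⟨H, hb⟩ a b c d h1 h2 h3 ⟨h4, h5, h6⟩
    induction c using Fin.lastCases with
    | last => exact absurd (lt_of_lt_of_le h3 (Fin.le_last d)) (lt_irrefl _)
    | cast c =>
      induction b using Fin.lastCases with
      | last =>
        simp only [Fin.val_castSucc, Fin.val_last] at h2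
        omega
      | cast b =>
        induction a using Fin.lastCases with
        | last => exact absurd (lt_of_lt_of_le h1 (Fin.le_last _)) (lt_irrefl _)
        | cast a =>
          simp only [Fin.castSucc_lt_castSucc_iff] at h1
          simp only [Fin.val_castSucc] at h2
          simp only [snocP_castSucc] at h4 h5 h6
          have h4' : τ b < τ a := by simpa using h4
          induction d using Fin.lastCases with
          | last =>
            simp only [snocP_last] at h5 h6
            rw [Fin.lt_def, succAbove_val] at h5 h6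
            apply hb
            refine ⟨a, b, c, h1, h2, h4', ?_, ?_⟩
            · split_ifs at h5 <;> omega
            · split_ifs at h6 <;> omega
          | cast d =>
            simp only [Fin.castSucc_lt_castSucc_iff] at h3
            simp only [snocP_castSucc] at h5 h6
            exact H a b c d h1 h2 h3 ⟨h4', by simpa using h5, by simpa using h6⟩

/-- the forbidden sites after appending -/
lemma bad_snocP {m : ℕ} (v : Fin (m + 2)) (τ : Equiv.Perm (Fin (m + 1))) (u : ℕ) :
    Bad (snocP v τ) u ↔ Bad τ (if u ≤ v then u else u - 1) ∨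
      ((τ (Fin.last m) : ℕ) + 2 ≤ u ∧ u ≤ v) := by
  have hval : ∀ x : Fin (m + 1), ((v.succAbove x : Fin (m + 2)) : ℕ) < u ↔
      (x : ℕ) < (if u ≤ v then u else u - 1) := by
    intro x
    rw [succAbove_val]
    split_ifs <;> omega
  constructor
  · rintro ⟨a, b, c, h1, h2, h3, h4, h5⟩
    induction c using Fin.lastCases with
    | last =>
      right
      rw [snocP_last] at h5
      have hb : b = (Fin.last m).castSucc := by
        apply Fin.ext
        simp only [Fin.val_last] at h2
        simp
        omega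
      subst hb
      rw [snocP_castSucc] at h3
      induction a using Fin.lastCases with
      | last => exact absurd (lt_of_lt_of_le h1 (Fin.le_last _)) (lt_irrefl _)
      | cast a =>
        rw [snocP_castSucc] at h3 h4
        have h6 : τ (Fin.last m) < τ a := by simpa using h3
        rw [Fin.lt_def] at h6
        rw [succAbove_val] at h4
        split_ifs at h4 <;> omega
    | cast c =>
      left
      induction b using Fin.lastCases with
      | last =>
        simp only [Fin.val_castSucc, Fin.val_last] at h2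
        have := c.2
        omega
      | cast b =>
        induction a using Fin.lastCases with
        | last => exact absurd (lt_of_lt_of_le h1 (Fin.le_last _)) (lt_irrefl _)
        | cast a =>
          simp only [snocP_castSucc] at h3 h4 h5
          refine ⟨a, b, c, by simpa using h1, by simpa using h2, by simpa using h3,
            (hval _).1 h4, ?_⟩
          rw [← not_lt] at h5 ⊢
          rwa [hval] at h5
  · rintro (⟨a, b, c, h1, h2, h3, h4, h5⟩ | ⟨h1, h2⟩)
    · refine ⟨a.castSucc, b.castSucc, c.castSucc, by simpa using h1, by simpa using h2, ?_, ?_, ?_⟩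
      · simp only [snocP_castSucc]
        simpa using h3
      · rw [snocP_castSucc]
        exact (hval _).2 h4
      · rw [snocP_castSucc, ← not_lt, hval, not_lt]
        exact h5
    · set l := τ (Fin.last m) with hl
      have hv := v.2
      let x : Fin (m + 1) := ⟨(l : ℕ) + 1, by omega⟩
      have hx : τ (τ.symm x) = x := by simp
      have hne : τ.symm x ≠ Fin.last m := by
        intro h
        have h3 : x = l := by
          rw [← hx, h]
        have := congrArg Fin.val h3
        simp [x] at this
      refine ⟨(τ.symm x).castSucc, (Fin.last m).castSucc, Fin.last (m + 1), ?_, by simp, ?_, ?_, ?_⟩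
      · simp only [Fin.castSucc_lt_castSucc_iff]
        exact lt_of_le_of_ne (Fin.le_last _) hne
      · simp only [snocP_castSucc, hx]
        have : τ (Fin.last m) < x := by
          rw [Fin.lt_def]
          change (l : ℕ) < (l : ℕ) + 1
          omega
        simpa using this
      · rw [snocP_castSucc, hx, succAbove_val]
        simp only [x]
        split_ifs <;> omega
      · rw [snocP_last]
        exact h2

/-- the site just above the last value is allowed -/
lemma not_bad_succ {m : ℕ} (τ : Equiv.Perm (Fin (m + 1))) (hτ : Valid τ) :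
    ¬ Bad τ ((τ (Fin.last m) : ℕ) + 1) := by
  rintro ⟨a, b, c, h1, h2, h3, h4, h5⟩
  rcases eq_or_ne c (Fin.last m) with rfl | hc
  · omega
  · have hc' : c < Fin.last m := lt_of_le_of_ne (Fin.le_last _) hc
    apply hτ a b c (Fin.last m) h1 h2 hc'
    refine ⟨h3, ?_, ?_⟩
    · have hne : a ≠ Fin.last m := by
        intro h
        subst h
        exact absurd (lt_of_lt_of_le h1 (Fin.le_last _)) (lt_irrefl _)
      have hne' : τ a ≠ τ (Fin.last m) := fun h => hne (τ.injective h)
      have hne'' : (τ a : ℕ) ≠ τ (Fin.last m) := fun h => hne' (Fin.ext h)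
      rw [Fin.lt_def]
      omega
    · rw [Fin.lt_def]
      omega

/-- allowed sites up to `N` -/
noncomputable def act {n : ℕ} (τ : Equiv.Perm (Fin n)) (N : ℕ) : Finset ℕ :=
  (range N).filter fun u => ¬ Bad τ u

/-- allowed sites below the last value -/
noncomputable def lh {m : ℕ} (τ : Equiv.Perm (Fin (m + 1))) : ℕ :=
  (act τ ((τ (Fin.last m) : ℕ) + 1)).card

/-- allowed sites above the last value -/
noncomputable def lk {m : ℕ} (τ : Equiv.Perm (Fin (m + 1))) : ℕ :=
  (act τ (m + 2)).card - lh τ

lemma act_mono {n : ℕ} (τ : Equiv.Perm (Fin n)) {N N' : ℕ} (h : N ≤ N') : act τ N ⊆ act τ N' := by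
  unfold act
  apply filter_subset_filter
  intro x
  simp only [mem_range]
  omega

lemma lh_add_lk {m : ℕ} (τ : Equiv.Perm (Fin (m + 1))) : lh τ + lk τ = (act τ (m + 2)).card := by
  unfold lk lh
  have := card_le_card (act_mono τ (N := (τ (Fin.last m) : ℕ) + 1) (N' := m + 2)
    (by have := (τ (Fin.last m)).2; omega))
  omega

lemma act_snocP_le {m : ℕ} (v : Fin (m + 2)) (τ : Equiv.Perm (Fin (m + 1)))
    (hv : (v : ℕ) ≤ τ (Fin.last m)) : act (snocP v τ) ((v : ℕ) + 1) = act τ ((v : ℕ) + 1) := by
  unfold act
  apply filter_congr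
  intro u hu
  rw [mem_range] at hu
  rw [bad_snocP, if_pos (by omega)]
  constructor
  · intro h h2
    exact h (Or.inl h2)
  · intro h h2
    rcases h2 with h2 | h2
    · exact h h2
    · omega

lemma act_snocP_gt {m : ℕ} (v : Fin (m + 2)) (τ : Equiv.Perm (Fin (m + 1)))
    (hv : (τ (Fin.last m) : ℕ) < v) :
    act (snocP v τ) ((v : ℕ) + 1) = act τ ((τ (Fin.last m) : ℕ) + 2) := by
  ext u
  unfold act
  simp only [mem_filter, mem_range]
  rw [bad_snocP]
  constructor
  · rintro ⟨h1, h2⟩
    rw [if_pos (by omega)] at h2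
    push Not at h2
    refine ⟨?_, h2.1⟩
    by_contra h3
    have := h2.2 (by omega)
    omega
  · rintro ⟨h1, h2⟩
    refine ⟨by omega, ?_⟩
    rw [if_pos (by omega)]
    rintro (h3 | h3)
    · exact h2 h3
    · omega

lemma act_split {n : ℕ} (τ : Equiv.Perm (Fin n)) {N N' : ℕ} (h : N ≤ N') :
    (act τ N').card = (act τ N).card + ((Ico N N').filter fun u => u ∈ act τ N').card := by
  rw [← card_union_of_disjoint]
  · congr 1
    ext u
    simp only [act, mem_filter, mem_range, mem_union, mem_Ico]
    constructor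
    · rintro ⟨h1, h2⟩
      by_cases h3 : u < N
      · exact Or.inl ⟨h3, h2⟩
      · exact Or.inr ⟨⟨by omega, h1⟩, h1, h2⟩
    · rintro (⟨h1, h2⟩ | ⟨_, h1, h2⟩)
      · exact ⟨by omega, h2⟩
      · exact ⟨h1, h2⟩
  · rw [Finset.disjoint_left]
    intro u hu hu'
    simp only [act, mem_filter, mem_range, mem_Ico] at hu hu'
    omega

/-- number of allowed sites above the new last value -/
lemma act_snocP_card {m : ℕ} (v : Fin (m + 2)) (τ : Equiv.Perm (Fin (m + 1)))
    (hv : ¬ Bad τ v) :
    (act (snocP v τ) (m + 3)).card = (act (snocP v τ) ((v : ℕ) + 1)).card +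
      ((act τ (m + 2)).card + 1 - (act τ ((v : ℕ) + 1)).card) := by
  have hv2 := v.2
  rw [act_split (snocP v τ) (N := (v : ℕ) + 1) (N' := m + 3) (by omega)]
  congr 1
  have h1 : ((Ico ((v : ℕ) + 1) (m + 3)).filter fun u => u ∈ act (snocP v τ) (m + 3)).card =
      ((Ico (v : ℕ) (m + 2)).filter fun u => u ∈ act τ (m + 2)).card := by
    refine Finset.card_bij' (fun u _ => u - 1) (fun u _ => u + 1) ?_ ?_ ?_ ?_
    · intro u hu
      simp only [act, mem_filter, mem_range, mem_Ico] at hu ⊢
      obtain ⟨⟨h1, h2⟩, h3, h4⟩ := hu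
      rw [bad_snocP, if_neg (by omega)] at h4
      push Not at h4
      exact ⟨⟨by omega, by omega⟩, by omega, h4.1⟩
    · intro u hu
      simp only [act, mem_filter, mem_range, mem_Ico] at hu ⊢
      obtain ⟨⟨h1, h2⟩, h3, h4⟩ := hu
      refine ⟨⟨by omega, by omega⟩, by omega, ?_⟩
      rw [bad_snocP, if_neg (by omega)]
      rintro (h5 | h5)
      · exact h4 (by simpa using h5)
      · omega
    · intro u hu
      simp only [mem_filter, mem_Ico] at hu
      omega
    · intro u hu
      simp only [mem_filter, mem_Ico] at hu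
      omega
  rw [h1]
  have h2 := act_split τ (N := (v : ℕ)) (N' := m + 2) (by omega)
  have h3 : (act τ ((v : ℕ) + 1)).card = (act τ (v : ℕ)).card + 1 := by
    have : act τ ((v : ℕ) + 1) = insert (v : ℕ) (act τ (v : ℕ)) := by
      ext u
      simp only [act, mem_filter, mem_range, mem_insert]
      constructor
      · rintro ⟨h1, h2⟩
        by_cases h3 : u = v
        · exact Or.inl h3
        · exact Or.inr ⟨by omega, h2⟩
      · rintro (h1 | ⟨h1, h2⟩)
        · subst h1
          exact ⟨by omega, hv⟩
        · exact ⟨by omega, h2⟩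
    rw [this, card_insert_of_notMem]
    simp [act]
  omega

lemma labels_le {m : ℕ} (v : Fin (m + 2)) (τ : Equiv.Perm (Fin (m + 1)))
    (hb : ¬ Bad τ v) (hv : (v : ℕ) ≤ τ (Fin.last m)) :
    lh (snocP v τ) = (act τ ((v : ℕ) + 1)).card ∧
      lk (snocP v τ) = lh τ + lk τ + 1 - (act τ ((v : ℕ) + 1)).card := by
  have h1 : lh (snocP v τ) = (act τ ((v : ℕ) + 1)).card := by
    unfold lh
    rw [snocP_last, act_snocP_le v τ hv]
  refine ⟨h1, ?_⟩
  have h2 := lh_add_lk (snocP v τ)
  rw [act_snocP_card v τ hb, act_snocP_le v τ hv, h1] at h2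
  rw [lh_add_lk]
  omega

lemma labels_gt {m : ℕ} (v : Fin (m + 2)) (τ : Equiv.Perm (Fin (m + 1))) (hτ : Valid τ)
    (hb : ¬ Bad τ v) (hv : (τ (Fin.last m) : ℕ) < v) :
    lh (snocP v τ) = lh τ + 1 ∧
      lk (snocP v τ) = lh τ + lk τ + 1 - (act τ ((v : ℕ) + 1)).card := by
  have h0 : (act τ ((τ (Fin.last m) : ℕ) + 2)).card = lh τ + 1 := by
    unfold lh
    have : act τ ((τ (Fin.last m) : ℕ) + 2) =
        insert ((τ (Fin.last m) : ℕ) + 1) (act τ ((τ (Fin.last m) : ℕ) + 1)) := by
      ext u
      simp only [act, mem_filter, mem_range, mem_insert]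
      constructor
      · rintro ⟨h1, h2⟩
        by_cases h3 : u = (τ (Fin.last m) : ℕ) + 1
        · exact Or.inl h3
        · exact Or.inr ⟨by omega, h2⟩
      · rintro (h1 | ⟨h1, h2⟩)
        · subst h1
          exact ⟨by omega, not_bad_succ τ hτ⟩
        · exact ⟨by omega, h2⟩
    rw [this, card_insert_of_notMem]
    simp [act]
  have h1 : lh (snocP v τ) = lh τ + 1 := by
    rw [← h0]
    unfold lh
    rw [snocP_last, act_snocP_gt v τ hv]
  refine ⟨h1, ?_⟩
  have h2 := lh_add_lk (snocP v τ)
  rw [act_snocP_card v τ hb, act_snocP_gt v τ hv, h0, h1] at h2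
  rw [lh_add_lk]
  omega

/-- one step of the tree of permutations -/
lemma step {m : ℕ} (τ : Equiv.Perm (Fin (m + 1))) (hτ : Valid τ) (f : ℕ → ℕ → ℕ) :
    ∑ v : Fin (m + 2), (if ¬ Bad τ v then f (lh (snocP v τ)) (lk (snocP v τ)) else 0) =
      T f (lh τ) (lk τ) := by
  set l := (τ (Fin.last m) : ℕ) with hl
  have hlm : l ≤ m := by have := (τ (Fin.last m)).2; omega
  set S := act τ (m + 2) with hS
  -- the function of the site
  set g : ℕ → ℕ := fun v => if v ≤ l then f (act τ (v + 1)).card (lh τ + lk τ + 1 - (act τ (v + 1)).card)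
    else f (lh τ + 1) (lh τ + lk τ + 1 - (act τ (v + 1)).card) with hg
  have h1 : ∑ v : Fin (m + 2), (if ¬ Bad τ v then f (lh (snocP v τ)) (lk (snocP v τ)) else 0) =
      ∑ v ∈ S, g v := by
    have h2 : ∑ v ∈ S, g v = ∑ v ∈ range (m + 2), if ¬ Bad τ v then g v else 0 := by
      rw [hS]
      unfold act
      rw [sum_filter]
    rw [h2, ← Fin.sum_univ_eq_sum_range (fun v => if ¬ Bad τ v then g v else 0)]
    apply sum_congr rfl
    intro v _
    by_cases hb : Bad τ v
    · simp [hb]
    · simp only [hb, not_false_eq_true, if_true, hg]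
      split_ifs with hv
      · obtain ⟨e1, e2⟩ := labels_le v τ hb hv
        rw [e1, e2]
      · obtain ⟨e1, e2⟩ := labels_gt v τ hτ hb (by omega)
        rw [e1, e2]
  rw [h1]
  -- split the sum
  have hlh : lh τ = (act τ (l + 1)).card := rfl
  have hsub : act τ (l + 1) ⊆ S := act_mono τ (by omega)
  rw [← Finset.sum_sdiff hsub, add_comm]
  unfold T
  congr 1
  · rw [hlh, ← sum_rank (act τ (l + 1)) (fun j => f j ((act τ (l + 1)).card + lk τ + 1 - j))]
    apply sum_congr rfl
    intro v hv
    have hv' : v ≤ l := by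
      simp only [act, mem_filter, mem_range] at hv
      omega
    have e : (act τ (l + 1)).filter (fun u => u ≤ v) = act τ (v + 1) := by
      ext u
      simp only [act, mem_filter, mem_range]
      constructor
      · rintro ⟨⟨h1, h2⟩, h3⟩
        exact ⟨by omega, h2⟩
      · rintro ⟨h1, h2⟩
        exact ⟨⟨by omega, h2⟩, by omega⟩
    simp only [hg, if_pos hv', e]
    rw [hlh]
  · have hcard : (S \ act τ (l + 1)).card = lk τ := by
      rw [card_sdiff_of_subset hsub]
      rfl
    rw [← hcard, ← sum_rank (S \ act τ (l + 1)) (fun i => f (lh τ + 1) ((S \ act τ (l + 1)).card + 1 - i))]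
    apply sum_congr rfl
    intro v hv
    have hv' : l < v ∧ v < m + 2 := by
      simp only [hS, act, mem_sdiff, mem_filter, mem_range] at hv
      constructor
      · by_contra h
        exact hv.2 ⟨by omega, hv.1.2⟩
      · exact hv.1.1
    have e : (act τ (v + 1)).card = lh τ + ((S \ act τ (l + 1)).filter (fun u => u ≤ v)).card := by
      rw [hlh, ← card_union_of_disjoint]
      · congr 1
        ext u
        simp only [hS, act, mem_sdiff, mem_filter, mem_range, mem_union]
        constructor
        · rintro ⟨h1, h2⟩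
          by_cases h3 : u < l + 1
          · exact Or.inl ⟨h3, h2⟩
          · exact Or.inr ⟨⟨⟨by omega, h2⟩, fun h => h3 h.1⟩, by omega⟩
        · rintro (⟨h1, h2⟩ | ⟨⟨⟨h1, h2⟩, h3⟩, h4⟩)
          · exact ⟨by omega, h2⟩
          · exact ⟨by omega, h2⟩
      · rw [Finset.disjoint_left]
        intro u hu hu'
        simp only [mem_filter, mem_sdiff] at hu'
        exact hu'.1.2 hu
    simp only [hg, if_neg (not_le.2 hv'.1)]
    rw [hcard]
    congr 1
    rw [e]
    omega

/-- weighted count of the permutations avoiding `2-14-3` -/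
noncomputable def SP (m : ℕ) (f : ℕ → ℕ → ℕ) : ℕ :=
  ∑ τ : Equiv.Perm (Fin (m + 1)), if Valid τ then f (lh τ) (lk τ) else 0

lemma SP_succ (m : ℕ) (f : ℕ → ℕ → ℕ) : SP (m + 1) f = SP m (T f) := by
  unfold SP
  rw [sum_snocP]
  apply sum_congr rfl
  intro τ _
  by_cases hτ : Valid τ
  · rw [if_pos hτ, ← step τ hτ f]
    apply sum_congr rfl
    intro v _
    by_cases hb : Bad τ v
    · rw [if_neg (by rw [valid_snocP]; tauto), if_neg (by tauto)]
    · rw [if_pos (by rw [valid_snocP]; tauto), if_pos hb]
  · rw [if_neg hτ]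
    apply sum_eq_zero
    intro v _
    rw [if_neg]
    rw [valid_snocP]
    tauto

lemma SP_zero (f : ℕ → ℕ → ℕ) : SP 0 f = f 1 1 := by
  unfold SP
  change (∑ τ : Equiv.Perm (Fin 1), if Valid τ then f (lh (m := 0) τ) (lk (m := 0) τ) else 0) = f 1 1
  rw [Fintype.sum_unique]
  have hbad : ∀ (τ : Equiv.Perm (Fin 1)) u, ¬ Bad τ u := by
    rintro τ u ⟨a, b, c, h1, _⟩
    have := Subsingleton.elim a b
    subst this
    exact lt_irrefl _ h1
  have hval : Valid (default : Equiv.Perm (Fin 1)) := by
    intro a b c d h1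
    have := Subsingleton.elim a b
    subst this
    exact absurd h1 (lt_irrefl _)
  refine (if_pos hval).trans ?_
  have h0 : ((default : Equiv.Perm (Fin 1)) (Fin.last 0) : ℕ) = 0 := by
    have := ((default : Equiv.Perm (Fin 1)) (Fin.last 0)).2
    omega
  have hact : ∀ N, act (default : Equiv.Perm (Fin 1)) N = range N := by
    intro N
    unfold act
    apply filter_true_of_mem
    intro u _
    exact hbad _ u
  unfold lk lh
  rw [h0, hact, hact]
  simp

lemma SP_eq (m : ℕ) (f : ℕ → ℕ → ℕ) : SP m f = (T^[m] f) 1 1 := by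
  induction m generalizing f with
  | zero => exact SP_zero f
  | succ m ih => rw [SP_succ, ih, ← Function.iterate_succ_apply]

lemma card_valid (m : ℕ) : (univ.filter fun τ : Equiv.Perm (Fin (m + 1)) => Valid τ).card =
    (T^[m] (fun _ _ => 1)) 1 1 := by
  rw [← SP_eq, card_filter]
  rfl

/-! ### inversion sequences -/

/-- the value `u` is forbidden for the next entry -/
def BadI {n : ℕ} (e : Fin n → ℕ) (u : ℕ) : Prop := ∃ i j : Fin n, i < j ∧ e j < u ∧ u ≤ e i

/-- avoidance of `101` and `201` -/
def ValidI {n : ℕ} (e : Fin n → ℕ) : Prop := ∀ i j k : Fin n, i < j → j < k →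
  ¬ (e j < e k ∧ e k ≤ e i)

/-- all inversion sequences -/
def IS (n : ℕ) : Finset (Fin n → ℕ) := Fintype.piFinset fun i => range ((i : ℕ) + 1)

lemma sum_IS {M : Type*} [AddCommMonoid M] (n : ℕ) (g : (Fin (n + 1) → ℕ) → M) :
    ∑ e ∈ IS (n + 1), g e =
      ∑ e ∈ IS n, ∑ v ∈ range (n + 1), g (Fin.snoc (α := fun _ => ℕ) e v) := by
  rw [← Finset.sum_product']
  refine Finset.sum_bij' (fun e _ => (fun i : Fin n => e i.castSucc, e (Fin.last n)))
    (fun p _ => Fin.snoc (α := fun _ => ℕ) p.1 p.2) ?_ ?_ ?_ ?_ ?_
  · intro e he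
    simp only [IS, Fintype.mem_piFinset, mem_product] at he ⊢
    exact ⟨fun i => by simpa using he i.castSucc, by simpa using he (Fin.last n)⟩
  · rintro ⟨e, v⟩ he
    simp only [IS, Fintype.mem_piFinset, mem_product] at he ⊢
    intro i
    induction i using Fin.lastCases with
    | last => simpa using he.2
    | cast i => simpa using he.1 i
  · intro e he
    funext i
    induction i using Fin.lastCases with
    | last => simp
    | cast i => simp
  · rintro ⟨e, v⟩ he
    simp
  · intro e he
    congr 1
    funext i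
    induction i using Fin.lastCases with
    | last => simp
    | cast i => simp

lemma validI_snoc {n : ℕ} (e : Fin n → ℕ) (v : ℕ) :
    ValidI (Fin.snoc (α := fun _ => ℕ) e v) ↔ ValidI e ∧ ¬ BadI e v := by
  constructor
  · intro H
    constructor
    · intro i j k h1 h2 h3
      apply H i.castSucc j.castSucc k.castSucc (by simpa using h1) (by simpa using h2)
      simpa using h3
    · rintro ⟨i, j, h1, h2, h3⟩
      apply H i.castSucc j.castSucc (Fin.last n) (by simpa using h1) (Fin.castSucc_lt_last j)
      simpa using ⟨h2, h3⟩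
  · rintro ⟨H, hb⟩ i j k h1 h2 h3
    induction j using Fin.lastCases with
    | last => exact absurd (lt_of_lt_of_le h2 (Fin.le_last _)) (lt_irrefl _)
    | cast j =>
      induction i using Fin.lastCases with
      | last => exact absurd (lt_of_lt_of_le h1 (Fin.le_last _)) (lt_irrefl _)
      | cast i =>
        induction k using Fin.lastCases with
        | last =>
          apply hb
          exact ⟨i, j, by simpa using h1, by simpa using h3.1, by simpa using h3.2⟩
        | cast k =>
          apply H i j k (by simpa using h1) (by simpa using h2)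
          simpa using h3

lemma badI_snoc {n : ℕ} (e : Fin n → ℕ) (v u : ℕ) :
    BadI (Fin.snoc (α := fun _ => ℕ) e v) u ↔ BadI e u ∨ (v < u ∧ ∃ i, u ≤ e i) := by
  constructor
  · rintro ⟨i, j, h1, h2, h3⟩
    induction i using Fin.lastCases with
    | last => exact absurd (lt_of_lt_of_le h1 (Fin.le_last _)) (lt_irrefl _)
    | cast i =>
      induction j using Fin.lastCases with
      | last => exact Or.inr ⟨by simpa using h2, i, by simpa using h3⟩
      | cast j => exact Or.inl ⟨i, j, by simpa using h1, by simpa using h2, by simpa using h3⟩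
  · rintro (⟨i, j, h1, h2, h3⟩ | ⟨h1, i, h2⟩)
    · exact ⟨i.castSucc, j.castSucc, by simpa using h1, by simpa using h2, by simpa using h3⟩
    · exact ⟨i.castSucc, Fin.last n, Fin.castSucc_lt_last i, by simpa using h1, by simpa using h2⟩

/-- maximum -/
noncomputable def mx {n : ℕ} (e : Fin n → ℕ) : ℕ := univ.sup e

lemma le_mx {n : ℕ} (e : Fin n → ℕ) (i : Fin n) : e i ≤ mx e := le_sup (f := e) (mem_univ i)

lemma exists_mx {m : ℕ} (e : Fin (m + 1) → ℕ) : ∃ i, e i = mx e := by
  obtain ⟨i, _, hi⟩ := exists_mem_eq_sup (univ : Finset (Fin (m + 1))) univ_nonempty e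
  exact ⟨i, hi.symm⟩

lemma mx_snoc {m : ℕ} (e : Fin (m + 1) → ℕ) (v : ℕ) :
    mx (Fin.snoc (α := fun _ => ℕ) e v : Fin (m + 2) → ℕ) = max (mx e) v := by
  apply le_antisymm
  · apply Finset.sup_le
    intro i _
    induction i using Fin.lastCases with
    | last => simp
    | cast i =>
      simp only [Fin.snoc_castSucc]
      exact (le_mx e i).trans (le_max_left _ _)
  · apply max_le
    · obtain ⟨i, hi⟩ := exists_mx e
      rw [← hi]
      have := le_mx (Fin.snoc (α := fun _ => ℕ) e v : Fin (m + 2) → ℕ) i.castSucc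
      simpa using this
    · have := le_mx (Fin.snoc (α := fun _ => ℕ) e v : Fin (m + 2) → ℕ) (Fin.last _)
      simpa using this

/-- allowed values up to `N` -/
noncomputable def actI {n : ℕ} (e : Fin n → ℕ) (N : ℕ) : Finset ℕ :=
  (range N).filter fun u => ¬ BadI e u

/-- allowed values at most the last value -/
noncomputable def lhI {m : ℕ} (e : Fin (m + 1) → ℕ) : ℕ := (actI e (e (Fin.last m) + 1)).card

/-- number of values above the maximum -/
noncomputable def lkI {m : ℕ} (e : Fin (m + 1) → ℕ) : ℕ := m + 1 - mx e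

lemma badI_between {m : ℕ} (e : Fin (m + 1) → ℕ) (u : ℕ) (h1 : e (Fin.last m) < u)
    (h2 : u ≤ mx e) : BadI e u := by
  obtain ⟨i, hi⟩ := exists_mx e
  refine ⟨i, Fin.last m, ?_, h1, by omega⟩
  apply lt_of_le_of_ne (Fin.le_last _)
  rintro rfl
  omega

lemma not_badI_gt {n : ℕ} (e : Fin n → ℕ) (u : ℕ) (h : mx e < u) : ¬ BadI e u := by
  rintro ⟨i, j, _, _, h3⟩
  have := le_mx e i
  omega

/-- one step of the tree of inversion sequences -/
lemma stepI {m : ℕ} (e : Fin (m + 1) → ℕ) (hm : mx e ≤ m) (f : ℕ → ℕ → ℕ) :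
    ∑ v ∈ range (m + 2), (if ¬ BadI e v then
      f (lhI (Fin.snoc (α := fun _ => ℕ) e v : Fin (m + 2) → ℕ))
        (lkI (Fin.snoc (α := fun _ => ℕ) e v : Fin (m + 2) → ℕ)) else 0) =
      T' f (lhI e) (lkI e) := by
  set l := e (Fin.last m) with hl
  have hlM : l ≤ mx e := le_mx e _
  rw [← sum_filter]
  have hlabel1 : ∀ v, v ≤ l → lhI (Fin.snoc (α := fun _ => ℕ) e v : Fin (m + 2) → ℕ) =
      (actI e (v + 1)).card := by
    intro v hv
    unfold lhI
    congr 1
    unfold actI
    rw [Fin.snoc_last]
    apply filter_congr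
    intro u hu
    rw [mem_range] at hu
    rw [badI_snoc]
    constructor
    · intro h h2
      exact h (Or.inl h2)
    · rintro h (h2 | ⟨h2, _⟩)
      · exact h h2
      · omega
  have hlabel1' : ∀ v, lhI (Fin.snoc (α := fun _ => ℕ) e v : Fin (m + 2) → ℕ) =
      (actI e (v + 1)).card := by
    intro v
    unfold lhI
    congr 1
    unfold actI
    rw [Fin.snoc_last]
    apply filter_congr
    intro u hu
    rw [mem_range] at hu
    rw [badI_snoc]
    constructor
    · intro h h2
      exact h (Or.inl h2)
    · rintro h (h2 | ⟨h2, _⟩)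
      · exact h h2
      · omega
  have hlabel2 : ∀ v, lkI (Fin.snoc (α := fun _ => ℕ) e v : Fin (m + 2) → ℕ) =
      m + 2 - max (mx e) v := by
    intro v
    unfold lkI
    rw [mx_snoc]
  have hsplit : (range (m + 2)).filter (fun v => ¬ BadI e v) =
      actI e (l + 1) ∪ Ico (mx e + 1) (m + 2) := by
    ext u
    simp only [actI, mem_filter, mem_range, mem_union, mem_Ico]
    constructor
    · rintro ⟨h1, h2⟩
      by_cases h3 : u < l + 1
      · exact Or.inl ⟨h3, h2⟩
      · right
        refine ⟨?_, h1⟩
        by_contra h4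
        exact h2 (badI_between e u (by omega) (by omega))
    · rintro (⟨h1, h2⟩ | ⟨h1, h2⟩)
      · exact ⟨by omega, h2⟩
      · exact ⟨h2, not_badI_gt e u (by omega)⟩
  rw [hsplit, sum_union]
  · unfold T'
    congr 1
    · have hk : ∀ v ∈ actI e (l + 1), f (lhI (Fin.snoc (α := fun _ => ℕ) e v : Fin (m + 2) → ℕ))
          (lkI (Fin.snoc (α := fun _ => ℕ) e v : Fin (m + 2) → ℕ)) =
          f ((actI e (l + 1)).filter (fun u => u ≤ v)).card (lkI e + 1) := by
        intro v hv
        have hv' : v ≤ l := by
          simp only [actI, mem_filter, mem_range] at hv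
          omega
        rw [hlabel1' v, hlabel2]
        congr 1
        · congr 1
          ext u
          simp only [actI, mem_filter, mem_range]
          constructor
          · rintro ⟨h1, h2⟩
            exact ⟨⟨by omega, h2⟩, by omega⟩
          · rintro ⟨⟨h1, h2⟩, h3⟩
            exact ⟨by omega, h2⟩
        · unfold lkI
          omega
      rw [sum_congr rfl hk, sum_rank (actI e (l + 1)) (fun j => f j (lkI e + 1))]
      rfl
    · have hcard : (Ico (mx e + 1) (m + 2)).card = lkI e := by
        rw [Nat.card_Ico]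
        unfold lkI
        omega
      rw [← hcard, ← sum_rank (Ico (mx e + 1) (m + 2))
        (fun i => f (lhI e + i) ((Ico (mx e + 1) (m + 2)).card + 1 - i))]
      apply sum_congr rfl
      intro v hv
      rw [mem_Ico] at hv
      have e1 : (Ico (mx e + 1) (m + 2)).filter (fun u => u ≤ v) = Ico (mx e + 1) (v + 1) := by
        ext u
        simp only [mem_filter, mem_Ico]
        omega
      rw [e1, Nat.card_Ico, Nat.card_Ico, hlabel1', hlabel2]
      have e2 : actI e (v + 1) = actI e (l + 1) ∪ Ico (mx e + 1) (v + 1) := by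
        ext u
        simp only [actI, mem_filter, mem_range, mem_union, mem_Ico]
        constructor
        · rintro ⟨h1, h2⟩
          by_cases h3 : u < l + 1
          · exact Or.inl ⟨h3, h2⟩
          · right
            refine ⟨?_, h1⟩
            by_contra h4
            exact h2 (badI_between e u (by omega) (by omega))
        · rintro (⟨h1, h2⟩ | ⟨h1, h2⟩)
          · exact ⟨by omega, h2⟩
          · exact ⟨h2, not_badI_gt e u (by omega)⟩
      have e3 : (actI e (v + 1)).card = lhI e + (v + 1 - (mx e + 1)) := by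
        rw [e2, card_union_of_disjoint, Nat.card_Ico]
        · rfl
        · rw [Finset.disjoint_left]
          intro u hu hu'
          simp only [actI, mem_filter, mem_range, mem_Ico] at hu hu'
          omega
      rw [e3]
      congr 1
      omega
  · rw [Finset.disjoint_left]
    intro u hu hu'
    simp only [actI, mem_filter, mem_range, mem_Ico] at hu hu'
    omega

/-- weighted count of the inversion sequences -/
noncomputable def SI (m : ℕ) (f : ℕ → ℕ → ℕ) : ℕ :=
  ∑ e ∈ IS (m + 1), if ValidI e then f (lhI e) (lkI e) else 0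

lemma SI_succ (m : ℕ) (f : ℕ → ℕ → ℕ) : SI (m + 1) f = SI m (T' f) := by
  unfold SI
  rw [sum_IS]
  apply sum_congr rfl
  intro e he
  have hm : mx e ≤ m := by
    apply Finset.sup_le
    intro i _
    simp only [IS, Fintype.mem_piFinset, mem_range] at he
    have := he i
    have := i.2
    omega
  by_cases hτ : ValidI e
  · rw [if_pos hτ, ← stepI e hm f]
    apply sum_congr rfl
    intro v _
    by_cases hb : BadI e v
    · rw [if_neg (by rw [validI_snoc]; tauto), if_neg (by tauto)]
    · rw [if_pos (by rw [validI_snoc]; tauto), if_pos hb]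
  · rw [if_neg hτ]
    apply sum_eq_zero
    intro v _
    rw [if_neg]
    rw [validI_snoc]
    tauto

lemma SI_zero (f : ℕ → ℕ → ℕ) : SI 0 f = f 1 1 := by
  unfold SI
  have h1 : IS 1 = {fun _ => 0} := by
    ext e
    simp only [IS, Fintype.mem_piFinset, mem_range, mem_singleton]
    constructor
    · intro h
      funext i
      have := h i
      have := i.2
      omega
    · rintro rfl i
      simp
  change (∑ e ∈ IS 1, if ValidI e then f (lhI (m := 0) e) (lkI (m := 0) e) else 0) = f 1 1
  rw [h1, sum_singleton]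
  have hbad : ∀ u, ¬ BadI (fun _ : Fin 1 => 0) u := by
    rintro u ⟨a, b, h1, _⟩
    have := Subsingleton.elim a b
    subst this
    exact lt_irrefl _ h1
  rw [if_pos]
  · have h2 : ∀ N, actI (fun _ : Fin 1 => 0) N = range N := by
      intro N
      unfold actI
      apply filter_true_of_mem
      intro u _
      exact hbad u
    have h3 : mx (fun _ : Fin 1 => 0) = 0 := by
      unfold mx
      simp
    unfold lhI lkI
    rw [h2, h3]
    simp
  · intro i j k h1
    have := Subsingleton.elim i j
    subst this
    exact absurd h1 (lt_irrefl _)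

lemma SI_eq (m : ℕ) (f : ℕ → ℕ → ℕ) : SI m f = (T'^[m] f) 1 1 := by
  induction m generalizing f with
  | zero => exact SI_zero f
  | succ m ih => rw [SI_succ, ih, ← Function.iterate_succ_apply]

lemma card_validI (m : ℕ) : ((IS (m + 1)).filter fun e => ValidI e).card =
    (T'^[m] (fun _ _ => 1)) 1 1 := by
  rw [← SI_eq, card_filter]
  rfl

lemma card_eq (m : ℕ) : (univ.filter fun τ : Equiv.Perm (Fin (m + 1)) => Valid τ).card =
    ((IS (m + 1)).filter fun e => ValidI e).card := by
  rw [card_valid, card_validI, T_T']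

end Pool.Agent.R121.SB
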