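import Mathlib

set_option autoImplicit false

namespace Pool.Agent.R121.Sh

open Finset

/-- The number of `j < i` with `w j = b`. -/
def cnt {m : ℕ} (w : Fin m → Bool) (b : Bool) (i : ℕ) : ℕ :=
  (univ.filter fun j : Fin m => j.1 < i ∧ w j = b).card

/-- In every initial segment there are at least as many zeros (`false`) as ones (`true`). -/
def Ballot {m : ℕ} (w : Fin m → Bool) : Prop := ∀ i ≤ m, cnt w true i ≤ cnt w false i

/-- the letter before position `i` -/
def prv {m : ℕ} (w : Fin m → Bool) (i : ℕ) : Bool :=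
  if h : 0 < i ∧ i ≤ m then w ⟨i - 1, by omega⟩ else false

/-- weights -/
def wt {K : Type*} [CommRing K] (u : ℕ → Bool → Bool → ℕ → K) {m : ℕ} (w : Fin m → Bool) : K :=
  ∏ i : Fin m, u i.1 (prv w i.1) (w i) (cnt w false i.1)

lemma cnt_eq_sum {m : ℕ} (w : Fin m → Bool) (b : Bool) (i : ℕ) :
    cnt w b i = ∑ j : Fin m, if j.1 < i ∧ w j = b then 1 else 0 := by
  rw [cnt, card_filter]

lemma snoc_cast {m : ℕ} (w : Fin m → Bool) (b : Bool) (j : Fin m) :
    (Fin.snoc w b : Fin (m + 1) → Bool) j.castSucc = w j := by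
  simp [Fin.snoc_castSucc (α := fun _ => Bool)]

lemma snoc_lst {m : ℕ} (w : Fin m → Bool) (b : Bool) :
    (Fin.snoc w b : Fin (m + 1) → Bool) (Fin.last m) = b := by
  simp [Fin.snoc_last (α := fun _ => Bool)]

lemma snoc_mk {m : ℕ} (w : Fin m → Bool) (b : Bool) (i : ℕ) (h : i < m) (h' : i < m + 1) :
    (Fin.snoc w b : Fin (m + 1) → Bool) ⟨i, h'⟩ = w ⟨i, h⟩ := snoc_cast w b ⟨i, h⟩

lemma cnt_snoc_le {m : ℕ} (w : Fin m → Bool) (b b' : Bool) {i : ℕ} (hi : i ≤ m) :
    cnt (Fin.snoc w b : Fin (m + 1) → Bool) b' i = cnt w b' i := by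
  rw [cnt_eq_sum, cnt_eq_sum, Fin.sum_univ_castSucc]
  simp only [snoc_cast, snoc_lst, Fin.val_castSucc, Fin.val_last]
  rw [if_neg (by omega), add_zero]

lemma cnt_snoc_last {m : ℕ} (w : Fin m → Bool) (b b' : Bool) :
    cnt (Fin.snoc w b : Fin (m + 1) → Bool) b' (m + 1) = cnt w b' m + if b = b' then 1 else 0 := by
  rw [cnt_eq_sum, cnt_eq_sum, Fin.sum_univ_castSucc]
  simp only [snoc_cast, snoc_lst, Fin.val_castSucc, Fin.val_last]
  congr 1
  · apply sum_congr rfl
    intro j _
    have := j.2
    simp [this, Nat.lt_succ_of_lt this]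
  · simp

lemma cnt_add {m : ℕ} (w : Fin m → Bool) {i : ℕ} (hi : i ≤ m) :
    cnt w true i + cnt w false i = i := by
  rw [cnt_eq_sum, cnt_eq_sum, ← sum_add_distrib]
  have : ∀ j : Fin m, ((if j.1 < i ∧ w j = true then 1 else 0) +
      (if j.1 < i ∧ w j = false then 1 else 0) : ℕ) = if j.1 < i then 1 else 0 := by
    intro j
    by_cases h : j.1 < i <;> cases w j <;> simp [h]
  rw [sum_congr rfl fun j _ => this j, Fin.sum_univ_eq_sum_range (fun j => if j < i then 1 else 0) m,
    ← card_filter]
  have : (range m).filter (fun j => j < i) = range i := by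
    ext j; simp; omega
  rw [this, card_range]

lemma ballot_snoc {m : ℕ} (w : Fin m → Bool) (b : Bool) :
    Ballot (Fin.snoc w b : Fin (m + 1) → Bool) ↔
      Ballot w ∧ cnt w true m + (if b = true then 1 else 0) ≤
        cnt w false m + (if b = false then 1 else 0) := by
  constructor
  · intro h
    refine ⟨fun i hi => ?_, ?_⟩
    · have := h i (by omega)
      rwa [cnt_snoc_le _ _ _ hi, cnt_snoc_le _ _ _ hi] at this
    · have := h (m + 1) le_rfl
      rwa [cnt_snoc_last, cnt_snoc_last] at this
  · rintro ⟨h1, h2⟩ i hi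
    rcases Nat.lt_or_ge i (m + 1) with h | h
    · rw [cnt_snoc_le _ _ _ (by omega), cnt_snoc_le _ _ _ (by omega)]
      exact h1 i (by omega)
    · obtain rfl : i = m + 1 := by omega
      rwa [cnt_snoc_last, cnt_snoc_last]

lemma prv_snoc_le {m : ℕ} (w : Fin m → Bool) (b : Bool) {i : ℕ} (hi : i ≤ m) :
    prv (Fin.snoc w b : Fin (m + 1) → Bool) i = prv w i := by
  unfold prv
  by_cases h : 0 < i
  · rw [dif_pos ⟨h, by omega⟩, dif_pos ⟨h, hi⟩, snoc_mk]
  · rw [dif_neg (by omega), dif_neg (by omega)]

lemma prv_snoc_last {m : ℕ} (w : Fin m → Bool) (b : Bool) :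
    prv (Fin.snoc w b : Fin (m + 1) → Bool) (m + 1) = b := by
  unfold prv
  rw [dif_pos ⟨by omega, le_rfl⟩]
  exact snoc_lst w b

lemma wt_snoc {K : Type*} [CommRing K] (u : ℕ → Bool → Bool → ℕ → K) {m : ℕ} (w : Fin m → Bool)
    (b : Bool) : wt u (Fin.snoc w b : Fin (m + 1) → Bool) =
      wt u w * u m (prv w m) b (cnt w false m) := by
  unfold wt
  rw [Fin.prod_univ_castSucc]
  simp only [snoc_cast, snoc_lst, Fin.val_castSucc, Fin.val_last]
  rw [prv_snoc_le _ _ le_rfl, cnt_snoc_le _ _ _ le_rfl]
  congr 1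
  apply prod_congr rfl
  intro j _
  rw [prv_snoc_le _ _ (by omega), cnt_snoc_le _ _ _ (by omega)]

lemma sum_snoc {K : Type*} [AddCommMonoid K] {m : ℕ} (f : (Fin (m + 1) → Bool) → K) :
    ∑ w, f w = ∑ w : Fin m → Bool, (f (Fin.snoc w false) + f (Fin.snoc w true)) := by
  rw [← (Fin.snocEquiv (fun _ : Fin (m + 1) => Bool)).sum_comp f, Fintype.sum_prod_type,
    Fintype.sum_bool, ← sum_add_distrib]
  apply sum_congr rfl
  intro w _
  rw [add_comm]
  rfl

open Classical in
/-- the sum of the weights over the ballot words of length `m` with `a` zeros and last letter `ℓ` -/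
noncomputable def D {K : Type*} [CommRing K] (u : ℕ → Bool → Bool → ℕ → K) (m a : ℕ) (ℓ : Bool) : K :=
  ∑ w : Fin m → Bool, if Ballot w ∧ cnt w false m = a ∧ prv w m = ℓ then wt u w else 0

section
variable {K : Type*} [CommRing K] (u : ℕ → Bool → Bool → ℕ → K)

lemma cnt_zero {w : Fin 0 → Bool} {b : Bool} {i : ℕ} : cnt w b i = 0 := by
  simp [cnt]

lemma D_zero : D u 0 0 false = 1 := by
  classical
  unfold D
  simp [Ballot, cnt_zero, prv, wt]

lemma D_zero' (a : ℕ) : D u 0 (a + 1) false = 0 := by
  classical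
  unfold D
  simp [Ballot, cnt_zero, prv]

lemma D_zero'' (a : ℕ) : D u 0 a true = 0 := by
  classical
  unfold D
  simp [Ballot, cnt_zero, prv]

lemma D_false_zero (m : ℕ) : D u (m + 1) 0 false = 0 := by
  classical
  unfold D
  rw [sum_snoc]
  apply sum_eq_zero
  intro w _
  simp only [cnt_snoc_last, prv_snoc_last]
  rw [if_neg, if_neg, add_zero]
  · simp
  · simp

lemma D_false_succ (m a : ℕ) : D u (m + 1) (a + 1) false =
    D u m a false * u m false false a + D u m a true * u m true false a := by
  classical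
  unfold D
  rw [sum_snoc, sum_mul, sum_mul, ← sum_add_distrib]
  apply sum_congr rfl
  intro w _
  simp only [cnt_snoc_last, prv_snoc_last, wt_snoc, ballot_snoc]
  rw [if_neg (by simp : ¬ ((Ballot w ∧ _) ∧ _ ∧ true = false)), add_zero]
  by_cases h1 : Ballot w
  · have h3 := h1 m le_rfl
    by_cases h2 : cnt w false m = a
    · cases h4 : prv w m
      · simp [h1, h2]
        intro h; omega
      · simp [h1, h2]
        intro h; omega
    · simp [h2]
  · simp [h1]

lemma D_true (m a : ℕ) : D u (m + 1) a true = if m + 1 ≤ 2 * a then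
    D u m a false * u m false true a + D u m a true * u m true true a else 0 := by
  classical
  unfold D
  rw [sum_snoc, sum_mul, sum_mul, ← sum_add_distrib]
  split_ifs with hma
  · apply sum_congr rfl
    intro w _
    simp only [cnt_snoc_last, prv_snoc_last, wt_snoc, ballot_snoc]
    rw [if_neg (by simp : ¬ ((Ballot w ∧ _) ∧ _ ∧ false = true)), zero_add]
    by_cases h1 : Ballot w
    · have h3 := cnt_add w (le_refl m)
      by_cases h2 : cnt w false m = a
      · cases h4 : prv w m
        · simp [h1, h2]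
          intro h; omega
        · simp [h1, h2]
          intro h; omega
      · simp [h2]
    · simp [h1]
  · apply sum_eq_zero
    intro w _
    have h3 := cnt_add w (le_refl m)
    simp only [cnt_snoc_last, prv_snoc_last, wt_snoc, ballot_snoc]
    rw [if_neg (by simp), if_neg, add_zero]
    rintro ⟨⟨h1, h2⟩, h4, h5⟩
    simp at h2 h4
    omega

end

/-! ### Gaussian binomial coefficients -/

section
variable {K : Type*} [CommRing K]

/-- Gaussian binomial coefficients `[a + b choose a]_q` -/
def G (q : K) : ℕ → ℕ → K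
  | 0, _ => 1
  | _ + 1, 0 => 1
  | a + 1, b + 1 => G q a (b + 1) + q ^ (a + 1) * G q (a + 1) b

lemma G_zero_left (q : K) (b : ℕ) : G q 0 b = 1 := by
  cases b <;> simp [G]

lemma G_zero_right (q : K) (a : ℕ) : G q a 0 = 1 := by
  cases a <;> simp [G]

lemma G_succ (q : K) (a b : ℕ) :
    G q (a + 1) (b + 1) = G q a (b + 1) + q ^ (a + 1) * G q (a + 1) b := by
  rw [G]

/-- absorption identities -/
lemma G_absorb (q : K) (n : ℕ) : ∀ a b, a + b = n →
    (1 - q ^ (a + 1)) * G q (a + 1) b = (1 - q ^ (a + 1 + b)) * G q a b ∧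
    (1 - q ^ (b + 1)) * G q a (b + 1) = (1 - q ^ (a + 1 + b)) * G q a b := by
  induction n with
  | zero =>
    intro a b h
    obtain rfl : a = 0 := by omega
    obtain rfl : b = 0 := by omega
    simp [G_zero_left, G_zero_right]
  | succ n ih =>
    intro a b h
    constructor
    · cases b with
      | zero => simp [G_zero_right]
      | succ b =>
        obtain ⟨h1, -⟩ := ih a b (by omega)
        obtain ⟨-, h2⟩ := ih a b (by omega)
        rw [G_succ]
        have e1 : q ^ (a + 1 + (b + 1)) = q ^ (a + 1) * q ^ (b + 1) := by rw [← pow_add]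
        rw [e1]
        linear_combination q ^ (a + 1) * h1 - q ^ (a + 1) * h2
    · cases a with
      | zero => simp [G_zero_left, add_comm]
      | succ a =>
        obtain ⟨h1, h2⟩ := ih a b (by omega)
        obtain ⟨h3, h4⟩ := ih a b (by omega)
        -- `(1 - q^(b+1)) (G a (b+1) + q^(a+1) G (a+1) b)`
        rw [G_succ]
        have e1 : q ^ (a + 1 + 1 + b) = q ^ (a + 1) * q ^ (b + 1) := by
          rw [← pow_add]; congr 1; omega
        rw [e1]
        linear_combination h2 - h1

/-- the second Pascal rule -/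
lemma G_succ' (q : K) (a b : ℕ) :
    G q (a + 1) (b + 1) = q ^ (b + 1) * G q a (b + 1) + G q (a + 1) b := by
  obtain ⟨h1, h2⟩ := G_absorb q (a + b) a b rfl
  rw [G_succ]
  linear_combination h2 - h1

lemma G_symm (q : K) (n : ℕ) : ∀ a b, a + b = n → G q a b = G q b a := by
  induction n with
  | zero =>
    intro a b h
    obtain rfl : a = 0 := by omega
    obtain rfl : b = 0 := by omega
    rfl
  | succ n ih =>
    intro a b h
    cases a with
    | zero => rw [G_zero_left, G_zero_right]
    | succ a =>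
      cases b with
      | zero => rw [G_zero_left, G_zero_right]
      | succ b =>
        rw [G_succ, G_succ', ih a (b + 1) (by omega), ih (a + 1) b (by omega)]
        ring

/-- the generating polynomial of the ballot words with `a` zeros and `b` ones, `b ≤ a` -/
def F (q : K) (a : ℕ) : ℕ → K
  | 0 => 1
  | b + 1 => G q a (b + 1) - q * G q (a + 1) b

lemma F_rec (q : K) (a b : ℕ) :
    F q (a + 1) (b + 1) = F q a (b + 1) + F q (a + 1) b + (q ^ (a + b + 1) - 1) * F q a b := by
  cases b with
  | zero =>
    obtain ⟨h1, h2⟩ := G_absorb q (a + 0) a 0 rfl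
    simp only [F, G_zero_right, zero_add] at *
    rw [G_succ, G_zero_right]
    simp
    ring
  | succ b =>
    obtain ⟨h1, h2⟩ := G_absorb q _ a (b + 1) rfl
    obtain ⟨h3, h4⟩ := G_absorb q _ (a + 1) b rfl
    simp only [F]
    rw [G_succ q a (b + 1), G_succ q (a + 1) b]
    have e1 : q ^ (a + 1 + 1 + b) = q ^ (a + (b + 1) + 1) := by congr 1; omega
    have e2 : q ^ (a + 1 + (b + 1)) = q ^ (a + (b + 1) + 1) := by congr 1; omega
    rw [e1] at h3
    rw [e2] at h1
    linear_combination -h1 + q * h3

lemma F_diag (q : K) (a : ℕ) : F q (a + 1) (a + 1) = F q (a + 1) a := by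
  cases a with
  | zero =>
    simp only [F]
    rw [G_succ, G_zero_left, G_zero_right, G_zero_right]
    ring
  | succ a =>
    simp only [F]
    rw [G_succ' q (a + 1) (a + 1), G_succ' q (a + 1 + 1) a, G_symm q _ (a + 1) (a + 1 + 1) rfl]
    ring

end

section
variable {K : Type*} [Field K]

lemma G_inv (q : K) (hq : q ≠ 0) (n : ℕ) : ∀ a b, a + b = n →
    q ^ (a * b) * G q⁻¹ a b = G q a b := by
  induction n with
  | zero =>
    intro a b h
    obtain rfl : a = 0 := by omega
    obtain rfl : b = 0 := by omega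
    simp [G_zero_left]
  | succ n ih =>
    intro a b h
    cases a with
    | zero => simp [G_zero_left]
    | succ a =>
      cases b with
      | zero => simp [G_zero_right]
      | succ b =>
        rw [G_succ q⁻¹, G_succ' q, ← ih a (b + 1) (by omega), ← ih (a + 1) b (by omega)]
        have e1 : q ^ ((a + 1) * (b + 1)) = q ^ (b + 1) * q ^ (a * (b + 1)) := by
          rw [← pow_add]; congr 1; ring
        have e2 : q ^ ((a + 1) * (b + 1)) = q ^ (a + 1) * q ^ ((a + 1) * b) := by
          rw [← pow_add]; congr 1; ring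
        rw [mul_add, ← mul_assoc]
        nth_rw 1 [e1]
        rw [e2]
        have : q ^ (a + 1) * q⁻¹ ^ (a + 1) = 1 := by
          rw [← mul_pow, mul_inv_cancel₀ hq, one_pow]
        linear_combination (q ^ ((a + 1) * b) * G q⁻¹ (a + 1) b) * this

lemma F_inv (q : K) (hq : q ≠ 0) (n : ℕ) :
    q ^ (n * (n - 1)) * F q⁻¹ n n = F q n n := by
  cases n with
  | zero => simp [F]
  | succ n =>
    simp only [F, Nat.add_sub_cancel]
    have h1 := G_inv q hq _ (n + 1) (n + 1) rfl
    have h2 := G_inv q hq _ (n + 1 + 1) n rfl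
    obtain ⟨h3, -⟩ := G_absorb q _ (n + 1) n rfl
    obtain ⟨-, h4⟩ := G_absorb q _ (n + 1) n rfl
    have h5 : q ^ ((n + 1) * (n + 1)) = q ^ ((n + 1) * n) * q ^ (n + 1) := by
      rw [← pow_add]; congr 1
    have h6 : q ^ ((n + 1 + 1) * n) = q ^ ((n + 1) * n) * q ^ n := by
      rw [← pow_add]; congr 1; ring
    have hqn : q ^ (n + 1) ≠ 0 := pow_ne_zero _ hq
    apply mul_left_cancel₀ hqn
    rw [h5] at h1
    rw [h6] at h2
    have h7 : q * q⁻¹ = 1 := mul_inv_cancel₀ hq
    have h8 : q ^ (n + 1) = q * q ^ n := by ring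
    have h9 : q ^ (n + 1 + 1) = q * (q * q ^ n) := by ring
    rw [h9] at h3
    rw [h8] at h4 h1 ⊢
    linear_combination h1 - h2 + h4 - h3 - (q ^ ((n + 1) * n) * q ^ n * G q⁻¹ (n + 1 + 1) n) * h7

end


/-! ### the recursion -/

section
variable {K : Type*} [CommRing K]

lemma S_formula (q : K) (S : ℕ → ℕ → K) (h0 : S 0 0 = 1) (h0' : ∀ a, S 0 (a + 1) = 0)
    (hz : ∀ m, S (m + 1) 0 = 0) (h1 : S 1 1 = 1) (h1' : ∀ a, S 1 (a + 2) = 0)
    (hr : ∀ m a, S (m + 2) (a + 1) = S (m + 1) a +
      (if m + 1 ≤ 2 * a then (q ^ (m + 1) - 1) * S m a else 0) +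
      (if m ≤ 2 * a then S (m + 1) (a + 1) else 0)) :
    ∀ m a, S m a = if m ≤ 2 * a ∧ a ≤ m then F q a (m - a) else 0 := by
  have key : ∀ m, (∀ a, S m a = if m ≤ 2 * a ∧ a ≤ m then F q a (m - a) else 0) ∧
      (∀ a, S (m + 1) a = if m + 1 ≤ 2 * a ∧ a ≤ m + 1 then F q a (m + 1 - a) else 0) := by
    intro m
    induction m with
    | zero =>
      constructor
      · intro a
        cases a with
        | zero => simp [h0, F]
        | succ a => rw [h0', if_neg (by omega)]
      · intro a
        rcases a with _ | _ | a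
        · rw [hz, if_neg (by omega)]
        · rw [if_pos (by omega)]
          simpa [F] using h1
        · rw [if_neg (by omega)]
          exact h1' a
    | succ m ih =>
      obtain ⟨ih1, ih2⟩ := ih
      refine ⟨ih2, ?_⟩
      intro a
      cases a with
      | zero => rw [hz, if_neg (by omega)]
      | succ a =>
        rw [hr, ih1, ih2, ih2]
        by_cases h2 : m ≤ 2 * a
        · by_cases h3 : a ≤ m
          · obtain ⟨b, rfl⟩ := Nat.exists_eq_add_of_le h3
            rw [if_pos h2, if_pos (show a + b + 1 ≤ 2 * (a + 1) ∧ a + 1 ≤ a + b + 1 by omega),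
              if_pos (show a + b + 1 + 1 ≤ 2 * (a + 1) ∧ a + 1 ≤ a + b + 1 + 1 by omega),
              if_pos (show a + b ≤ 2 * a ∧ a ≤ a + b by omega)]
            have e1 : a + b + 1 + 1 - (a + 1) = b + 1 := by omega
            have e2 : a + b + 1 - (a + 1) = b := by omega
            have e3 : a + b - a = b := by omega
            have e4 : a + b + 1 - a = b + 1 := by omega
            rw [e1, e2, e3, e4]
            by_cases h4 : a + b + 1 ≤ 2 * a
            · rw [if_pos ⟨h4, by omega⟩, if_pos h4, F_rec]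
              ring
            · obtain rfl : b = a := by omega
              rw [if_neg (by omega), if_neg h4, F_diag]
              ring
          · by_cases h4 : a = m + 1
            · subst h4
              rw [if_pos (by omega), if_pos (by omega), if_neg (by omega), if_pos h2,
                if_neg (by omega), if_pos (by omega)]
              have e1 : m + 1 - (m + 1) = 0 := by omega
              have e2 : m + 1 + 1 - (m + 1 + 1) = 0 := by omega
              rw [e1, e2]
              simp [F]
            · rw [if_neg (by omega), if_neg (show ¬ (m ≤ 2 * a ∧ a ≤ m) by omega),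
                if_neg (show ¬ (m + 1 ≤ 2 * (a + 1) ∧ a + 1 ≤ m + 1) by omega),
                if_neg (show ¬ (m + 1 + 1 ≤ 2 * (a + 1) ∧ a + 1 ≤ m + 1 + 1) by omega)]
              simp
        · rw [if_neg (by omega), if_neg (by omega), if_neg h2, if_neg (by omega)]
          simp
  intro m
  exact (key m).1

/-- weight for the major index -/
def uMaj (q : K) (i : ℕ) (p c : Bool) (_ : ℕ) : K := if p = true ∧ c = false then q ^ i else 1

/-- weight for the sum of the positions of the high peaks -/
def uHp (q : K) (i : ℕ) (p c : Bool) (a : ℕ) : K :=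
  if p = false ∧ c = true ∧ i + 2 ≤ 2 * a then q ^ i else 1

lemma maj_formula (q : K) (m a : ℕ) : D (uMaj q) m a false + D (uMaj q) m a true =
    if m ≤ 2 * a ∧ a ≤ m then F q a (m - a) else 0 := by
  apply S_formula q (fun m a => D (uMaj q) m a false + D (uMaj q) m a true)
  · simp only [D_zero, D_zero'', add_zero]
  · intro a
    simp only [D_zero', D_zero'', add_zero]
  · intro m
    simp only [D_false_zero, D_true]
    rw [if_neg (by omega), add_zero]
  · simp only [D_false_succ _ 0, D_true, D_zero, D_zero', D_zero'', uMaj]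
    simp
  · intro a
    simp only [D_false_succ, D_true, D_zero', D_zero'', uMaj]
    simp
  · intro m a
    have h2 := D_true (uMaj q) m a
    have h3 := D_false_succ (uMaj q) (m + 1) a
    have h4 := D_true (uMaj q) (m + 1) (a + 1)
    simp only [uMaj] at h2 h3 h4
    simp at h2 h3 h4
    rw [h3, h4, h2]
    by_cases h5 : m + 1 ≤ 2 * a
    · rw [if_pos (show m < 2 * a by omega), if_pos (show m + 1 < 2 * (a + 1) by omega),
        if_pos h5, if_pos (show m ≤ 2 * a by omega)]
      ring
    · rw [if_neg (show ¬ m < 2 * a by omega), if_neg h5]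
      by_cases h6 : m ≤ 2 * a
      · rw [if_pos (show m + 1 < 2 * (a + 1) by omega), if_pos h6]; ring
      · rw [if_neg (show ¬ m + 1 < 2 * (a + 1) by omega), if_neg h6]; ring

lemma hp_formula (q : K) (m a : ℕ) : D (uHp q) m a false + D (uHp q) m a true =
    if m ≤ 2 * a ∧ a ≤ m then F q a (m - a) else 0 := by
  apply S_formula q (fun m a => D (uHp q) m a false + D (uHp q) m a true)
  · simp only [D_zero, D_zero'', add_zero]
  · intro a
    simp only [D_zero', D_zero'', add_zero]
  · intro m
    simp only [D_false_zero, D_true]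
    rw [if_neg (by omega), add_zero]
  · simp only [D_false_succ _ 0, D_true, D_zero, D_zero', D_zero'', uHp]
    simp
  · intro a
    simp only [D_false_succ, D_true, D_zero', D_zero'', uHp]
    simp
  · intro m a
    have h2 := D_false_succ (uHp q) m a
    have h3 := D_false_succ (uHp q) (m + 1) a
    have h4 := D_true (uHp q) (m + 1) (a + 1)
    simp only [uHp] at h2 h3 h4
    simp at h2 h3 h4
    rw [h3, h4, h2]
    by_cases h5 : m + 1 ≤ 2 * a
    · split_ifs <;> first | omega | ring
    · split_ifs <;> first | omega | ring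

end

/-! ### the statistics -/

/-- the major index of a sequence: the sum of the descents, the position of the descent
`f (j-1) > f j` (indices counted from `0`) being `j` -/
def maj {m : ℕ} (f : Fin m → ℕ) : ℕ :=
  ∑ j : Fin m, if f j < f ⟨j.1 - 1, by omega⟩ then j.1 else 0

lemma wt_maj {K : Type*} [CommRing K] (q : K) {m : ℕ} (w : Fin m → Bool) :
    wt (uMaj q) w = q ^ maj (fun i => (w i).toNat) := by
  unfold wt maj
  rw [← prod_pow_eq_pow_sum]
  apply prod_congr rfl
  intro j _
  unfold uMaj prv
  by_cases hj : 0 < j.1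
  · rw [dif_pos ⟨hj, by omega⟩]
    cases h1 : w j <;> cases h2 : w ⟨j.1 - 1, by omega⟩ <;> simp [h1, h2]
  · rw [dif_neg (by omega)]
    have : j.1 = 0 := by omega
    simp [this]

/-- the sum of the positions of the high peaks of a word -/
def hps {m : ℕ} (w : Fin m → Bool) : ℕ :=
  ∑ j : Fin m, if w ⟨j.1 - 1, by omega⟩ = false ∧ w j = true ∧ j.1 + 2 ≤ 2 * cnt w false j.1
    then j.1 else 0

lemma wt_hp {K : Type*} [CommRing K] (q : K) {m : ℕ} (w : Fin m → Bool) :
    wt (uHp q) w = q ^ hps w := by
  unfold wt hps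
  rw [← prod_pow_eq_pow_sum]
  apply prod_congr rfl
  intro j _
  unfold uHp prv
  by_cases hj : 0 < j.1
  · rw [dif_pos ⟨hj, by omega⟩]
    split_ifs <;> simp
  · rw [dif_neg (by omega)]
    have : j.1 = 0 := by omega
    simp [this]

/-- Catalan words: equally many zeros and ones, every initial segment has at least as many zeros
as ones -/
def Cat {m : ℕ} (w : Fin m → Bool) : Prop := Ballot w ∧ cnt w true m = cnt w false m

open Classical in
lemma sum_cat {K : Type*} [CommRing K] (u : ℕ → Bool → Bool → ℕ → K) {m n : ℕ} (hm : m = 2 * n) :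
    ∑ w ∈ univ.filter (fun w : Fin m → Bool => Cat w), wt u w = D u m n false + D u m n true := by
  unfold D
  rw [← sum_add_distrib, sum_filter]
  apply sum_congr rfl
  intro w _
  have h1 := cnt_add w (le_refl m)
  unfold Cat
  by_cases h2 : Ballot w
  · by_cases h3 : cnt w false m = n
    · rw [if_pos ⟨h2, by omega⟩]
      cases h4 : prv w m <;> simp [h2, h3]
    · rw [if_neg (by rintro ⟨_, h⟩; omega)]
      simp [h3]
  · simp [h2]

open Classical in
lemma sum_maj {K : Type*} [CommRing K] (q : K) {m n : ℕ} (hm : m = 2 * n) :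
    ∑ w ∈ univ.filter (fun w : Fin m → Bool => Cat w), q ^ maj (fun i => (w i).toNat) = F q n n := by
  rw [sum_congr rfl fun w _ => (wt_maj q w).symm, sum_cat _ hm, maj_formula, if_pos (by omega)]
  congr 1
  omega

open Classical in
lemma sum_hp {K : Type*} [CommRing K] (q : K) {m n : ℕ} (hm : m = 2 * n) :
    ∑ w ∈ univ.filter (fun w : Fin m → Bool => Cat w), q ^ hps w = F q n n := by
  rw [sum_congr rfl fun w _ => (wt_hp q w).symm, sum_cat _ hm, hp_formula, if_pos (by omega)]
  congr 1
  omega

end Pool.Agent.R121.Sh
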