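import Pool.Agent.R121.Shuffle

set_option autoImplicit false

namespace Pool.Agent.R121.Sh

open Finset

/-- the two chains of a poset of the form (2-chain) × (n-chain) on `{0, …, 2n-1}` -/
structure Chains (n : ℕ) (γ : Bool → ℕ → ℕ) (R : ℕ → ℕ → Prop) : Prop where
  lt : ∀ b c, c < n → γ b c < 2 * n
  surj : ∀ x, x < 2 * n → ∃ b c, c < n ∧ γ b c = x
  inj : ∀ b c b' c', c < n → c' < n → γ b c = γ b' c' → b = b' ∧ c = c'
  rel : ∀ b c b' c', c < n → c' < n →
    (R (γ b c) (γ b' c') ↔ (b = true → b' = true) ∧ c ≤ c')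

/-- linear extensions -/
def LE (R : ℕ → ℕ → Prop) {m : ℕ} (π : Equiv.Perm (Fin m)) : Prop :=
  ∀ a b : Fin m, R (π a) (π b) → a ≤ b

lemma cnt_mono {m : ℕ} (w : Fin m → Bool) (b : Bool) {i j : ℕ} (h : i ≤ j) :
    cnt w b i ≤ cnt w b j := by
  apply card_le_card
  intro x
  simp only [mem_filter]
  rintro ⟨h1, h2, h3⟩
  exact ⟨h1, by omega, h3⟩

lemma cnt_succ {m : ℕ} (w : Fin m → Bool) (b : Bool) (i : Fin m) :
    cnt w b (i + 1) = cnt w b i + if w i = b then 1 else 0 := by
  unfold cnt
  split_ifs with h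
  · have : (univ.filter fun j : Fin m => j.1 < i + 1 ∧ w j = b) =
        insert i (univ.filter fun j : Fin m => j.1 < i ∧ w j = b) := by
      ext j
      simp only [mem_filter, mem_univ, true_and, mem_insert]
      constructor
      · rintro ⟨h1, h2⟩
        by_cases h3 : j = i
        · exact Or.inl h3
        · exact Or.inr ⟨by have := Fin.val_ne_of_ne h3; omega, h2⟩
      · rintro (rfl | ⟨h1, h2⟩)
        · exact ⟨by omega, h⟩
        · exact ⟨by omega, h2⟩
    rw [this, card_insert_of_notMem (by simp)]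
  · have : (univ.filter fun j : Fin m => j.1 < i + 1 ∧ w j = b) =
        (univ.filter fun j : Fin m => j.1 < i ∧ w j = b) := by
      ext j
      simp only [mem_filter, mem_univ, true_and]
      constructor
      · rintro ⟨h1, h2⟩
        refine ⟨?_, h2⟩
        rcases Nat.lt_or_ge j.1 i with h3 | h3
        · exact h3
        · exfalso
          have : j = i := Fin.ext (by omega)
          exact h (this ▸ h2)
      · rintro ⟨h1, h2⟩
        exact ⟨by omega, h2⟩
    rw [this, add_zero]

lemma cnt_lt {m : ℕ} (w : Fin m → Bool) (i : Fin m) {j : ℕ} (h : i.1 < j) :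
    cnt w (w i) i < cnt w (w i) j := by
  have h1 := cnt_succ w (w i) i
  simp only [if_true] at h1
  have h2 := cnt_mono w (w i) (show i.1 + 1 ≤ j by omega)
  omega

variable {n : ℕ} {γ : Bool → ℕ → ℕ} {R : ℕ → ℕ → Prop}

open Classical in
/-- the word of a permutation: `true` at the places of the second chain -/
noncomputable def word (n : ℕ) (γ : Bool → ℕ → ℕ) {m : ℕ} (π : Equiv.Perm (Fin m)) :
    Fin m → Bool := fun i => decide (∃ c, c < n ∧ γ true c = π i)

lemma word_spec (h : Chains n γ R) {m : ℕ} (hm : m = 2 * n) (π : Equiv.Perm (Fin m)) (i : Fin m) :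
    ∃ c, c < n ∧ γ (word n γ π i) c = π i := by
  obtain ⟨b, c, hc, hbc⟩ := h.surj (π i) (by omega)
  cases b with
  | true =>
    have : word n γ π i = true := by
      simp only [word, decide_eq_true_eq]
      exact ⟨c, hc, hbc⟩
    rw [this]
    exact ⟨c, hc, hbc⟩
  | false =>
    have : word n γ π i = false := by
      simp only [word, decide_eq_false_iff_not]
      rintro ⟨c', hc', h'⟩
      have := (h.inj _ _ _ _ hc hc' (hbc.trans h'.symm)).1
      exact absurd this (by simp)
    rw [this]
    exact ⟨c, hc, hbc⟩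

lemma word_eq (h : Chains n γ R) {m : ℕ} (hm : m = 2 * n) (π : Equiv.Perm (Fin m)) (i : Fin m)
    {b : Bool} {c : ℕ} (hc : c < n) (hb : γ b c = π i) : word n γ π i = b := by
  obtain ⟨c', hc', h'⟩ := word_spec h hm π i
  exact (h.inj _ _ _ _ hc' hc (h'.trans hb.symm)).1

lemma cnt_prefix (h : Chains n γ R) {m : ℕ} (hm : m = 2 * n) (π : Equiv.Perm (Fin m))
    (b : Bool) (i k : ℕ) (hk : k ≤ n)
    (h1 : ∀ c, (hc : c < k) → (π.symm ⟨γ b c, by have := h.lt b c (by omega); omega⟩).1 < i)
    (h2 : ∀ c, k ≤ c → (hc : c < n) →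
      ¬ (π.symm ⟨γ b c, by have := h.lt b c (by omega); omega⟩).1 < i) :
    cnt (word n γ π) b i = k := by
  unfold cnt
  rw [← card_range k]
  symm
  refine card_bij (fun c hc => π.symm ⟨γ b c, by
    have := h.lt b c (by rw [mem_range] at hc; omega); omega⟩) ?_ ?_ ?_
  · intro c hc
    rw [mem_range] at hc
    simp only [mem_filter, mem_univ, true_and]
    refine ⟨h1 c hc, ?_⟩
    apply word_eq h hm π _ (show c < n by omega)
    simp
  · intro c hc c' hc' he
    rw [mem_range] at hc hc'
    have := π.symm.injective he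
    simp only [Fin.mk.injEq] at this
    exact (h.inj _ _ _ _ (by omega) (by omega) this).2
  · intro j hj
    simp only [mem_filter, mem_univ, true_and] at hj
    obtain ⟨hj1, hj2⟩ := hj
    obtain ⟨c, hc, hcj⟩ := word_spec h hm π j
    rw [hj2] at hcj
    have e : π.symm ⟨γ b c, by have := h.lt b c (by omega); omega⟩ = j := by
      rw [Equiv.symm_apply_eq]
      exact Fin.ext hcj
    refine ⟨c, ?_, e⟩
    rw [mem_range]
    by_contra hck
    apply h2 c (by omega) hc
    rw [e]
    exact hj1

lemma LE.symm_le (h : Chains n γ R) {m : ℕ} (hm : m = 2 * n) {π : Equiv.Perm (Fin m)}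
    (hπ : LE R π) {b b' : Bool} {c c' : ℕ} (hc : c < n) (hc' : c' < n)
    (hb : b = true → b' = true) (hcc : c ≤ c') :
    π.symm ⟨γ b c, by have := h.lt b c hc; omega⟩ ≤
      π.symm ⟨γ b' c', by have := h.lt b' c' hc'; omega⟩ := by
  apply hπ
  simp only [Equiv.apply_symm_apply]
  exact (h.rel _ _ _ _ hc hc').2 ⟨hb, hcc⟩

lemma formula (h : Chains n γ R) {m : ℕ} (hm : m = 2 * n) {π : Equiv.Perm (Fin m)}
    (hπ : LE R π) (i : Fin m) :
    (π i : ℕ) = γ (word n γ π i) (cnt (word n γ π) (word n γ π i) i) ∧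
      cnt (word n γ π) (word n γ π i) i < n := by
  obtain ⟨c, hc, hci⟩ := word_spec h hm π i
  set b := word n γ π i with hb
  have e : π.symm ⟨γ b c, by have := h.lt b c hc; omega⟩ = i := by
    rw [Equiv.symm_apply_eq]
    exact Fin.ext hci
  have : cnt (word n γ π) b i = c := by
    apply cnt_prefix h hm π b i c hc.le
    · intro d hd
      have h1 := hπ.symm_le h hm (show d < n by omega) hc (b := b) (b' := b) (fun x => x)
        (show d ≤ c by omega)
      rw [e] at h1
      apply lt_of_le_of_ne h1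
      intro h2
      have h3 := h2.trans e.symm
      have := π.symm.injective h3
      simp only [Fin.mk.injEq] at this
      have := (h.inj _ _ _ _ (by omega) (by omega) this).2
      omega
    · intro d hd hdn
      have h1 := hπ.symm_le h hm hc hdn (b := b) (b' := b) (fun x => x) hd
      rw [e, Fin.le_def] at h1
      omega
  rw [this]
  exact ⟨hci.symm, hc⟩

lemma word_false (h : Chains n γ R) {m : ℕ} (hm : m = 2 * n) {π : Equiv.Perm (Fin m)}
    (b : Bool) : cnt (word n γ π) b m = n := by
  apply cnt_prefix h hm π b m n le_rfl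
  · intro c hc
    exact Fin.is_lt _
  · intro c hc hc'
    omega

lemma word_ballot (h : Chains n γ R) {m : ℕ} (hm : m = 2 * n) {π : Equiv.Perm (Fin m)}
    (hπ : LE R π) : Ballot (word n γ π) := by
  intro i hi
  by_contra hlt
  push Not at hlt
  -- the element with index `cnt false i` of the second chain is among the first `i`
  set k := cnt (word n γ π) false i with hk
  have hkn : k < n := by
    have := cnt_mono (word n γ π) true hi
    rw [word_false h hm] at this
    omega
  -- position of `γ false k`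
  have h1 : ∀ b, (hkb : k < n) → word n γ π (π.symm ⟨γ b k, by have := h.lt b k hkb; omega⟩) = b := by
    intro b hkb
    apply word_eq h hm π _ hkb
    simp
  have h2 : ∀ b, cnt (word n γ π) b (π.symm ⟨γ b k, by have := h.lt b k hkn; omega⟩) = k := by
    intro b
    have h3 := (formula h hm hπ (π.symm ⟨γ b k, by have := h.lt b k hkn; omega⟩))
    rw [h1 b hkn] at h3
    simp only [Equiv.apply_symm_apply] at h3
    exact (h.inj _ _ _ _ hkn h3.2 h3.1).2.symm
  have h4 : i ≤ (π.symm ⟨γ false k, by have := h.lt false k hkn; omega⟩).1 := by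
    by_contra h5
    push Not at h5
    have := cnt_lt (word n γ π) (π.symm ⟨γ false k, by have := h.lt false k hkn; omega⟩) h5
    rw [h1 false hkn, h2] at this
    omega
  have h5 := hπ.symm_le h hm hkn hkn (b := false) (b' := true) (by simp) le_rfl
  rw [Fin.le_def] at h5
  have h6 := cnt_mono (word n γ π) true (h4.trans h5)
  rw [h2 true] at h6
  omega

/-- the permutation of a word -/
lemma exists_perm (h : Chains n γ R) {m : ℕ} (hm : m = 2 * n) (w : Fin m → Bool) (hw : Cat w) :
    ∃ π : Equiv.Perm (Fin m), LE R π ∧ word n γ π = w := by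
  have h1 := cnt_add w (le_refl m)
  obtain ⟨hB, hE⟩ := hw
  have hn : ∀ b, cnt w b m = n := by
    intro b
    cases b <;> omega
  have hlt : ∀ i : Fin m, cnt w (w i) i < n := by
    intro i
    have := cnt_lt w i i.2
    rw [hn] at this
    exact this
  have hinj : Function.Injective (fun i : Fin m =>
      (⟨γ (w i) (cnt w (w i) i), by have := h.lt (w i) _ (hlt i); omega⟩ : Fin m)) := by
    intro i j hij
    simp only [Fin.mk.injEq] at hij
    obtain ⟨h2, h3⟩ := h.inj _ _ _ _ (hlt i) (hlt j) hij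
    rcases lt_trichotomy i j with h4 | h4 | h4
    · have := cnt_lt w i (show i.1 < j.1 from h4)
      rw [h3, h2] at this
      omega
    · exact h4
    · have := cnt_lt w j (show j.1 < i.1 from h4)
      rw [← h3, h2] at this
      omega
  let π : Equiv.Perm (Fin m) := Equiv.ofBijective _ (Finite.injective_iff_bijective.1 hinj)
  have hπ : ∀ i, (π i : ℕ) = γ (w i) (cnt w (w i) i) := fun i => rfl
  refine ⟨π, ?_, ?_⟩
  · intro a b hab
    rw [hπ, hπ, h.rel _ _ _ _ (hlt a) (hlt b)] at hab
    by_contra hlt'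
    rw [not_le, Fin.lt_def] at hlt'
    obtain ⟨h2, h3⟩ := hab
    have h4 := cnt_lt w b hlt'
    cases h5 : w a <;> cases h6 : w b <;> rw [h5, h6] at h3 <;> rw [h6] at h4
    · omega
    · have h7 := hB (b.1 + 1) (by omega)
      rw [cnt_succ, cnt_succ, h6] at h7
      simp at h7
      have h8 := cnt_mono w false (show b.1 ≤ a.1 by omega)
      omega
    · exact absurd (h2 h5) (by rw [h6]; simp)
    · omega
  · funext i
    exact word_eq h hm π i (hlt i) rfl

open Classical in
/-- Linear extensions of a product of a 2-chain and an `n`-chain correspond to Catalan words. -/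
theorem sum_linExt {K : Type*} [AddCommMonoid K] (h : Chains n γ R) {m : ℕ} (hm : m = 2 * n)
    (P : Equiv.Perm (Fin m) → Prop) (Q : (Fin m → Bool) → Prop)
    (Φ : Equiv.Perm (Fin m) → K) (Ψ : (Fin m → Bool) → K)
    (hPQ : ∀ π, LE R π → (P π ↔ Q (word n γ π)))
    (hΦ : ∀ π, LE R π → P π → Φ π = Ψ (word n γ π)) :
    ∑ π ∈ univ.filter (fun π : Equiv.Perm (Fin m) => LE R π ∧ P π), Φ π =
      ∑ w ∈ univ.filter (fun w : Fin m → Bool => Cat w ∧ Q w), Ψ w := by
  refine sum_bij (fun π _ => word n γ π) ?_ ?_ ?_ ?_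
  · intro π hπ
    simp only [mem_filter, mem_univ, true_and] at hπ ⊢
    obtain ⟨h1, h2⟩ := hπ
    refine ⟨⟨word_ballot h hm h1, ?_⟩, (hPQ π h1).1 h2⟩
    rw [word_false h hm, word_false h hm]
  · intro π hπ σ hσ he
    simp only [mem_filter, mem_univ, true_and] at hπ hσ
    apply Equiv.ext
    intro i
    apply Fin.ext
    rw [(formula h hm hπ.1 i).1, (formula h hm hσ.1 i).1, he]
  · intro w hw
    simp only [mem_filter, mem_univ, true_and] at hw
    obtain ⟨π, h1, h2⟩ := exists_perm h hm w hw.1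
    refine ⟨π, ?_, h2⟩
    simp only [mem_filter, mem_univ, true_and]
    refine ⟨h1, (hPQ π h1).2 ?_⟩
    rw [h2]
    exact hw.2
  · intro π hπ
    simp only [mem_filter, mem_univ, true_and] at hπ
    exact hΦ π hπ.1 hπ.2

/-- `π` avoids `123`. -/
def Avoids123 {m : ℕ} (π : Equiv.Perm (Fin m)) : Prop :=
  ¬ ∃ a b c : Fin m, a < b ∧ b < c ∧ π a < π b ∧ π b < π c

lemma avoids123 (h : Chains n γ R) {m : ℕ} (hm : m = 2 * n) {π : Equiv.Perm (Fin m)}
    (hπ : LE R π) (hγ : ∀ b c c', c < c' → c' < n → γ b c' < γ b c) : Avoids123 π := by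
  rintro ⟨a, b, c, h1, h2, h3, h4⟩
  have key : ∀ i j : Fin m, i < j → π i < π j → word n γ π i ≠ word n γ π j := by
    intro i j hij h5 h6
    have h7 := cnt_lt (word n γ π) i (show i.1 < j.1 from hij)
    have h8 := formula h hm hπ i
    have h9 := formula h hm hπ j
    rw [h6] at h8 h7
    have := hγ (word n γ π j) _ _ h7 h9.2
    rw [Fin.lt_def, h8.1, h9.1] at h5
    omega
  have k1 := key a b h1 h3
  have k2 := key b c h2 h4
  have k3 := key a c (h1.trans h2) (h3.trans h4)
  cases ha : word n γ π a <;> cases hb : word n γ π b <;> cases hc : word n γ π c <;> simp_all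


/-- two consecutive entries of a linear extension -/
lemma local_cases (h : Chains n γ R) {m : ℕ} (hm : m = 2 * n) {π : Equiv.Perm (Fin m)}
    (hπ : LE R π) (j : Fin m) (hj : 0 < j.1) :
    ∃ a b : ℕ, cnt (word n γ π) false (j.1 - 1) = a ∧ a + b = j.1 - 1 ∧ b ≤ a ∧
    ((word n γ π ⟨j.1 - 1, by omega⟩ = false ∧ word n γ π j = false ∧
        (π ⟨j.1 - 1, by omega⟩ : ℕ) = γ false a ∧ (π j : ℕ) = γ false (a + 1) ∧ a + 1 < n) ∨
      (word n γ π ⟨j.1 - 1, by omega⟩ = false ∧ word n γ π j = true ∧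
        (π ⟨j.1 - 1, by omega⟩ : ℕ) = γ false a ∧ (π j : ℕ) = γ true b ∧ a < n) ∨
      (word n γ π ⟨j.1 - 1, by omega⟩ = true ∧ word n γ π j = false ∧
        (π ⟨j.1 - 1, by omega⟩ : ℕ) = γ true b ∧ (π j : ℕ) = γ false a ∧ a < n ∧ b + 1 ≤ a) ∨
      (word n γ π ⟨j.1 - 1, by omega⟩ = true ∧ word n γ π j = true ∧
        (π ⟨j.1 - 1, by omega⟩ : ℕ) = γ true b ∧ (π j : ℕ) = γ true (b + 1) ∧ b + 1 < n)) := by
  set w := word n γ π with hw
  have h1 := formula h hm hπ j
  have h2 := formula h hm hπ ⟨j.1 - 1, by omega⟩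
  have h3 := fun b => cnt_succ w b ⟨j.1 - 1, by omega⟩
  have h4 := cnt_add w (show j.1 - 1 ≤ m by omega)
  have h5 := word_ballot h hm hπ (j.1 - 1) (by omega)
  have h6 := word_ballot h hm hπ j.1 (by omega)
  rw [← hw] at h1 h2 h5 h6
  simp only at h2 h3
  have e : j.1 - 1 + 1 = j.1 := by omega
  rw [e] at h3
  refine ⟨_, _, rfl, (add_comm _ _).trans h4, h5, ?_⟩
  cases h7 : w ⟨j.1 - 1, by omega⟩ <;> cases h8 : w j
  · left
    have := h3 false
    rw [h7] at h2
    rw [h8] at h1
    simp only [h7, if_true] at this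
    rw [this] at h1
    exact ⟨rfl, rfl, h2.1, h1.1, h1.2⟩
  · right; left
    have := h3 true
    rw [h7] at h2
    rw [h8] at h1
    simp only [h7] at this
    simp at this
    rw [this] at h1
    exact ⟨rfl, rfl, h2.1, h1.1, h2.2⟩
  · right; right; left
    have := h3 false
    have h9 := h3 true
    rw [h7] at h2
    rw [h8] at h1
    simp only [h7] at this h9
    simp at this h9
    rw [this] at h1
    exact ⟨rfl, rfl, h2.1, h1.1, h1.2, by omega⟩
  · right; right; right
    have := h3 true
    rw [h7] at h2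
    rw [h8] at h1
    simp only [h7, if_true] at this
    rw [this] at h1
    exact ⟨rfl, rfl, h2.1, h1.1, h1.2⟩

lemma sum_idx (m n : ℕ) (hm : m = 2 * n) : ∑ j : Fin m, j.1 = n * (2 * n - 1) := by
  rw [Fin.sum_univ_eq_sum_range (fun j => j) m, hm]
  have h1 := Finset.sum_range_id_mul_two (2 * n)
  cases n with
  | zero => simp
  | succ n =>
    have : 2 * (n + 1) - 1 = 2 * n + 1 := by omega
    rw [this] at h1 ⊢
    apply Nat.eq_of_mul_eq_mul_right (show 0 < 2 by norm_num)
    rw [h1]
    ring

/-- The final computation (palindromicity of `c_n`). -/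
lemma final {n m : ℕ} (hm : m = 2 * n) (A : Polynomial ℤ) (e : ℕ)
    (hA : ∀ (K : Type) [Field K] (q : K), q ≠ 0 → ∀ f : Polynomial ℤ →+* K, f Polynomial.X = q →
      f A = q ^ (e + n * (n - 1)) * F q⁻¹ n n) :
    A = Polynomial.X ^ e * (by classical exact ∑ w ∈ univ.filter (fun w : Fin m → Bool => Cat w),
      (Polynomial.X : Polynomial ℤ) ^ maj (fun i => (w i).toNat)) := by
  classical
  set f := algebraMap (Polynomial ℤ) (FractionRing (Polynomial ℤ)) with hf
  have hinj : Function.Injective f := IsFractionRing.injective _ _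
  have hq : f Polynomial.X ≠ 0 := by
    intro h0
    have := hinj (h0.trans (map_zero f).symm)
    exact Polynomial.X_ne_zero this
  apply hinj
  rw [hA _ (f Polynomial.X) hq f rfl, map_mul, map_pow, map_sum]
  simp only [map_pow]
  rw [sum_maj (f Polynomial.X) hm, ← F_inv (f Polynomial.X) hq n, pow_add, mul_assoc]

end Pool.Agent.R121.Sh
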