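import Pool.Agent.R121.OfFn
import Pool.Agent.R121.LowerMoebius

set_option autoImplicit false

/-!
# Symmetric exchange of 12 and 21 at both corners
-/

namespace Pool.Agent.R121.SignedEx

open Finset Pool.Agent.R121 Pool.Agent.R121.LowerMoebius

variable {N m : ℕ}

/-- invariant under reverse complement -/
def Sym (N : ℕ) (f : ℕ → ℕ) : Prop := ∀ a < N, f (N - 1 - a) = N - 1 - f a

/-- an occurrence of `α` between two quadrants -/
def E (N : ℕ) (α : Fin m → ℕ) (f : ℕ → ℕ) (p q : ℕ × ℕ) : Prop :=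
  ∃ X : Fin m → ℕ, StrictMono X ∧
    (∀ s, p.1 ≤ X s ∧ X s + q.1 < N ∧ p.2 ≤ f (X s) ∧ f (X s) + q.2 < N) ∧
    ∀ s t, f (X s) < f (X t) ↔ α s < α t

/-- an occurrence of `12` (`t = true`) or `21` (`t = false`) in a quadrant -/
def T (t : Bool) (f : ℕ → ℕ) (p : ℕ × ℕ) : Prop :=
  ∃ a b, a < b ∧ b < p.1 ∧ f a < p.2 ∧ f b < p.2 ∧ (if t = true then f a < f b else f b < f a)

/-- the point in column `a` is in `D` -/
def InD (D : Finset (ℕ × ℕ)) (f : ℕ → ℕ) (a : ℕ) : Prop := (a + 1, f a + 1) ∈ D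

/-- `D` meets its mirror image -/
def Ov (N : ℕ) (D : Finset (ℕ × ℕ)) : Prop := ∃ p ∈ D, ∃ q ∈ D, N < p.1 + q.1 ∧ N < p.2 + q.2

/-- the same class -/
structure Same (N : ℕ) (D : Finset (ℕ × ℕ)) (f h : ℕ → ℕ) : Prop where
  cols : ∀ a < N, InD D f a ↔ InD D h a
  rows : ∀ a < N, InD D f a → ∃ b < N, InD D h b ∧ h b = f a
  rows' : ∀ a < N, InD D h a → ∃ b < N, InD D f b ∧ f b = h a
  out : ∀ a < N, ¬ InD D f a → ¬ InD D f (N - 1 - a) → f a = h a

lemma Same.refl (D : Finset (ℕ × ℕ)) (f : ℕ → ℕ) : Same N D f f :=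
  ⟨fun _ _ => Iff.rfl, fun a ha h => ⟨a, ha, h, rfl⟩, fun a ha h => ⟨a, ha, h, rfl⟩,
    fun _ _ _ _ => rfl⟩

lemma Same.symm {D : Finset (ℕ × ℕ)} {f h : ℕ → ℕ} (hs : Same N D f h) : Same N D h f :=
  ⟨fun a ha => (hs.cols a ha).symm, hs.rows', hs.rows, fun a ha h1 h2 =>
    (hs.out a ha (fun h => h1 ((hs.cols a ha).1 h))
      (fun h => h2 ((hs.cols _ (by omega)).1 h))).symm⟩

lemma Same.trans {D : Finset (ℕ × ℕ)} {f h k : ℕ → ℕ} (h1 : Same N D f h) (h2 : Same N D h k) :
    Same N D f k := by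
  refine ⟨fun a ha => (h1.cols a ha).trans (h2.cols a ha), ?_, ?_, ?_⟩
  · intro a ha h
    obtain ⟨b, hb, hb1, hb2⟩ := h1.rows a ha h
    obtain ⟨c, hc, hc1, hc2⟩ := h2.rows b hb hb1
    exact ⟨c, hc, hc1, hc2.trans hb2⟩
  · intro a ha h
    obtain ⟨b, hb, hb1, hb2⟩ := h2.rows' a ha h
    obtain ⟨c, hc, hc1, hc2⟩ := h1.rows' b hb hb1
    exact ⟨c, hc, hc1, hc2.trans hb2⟩
  · intro a ha ha1 ha2
    exact (h1.out a ha ha1 ha2).trans (h2.out a ha (fun h => ha1 ((h1.cols a ha).2 h))
      (fun h => ha2 ((h1.cols _ (by omega)).2 h)))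

/-- every occurrence of `α` has no bad pair on one of its sides -/
def Cond (N : ℕ) (α : Fin m → ℕ) (f : ℕ → ℕ) (D : Finset (ℕ × ℕ)) : Prop :=
  ∀ p q, E N α f p q → p ∈ D ∨ q ∈ D

lemma cond_local {α : Fin m → ℕ} {D S : Finset (ℕ × ℕ)} (hD : Lower D) (hS : S ⊆ cor D)
    {f h : ℕ → ℕ} (hh : Sym N h) (hs : Same N D f h) (hc : Cond N α f (D \ S)) :
    Cond N α h (D \ S) := by
  intro p q hE
  by_contra hcon
  have hp : p ∉ D \ S := fun h => hcon (Or.inl h)
  have hq : q ∉ D \ S := fun h => hcon (Or.inr h)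
  have key : ∀ r : ℕ × ℕ, r ∉ D \ S → ∀ u v, r.1 ≤ u → r.2 ≤ v → (u + 1, v + 1) ∉ D := by
    intro r hr u v hu hv hin
    have hlt : r < (u + 1, v + 1) := by
      rw [Prod.lt_iff]
      left
      exact ⟨by simp only; omega, by simp only; omega⟩
    apply hr
    rw [mem_sdiff]
    refine ⟨hD _ hin r hlt.le, fun h => ?_⟩
    exact (mem_cor.1 (hS h)).2 _ hin hlt
  obtain ⟨X, hX, hb, hpat⟩ := hE
  have he : ∀ s, f (X s) = h (X s) := by
    intro s
    obtain ⟨b1, b2, b3, b4⟩ := hb s
    symm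
    apply hs.symm.out _ (by omega)
    · exact key p hp _ _ b1 b3
    · have h1 := hh (X s) (by omega)
      unfold InD
      rw [h1]
      apply key q hq <;> omega
  apply hcon
  apply hc
  refine ⟨X, hX, ?_, ?_⟩
  · intro s
    rw [he]
    exact hb s
  · intro s t
    rw [he, he]
    exact hpat s t

lemma E_symm {α : Fin m → ℕ} (hα : ∀ s t, α s < α t ↔ α (Fin.rev t) < α (Fin.rev s))
    {f : ℕ → ℕ} (hf : Sym N f) {p q : ℕ × ℕ} (hE : E N α f p q) : E N α f q p := by
  obtain ⟨X, hX, hb, hpat⟩ := hE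
  refine ⟨fun s => N - 1 - X (Fin.rev s), ?_, ?_, ?_⟩
  · intro s t hst
    have h1 := hX (Fin.rev_lt_rev.2 hst)
    have h2 := hb (Fin.rev s)
    simp only
    omega
  · intro s
    have h2 := hb (Fin.rev s)
    have h3 := hf (X (Fin.rev s)) (by omega)
    simp only
    rw [h3]
    omega
  · intro s t
    have h2 := hb (Fin.rev s)
    have h3 := hf (X (Fin.rev s)) (by omega)
    have h4 := hb (Fin.rev t)
    have h5 := hf (X (Fin.rev t)) (by omega)
    simp only
    rw [h3, h5, hα, ← hpat]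
    omega

open Classical in
/-- indicator of the condition -/
noncomputable def gg (N : ℕ) (α : Fin m → ℕ) (f : ℕ → ℕ) (D : Finset (ℕ × ℕ)) : ℤ :=
  if Cond N α f D then 1 else 0

lemma moeb_local {α : Fin m → ℕ} {D : Finset (ℕ × ℕ)} (hD : Lower D)
    {f h : ℕ → ℕ} (hf : Sym N f) (hh : Sym N h) (hs : Same N D f h) :
    moeb (gg N α f) D = moeb (gg N α h) D := by
  unfold moeb
  apply Finset.sum_congr rfl
  intro S hS
  rw [mem_powerset] at hS
  have : Cond N α f (D \ S) ↔ Cond N α h (D \ S) :=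
    ⟨cond_local hD hS hh hs, cond_local hD hS hf hs.symm⟩
  unfold gg
  congr 1
  by_cases hc : Cond N α f (D \ S)
  · rw [if_pos hc, if_pos (this.1 hc)]
  · rw [if_neg hc, if_neg (fun h => hc (this.2 h))]

lemma moeb_support (hm : 0 < m) {α : Fin m → ℕ} {D : Finset (ℕ × ℕ)} (hD : Lower D)
    (hO : Ov N D) {f : ℕ → ℕ} : moeb (gg N α f) D = 0 := by
  obtain ⟨p, hp, q, hq, h1, h2⟩ := hO
  obtain ⟨s1, hs1, hm1⟩ := Finset.exists_le_maximal D hp
  obtain ⟨s2, hs2, hm2⟩ := Finset.exists_le_maximal D hq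
  have c2 : s2 ∈ cor D := mem_cor.2 ⟨hm2.1, fun r hr hlt => absurd (hm2.2 hr hlt.le)
    (not_le_of_gt hlt)⟩
  have e1 : N < s1.1 + s2.1 := by
    have a1 := hs1.1
    have a2 := hs2.1
    omega
  have e2 : N < s1.2 + s2.2 := by
    have a1 := hs1.2
    have a2 := hs2.2
    omega
  have key : ∀ S ⊆ cor D, s2 ∉ S → (Cond N α f (D \ S) ↔ Cond N α f (D \ insert s2 S)) := by
    intro S hS hn
    have hmem : ∀ r : ℕ × ℕ, r ∈ D \ S → r ≠ s2 → r ∈ D \ insert s2 S := by
      intro r hr hne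
      rw [mem_sdiff] at hr ⊢
      refine ⟨hr.1, fun h => ?_⟩
      rcases mem_insert.1 h with h | h
      · exact hne h
      · exact hr.2 h
    have hbel : ∀ r : ℕ × ℕ, r.1 + s2.1 < N → r.2 + s2.2 < N → r ∈ D \ insert s2 S := by
      intro r hr1 hr2
      have hlt : r < s1 := by
        rw [Prod.lt_iff]
        left
        exact ⟨by omega, by omega⟩
      rw [mem_sdiff]
      refine ⟨hD s1 hm1.1 r hlt.le, fun h => ?_⟩
      have : r ∈ cor D := by
        rcases mem_insert.1 h with h | h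
        · rw [h]; exact c2
        · exact hS h
      exact (mem_cor.1 this).2 s1 hm1.1 hlt
    constructor
    · intro hc p' q' hE
      have hb : p'.1 + q'.1 < N ∧ p'.2 + q'.2 < N := by
        obtain ⟨X, hX, hb, -⟩ := hE
        have := hb ⟨0, hm⟩
        omega
      rcases hc p' q' hE with h | h
      · by_cases he : p' = s2
        · right
          apply hbel <;> rw [← he] <;> omega
        · left; exact hmem _ h he
      · by_cases he : q' = s2
        · left
          apply hbel <;> rw [← he] <;> omega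
        · right; exact hmem _ h he
    · intro hc p' q' hE
      have hsub : D \ insert s2 S ⊆ D \ S := sdiff_subset_sdiff (Subset.refl D) (subset_insert s2 S)
      rcases hc p' q' hE with h | h
      · exact Or.inl (hsub h)
      · exact Or.inr (hsub h)
  classical
  unfold moeb
  refine Finset.sum_involution (fun S _ => if s2 ∈ S then S.erase s2 else insert s2 S) ?_ ?_ ?_ ?_
  · intro S hS
    rw [mem_powerset] at hS
    by_cases hin : s2 ∈ S
    · simp only [if_pos hin]
      have h3 : S.erase s2 ⊆ cor D := (erase_subset _ _).trans hS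
      have h4 := key (S.erase s2) h3 (notMem_erase _ _)
      rw [insert_erase hin] at h4
      have h5 : S.card = (S.erase s2).card + 1 := (card_erase_add_one hin).symm
      unfold gg
      rw [h5, pow_succ]
      simp only [h4]
      ring
    · simp only [if_neg hin]
      have h4 := key S hS hin
      unfold gg
      rw [card_insert_of_notMem hin, pow_succ]
      simp only [h4]
      ring
  · intro S hS _
    by_cases hin : s2 ∈ S
    · simp only [if_pos hin]
      intro h
      have := notMem_erase s2 S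
      rw [h] at this
      exact this hin
    · simp only [if_neg hin]
      intro h
      apply hin
      rw [← h]
      exact mem_insert_self _ _
  · intro S hS
    rw [mem_powerset] at hS ⊢
    by_cases hin : s2 ∈ S
    · simp only [if_pos hin]
      exact (erase_subset _ _).trans hS
    · simp only [if_neg hin]
      exact insert_subset c2 hS
  · intro S hS
    by_cases hin : s2 ∈ S
    · simp only [if_pos hin, notMem_erase, if_false]
      exact insert_erase hin
    · simp only [if_neg hin, mem_insert_self, if_true]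
      exact erase_insert hin

/-- a bad pair inside `D` -/
def Viol (t : Bool) (D : Finset (ℕ × ℕ)) (f : ℕ → ℕ) (a b : ℕ) : Prop :=
  a < b ∧ (b + 1, f a + 1) ∈ D ∧ (b + 1, f b + 1) ∈ D ∧
    (if t = true then f a < f b else f b < f a)

lemma avoid_iff {t : Bool} {D : Finset (ℕ × ℕ)} (hD : Lower D) {f : ℕ → ℕ} :
    (∀ p ∈ D, ¬ T t f p) ↔ ∀ a b, ¬ Viol t D f a b := by
  constructor
  · intro h a b hv
    obtain ⟨h1, h2, h3, h4⟩ := hv
    rcases le_total (f a) (f b) with h5 | h5
    · exact h _ h3 ⟨a, b, h1, by simp only; omega, by simp only; omega, by simp only; omega, h4⟩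
    · exact h _ h2 ⟨a, b, h1, by simp only; omega, by simp only; omega, by simp only; omega, h4⟩
  · rintro h p hp ⟨a, b, h1, h2, h3, h4, h5⟩
    refine h a b ⟨h1, hD p hp _ ?_, hD p hp _ ?_, h5⟩
    · exact ⟨by simp only; omega, by simp only; omega⟩
    · exact ⟨by simp only; omega, by simp only; omega⟩

lemma unique {t : Bool} {D : Finset (ℕ × ℕ)} (hD : Lower D) {σ ρ : Equiv.Perm (Fin N)}
    (hσ : Sym N (fn σ)) (hρ : Sym N (fn ρ)) (hs : Same N D (fn σ) (fn ρ))
    (h1 : ∀ a b, ¬ Viol t D (fn σ) a b) (h2 : ∀ a b, ¬ Viol t D (fn ρ) a b) : σ = ρ := by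
  have main : ∀ σ ρ : Equiv.Perm (Fin N), Same N D (fn σ) (fn ρ) →
      (∀ a b, ¬ Viol t D (fn σ) a b) → ∀ x < N, InD D (fn σ) x → fn σ x < fn ρ x →
      ∃ y < N, InD D (fn σ) y ∧ (if t = true then y < x else x < y) ∧ fn σ y ≠ fn ρ y := by
    intro σ ρ hs h1 x hx hin hlt
    obtain ⟨y, hy, hy1, hy2⟩ := hs.rows' x hx ((hs.cols x hx).1 hin)
    have hin' := (hs.cols x hx).1 hin
    have hne : y ≠ x := by rintro rfl; omega
    refine ⟨y, hy, hy1, ?_, ?_⟩
    · cases t
      · simp only [Bool.false_eq_true, if_false]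
        by_contra hc
        apply h1 y x
        refine ⟨by omega, ?_, hin, ?_⟩
        · rw [hy2]; exact hin'
        · simp only [Bool.false_eq_true, if_false]
          omega
      · simp only [if_true]
        by_contra hc
        apply h1 x y
        refine ⟨by omega, hD _ hy1 _ ?_, hy1, ?_⟩
        · exact ⟨le_refl _, by simp only; omega⟩
        · simp only [if_true]
          omega
    · rw [hy2]
      intro h
      exact hne (fn_inj ρ y hy x hx h.symm)
  have cols : ∀ x < N, InD D (fn σ) x → fn σ x = fn ρ x := by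
    have step : ∀ x < N, InD D (fn σ) x → fn σ x ≠ fn ρ x →
        ∃ y < N, InD D (fn σ) y ∧ (if t = true then y < x else x < y) ∧ fn σ y ≠ fn ρ y := by
      intro x hx hin hne
      rcases Nat.lt_or_gt_of_ne hne with h | h
      · exact main σ ρ hs h1 x hx hin h
      · obtain ⟨y, hy, hy1, hy2, hy3⟩ := main ρ σ hs.symm h2 x hx ((hs.cols x hx).1 hin) h
        exact ⟨y, hy, (hs.cols y hy).2 hy1, hy2, fun h => hy3 h.symm⟩
    cases t
    · have : ∀ d x, N - x ≤ d → x < N → InD D (fn σ) x → fn σ x = fn ρ x := by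
        intro d
        induction d with
        | zero => intro x h1 h2; omega
        | succ d ih =>
          intro x h3 hx hin
          by_contra hne
          obtain ⟨y, hy, hy1, hy2, hy3⟩ := step x hx hin hne
          simp only [Bool.false_eq_true, if_false] at hy2
          exact hy3 (ih y (by omega) hy hy1)
      exact fun x hx => this N x (by omega) hx
    · intro x
      induction x using Nat.strong_induction_on with
      | _ x ih =>
        intro hx hin
        by_contra hne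
        obtain ⟨y, hy, hy1, hy2, hy3⟩ := step x hx hin hne
        simp only [if_true] at hy2
        exact hy3 (ih y hy2 hy hy1)
  apply ext_of_fn
  intro x hx
  by_cases c1 : InD D (fn σ) x
  · exact cols x hx c1
  · by_cases c2 : InD D (fn σ) (N - 1 - x)
    · have h3 := cols _ (by omega) c2
      have h4 := hσ x hx
      have h5 := hρ x hx
      have h6 := fn_lt σ hx
      have h7 := fn_lt ρ hx
      omega
    · exact hs.out x hx c1 c2

/-- the double transposition -/
def dbl (N a b x : ℕ) : ℕ :=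
  if x = a then b else if x = b then a else if x = N - 1 - a then N - 1 - b
  else if x = N - 1 - b then N - 1 - a else x

open Classical in
lemma exists_av (t : Bool) {D : Finset (ℕ × ℕ)} (hD : Lower D) (hO : ¬ Ov N D)
    (hU : ∀ p ∈ D, p.1 ≤ N ∧ p.2 ≤ N)
    {σ : Equiv.Perm (Fin N)} (hσ : Sym N (fn σ)) :
    ∃ ρ : Equiv.Perm (Fin N), Sym N (fn ρ) ∧ Same N D (fn σ) (fn ρ) ∧
      ∀ a b, ¬ Viol t D (fn ρ) a b := by
  obtain ⟨ρ, hρ, hmax⟩ := Finset.exists_max_image
    (univ.filter fun ρ : Equiv.Perm (Fin N) => Sym N (fn ρ) ∧ Same N D (fn σ) (fn ρ))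
    (fun ρ => toLex (fun i => if t = true then ρ i else Fin.rev (ρ i)))
    ⟨σ, by simp [Same.refl, hσ]⟩
  simp only [mem_filter, mem_univ, true_and] at hρ hmax
  refine ⟨ρ, hρ.1, hρ.2, ?_⟩
  intro a b hv
  obtain ⟨hab, v1, v2, hlt⟩ := hv
  have hbN : b < N := by
    have := (hU _ v1).1
    simp only at this
    omega
  have haN : a < N := by omega
  set f := fn ρ with hf
  have hfa : f a < N := fn_lt ρ haN
  have hfb : f b < N := fn_lt ρ hbN
  have v3 : (a + 1, f a + 1) ∈ D := hD _ v1 _ ⟨by simp only; omega, le_refl _⟩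
  have v4 : (a + 1, f b + 1) ∈ D := hD _ v2 _ ⟨by simp only; omega, le_refl _⟩
  have hno : ∀ u v, u < N → v < N → (u + 1, v + 1) ∈ D → (N - 1 - u + 1, N - 1 - v + 1) ∉ D := by
    intro u v hu hv h1 h2
    exact hO ⟨_, h1, _, h2, by simp only; omega, by simp only; omega⟩
  have sa := hρ.1 a haN
  have sb := hρ.1 b hbN
  have n1 : a ≠ N - 1 - a := by
    intro h
    have h1 := hno a (f a) haN hfa v3
    rw [← sa, ← h] at h1
    exact h1 v3
  have n2 : b ≠ N - 1 - b := by
    intro h
    have h1 := hno b (f b) hbN hfb v2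
    rw [← sb, ← h] at h1
    exact h1 v2
  have n3 : a ≠ N - 1 - b := by
    intro h
    have h1 := hno b (f b) hbN hfb v2
    rw [← sb, ← h] at h1
    exact h1 v3
  have n4 : b ≠ N - 1 - a := by omega
  -- the new permutation
  have F1 : ∀ x < N, dbl N a b x < N := by
    intro x hx
    unfold dbl
    split_ifs <;> omega
  have F2 : ∀ x < N, dbl N a b (dbl N a b x) = x := by
    intro x hx
    unfold dbl
    split_ifs <;> omega
  have F3 : ∀ x < N, dbl N a b (N - 1 - x) = N - 1 - dbl N a b x := by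
    intro x hx
    unfold dbl
    split_ifs <;> omega
  have Fa : dbl N a b a = b := by unfold dbl; simp
  have Fb : dbl N a b b = a := by
    unfold dbl
    rw [if_neg (by omega), if_pos rfl]
  have Fa' : dbl N a b (N - 1 - a) = N - 1 - b := by rw [F3 a haN, Fa]
  have Fb' : dbl N a b (N - 1 - b) = N - 1 - a := by rw [F3 b hbN, Fb]
  have Fx : ∀ x, x ≠ a → x ≠ b → x ≠ N - 1 - a → x ≠ N - 1 - b → dbl N a b x = x := by
    intro x h1 h2 h3 h4
    unfold dbl
    rw [if_neg h1, if_neg h2, if_neg h3, if_neg h4]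
  let τ : Equiv.Perm (Fin N) := ofFn N (dbl N a b) F1 (fun i hi j hj h => by
    have := congrArg (dbl N a b) h
    rwa [F2 i hi, F2 j hj] at this)
  have hτ : ∀ x < N, fn (ρ * τ) x = f (dbl N a b x) := by
    intro x hx
    rw [fn_mul]
    simp only [τ]
    rw [fn_ofFn hx]
  have hsym : Sym N (fn (ρ * τ)) := by
    intro x hx
    rw [hτ _ (by omega), hτ x hx, F3 x hx]
    exact hρ.1 _ (F1 x hx)
  have hsame : Same N D f (fn (ρ * τ)) := by
    have hin : ∀ x < N, InD D (fn (ρ * τ)) x ↔ (x + 1, f (dbl N a b x) + 1) ∈ D := by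
      intro x hx
      unfold InD
      rw [hτ x hx]
    have ia : InD D f a := v3
    have ib : InD D f b := v2
    have ia' : ¬ InD D f (N - 1 - a) := by
      unfold InD
      rw [sa]
      exact hno a (f a) haN hfa v3
    have ib' : ¬ InD D f (N - 1 - b) := by
      unfold InD
      rw [sb]
      exact hno b (f b) hbN hfb v2
    refine ⟨?_, ?_, ?_, ?_⟩
    · intro x hx
      rw [hin x hx]
      by_cases c1 : x = a
      · subst c1
        rw [Fa]
        exact ⟨fun _ => v4, fun _ => v3⟩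
      by_cases c2 : x = b
      · subst c2
        rw [Fb]
        exact ⟨fun _ => v1, fun _ => v2⟩
      by_cases c3 : x = N - 1 - a
      · subst c3
        rw [Fa', sb]
        exact ⟨fun h => absurd h ia', fun h => absurd h (hno a (f b) haN hfb v4)⟩
      by_cases c4 : x = N - 1 - b
      · subst c4
        rw [Fb', sa]
        exact ⟨fun h => absurd h ib', fun h => absurd h (hno b (f a) hbN hfa v1)⟩
      rw [Fx x c1 c2 c3 c4]
      rfl
    · intro x hx hix
      refine ⟨dbl N a b x, F1 x hx, ?_, ?_⟩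
      · rw [hin _ (F1 x hx), F2 x hx]
        by_cases c1 : x = a
        · subst c1
          rw [Fa]
          exact v1
        by_cases c2 : x = b
        · subst c2
          rw [Fb]
          exact v4
        by_cases c3 : x = N - 1 - a
        · subst c3
          exact absurd hix ia'
        by_cases c4 : x = N - 1 - b
        · subst c4
          exact absurd hix ib'
        rw [Fx x c1 c2 c3 c4]
        exact hix
      · rw [hτ _ (F1 x hx), F2 x hx]
    · intro x hx hix
      rw [hin x hx] at hix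
      refine ⟨dbl N a b x, F1 x hx, ?_, ?_⟩
      · by_cases c1 : x = a
        · subst c1
          rw [Fa]
          exact v2
        by_cases c2 : x = b
        · subst c2
          rw [Fb]
          exact v3
        by_cases c3 : x = N - 1 - a
        · subst c3
          rw [Fa', sb] at hix
          exact absurd hix (hno a (f b) haN hfb v4)
        by_cases c4 : x = N - 1 - b
        · subst c4
          rw [Fb', sa] at hix
          exact absurd hix (hno b (f a) hbN hfa v1)
        rw [Fx x c1 c2 c3 c4] at hix ⊢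
        exact hix
      · rw [hτ x hx]
    · intro x hx h1 h2
      rw [hτ x hx]
      have c1 : x ≠ a := by rintro rfl; exact h1 ia
      have c2 : x ≠ b := by rintro rfl; exact h1 ib
      have c3 : x ≠ N - 1 - a := by
        intro h
        apply h2
        rw [show N - 1 - x = a by omega]
        exact ia
      have c4 : x ≠ N - 1 - b := by
        intro h
        apply h2
        rw [show N - 1 - x = b by omega]
        exact ib
      rw [Fx x c1 c2 c3 c4]
  have h1 := hmax _ ⟨hsym, hρ.2.trans hsame⟩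
  apply absurd h1 (not_le.2 _)
  have hx0 : ∃ x0, ∃ h0 : x0 < N, (∀ x < x0, dbl N a b x = x) ∧
      (if t = true then f x0 < f (dbl N a b x0) else f (dbl N a b x0) < f x0) := by
    rcases le_total a (N - 1 - b) with h | h
    · refine ⟨a, haN, fun x hx => Fx x (by omega) (by omega) (by omega) (by omega), ?_⟩
      rw [Fa]
      exact hlt
    · refine ⟨N - 1 - b, by omega, fun x hx => Fx x (by omega) (by omega) (by omega) (by omega), ?_⟩
      rw [Fb', sa, sb]
      cases t
      · simp only [Bool.false_eq_true, if_false] at hlt ⊢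
        omega
      · simp only [if_true] at hlt ⊢
        omega
  obtain ⟨x0, h0, hpre, hx0⟩ := hx0
  refine ⟨⟨x0, h0⟩, ?_, ?_⟩
  · intro k hk
    rw [Fin.lt_def] at hk
    simp only at hk
    have h2 := hτ k k.2
    rw [hpre k hk, hf, fn_fin, fn_fin] at h2
    have h3 : (ρ * τ) k = ρ k := Fin.ext h2
    show (if t = true then ρ k else Fin.rev (ρ k)) =
      (if t = true then (ρ * τ) k else Fin.rev ((ρ * τ) k))
    rw [h3]
  · have h2 := hτ x0 h0
    have h3 : fn (ρ * τ) x0 = ((ρ * τ) ⟨x0, h0⟩ : Fin N) := fn_fin _ ⟨x0, h0⟩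
    have h4 : f x0 = (ρ ⟨x0, h0⟩ : Fin N) := fn_fin _ ⟨x0, h0⟩
    rw [h3] at h2
    rw [← h2, h4] at hx0
    show (if t = true then ρ ⟨x0, h0⟩ else Fin.rev (ρ ⟨x0, h0⟩)) <
      (if t = true then (ρ * τ) ⟨x0, h0⟩ else Fin.rev ((ρ * τ) ⟨x0, h0⟩))
    cases t
    · simp only [Bool.false_eq_true, if_false] at hx0 ⊢
      rw [Fin.rev_lt_rev, Fin.lt_def]
      exact hx0
    · simp only [if_true] at hx0 ⊢
      rw [Fin.lt_def]
      exact hx0

open Classical in
/-- the symmetric permutations -/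
noncomputable def W (N : ℕ) : Finset (Equiv.Perm (Fin N)) := univ.filter fun σ => Sym N (fn σ)

lemma mem_W {σ : Equiv.Perm (Fin N)} : σ ∈ W N ↔ Sym N (fn σ) := by
  classical
  unfold W
  simp

open Classical in
lemma sum_exchange {D : Finset (ℕ × ℕ)} (hD : Lower D) (hO : ¬ Ov N D)
    (hU : ∀ p ∈ D, p.1 ≤ N ∧ p.2 ≤ N) (F : Equiv.Perm (Fin N) → ℤ)
    (hF : ∀ σ ρ, Sym N (fn σ) → Sym N (fn ρ) → Same N D (fn σ) (fn ρ) → F σ = F ρ) :
    ∑ σ ∈ (W N).filter (fun σ => ∀ p ∈ D, ¬ T true (fn σ) p), F σ =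
      ∑ σ ∈ (W N).filter (fun σ => ∀ p ∈ D, ¬ T false (fn σ) p), F σ := by
  have hex : ∀ t : Bool, ∀ σ : Equiv.Perm (Fin N), ∃ ρ : Equiv.Perm (Fin N), Sym N (fn σ) →
      Sym N (fn ρ) ∧ Same N D (fn σ) (fn ρ) ∧ ∀ a b, ¬ Viol t D (fn ρ) a b := by
    intro t σ
    by_cases h : Sym N (fn σ)
    · obtain ⟨ρ, hρ⟩ := exists_av t hD hO hU h
      exact ⟨ρ, fun _ => hρ⟩
    · exact ⟨σ, fun h' => absurd h' h⟩
  choose G hG using hex
  refine Finset.sum_bij' (fun σ _ => G false σ) (fun σ _ => G true σ) ?_ ?_ ?_ ?_ ?_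
  · intro σ hσ
    rw [mem_filter, mem_W, avoid_iff hD] at hσ ⊢
    exact ⟨(hG false σ hσ.1).1, (hG false σ hσ.1).2.2⟩
  · intro σ hσ
    rw [mem_filter, mem_W, avoid_iff hD] at hσ ⊢
    exact ⟨(hG true σ hσ.1).1, (hG true σ hσ.1).2.2⟩
  · intro σ hσ
    rw [mem_filter, mem_W, avoid_iff hD] at hσ
    obtain ⟨a1, a2, a3⟩ := hG false σ hσ.1
    obtain ⟨b1, b2, b3⟩ := hG true _ a1
    exact (unique hD hσ.1 b1 (a2.trans b2) hσ.2 b3).symm
  · intro σ hσ
    rw [mem_filter, mem_W, avoid_iff hD] at hσ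
    obtain ⟨a1, a2, a3⟩ := hG true σ hσ.1
    obtain ⟨b1, b2, b3⟩ := hG false _ a1
    exact (unique hD hσ.1 b1 (a2.trans b2) hσ.2 b3).symm
  · intro σ hσ
    rw [mem_filter, mem_W, avoid_iff hD] at hσ
    obtain ⟨a1, a2, a3⟩ := hG false σ hσ.1
    exact hF σ _ hσ.1 a1 a2

/-- all quadrants -/
def UU (N : ℕ) : Finset (ℕ × ℕ) := range (N + 1) ×ˢ range (N + 1)

open Classical in
/-- the quadrants without a bad pair -/
noncomputable def DD (N : ℕ) (t : Bool) (f : ℕ → ℕ) : Finset (ℕ × ℕ) :=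
  (UU N).filter fun p => ¬ T t f p

lemma mem_UU {p : ℕ × ℕ} : p ∈ UU N ↔ p.1 ≤ N ∧ p.2 ≤ N := by
  unfold UU
  rw [mem_product, mem_range, mem_range]
  omega

lemma mem_DD {t : Bool} {f : ℕ → ℕ} {p : ℕ × ℕ} : p ∈ DD N t f ↔ (p.1 ≤ N ∧ p.2 ≤ N) ∧ ¬ T t f p := by
  classical
  unfold DD
  rw [mem_filter, mem_UU]

lemma lower_DD {t : Bool} {f : ℕ → ℕ} : Lower (DD N t f) := by
  intro p hp q hq
  rw [mem_DD] at hp ⊢
  have h1 := hq.1
  have h2 := hq.2
  refine ⟨by omega, ?_⟩
  rintro ⟨a, b, c1, c2, c3, c4, c5⟩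
  exact hp.2 ⟨a, b, c1, by omega, by omega, by omega, c5⟩

lemma sub_DD {t : Bool} {f : ℕ → ℕ} {D : Finset (ℕ × ℕ)} (hU : ∀ p ∈ D, p.1 ≤ N ∧ p.2 ≤ N) :
    D ⊆ DD N t f ↔ ∀ p ∈ D, ¬ T t f p := by
  constructor
  · intro h p hp
    exact (mem_DD.1 (h hp)).2
  · intro h p hp
    exact mem_DD.2 ⟨hU p hp, h p hp⟩

open Classical in
theorem main_sum (hm : 0 < m) {α : Fin m → ℕ} (J : Equiv.Perm (Fin N) → ℤ)
    (hJ : ∀ D, Lower D → ¬ Ov N D → (∀ p ∈ D, p.1 ≤ N ∧ p.2 ≤ N) → ∀ σ ρ, Sym N (fn σ) →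
      Sym N (fn ρ) → Same N D (fn σ) (fn ρ) → J σ = J ρ) :
    ∑ σ ∈ W N, J σ * gg N α (fn σ) (DD N true (fn σ)) =
      ∑ σ ∈ W N, J σ * gg N α (fn σ) (DD N false (fn σ)) := by
  have key : ∀ t : Bool, ∑ σ ∈ W N, J σ * gg N α (fn σ) (DD N t (fn σ)) =
      ∑ D ∈ (UU N).powerset.filter (fun D => Lower D),
        ∑ σ ∈ (W N).filter (fun σ => ∀ p ∈ D, ¬ T t (fn σ) p), J σ * moeb (gg N α (fn σ)) D := by
    intro t
    have h1 : ∀ σ ∈ W N, J σ * gg N α (fn σ) (DD N t (fn σ)) =
        ∑ D ∈ (UU N).powerset.filter (fun D => Lower D),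
          if (∀ p ∈ D, ¬ T t (fn σ) p) then J σ * moeb (gg N α (fn σ)) D else 0 := by
      intro σ _
      rw [← moebius (gg N α (fn σ)) (lower_DD (N := N) (t := t) (f := fn σ)), Finset.mul_sum,
        ← Finset.sum_filter]
      apply Finset.sum_congr _ (fun _ _ => rfl)
      ext D
      simp only [mem_filter, mem_powerset]
      constructor
      · rintro ⟨h1, h2⟩
        have hU : D ⊆ UU N := fun p hp => mem_UU.2 (mem_DD.1 (h1 hp)).1
        exact ⟨⟨hU, h2⟩, fun p hp => (mem_DD.1 (h1 hp)).2⟩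
      · rintro ⟨⟨h1, h2⟩, h3⟩
        exact ⟨fun p hp => mem_DD.2 ⟨mem_UU.1 (h1 hp), h3 p hp⟩, h2⟩
    rw [Finset.sum_congr rfl h1, Finset.sum_comm]
    apply Finset.sum_congr rfl
    intro D _
    rw [← Finset.sum_filter]
  rw [key, key]
  apply Finset.sum_congr rfl
  intro D hD
  simp only [mem_filter, mem_powerset] at hD
  have hU : ∀ p ∈ D, p.1 ≤ N ∧ p.2 ≤ N := fun p hp => mem_UU.1 (hD.1 hp)
  by_cases hO : Ov N D
  · have : ∀ t : Bool, ∑ σ ∈ (W N).filter (fun σ => ∀ p ∈ D, ¬ T t (fn σ) p),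
        J σ * moeb (gg N α (fn σ)) D = 0 := by
      intro t
      apply Finset.sum_eq_zero
      intro σ hσ
      rw [mem_filter, mem_W] at hσ
      rw [moeb_support hm hD.2 hO, mul_zero]
    rw [this, this]
  · apply sum_exchange hD.2 hO hU
    intro σ ρ h1 h2 h3
    rw [hJ D hD.2 hO hU σ ρ h1 h2 h3, moeb_local hD.2 h1 h2 h3]

/-- the number of places `≥ n` with values `≥ n` -/
def pos (n : ℕ) (f : ℕ → ℕ) : ℕ := ((range (2 * n)).filter fun a => n ≤ a ∧ n ≤ f a).card

open Classical in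
lemma pos_inv {n : ℕ} {D : Finset (ℕ × ℕ)} (hO : ¬ Ov (2 * n) D) {σ ρ : Equiv.Perm (Fin (2 * n))}
    (h1 : Sym (2 * n) (fn σ)) (h2 : Sym (2 * n) (fn ρ)) (hs : Same (2 * n) D (fn σ) (fn ρ)) :
    pos n (fn σ) = pos n (fn ρ) := by
  have hnn : ∀ f : ℕ → ℕ, ∀ a, InD D f a → ¬ (n ≤ a ∧ n ≤ f a) := by
    rintro f a hin ⟨h3, h4⟩
    exact hO ⟨_, hin, _, hin, by simp only; omega, by simp only; omega⟩
  have hC : (range (2 * n)).filter (fun a => InD D (fn σ) a) =
      (range (2 * n)).filter (fun a => InD D (fn ρ) a) := by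
    apply Finset.filter_congr
    intro a ha
    exact hs.cols a (mem_range.1 ha)
  have split : ∀ τ : Equiv.Perm (Fin (2 * n)), Sym (2 * n) (fn τ) → pos n (fn τ) =
      (((range (2 * n)).filter (fun a => InD D (fn τ) a)).filter (fun a => a < n ∧ fn τ a < n)).card +
      ((range (2 * n)).filter fun a => ¬ InD D (fn τ) (2 * n - 1 - a) ∧ n ≤ a ∧ n ≤ fn τ a).card := by
    intro τ hτ
    unfold pos
    rw [← Finset.card_filter_add_card_filter_not (p := fun a => InD D (fn τ) (2 * n - 1 - a))]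
    congr 1
    · apply Finset.card_nbij' (fun a => 2 * n - 1 - a) (fun a => 2 * n - 1 - a)
      · intro a ha
        simp only [coe_filter, mem_filter, mem_range, Set.mem_ofPred_eq] at ha ⊢
        have h3 := hτ a ha.1.1
        have h4 := fn_lt τ ha.1.1
        exact ⟨⟨by omega, ha.2⟩, by omega, by omega⟩
      · intro a ha
        simp only [coe_filter, mem_filter, mem_range, Set.mem_ofPred_eq] at ha ⊢
        have h3 := hτ a ha.1.1
        have h4 := fn_lt τ ha.1.1
        refine ⟨⟨by omega, by omega, by omega⟩, ?_⟩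
        rw [show 2 * n - 1 - (2 * n - 1 - a) = a by omega]
        exact ha.1.2
      · intro a ha
        simp only [coe_filter, mem_filter, mem_range, Set.mem_ofPred_eq] at ha ⊢
        omega
      · intro a ha
        simp only [coe_filter, mem_filter, mem_range, Set.mem_ofPred_eq] at ha ⊢
        omega
    · congr 1
      ext a
      simp only [mem_filter, mem_range]
      tauto
  have low : ∀ τ : Equiv.Perm (Fin (2 * n)),
      (((range (2 * n)).filter (fun a => InD D (fn τ) a)).filter (fun a => a < n ∧ fn τ a < n)).card +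
      (((range (2 * n)).filter (fun a => InD D (fn τ) a)).filter (fun a => n ≤ a)).card =
      ((((range (2 * n)).filter (fun a => InD D (fn τ) a)).image (fn τ)).filter
        (fun v => v < n)).card := by
    intro τ
    rw [Finset.filter_image, Finset.card_image_of_injOn]
    · rw [← Finset.card_filter_add_card_filter_not
        (s := ((range (2 * n)).filter (fun a => InD D (fn τ) a)).filter (fun a => fn τ a < n))
        (p := fun a => a < n)]
      congr 1
      · congr 1
        ext a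
        simp only [mem_filter, mem_range]
        tauto
      · congr 1
        ext a
        simp only [mem_filter, mem_range]
        constructor
        · rintro ⟨⟨h3, h4⟩, h5⟩
          have := hnn (fn τ) a h4
          exact ⟨⟨⟨h3, h4⟩, by omega⟩, by omega⟩
        · rintro ⟨⟨⟨h3, h4⟩, h5⟩, h6⟩
          exact ⟨⟨h3, h4⟩, by omega⟩
    · intro x hx y hy hxy
      simp only [coe_filter, mem_filter, mem_range, Set.mem_ofPred_eq] at hx hy
      exact fn_inj τ x hx.1.1 y hy.1.1 hxy
  have himg : ((range (2 * n)).filter (fun a => InD D (fn σ) a)).image (fn σ) =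
      ((range (2 * n)).filter (fun a => InD D (fn ρ) a)).image (fn ρ) := by
    ext v
    simp only [mem_image, mem_filter, mem_range]
    constructor
    · rintro ⟨a, ⟨ha, hin⟩, rfl⟩
      obtain ⟨b, hb, hb1, hb2⟩ := hs.rows a ha hin
      exact ⟨b, ⟨hb, hb1⟩, hb2⟩
    · rintro ⟨a, ⟨ha, hin⟩, rfl⟩
      obtain ⟨b, hb, hb1, hb2⟩ := hs.rows' a ha hin
      exact ⟨b, ⟨hb, hb1⟩, hb2⟩
  have l1 := low σ
  have l2 := low ρ
  rw [himg, hC] at l1
  rw [split σ h1, split ρ h2]
  have h3 : ((range (2 * n)).filter fun a => ¬ InD D (fn σ) (2 * n - 1 - a) ∧ n ≤ a ∧ n ≤ fn σ a) =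
      (range (2 * n)).filter fun a => ¬ InD D (fn ρ) (2 * n - 1 - a) ∧ n ≤ a ∧ n ≤ fn ρ a := by
    apply Finset.filter_congr
    intro a ha
    rw [mem_range] at ha
    rw [hs.cols (2 * n - 1 - a) (by omega)]
    by_cases c1 : InD D (fn ρ) (2 * n - 1 - a)
    · simp [c1]
    · by_cases c2 : InD D (fn ρ) a
      · have := hnn _ _ c2
        have := hnn _ _ ((hs.cols a ha).2 c2)
        tauto
      · have h4 := hs.symm.out a ha c2 c1
        rw [h4]
  rw [h3, hC]
  omega

end Pool.Agent.R121.SignedEx
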