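import Mathlib

set_option autoImplicit false

/-! The structure of the permutations strongly avoiding 321 and 1342 (as functions on `ℕ`). -/

namespace Pool.Agent.R121.StrongRot

lemma strict_id (k : ℕ) (g : ℕ → ℕ) (hlt : ∀ i < k, g i < k)
    (hmono : ∀ i j, i < j → j < k → g i < g j) : ∀ i < k, g i = i := by
  have h1 : ∀ i < k, i ≤ g i := by
    intro i
    induction i with
    | zero => intro _; omega
    | succ i ih =>
      intro hi
      have := ih (by omega)
      have := hmono i (i + 1) (by omega) hi
      omega
  have h2 : ∀ d, ∀ i < k, d = k - 1 - i → g i ≤ i := by
    intro d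
    induction d with
    | zero =>
      intro i hi hd
      have := hlt i hi
      omega
    | succ d ih =>
      intro i hi hd
      have h3 := ih (i + 1) (by omega) (by omega)
      have h4 := hmono i (i + 1) (by omega) (by omega)
      omega
  intro i hi
  have := h1 i hi
  have := h2 _ i hi rfl
  omega

/-- the structure theorem -/
lemma main (n : ℕ) (hn : 2 ≤ n) (f : ℕ → ℕ) (hlt : ∀ i < n, f i < n)
    (hinj : ∀ i < n, ∀ j < n, f i = f j → i = j) (hsurj : ∀ w < n, ∃ i < n, f i = w)
    (A : ∀ a b c, a < b → b < c → c < n → ¬ (f c < f b ∧ f b < f a))
    (B : ∀ a b c d, a < b → b < c → c < d → d < n → ¬ (f a < f d ∧ f d < f b ∧ f b < f c))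
    (A2 : ∀ a b c, a < b → b < c → c < n → ¬ (f (f c) < f (f b) ∧ f (f b) < f (f a)))
    (B2 : ∀ a b c d, a < b → b < c → c < d → d < n →
      ¬ (f (f a) < f (f d) ∧ f (f d) < f (f b) ∧ f (f b) < f (f c))) :
    f (n - 1) = n - 1 ∨ (f (n - 1) = n - 2 ∧ f (n - 2) = n - 1) ∨
      ∃ c, 1 ≤ c ∧ c < n ∧ ∀ i < n, f i = if i < n - c then i + c else i - (n - c) := by
  classical
  obtain ⟨j, hj, hfj⟩ := hsurj (n - 1) (by omega)
  by_cases hjn : j = n - 1
  · left; rw [← hjn]; omega
  right
  have hex : ∃ t, ¬ (f (n - 1 - t) = n - 2 - t) := by
    refine ⟨n - 1 - j, ?_⟩
    have : n - 1 - (n - 1 - j) = j := by omega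
    rw [this, hfj]
    omega
  obtain ⟨t, ht, htmin⟩ : ∃ t, ¬ (f (n - 1 - t) = n - 2 - t) ∧
      ∀ i < t, f (n - 1 - i) = n - 2 - i := by
    refine ⟨Nat.find hex, Nat.find_spec hex, ?_⟩
    intro i hi
    have := Nat.find_min hex hi
    exact not_not.1 this
  have htj : t ≤ n - 1 - j := by
    by_contra h
    have h1 := htmin (n - 1 - j) (by omega)
    have : n - 1 - (n - 1 - j) = j := by omega
    rw [this, hfj] at h1
    omega
  obtain ⟨e, he⟩ : ∃ e, e = n - 1 - t := ⟨_, rfl⟩
  rw [← he] at ht
  have hE : ∀ i, e < i → i < n → f i = i - 1 := by
    intro i h1 h2
    have h3 := htmin (n - 1 - i) (by omega)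
    have h4 : n - 1 - (n - 1 - i) = i := by omega
    rw [h4] at h3
    omega
  rcases Nat.lt_or_ge j e with hje | hje
  · -- the main case
    right
    set v := f e with hv
    have hven : v < n := hlt e (by omega)
    have hv1 : v < e := by
      by_contra h
      rcases Nat.lt_or_ge v (n - 1) with h1 | h1
      · have h2 := hE (v + 1) (by omega) (by omega)
        have h3 := hinj e (by omega) (v + 1) (by omega) (by omega)
        omega
      · have := hinj e (by omega) j hj (by omega)
        omega
    have hv2 : v + 2 ≤ e := by
      have : v ≠ e - 1 := by
        intro h
        apply ht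
        omega
      omega
    have S0 : ∀ w, v < w → w < e → ∃ q, q < j ∧ f q = w := by
      intro w h1 h2
      obtain ⟨q, hq, hqw⟩ := hsurj w (by omega)
      refine ⟨q, ?_, hqw⟩
      by_contra h3
      have h4 : q ≠ j := by
        intro h; rw [h, hfj] at hqw; omega
      rcases Nat.lt_trichotomy q e with h5 | h5 | h5
      · exact A j q e (by omega) h5 (by omega) ⟨by omega, by omega⟩
      · rw [h5] at hqw; omega
      · have := hE q h5 hq
        omega
    have S1 : ∀ i, v + 1 + i < e → f i = v + 1 + i ∧ i < j := by
      intro i
      induction i using Nat.strong_induction_on with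
      | _ i ih =>
        intro hi
        obtain ⟨q, hq, hqw⟩ := S0 (v + 1 + i) (by omega) hi
        have hqi : q = i := by
          rcases Nat.lt_trichotomy q i with h1 | h1 | h1
          · have := (ih q h1 (by omega)).1
            omega
          · exact h1
          · exfalso
            have h2 : f i ≠ v := by
              intro h
              have := hinj i (by omega) e (by omega) (by omega)
              omega
            rcases Nat.lt_or_ge (f i) v with h3 | h3
            · exact B i q j e h1 hq hje (by omega) ⟨by omega, by omega, by omega⟩
            · have h4 : ¬ (v + 1 + i < f i) := by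
                intro h4
                exact A i q e h1 (by omega) (by omega) ⟨by omega, by omega⟩
              have h5 : f i ≠ v + 1 + i := by
                intro h
                have := hinj i (by omega) q (by omega) (by omega)
                omega
              have h6 := (ih (f i - (v + 1)) (by omega) (by omega)).1
              have := hinj i (by omega) (f i - (v + 1)) (by omega) (by omega)
              omega
        rw [hqi] at hqw hq
        exact ⟨hqw, hq⟩
    obtain ⟨P, hP⟩ : ∃ P, P = e - 1 - v := ⟨_, rfl⟩
    obtain ⟨k, hk⟩ : ∃ k, k = v + 1 := ⟨_, rfl⟩
    have hP1 : 1 ≤ P := by omega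
    have hek : e = P + k := by omega
    have hPj : P ≤ j := by
      have := (S1 (P - 1) (by omega)).2
      omega
    have F1 : ∀ i, i < P → f i = i + k := by
      intro i hi
      have := (S1 i (by omega)).1
      omega
    have S2 : ∀ i, P ≤ i → i ≤ e → i ≠ j → f i < k := by
      intro i h1 h2 h3
      by_contra h4
      have h5 := hlt i (by omega)
      rcases Nat.lt_or_ge (f i) e with h6 | h6
      · have h7 := (S1 (f i - k) (by omega)).1
        have := hinj i (by omega) (f i - k) (by omega) (by omega)
        omega
      · rcases Nat.lt_or_ge (f i) (n - 1) with h7 | h7
        · have h8 := hE (f i + 1) (by omega) (by omega)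
          have := hinj i (by omega) (f i + 1) (by omega) (by omega)
          omega
        · exact h3 (hinj i (by omega) j hj (by omega))
    have F0 : f 0 = k := by
      have := F1 0 (by omega)
      omega
    have S3 : ∀ i i', P ≤ i → i < i' → i' ≤ e → i ≠ j → i' ≠ j → f i < f i' := by
      intro i i' h1 h2 h3 h4 h5
      have h6 := S2 i h1 (by omega) h4
      have h7 := A 0 i i' (by omega) h2 (by omega)
      have h8 : f i ≠ f i' := by
        intro h
        have := hinj i (by omega) i' (by omega) h
        omega
      by_contra h9
      exact h7 ⟨by omega, by omega⟩
    have hg := strict_id k (fun i => if P + i < j then f (P + i) else f (P + i + 1)) (by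
        intro i hi
        split_ifs with h
        · exact S2 _ (by omega) (by omega) (by omega)
        · exact S2 _ (by omega) (by omega) (by omega)) (by
        intro i i' h1 h2
        split_ifs with h3 h4 h4
        · exact S3 _ _ (by omega) (by omega) (by omega) (by omega) (by omega)
        · exact S3 _ _ (by omega) (by omega) (by omega) (by omega) (by omega)
        · omega
        · exact S3 _ _ (by omega) (by omega) (by omega) (by omega) (by omega))
    have F2 : ∀ i, P ≤ i → i < j → f i = i - P := by
      intro i h1 h2
      have h3 := hg (i - P) (by omega)
      have h4 : P + (i - P) = i := by omega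
      rw [h4, if_pos h2] at h3
      exact h3
    have F4 : ∀ i, j < i → i ≤ e → f i = i - P - 1 := by
      intro i h1 h2
      have h3 := hg (i - P - 1) (by omega)
      have h4 : P + (i - P - 1) + 1 = i := by omega
      rw [if_neg (by omega), h4] at h3
      exact h3
    have hak : j - P < k := by omega
    by_cases ha : j = P
    · by_cases ht0 : e = n - 1
      · refine ⟨k, by omega, by omega, ?_⟩
        intro i hi
        split_ifs with h1
        · rcases Nat.lt_or_ge i P with h2 | h2
          · exact F1 i h2
          · have : i = j := by omega
            rw [this, hfj]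
            omega
        · rw [F4 i (by omega) (by omega)]
          omega
      · exfalso
        have e1 : f (f P) = n - 2 := by
          rw [← ha, hfj, hE (n - 1) (by omega) (by omega)]
          omega
        have e2 : f (f (P + 1)) = k := by
          rw [F4 (P + 1) (by omega) (by omega)]
          have : P + 1 - P - 1 = 0 := by omega
          rw [this, F0]
        have e3 : f (f (P + k + 1)) = k - 1 := by
          rw [hE (P + k + 1) (by omega) (by omega)]
          have : P + k + 1 - 1 = P + k := by omega
          rw [this, F4 (P + k) (by omega) (by omega)]
          omega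
        apply A2 P (P + 1) (P + k + 1) (by omega) (by omega) (by omega)
        rw [e1, e2, e3]
        exact ⟨by omega, by omega⟩
    · exfalso
      have e0 : f P = 0 := by
        rw [F2 P le_rfl (by omega)]
        omega
      have e1 : f (f P) = k := by rw [e0, F0]
      by_cases ht0 : e = n - 1
      · have e2 : f (f j) = k - 1 := by
          rw [hfj, F4 (n - 1) (by omega) (by omega)]
          omega
        by_cases h1 : k ≤ j
        · have e3 : f (f (j - k)) = n - 1 := by
            rw [F1 (j - k) (by omega)]
            have : j - k + k = j := by omega
            rw [this, hfj]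
          apply A2 (j - k) P j (by omega) (by omega) (by omega)
          rw [e1, e2, e3]
          exact ⟨by omega, by omega⟩
        · by_cases h2 : P ≤ j - P
          · have e3 : f (f (j + 1)) = j - P - P := by
              rw [F4 (j + 1) (by omega) (by omega)]
              have : j + 1 - P - 1 = j - P := by omega
              rw [this, F2 (j - P) (by omega) (by omega)]
            apply A2 P j (j + 1) (by omega) (by omega) (by omega)
            rw [e1, e2, e3]
            exact ⟨by omega, by omega⟩
          · have e3 : f (f (2 * P + 1)) = 0 := by
              rw [F4 (2 * P + 1) (by omega) (by omega)]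
              have : 2 * P + 1 - P - 1 = P := by omega
              rw [this, e0]
            apply A2 P j (2 * P + 1) (by omega) (by omega) (by omega)
            rw [e1, e2, e3]
            exact ⟨by omega, by omega⟩
      · have e2 : f (f j) = n - 2 := by
          rw [hfj, hE (n - 1) (by omega) (by omega)]
          omega
        have e4 : f (f (P + k + 1)) = k - 1 := by
          rw [hE (P + k + 1) (by omega) (by omega)]
          have : P + k + 1 - 1 = P + k := by omega
          rw [this, F4 (P + k) (by omega) (by omega)]
          omega
        by_cases h1 : k ≤ j
        · have e3 : f (f (j - k)) = n - 1 := by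
            rw [F1 (j - k) (by omega)]
            have : j - k + k = j := by omega
            rw [this, hfj]
          apply A2 (j - k) j (P + k + 1) (by omega) (by omega) (by omega)
          rw [e2, e3, e4]
          exact ⟨by omega, by omega⟩
        · have e3 : f (f 0) = k - P - 1 := by
            rw [F0, F4 k (by omega) (by omega)]
          apply B2 0 P j (P + k + 1) (by omega) (by omega) (by omega) (by omega)
          rw [e1, e2, e3, e4]
          exact ⟨by omega, by omega, by omega⟩
  · -- the block case
    have hej : e = j := by omega
    rw [hej] at hE
    by_cases h1 : j = n - 2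
    · left
      have h2 := hE (n - 1) (by omega) (by omega)
      exact ⟨by omega, by rw [← h1]; exact hfj⟩
    · right
      by_cases h0 : j = 0
      · refine ⟨n - 1, by omega, by omega, ?_⟩
        intro i hi
        split_ifs with h2
        · have : i = j := by omega
          rw [this, hfj]
          omega
        · rw [hE i (by omega) hi]
          omega
      · exfalso
        have hY : ∀ i, i < j → f i < j := by
          intro i hi
          by_contra h2
          have h3 := hlt i (by omega)
          rcases Nat.lt_or_ge (f i) (n - 1) with h4 | h4
          · have h5 := hE (f i + 1) (by omega) (by omega)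
            have := hinj i (by omega) (f i + 1) (by omega) (by omega)
            omega
          · have := hinj i (by omega) j hj (by omega)
            omega
        have e0 : f (f 0) < j := hY _ (hY 0 (by omega))
        have e1 : f (f j) = n - 2 := by
          rw [hfj, hE (n - 1) (by omega) (by omega)]
          omega
        have e2 : f (f (j + 1)) = n - 1 := by
          rw [hE (j + 1) (by omega) (by omega)]
          have : j + 1 - 1 = j := by omega
          rw [this, hfj]
        have e3 : f (f (j + 2)) = j := by
          rw [hE (j + 2) (by omega) (by omega)]
          have : j + 2 - 1 = j + 1 := by omega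
          rw [this, hE (j + 1) (by omega) (by omega)]
          omega
        apply B2 0 j (j + 1) (j + 2) (by omega) (by omega) (by omega) (by omega)
        rw [e1, e2, e3]
        exact ⟨by omega, by omega, by omega⟩

end Pool.Agent.R121.StrongRot
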